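import Pool.Agent.H9SA.One

/-!
The cut-off function.
-/

set_option autoImplicit false

open MeasureTheory Set Metric Filter Topology
open scoped ContDiff

namespace Pool.Agent.H9SA

open H459R3.NS Pool.Agent.W583.MD

/-- The shell. -/
def Sh (a : V) (s w : ℝ) : Set V := {x | |‖x - a‖ - s| ≤ w}

lemma Sh_closed (a : V) (s w : ℝ) : IsClosed (Sh a s w) :=
  isClosed_le (by fun_prop) continuous_const

lemma Sh_sub {a : V} {s w r : ℝ} (h : s + w ≤ r) : Sh a s w ⊆ closedBall a r := by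
  intro x hx
  have h4 : |‖x - a‖ - s| ≤ w := hx
  rw [mem_closedBall, dist_eq_norm]
  linarith [(abs_le.1 h4).2]

lemma Sh_compact (a : V) (s w : ℝ) : IsCompact (Sh a s w) :=
  (isCompact_closedBall a (s + w)).of_isClosed_subset (Sh_closed a s w) (Sh_sub le_rfl)

lemma pd_ev {f g : V → ℝ} {x : V} (h : f =ᶠ[𝓝 x] g) (j : Fin 3) : pd j f =ᶠ[𝓝 x] pd j g := by
  filter_upwards [h.fderiv (𝕜 := ℝ)] with y hy
  unfold pd
  rw [hy]

lemma pd_c (c : ℝ) (j : Fin 3) : pd j (fun _ : V => c) = fun _ => 0 := by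
  funext y
  unfold pd
  simp

lemma BR_zero {q μ c : ℝ} {χ : V → ℝ} {v : Fin 3 → V → ℝ} {x : V} (h : χ =ᶠ[𝓝 x] fun _ => c) :
    BR q μ χ v x = 0 := by
  have h1 : ∀ j, pd j χ x = 0 := fun j => by
    rw [(pd_ev h j).eq_of_nhds, pd_c]
  have h2 : (fun y => χ y ^ 2) =ᶠ[𝓝 x] fun _ => c ^ 2 := by
    filter_upwards [h] with y hy
    rw [hy]
  have h3 : ∀ j, pd j (fun y => χ y ^ 2) x = 0 := fun j => by
    rw [(pd_ev h2 j).eq_of_nhds, pd_c]
  have h4 : ∀ j, pd j (pd j (fun y => χ y ^ 2)) x = 0 := fun j => by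
    have h5 := pd_ev h2 j
    rw [pd_c] at h5
    rw [(pd_ev h5 j).eq_of_nhds, pd_c]
  unfold BR lap
  simp [h1, h3, h4]

lemma BR_bd {χ : V → ℝ} (hχ : ContDiff ℝ ∞ χ) (hχc : HasCompactSupport χ) {q μ : ℝ} (hq : 0 ≤ q)
    (hμ : 0 < μ) {M : ℝ} (hM : 0 ≤ M) : ∃ C : ℝ, 0 ≤ C ∧ ∀ (v : Fin 3 → V → ℝ) (x : V),
      (∀ j, |v j x| ≤ M) → |BR q μ χ v x| ≤ C := by
  have h2s : ContDiff ℝ ∞ fun y => χ y ^ 2 := hχ.pow 2
  have hc2 : HasCompactSupport fun y => χ y ^ 2 := by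
    have e : (fun y => χ y ^ 2) = fun y => χ y * χ y := by funext y; ring
    rw [e]
    exact hχc.mul_right
  have a1 : ∀ j, ∃ C, ∀ x, ‖pd j (pd j fun y => χ y ^ 2) x‖ ≤ C := fun j =>
    (sm_pd (sm_pd h2s j) j).continuous.bounded_above_of_compact_support (cs_pd (cs_pd hc2 j) j)
  have a2 : ∀ j, ∃ C, ∀ x, ‖pd j (fun y => χ y ^ 2) x‖ ≤ C := fun j =>
    (sm_pd h2s j).continuous.bounded_above_of_compact_support (cs_pd hc2 j)
  have a3 : ∀ j, ∃ C, ∀ x, ‖pd j χ x‖ ≤ C := fun j =>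
    (sm_pd hχ j).continuous.bounded_above_of_compact_support (cs_pd hχc j)
  choose C1 hC1 using a1
  choose C2 hC2 using a2
  choose C3 hC3 using a3
  have p1 : ∀ j, 0 ≤ C1 j := fun j => (norm_nonneg _).trans (hC1 j 0)
  have p2 : ∀ j, 0 ≤ C2 j := fun j => (norm_nonneg _).trans (hC2 j 0)
  have p3 : ∀ j, 0 ≤ C3 j := fun j => (norm_nonneg _).trans (hC3 j 0)
  refine ⟨∑ j, C1 j + ∑ j, M * C2 j + q / μ * ∑ j, C3 j ^ 2, ?_, fun v x hv => ?_⟩
  · have s1 : 0 ≤ ∑ j, C1 j := Finset.sum_nonneg fun j _ => p1 j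
    have s2 : 0 ≤ ∑ j, M * C2 j := Finset.sum_nonneg fun j _ => mul_nonneg hM (p2 j)
    have s3 : 0 ≤ ∑ j, C3 j ^ 2 := Finset.sum_nonneg fun j _ => sq_nonneg _
    positivity
  · unfold BR lap
    refine (abs_add_le _ _).trans (add_le_add ((abs_add_le _ _).trans (add_le_add ?_ ?_)) ?_)
    · exact (Finset.abs_sum_le_sum_abs _ _).trans (Finset.sum_le_sum fun j _ => hC1 j x)
    · refine (Finset.abs_sum_le_sum_abs _ _).trans (Finset.sum_le_sum fun j _ => ?_)
      rw [abs_mul]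
      exact mul_le_mul (hv j) (hC2 j x) (abs_nonneg _) hM
    · have s3 : 0 ≤ ∑ j, pd j χ x ^ 2 := Finset.sum_nonneg fun j _ => sq_nonneg _
      rw [abs_of_nonneg (by positivity)]
      refine mul_le_mul_of_nonneg_left (Finset.sum_le_sum fun j _ => ?_) (by positivity)
      rw [← sq_abs]
      exact pow_le_pow_left₀ (abs_nonneg _) (hC3 j x) 2

lemma cont_BR {χ : V → ℝ} (hχ : ContDiff ℝ ∞ χ) {v : Fin 3 → V → ℝ}
    (hv : ∀ i, ContDiff ℝ ∞ (v i)) (q μ : ℝ) : Continuous (BR q μ χ v) := by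
  have h2s : ContDiff ℝ ∞ fun y => χ y ^ 2 := hχ.pow 2
  have hlapQ : Continuous (lap fun y => χ y ^ 2) := by
    unfold lap
    exact continuous_finsetSum _ fun j _ => (sm_pd (sm_pd h2s j) j).continuous
  unfold BR
  exact (hlapQ.add (continuous_finsetSum _ fun j _ => (hv j).continuous.mul
    (sm_pd h2s j).continuous)).add (continuous_const.mul (continuous_finsetSum _ fun j _ =>
      (sm_pd hχ j).continuous.pow 2))

/-- The cut-off function. -/
lemma cut (a : V) {s w : ℝ} (hw : 0 < w) (hsw : w < s) : ∃ χ : V → ℝ, ContDiff ℝ ∞ χ ∧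
    HasCompactSupport χ ∧ (∀ x, 0 ≤ χ x) ∧ (∀ x, χ x ≤ 1) ∧
    (∀ x ∈ closedBall a (s - w), χ x = 1) ∧ (∀ x, χ x ≠ 0 → ‖x - a‖ < s + w) ∧
    ∀ (q μ : ℝ) (v : Fin 3 → V → ℝ) (x : V), x ∉ Sh a s w → BR q μ χ v x = 0 := by
  let b : ContDiffBump a := ⟨s - w, s + w, by linarith, by linarith⟩
  have hsupp : Function.support b = ball a (s + w) := b.support_eq
  refine ⟨b, b.contDiff, b.hasCompactSupport, fun x => b.nonneg, fun x => b.le_one,
    fun x hx => b.one_of_mem_closedBall hx, fun x hx => ?_, fun q μ v x hx => ?_⟩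
  · have h : x ∈ Function.support b := hx
    rw [hsupp, mem_ball, dist_eq_norm] at h
    exact h
  · have h1 : ¬ |‖x - a‖ - s| ≤ w := hx
    rw [not_le, lt_abs] at h1
    rcases h1 with h1 | h1
    · refine BR_zero (c := 0) ?_
      have h2 : ∀ᶠ y in 𝓝 x, s + w < ‖y - a‖ := by
        have hc : ContinuousAt (fun y => ‖y - a‖) x := by fun_prop
        exact hc.eventually (lt_mem_nhds (by linarith))
      filter_upwards [h2] with y hy
      by_contra hcon
      have h : y ∈ Function.support b := hcon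
      rw [hsupp, mem_ball, dist_eq_norm] at h
      linarith
    · refine BR_zero (c := 1) ?_
      have h2 : ∀ᶠ y in 𝓝 x, ‖y - a‖ < s - w := by
        have hc : ContinuousAt (fun y => ‖y - a‖) x := by fun_prop
        exact hc.eventually (gt_mem_nhds (by linarith))
      filter_upwards [h2] with y hy
      exact b.one_of_mem_closedBall (by rw [mem_closedBall, dist_eq_norm]; exact hy.le)

end Pool.Agent.H9SA
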