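import Pool.Agent.H9SA.Pw
import Pool.Agent.H9SA.Cut
import Pool.Agent.W268.NS.Defs
import Pool.Agent.Q2.CL.LEL

/-!
The local estimate of the gradient by the vorticity and the velocity.
-/

set_option autoImplicit false

open MeasureTheory Set Metric Filter Topology
open scoped ContDiff

namespace Pool.Agent.H9SA

open H459R3.NS Pool.Agent.W583.MD Pool.Agent.W268.NS W221.NS

lemma dc_alg (v : V → V) (x : V) : gsq v x = ∑ i, vort v x i ^ 2
    + ∑ i, ∑ j, pd i (fun y => v y j) x * pd j (fun y => v y i) x := by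
  unfold gsq vort gradM
  simp only [Fin.sum_univ_three, Matrix.of_apply, Matrix.cons_val_zero, Matrix.cons_val_one,
    Matrix.cons_val]
  ring

variable {v : V → V} {φ : V → ℝ}

/-- The field. -/
noncomputable def DH (φ : V → ℝ) (v : V → V) (i : Fin 3) (x : V) : ℝ :=
  φ x ^ 2 * ∑ j, v x j * pd j (fun y => v y i) x

lemma sm_adv (hv : ∀ i, ContDiff ℝ ∞ fun y => v y i) (i : Fin 3) :
    ContDiff ℝ ∞ fun x => ∑ j, v x j * pd j (fun y => v y i) x :=
  ContDiff.sum fun j _ => (hv j).mul (sm_pd (hv i) j)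

lemma div_DH (hv : ∀ i, ContDiff ℝ ∞ fun y => v y i) (hφ : ContDiff ℝ ∞ φ) (x : V) :
    ∑ i, pd i (DH φ v i) x = (∑ i, pd i (fun y => φ y ^ 2) x * ∑ j, v x j * pd j (fun y => v y i) x)
      + φ x ^ 2 * (∑ i, ∑ j, pd i (fun y => v y j) x * pd j (fun y => v y i) x)
      + φ x ^ 2 * ∑ j, v x j * pd j (fun y => ∑ i, pd i (fun y => v y i) y) x := by
  have h2 : ContDiff ℝ ∞ fun y => φ y ^ 2 := hφ.pow 2
  have e1 : ∀ i, pd i (DH φ v i) x =
      φ x ^ 2 * (∑ j, (v x j * pd i (pd j (fun y => v y i)) x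
        + pd i (fun y => v y j) x * pd j (fun y => v y i) x))
      + pd i (fun y => φ y ^ 2) x * ∑ j, v x j * pd j (fun y => v y i) x := by
    intro i
    unfold DH
    rw [pd_mul' h2 (sm_adv hv i), pd_sum1 fun j => (hv j).mul (sm_pd (hv i) j)]
    congr 2
    exact Finset.sum_congr rfl fun j _ => pd_mul' (hv j) (sm_pd (hv i) j) i x
  have e2 : ∀ j, pd j (fun y => ∑ i, pd i (fun y => v y i) y) x =
      ∑ i, pd i (pd j (fun y => v y i)) x := by
    intro j
    rw [pd_sum1 fun i => sm_pd (hv i) i]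
    exact Finset.sum_congr rfl fun i _ => Pool.Agent.Q2.CL.pd_comm_s (hv i) _ _ x
  simp only [e1, e2]
  simp only [Fin.sum_univ_three]
  ring

/-- The pointwise inequality. -/
lemma dc_pt (hv : ∀ i, ContDiff ℝ ∞ fun y => v y i) (hφ : ContDiff ℝ ∞ φ)
    (hdiv : ∀ x, φ x ≠ 0 → ∑ i, pd i (fun y => v y i) x = 0) (x : V) :
    φ x ^ 2 * gsq v x ≤ 2 * (φ x ^ 2 * ∑ i, vort v x i ^ 2) + 2 * ∑ i, pd i (DH φ v i) x
      + 4 * ((∑ i, pd i φ x ^ 2) * nsq v x) := by
  have h3 : φ x ^ 2 * ∑ j, v x j * pd j (fun y => ∑ i, pd i (fun y => v y i) y) x = 0 := by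
    by_cases hx : φ x = 0
    · rw [hx]
      ring
    · have h4 : (fun y => ∑ i, pd i (fun y => v y i) y) =ᶠ[𝓝 x] fun _ => 0 := by
        have h5 : ∀ᶠ y in 𝓝 x, φ y ≠ 0 := hφ.continuous.continuousAt.eventually_ne hx
        filter_upwards [h5] with y hy
        exact hdiv y hy
      have h5 : ∀ j, pd j (fun y => ∑ i, pd i (fun y => v y i) y) x = 0 := fun j => by
        rw [(pd_ev h4 j).eq_of_nhds, pd_c]
      simp [h5]
  have hd := div_DH hv hφ x
  rw [h3, add_zero] at hd
  have ha := dc_alg v x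
  obtain ⟨S, hS⟩ : ∃ S, S = ∑ i, ∑ j, pd i (fun y => v y j) x * pd j (fun y => v y i) x := ⟨_, rfl⟩
  rw [← hS] at hd ha
  -- Young
  have hy : -(∑ i, pd i (fun y => φ y ^ 2) x * ∑ j, v x j * pd j (fun y => v y i) x) ≤
      1 / 2 * (φ x ^ 2 * gsq v x) + 2 * ((∑ i, pd i φ x ^ 2) * nsq v x) := by
    have h6 : ∀ i j, -(2 * φ x * pd i φ x * (v x j * pd j (fun y => v y i) x)) ≤
        1 / 2 * (φ x ^ 2 * pd j (fun y => v y i) x ^ 2) + 2 * (pd i φ x ^ 2 * v x j ^ 2) := by
      intro i j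
      nlinarith [sq_nonneg (φ x * pd j (fun y => v y i) x + 2 * (pd i φ x * v x j))]
    have h7 : ∀ i, pd i (fun y => φ y ^ 2) x = 2 * φ x * pd i φ x := fun i => pd_sq hφ i x
    simp only [h7]
    unfold gsq nsq
    have h8 := Finset.sum_le_sum fun i (_ : i ∈ Finset.univ) =>
      Finset.sum_le_sum fun j (_ : j ∈ Finset.univ) => h6 i j
    simp only [Fin.sum_univ_three] at h8 ⊢
    linarith
  have h9 := hd
  nlinarith

/-- **The local estimate of the gradient.** -/
theorem dc (hv : ∀ i, ContDiff ℝ ∞ fun y => v y i) (hφ : ContDiff ℝ ∞ φ)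
    (hφc : HasCompactSupport φ)
    (hdiv : ∀ x, φ x ≠ 0 → ∑ i, pd i (fun y => v y i) x = 0) :
    ∫ x, φ x ^ 2 * gsq v x ≤ 2 * (∫ x, φ x ^ 2 * ∑ i, vort v x i ^ 2)
      + 4 * ∫ x, (∑ i, pd i φ x ^ 2) * nsq v x := by
  have hc2 : HasCompactSupport fun y => φ y ^ 2 := by
    have e : (fun y => φ y ^ 2) = fun y => φ y * φ y := by funext y; ring
    rw [e]
    exact hφc.mul_right
  have h2 : Continuous fun y => φ y ^ 2 := hφ.continuous.pow 2
  have hg : Continuous (gsq v) := by
    unfold gsq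
    exact continuous_finsetSum _ fun i _ => continuous_finsetSum _ fun j _ =>
      (sm_pd (hv i) j).continuous.pow 2
  have hn : Continuous (nsq v) := by
    unfold nsq
    exact continuous_finsetSum _ fun i _ => (hv i).continuous.pow 2
  have hvo : Continuous fun x => ∑ i, vort v x i ^ 2 := by
    have e : (fun x => ∑ i, vort v x i ^ 2) = fun x => gsq v x
        - ∑ i, ∑ j, pd i (fun y => v y j) x * pd j (fun y => v y i) x := by
      funext x
      rw [dc_alg]
      ring
    rw [e]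
    exact hg.sub (continuous_finsetSum _ fun i _ => continuous_finsetSum _ fun j _ =>
      (sm_pd (hv j) i).continuous.mul (sm_pd (hv i) j).continuous)
  have hZ : Z (fun x => ∑ i, pd i (DH φ v i) x) := by
    refine Z.sum fun i => Z_pd ?_ ?_ i
    · exact (hφ.pow 2).mul (sm_adv hv i)
    · exact hc2.mul_right
  have hp : Continuous fun x => ∑ i, pd i φ x ^ 2 :=
    continuous_finsetSum _ fun i _ => (sm_pd hφ i).continuous.pow 2
  have hpc : HasCompactSupport fun x => ∑ i, pd i φ x ^ 2 := by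
    have h0 : ∀ i, HasCompactSupport fun x => pd i φ x ^ 2 := fun i => by
      have e : (fun x => pd i φ x ^ 2) = fun x => pd i φ x * pd i φ x := by funext y; ring
      rw [e]
      exact (cs_pd hφc i).mul_right
    have e : (fun x => ∑ i, pd i φ x ^ 2) = (fun x => pd 0 φ x ^ 2) + (fun x => pd 1 φ x ^ 2)
        + fun x => pd 2 φ x ^ 2 := by
      funext x
      rw [Fin.sum_univ_three]
      rfl
    rw [e]
    exact ((h0 0).add (h0 1)).add (h0 2)
  have i1 : Integrable fun x => φ x ^ 2 * gsq v x := int_cs (h2.mul hg) hc2.mul_right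
  have i2 : Integrable fun x => φ x ^ 2 * ∑ i, vort v x i ^ 2 := int_cs (h2.mul hvo) hc2.mul_right
  have i3 : Integrable fun x => (∑ i, pd i φ x ^ 2) * nsq v x := int_cs (hp.mul hn) hpc.mul_right
  have key := integral_mono i1 (((i2.const_mul 2).add (hZ.1.const_mul 2)).add (i3.const_mul 4))
    fun x => dc_pt hv hφ hdiv x
  refine key.trans (le_of_eq ?_)
  have e1 := integral_add ((i2.const_mul 2).add (hZ.1.const_mul 2)) (i3.const_mul 4)
  have e2 := integral_add (i2.const_mul 2) (hZ.1.const_mul 2)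
  simp only [Pi.add_apply] at e1 e2 ⊢
  rw [e1, e2, integral_const_mul, integral_const_mul, integral_const_mul, hZ.2, mul_zero, add_zero]

end Pool.Agent.H9SA
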