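import Pool.Agent.H9SA.Pw

/-!
The cut-off of the rate: the logarithm `L` of the weight.
-/

set_option autoImplicit false

open MeasureTheory Set Metric Filter Topology
open scoped ContDiff

namespace Pool.Agent.H9SA

open H459R3.NS Pool.Agent.W583.MD

/-- The cut-off functions. -/
structure Cut1 (lam : ℝ → ℝ) : Prop where
  sm : ContDiff ℝ ∞ lam
  nn : ∀ s, 0 ≤ lam s
  le : ∀ s, lam s ≤ 1
  lo : ∀ s ≤ 1, lam s = 0
  hi : ∀ s, 2 ≤ s → lam s = 1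
  ode : ∀ s, 0 < s → lam s * (1 - lam s) ≤ 2 * s * deriv lam s

/-- `λ(s) / s` -/
noncomputable def gl (lam : ℝ → ℝ) (s : ℝ) : ℝ := lam s / s

/-- The logarithm of the weight. -/
noncomputable def Ll (lam : ℝ → ℝ) (s : ℝ) : ℝ := ∫ σ in (0 : ℝ)..s, gl lam σ

variable {lam : ℝ → ℝ}

lemma gl_zero (h : Cut1 lam) {s : ℝ} (hs : s ≤ 1) : gl lam s = 0 := by
  unfold gl
  rw [h.lo s hs, zero_div]

lemma gl_ev (h : Cut1 lam) {s : ℝ} (hs : s < 1) : gl lam =ᶠ[𝓝 s] fun _ => 0 := by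
  filter_upwards [Iio_mem_nhds hs] with t ht using gl_zero h (le_of_lt ht)

lemma sm_gl (h : Cut1 lam) : ContDiff ℝ ∞ (gl lam) := by
  rw [contDiff_iff_contDiffAt]
  intro s
  by_cases hs : s = 0
  · exact contDiffAt_const.congr_of_eventuallyEq (gl_ev h (by rw [hs]; norm_num))
  · exact h.sm.contDiffAt.div contDiffAt_id hs

lemma gl_nn (h : Cut1 lam) {s : ℝ} (hs : 0 ≤ s) : 0 ≤ gl lam s := div_nonneg (h.nn s) hs

lemma hd_Ll (h : Cut1 lam) (s : ℝ) : HasDerivAt (Ll lam) (gl lam s) s :=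
  ((sm_gl h).continuous.integral_hasStrictDerivAt 0 s).hasDerivAt

lemma sm_Ll (h : Cut1 lam) : ContDiff ℝ ∞ (Ll lam) := by
  rw [contDiff_infty_iff_deriv]
  refine ⟨fun s => (hd_Ll h s).differentiableAt, ?_⟩
  have e : deriv (Ll lam) = gl lam := funext fun s => (hd_Ll h s).deriv
  rw [e]
  exact sm_gl h

lemma ii_gl (h : Cut1 lam) (a b : ℝ) : IntervalIntegrable (gl lam) volume a b :=
  (sm_gl h).continuous.intervalIntegrable a b

lemma Ll_nn (h : Cut1 lam) {s : ℝ} (hs : 0 ≤ s) : 0 ≤ Ll lam s :=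
  intervalIntegral.integral_nonneg hs fun σ hσ => gl_nn h hσ.1

lemma Ll_one (h : Cut1 lam) : Ll lam 1 = 0 := by
  unfold Ll
  have : ∫ σ in (0 : ℝ)..1, gl lam σ = ∫ σ in (0 : ℝ)..1, (0 : ℝ) :=
    intervalIntegral.integral_congr fun σ hσ => by
      rw [uIcc_of_le zero_le_one] at hσ
      exact gl_zero h hσ.2
  rw [this]
  simp

lemma Ll_le_one (h : Cut1 lam) {s : ℝ} (hs : 0 ≤ s) (hs1 : s ≤ 1) : Ll lam s = 0 := by
  unfold Ll
  have : ∫ σ in (0 : ℝ)..s, gl lam σ = ∫ σ in (0 : ℝ)..s, (0 : ℝ) :=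
    intervalIntegral.integral_congr fun σ hσ => by
      rw [uIcc_of_le hs] at hσ
      exact gl_zero h (hσ.2.trans hs1)
  rw [this]
  simp

/-- The upper bound. -/
lemma exp_Ll_le (h : Cut1 lam) {s : ℝ} (hs : 0 ≤ s) : Real.exp (Ll lam s) ≤ 1 + s := by
  rcases le_total s 1 with h1 | h1
  · rw [Ll_le_one h hs h1, Real.exp_zero]
    linarith
  · have e : Ll lam s = ∫ σ in (1 : ℝ)..s, gl lam σ := by
      have := intervalIntegral.integral_add_adjacent_intervals (ii_gl h 0 1) (ii_gl h 1 s)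
      have h2 : Ll lam s = Ll lam 1 + ∫ σ in (1 : ℝ)..s, gl lam σ := this.symm
      rw [h2, Ll_one h, zero_add]
    have hi : IntervalIntegrable (fun σ : ℝ => 1 / σ) volume 1 s := by
      refine ContinuousOn.intervalIntegrable_of_Icc h1 ?_
      exact continuousOn_const.div continuousOn_id fun σ hσ =>
        (lt_of_lt_of_le one_pos hσ.1).ne'
    have h3 : ∫ σ in (1 : ℝ)..s, gl lam σ ≤ ∫ σ in (1 : ℝ)..s, 1 / σ := by
      refine intervalIntegral.integral_mono_on h1 (ii_gl h 1 s) hi fun σ hσ => ?_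
      exact div_le_div_of_nonneg_right (h.le σ) (by linarith [hσ.1])
    rw [integral_one_div_of_pos one_pos (by linarith), div_one] at h3
    calc Real.exp (Ll lam s) ≤ Real.exp (Real.log s) := Real.exp_le_exp.2 (by rw [e]; exact h3)
      _ = s := Real.exp_log (by linarith)
      _ ≤ 1 + s := by linarith

/-- The lower bound. -/
lemma le_exp_Ll (h : Cut1 lam) {s : ℝ} (hs : 0 ≤ s) : (1 + s) / 3 ≤ Real.exp (Ll lam s) := by
  rcases le_total s 2 with h1 | h1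
  · have := Real.one_le_exp (Ll_nn h hs)
    linarith
  · have e : Ll lam s = Ll lam 2 + ∫ σ in (2 : ℝ)..s, gl lam σ :=
      (intervalIntegral.integral_add_adjacent_intervals (ii_gl h 0 2) (ii_gl h 2 s)).symm
    have h3 : ∫ σ in (2 : ℝ)..s, gl lam σ = ∫ σ in (2 : ℝ)..s, 1 / σ := by
      refine intervalIntegral.integral_congr fun σ hσ => ?_
      rw [uIcc_of_le h1] at hσ
      unfold gl
      rw [h.hi σ hσ.1]
    rw [integral_one_div_of_pos two_pos (by linarith)] at h3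
    have h4 : Real.exp (Real.log (s / 2)) ≤ Real.exp (Ll lam s) := by
      refine Real.exp_le_exp.2 ?_
      rw [e, h3]
      linarith [Ll_nn h (show (0 : ℝ) ≤ 2 by norm_num)]
    rw [Real.exp_log (by linarith)] at h4
    linarith

/-- The inequality for the second derivative. -/
lemma gl_ode (h : Cut1 lam) {s : ℝ} (hs : 0 ≤ s) :
    0 ≤ deriv (gl lam) s + 1 / 2 * gl lam s ^ 2 + 1 / 2 * (lam s / s ^ 2) := by
  rcases hs.eq_or_lt with h0 | h0
  · rw [← h0]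
    have e1 : deriv (gl lam) 0 = 0 := by
      rw [(gl_ev h (s := 0) one_pos).deriv_eq]
      simp
    rw [e1, gl_zero h (show (0 : ℝ) ≤ 1 by norm_num)]
    simp
  · have hd : HasDerivAt (gl lam) ((deriv lam s * s - lam s * 1) / s ^ 2) s :=
      ((h.sm.differentiable (by norm_cast)) s).hasDerivAt.div (hasDerivAt_id s) h0.ne'
    rw [hd.deriv]
    unfold gl
    have h1 := h.ode s h0
    have e : (deriv lam s * s - lam s * 1) / s ^ 2 + 1 / 2 * (lam s / s) ^ 2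
        + 1 / 2 * (lam s / s ^ 2) = (2 * s * deriv lam s - lam s * (1 - lam s)) / (2 * s ^ 2) := by
      field_simp
      ring
    rw [e]
    exact div_nonneg (by linarith) (by positivity)

/-! ### The weight -/

/-- `exp (m L (s))` -/
noncomputable def Ph2 (lam : ℝ → ℝ) (m s : ℝ) : ℝ := Real.exp (m * Ll lam s)

lemma sm_Ph2 (h : Cut1 lam) (m : ℝ) : ContDiff ℝ ∞ (Ph2 lam m) :=
  (contDiff_const.mul (sm_Ll h)).exp

lemma hd_Ph2 (h : Cut1 lam) (m s : ℝ) : HasDerivAt (Ph2 lam m) (m * gl lam s * Ph2 lam m s) s := by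
  refine (((hd_Ll h s).const_mul m).exp).congr_deriv ?_
  unfold Ph2
  ring

lemma d_Ph2 (h : Cut1 lam) (m : ℝ) : deriv (Ph2 lam m) = fun s => m * gl lam s * Ph2 lam m s :=
  funext fun s => (hd_Ph2 h m s).deriv

lemma dd_Ph2 (h : Cut1 lam) (m s : ℝ) : deriv (fun s => m * gl lam s * Ph2 lam m s) s =
    m * deriv (gl lam) s * Ph2 lam m s + m ^ 2 * gl lam s ^ 2 * Ph2 lam m s := by
  have h1 : HasDerivAt (gl lam) (deriv (gl lam) s) s :=
    (((sm_gl h).differentiable (by norm_cast)) s).hasDerivAt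
  have h2 := ((h1.const_mul m).mul (hd_Ph2 h m s)).deriv
  have e : (fun s => m * gl lam s * Ph2 lam m s) = (fun s => m * gl lam s) * Ph2 lam m := rfl
  rw [e, h2]
  ring

lemma pd_comp1 {φ : ℝ → ℝ} (hφ : ContDiff ℝ ∞ φ) {f : V → ℝ} (hf : ContDiff ℝ ∞ f) (j : Fin 3)
    (x : V) : pd j (fun y => φ (f y)) x = deriv φ (f x) * pd j f x := by
  unfold pd
  have h1 : HasDerivAt φ (deriv φ (f x)) (f x) :=
    ((hφ.differentiable (by norm_cast)) (f x)).hasDerivAt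
  have h := h1.comp_hasFDerivAt x (dif hf x).hasFDerivAt
  have e : fderiv ℝ (fun y => φ (f y)) x = deriv φ (f x) • fderiv ℝ f x := h.fderiv
  rw [e]
  rfl

lemma pdd_comp1 {φ : ℝ → ℝ} (hφ : ContDiff ℝ ∞ φ) {f : V → ℝ} (hf : ContDiff ℝ ∞ f) (j : Fin 3)
    (x : V) : pd j (pd j (fun y => φ (f y))) x =
      deriv (deriv φ) (f x) * pd j f x ^ 2 + deriv φ (f x) * pd j (pd j f) x := by
  have e : pd j (fun y => φ (f y)) = fun y => deriv φ (f y) * pd j f y :=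
    funext fun y => pd_comp1 hφ hf j y
  have hφ' : ContDiff ℝ ∞ (deriv φ) := (contDiff_infty_iff_deriv.1 hφ).2
  have hc : ContDiff ℝ ∞ (fun y => deriv φ (f y)) := hφ'.comp hf
  rw [e, pd_mul' hc (sm_pd hf j)]
  have e2 : pd j (fun y => deriv φ (f y)) x = deriv (deriv φ) (f x) * pd j f x :=
    pd_comp1 hφ' hf j x
  show deriv φ (f x) * pd j (pd j f) x + pd j (fun y => deriv φ (f y)) x * pd j f x = _
  rw [e2]
  ring

variable {w v : Fin 3 → V → ℝ}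

/-- The rate. -/
noncomputable def Rl (lam : ℝ → ℝ) (w v : Fin 3 → V → ℝ) (x : V) : ℝ :=
  lam (Wq 0 w x) / Wq 0 w x ^ 2 * (Wq 0 w x * (∑ i, ∑ k, w k x * pd k (v i) x * w i x)
    - (Wq 0 w x * (∑ j, ∑ i, pd j (w i) x ^ 2) - ∑ j, (∑ i, w i x * pd j (w i) x) ^ 2))

/-- The differential inequality of the weight. -/
lemma Ph2_ineq (h : Cut1 lam) (hw : ∀ i, ContDiff ℝ ∞ (w i)) {m : ℝ} (hm : 1 / 2 < m) {x : V}
    {τ : Fin 3 → ℝ} {ρ : ℝ} (hρ : 0 ≤ ρ)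
    (hτ : ∀ i, τ i = lap (w i) x - ∑ k, v k x * pd k (w i) x + ∑ k, w k x * pd k (v i) x
      - ρ * w i x) :
    m * gl lam (Wq 0 w x) * Ph2 lam m (Wq 0 w x) * (∑ i, 2 * w i x * τ i)
      + ∑ j, v j x * pd j (fun y => Ph2 lam m (Wq 0 w y)) x ≤
      lap (fun y => Ph2 lam m (Wq 0 w y)) x
      - (m - 1 / 2) / m * (∑ j, pd j (fun y => Ph2 lam m (Wq 0 w y)) x ^ 2)
        / Ph2 lam m (Wq 0 w x)
      + 2 * m * Rl lam w v x * Ph2 lam m (Wq 0 w x) := by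
  have hm0 : 0 < m := by linarith
  have hs : ContDiff ℝ ∞ (Wq 0 w) := sm_Wq hw
  obtain ⟨s, hsd⟩ : ∃ s, s = Wq 0 w x := ⟨_, rfl⟩
  have hs0 : 0 ≤ s := by
    rw [hsd]
    unfold Wq
    have : 0 ≤ ∑ i, w i x ^ 2 := Finset.sum_nonneg fun i _ => sq_nonneg _
    positivity
  obtain ⟨Φ, hΦ⟩ : ∃ Φ, Φ = Ph2 lam m s := ⟨_, rfl⟩
  have hΦ0 : 0 < Φ := by rw [hΦ]; exact Real.exp_pos _
  have p1 : ∀ j, pd j (fun y => Ph2 lam m (Wq 0 w y)) x = m * gl lam s * Φ * pd j (Wq 0 w) x := by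
    intro j
    rw [pd_comp1 (sm_Ph2 h m) hs, d_Ph2 h, hΦ, hsd]
  have p2 : ∀ j, pd j (pd j (fun y => Ph2 lam m (Wq 0 w y))) x =
      (m * deriv (gl lam) s * Φ + m ^ 2 * gl lam s ^ 2 * Φ) * pd j (Wq 0 w) x ^ 2
        + m * gl lam s * Φ * pd j (pd j (Wq 0 w)) x := by
    intro j
    rw [pdd_comp1 (sm_Ph2 h m) hs, d_Ph2 h, dd_Ph2 h, hΦ, hsd]
  obtain ⟨g, hg⟩ : ∃ g, g = gl lam s := ⟨_, rfl⟩
  obtain ⟨g', hg'⟩ : ∃ g', g' = deriv (gl lam) s := ⟨_, rfl⟩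
  obtain ⟨κ, hκ⟩ : ∃ κ, κ = lam s / s ^ 2 := ⟨_, rfl⟩
  have hgκ : g = κ * s := by
    rw [hg, hκ]
    unfold gl
    rcases hs0.eq_or_lt with h0 | h0
    · rw [← h0]
      simp
    · field_simp
  have hg0 : 0 ≤ g := by rw [hg]; exact gl_nn h hs0
  have hode := gl_ode h hs0
  rw [← hg, ← hg', ← hκ] at hode
  obtain ⟨P, hP⟩ : ∃ P, P = ∑ j, pd j (Wq 0 w) x ^ 2 := ⟨_, rfl⟩
  have hP0 : 0 ≤ P := by rw [hP]; exact Finset.sum_nonneg fun _ _ => sq_nonneg _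
  obtain ⟨N2, hN2⟩ : ∃ N2, N2 = ∑ j, ∑ i, pd j (w i) x ^ 2 := ⟨_, rfl⟩
  obtain ⟨S, hS⟩ : ∃ S, S = ∑ i, ∑ k, w k x * pd k (v i) x * w i x := ⟨_, rfl⟩
  have hP4 : ∑ j, (∑ i, w i x * pd j (w i) x) ^ 2 = P / 4 := by
    rw [hP, Finset.sum_div]
    refine Finset.sum_congr rfl fun j _ => ?_
    rw [pd_Wq hw]
    simp only [Fin.sum_univ_three]
    ring
  have hl : lap (Wq 0 w) x = (∑ i, 2 * w i x * lap (w i) x) + 2 * N2 := by
    rw [hN2]
    unfold lap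
    simp only [pdd_Wq hw, Fin.sum_univ_three]
    ring
  have ht : ∑ i, 2 * w i x * τ i + ∑ j, v j x * pd j (Wq 0 w) x =
      lap (Wq 0 w) x - 2 * N2 + 2 * S - 2 * ρ * s := by
    have hs2 : s = ∑ i, w i x ^ 2 := by
      rw [hsd]
      unfold Wq
      simp
    rw [hl, hS, hs2]
    simp only [hτ, pd_Wq hw, Fin.sum_univ_three]
    ring
  have e1 : ∑ j, v j x * pd j (fun y => Ph2 lam m (Wq 0 w y)) x =
      m * g * Φ * ∑ j, v j x * pd j (Wq 0 w) x := by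
    rw [Finset.mul_sum]
    refine Finset.sum_congr rfl fun j _ => ?_
    rw [p1, hg]
    ring
  have e2 : lap (fun y => Ph2 lam m (Wq 0 w y)) x = (m * g' * Φ + m ^ 2 * g ^ 2 * Φ) * P
      + m * g * Φ * lap (Wq 0 w) x := by
    rw [hP]
    unfold lap
    rw [Finset.mul_sum, Finset.mul_sum, ← Finset.sum_add_distrib]
    refine Finset.sum_congr rfl fun j _ => ?_
    rw [p2, hg, hg']
  have e3 : ∑ j, pd j (fun y => Ph2 lam m (Wq 0 w y)) x ^ 2 = (m * g * Φ) ^ 2 * P := by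
    rw [hP, Finset.mul_sum]
    refine Finset.sum_congr rfl fun j _ => ?_
    rw [p1, hg]
    ring
  have e4 : Rl lam w v x = g * S - g * N2 + κ * P / 4 := by
    unfold Rl
    rw [hP4, ← hN2, ← hS, ← hsd, ← hκ, hgκ]
    ring
  rw [e1, e2, e3, e4, ← hsd, ← hΦ, ← hg]
  have e5 : (m - 1 / 2) / m * ((m * g * Φ) ^ 2 * P) / Φ = m * (m - 1 / 2) * g ^ 2 * Φ * P := by
    field_simp
  rw [e5]
  have key : m * g * Φ * (∑ i, 2 * w i x * τ i) + m * g * Φ * ∑ j, v j x * pd j (Wq 0 w) x =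
      m * g * Φ * (lap (Wq 0 w) x - 2 * N2 + 2 * S - 2 * ρ * s) := by
    rw [← ht]
    ring
  rw [key]
  have h1 : 0 ≤ m * Φ * (P * (g' + 1 / 2 * g ^ 2 + 1 / 2 * κ)) := by positivity
  have h2 : 0 ≤ m * Φ * (2 * g * ρ * s) := by positivity
  nlinarith

end Pool.Agent.H9SA
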