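import Pool.Agent.H9SA.RegF

/-!
Boundedness near a point from the growth of the dissipation in time.
-/

set_option autoImplicit false

open MeasureTheory Set Metric Filter Topology
open scoped ContDiff ENNReal

namespace Pool.Agent.H9SA

open H459R3.NS W221.NS Pool.Agent.Q85.CL

/-- The time integral of a negative power. -/
lemma int_pow {β : ℝ} (hβ1 : β < 1) (A B t : ℝ) {h : ℝ} (hh : 0 < h) :
    IntegrableOn (fun τ => A * (t - τ) ^ (-β) + B) (Ioo (t - h) t) ∧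
      ∫ τ in Ioo (t - h) t, (A * (t - τ) ^ (-β) + B) = A * (h ^ (1 - β) / (1 - β)) + B * h := by
  have hle : t - h ≤ t := by linarith
  have i1 : IntervalIntegrable (fun x : ℝ => x ^ (-β)) volume h 0 :=
    intervalIntegral.intervalIntegrable_rpow' (by linarith)
  have i2 : IntervalIntegrable (fun τ : ℝ => (t - τ) ^ (-β)) volume (t - h) t := by
    have := i1.comp_sub_left t
    simpa using this
  have i3 : IntervalIntegrable (fun τ : ℝ => A * (t - τ) ^ (-β) + B) volume (t - h) t :=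
    (i2.const_mul A).add intervalIntegrable_const
  constructor
  · rw [← intervalIntegrable_iff_integrableOn_Ioo_of_le hle]
    exact i3
  · rw [← integral_Ioc_eq_integral_Ioo, ← intervalIntegral.integral_of_le hle,
      intervalIntegral.integral_add (i2.const_mul A) intervalIntegrable_const,
      intervalIntegral.integral_const_mul, intervalIntegral.integral_const]
    have e1 : ∫ τ in (t - h)..t, (t - τ) ^ (-β) = h ^ (1 - β) / (1 - β) := by
      rw [intervalIntegral.integral_comp_sub_left (fun x : ℝ => x ^ (-β)) t, sub_self,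
        sub_sub_cancel, integral_rpow (Or.inl (by linarith))]
      have e2 : -β + 1 = 1 - β := by ring
      rw [e2, Real.zero_rpow (by linarith), sub_zero]
    rw [e1]
    simp only [smul_eq_mul]
    ring

theorem reg_of_pow {T E : ℝ} {O : Set V} {u : ℝ → V → V} {p : ℝ → V → ℝ} (hT : 0 < T)
    (hu : LSl T E O u p) {T₁ r₀ ρ A B θ β : ℝ} {a : V} (hT₁ : 0 ≤ T₁) (hT₁T : T₁ < T)
    (hr₀ : 0 < r₀) (hρ : 0 < ρ) (hO : closedBall a ρ ⊆ O) (hA : 0 ≤ A) (hB : 0 ≤ B) (hβ0 : 0 ≤ β)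
    (hβ1 : β < 1) (hθ : 0 ≤ θ) (hθβ : 1 < θ + 2 - 2 * β)
    (h : ∀ τ ∈ Ioo T₁ T, ∀ r ∈ Ioc 0 r₀, ∀ x ∈ closedBall a (5 / 8 * ρ),
      B2 x (8 * r) (u τ) ≤ r ^ θ * (A * (T - τ) ^ (-β) + B)) :
    ∃ B δ : ℝ, 0 < δ ∧ ∀ t ∈ Ioo (T - δ) T, 0 < t → ∀ x ∈ closedBall a (ρ / 2), ‖u t x‖ ≤ B := by
  obtain ⟨ε, hε, hreg⟩ := regF
  -- the radius
  have ht1 : Tendsto (fun r : ℝ => A / (1 - β) * r ^ (θ + 1 - 2 * β) + B * r ^ (θ + 1))
      (𝓝[>] 0) (𝓝 0) := by
    have h1 : Tendsto (fun r : ℝ => r ^ (θ + 1 - 2 * β)) (𝓝 0) (𝓝 0) := by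
      have := (Real.continuousAt_rpow_const 0 (θ + 1 - 2 * β) (Or.inr (by linarith))).tendsto
      rwa [Real.zero_rpow (by linarith)] at this
    have h2 : Tendsto (fun r : ℝ => r ^ (θ + 1)) (𝓝 0) (𝓝 0) := by
      have := (Real.continuousAt_rpow_const 0 (θ + 1) (Or.inr (by linarith))).tendsto
      rwa [Real.zero_rpow (by linarith)] at this
    have h3 := ((h1.const_mul (A / (1 - β))).add (h2.const_mul B)).mono_left
      (nhdsWithin_le_nhds (s := Ioi 0))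
    simpa using h3
  obtain ⟨r₂, hr₂, hsm⟩ : ∃ r₂ : ℝ, 0 < r₂ ∧ ∀ r ∈ Ioc 0 r₂,
      A / (1 - β) * r ^ (θ + 1 - 2 * β) + B * r ^ (θ + 1) < ε := by
    have := ht1.eventually (gt_mem_nhds hε)
    rw [eventually_nhdsWithin_iff, Metric.eventually_nhds_iff] at this
    obtain ⟨e, he, H⟩ := this
    refine ⟨e / 2, by linarith, fun r hr => H ?_ hr.1⟩
    rw [Real.dist_eq, sub_zero, abs_of_pos hr.1]
    linarith [hr.2]
  refine hreg T E O u p hT hu T₁ (min r₀ r₂) ρ a hT₁ hT₁T (lt_min hr₀ hr₂) hρ hO ?_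
  intro t ht r hr hr2
  have hr0 : 0 < r := hr.1
  have hrr : 0 < r ^ 2 := by positivity
  obtain ⟨j1, j2⟩ := int_pow hβ1 (r ^ θ * A) (r ^ θ * B) t hrr
  refine ⟨fun τ => r ^ θ * A * (t - τ) ^ (-β) + r ^ θ * B, j1, fun τ hτ x hx => ?_, ?_⟩
  · refine (h τ ⟨by linarith [hτ.1], hτ.2.trans ht.2⟩ r ⟨hr0, hr.2.trans (min_le_left _ _)⟩ x
      hx).trans ?_
    have h1 : (T - τ) ^ (-β) ≤ (t - τ) ^ (-β) :=
      Real.rpow_le_rpow_of_nonpos (by linarith [hτ.2]) (by linarith [ht.2]) (by linarith)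
    have h2 : 0 ≤ r ^ θ := Real.rpow_nonneg hr0.le _
    have h3 := mul_le_mul_of_nonneg_left h1 (mul_nonneg h2 hA)
    simp only
    linarith
  · rw [j2]
    have h1 := hsm r ⟨hr0, hr.2.trans (min_le_right _ _)⟩
    have e1 : (r ^ 2) ^ (1 - β) = r ^ (2 - 2 * β) := by
      rw [← Real.rpow_natCast r 2, ← Real.rpow_mul hr0.le]
      congr 1
      push_cast
      ring
    have e2 : r ^ θ * r ^ (2 - 2 * β) = r ^ (θ + 1 - 2 * β) * r := by
      rw [← Real.rpow_add hr0, ← Real.rpow_add_one hr0.ne']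
      congr 1
      ring
    have e3 : r ^ θ * r ^ 2 = r ^ (θ + 1) * r := by
      rw [Real.rpow_add_one hr0.ne']
      ring
    rw [e1]
    calc r ^ θ * A * (r ^ (2 - 2 * β) / (1 - β)) + r ^ θ * B * r ^ 2
        = A / (1 - β) * (r ^ θ * r ^ (2 - 2 * β)) + B * (r ^ θ * r ^ 2) := by ring
      _ = (A / (1 - β) * r ^ (θ + 1 - 2 * β) + B * r ^ (θ + 1)) * r := by
          rw [e2, e3]
          ring
      _ ≤ ε * r := mul_le_mul_of_nonneg_right h1.le hr0.le

end Pool.Agent.H9SA
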