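import Pool.Agent.Q95.CL.Cut
import Pool.Agent.Q26.CC.Fin
import Pool.Agent.TH305.DR.Fix2
import Pool.Agent.Q85.CL.Defs

/-!
The bound of the gradient at a point with small dissipation, if the velocity is bounded near the
point.
-/

set_option autoImplicit false

open MeasureTheory Set Metric Filter Topology
open scoped ContDiff ENNReal

namespace Pool.Agent.H9SA

open H459R3.NS W221.NS W221.NS.B Pool.Agent.Q85.CL Pool.Agent.Q95.CL
open Pool.Agent.TH305.LW (Pth ms pth_exists pth_speed2 mass_cont)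
open Pool.Agent.TH305.DR (SS SV SS_one)
open Pool.Agent.Q26.CC (speed_along lsol3_of)
open W382.ME (cd_slice gsq_cont int_ball)

/-- The sum of the squares of the second derivatives. -/
noncomputable def gs2 (v : V → V) (x : V) : ℝ :=
  ∑ i, ∑ j, ∑ k, pd k (pd j (fun y => v y i)) x ^ 2

lemma pd_evG {f g : V → ℝ} {x : V} (h : f =ᶠ[𝓝 x] g) (j : Fin 3) : pd j f =ᶠ[𝓝 x] pd j g := by
  filter_upwards [h.fderiv (𝕜 := ℝ)] with y hy
  unfold pd
  rw [hy]

lemma gs2_cutG {G : Set V} {ζ : V → ℝ} {u : ℝ → V → V} (hG : IsOpen G) (h1 : ∀ x ∈ G, ζ x = 1)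
    (t : ℝ) {x : V} (hx : x ∈ G) : gs2 (fun y => ζ y • u t y) x = gs2 (u t) x := by
  unfold gs2
  refine Finset.sum_congr rfl fun i _ => Finset.sum_congr rfl fun j _ =>
    Finset.sum_congr rfl fun k _ => ?_
  have h2 : (fun y => (ζ y • u t y) i) =ᶠ[𝓝 x] fun y => u t y i := by
    filter_upwards [cut_ev hG h1 t hx] with z hz
    rw [hz]
  rw [(pd_evG (pd_evG h2 j) k).eq_of_nhds]

theorem gradF : ∃ ε : ℝ, 0 < ε ∧ ∀ (T E : ℝ) (O : Set V) (u : ℝ → V → V) (p : ℝ → V → ℝ),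
    0 < T → LSl T E O u p → ∀ (b : V) (ρ₀ D : ℝ), 0 < ρ₀ → closedBall b ρ₀ ⊆ O → 0 < D →
    D ≤ ρ₀ / 8 → ∃ r₀ : ℝ, 0 < r₀ ∧ ∀ r ∈ Ioc 0 r₀, ∃ Q : ℝ, ∀ (t M : ℝ) (y : V),
      2 * r ^ 2 < t → t < T → ‖y - b‖ ≤ ρ₀ / 2 → M * r ≤ 1 →
      (∀ τ ∈ Ioo (t - r ^ 2) t, ∀ z ∈ closedBall y D, ‖mol r u τ z‖ ≤ M) →
      ∫ τ in Ioo (t - r ^ 2) t, B2 y (9 * r) (u τ) ≤ ε * r → gsq (u t) y ≤ Q ∧ gs2 (u t) y ≤ Q := by
  obtain ⟨ε, hε, C, CA, hC, hCA, hfix⟩ := Pool.Agent.TH305.DR.fixP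
  obtain ⟨CM, hCM, hmol, -⟩ := Pool.Agent.TH305.LW.gen_all
  refine ⟨ε, hε, ?_⟩
  intro T E O u p hT hu b ρ₀ D hρ₀ hO hD hDρ
  have hE0 : 0 ≤ E := (integral_nonneg fun y => Finset.sum_nonneg fun _ _ => sq_nonneg _).trans
    (hu.en (T / 2) ⟨by linarith, by linarith⟩)
  obtain ⟨ζ, κ, hκ, hζ, hζ1, hL⟩ := cut_exists hu hE0 hρ₀ hO
  have hL3 := lsol3_of hL
  obtain ⟨E', hE'd⟩ : ∃ E', E' = √E := ⟨_, rfl⟩
  have hE' : 0 ≤ E' := by rw [hE'd]; exact Real.sqrt_nonneg _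
  rw [← hE'd] at hL hL3
  have hζo : ∀ x ∈ ball b (7 / 8 * ρ₀), ζ x = 1 := fun x hx => hζ1 x (ball_subset_closedBall hx)
  have hG : IsOpen (ball b (7 / 8 * ρ₀)) := isOpen_ball
  -- the radius
  obtain ⟨A, hA⟩ : ∃ A, A = 2 * CM * E' + 1 := ⟨_, rfl⟩
  have hA0 : 0 < A := by rw [hA]; positivity
  refine ⟨min ((D / A) ^ 2) (min (D / 2) (ρ₀ / 80)), by positivity, fun r hr =>
    ⟨max (C 1 * (1 + CA * r⁻¹ * E' ^ 2) / r ^ 4) (C 2 * (1 + CA * r⁻¹ * E' ^ 2) / r ^ 6), fun t M y ht htT hy hMr hvel hdis => ?_⟩⟩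
  have hr0 : 0 < r := hr.1
  have hr1 : r ≤ (D / A) ^ 2 := hr.2.trans (min_le_left _ _)
  have hr2 : r ≤ D / 2 := hr.2.trans ((min_le_right _ _).trans (min_le_left _ _))
  have hr3 : r ≤ ρ₀ / 80 := hr.2.trans ((min_le_right _ _).trans (min_le_right _ _))
  have hrr : 0 < r ^ 2 := by positivity
  have hsq : 2 * CM * E' * √r ≤ D := by
    have h1 : √r ≤ D / A := by
      rw [← Real.sqrt_sq (show 0 ≤ D / A by positivity)]
      exact Real.sqrt_le_sqrt hr1
    calc 2 * CM * E' * √r ≤ A * (D / A) := by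
          refine mul_le_mul (by rw [hA]; linarith) h1 (Real.sqrt_nonneg _) hA0.le
      _ = D := by field_simp
  -- the path
  obtain ⟨X, hX, hXt⟩ := pth_exists hmol hκ hE' hL3 hr0 (α := t - r ^ 2) (by linarith)
    (by linarith) htT y
  have hrough : ∀ τ ∈ Ioo (t - r ^ 2) t, X τ ∈ closedBall y D := by
    intro τ hτ
    have h1 := pth_speed2 hCM hmol hκ hE' hL3 hr0 le_rfl (by linarith) htT hX (a := τ) (b := t)
      hτ.1 hτ.2.le le_rfl (by linarith [hτ.1])
    rw [hXt] at h1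
    rw [mem_closedBall, dist_comm, dist_eq_norm]
    exact h1.trans hsq
  have hyb : ∀ z ∈ closedBall y D, ball z (8 * r) ⊆ ball b (7 / 8 * ρ₀) := by
    intro z hz
    apply ball_subset_ball'
    rw [mem_closedBall] at hz
    have h2 : dist y b ≤ ρ₀ / 2 := by rwa [dist_eq_norm]
    have := dist_triangle z y b
    linarith
  have hnear : ∀ τ ∈ Ioo (t - r ^ 2) t, ‖y - X τ‖ ≤ r := by
    intro τ hτ
    have h1 := speed_along hX (a := τ) (b := t) (M := M) hτ.1 hτ.2.le le_rfl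
      (fun τ' hτ' => by
        have hτm : τ' ∈ Ioo (t - r ^ 2) t := ⟨hτ.1.trans_le hτ'.1, hτ'.2⟩
        rw [mol_cutG hζo τ' hr0 ((ball_subset_ball (by linarith)).trans (hyb _ (hrough τ' hτm)))]
        exact hvel τ' hτm _ (hrough τ' hτm))
    rw [hXt] at h1
    have hM0 : 0 ≤ M := (norm_nonneg _).trans (hvel τ hτ y (mem_closedBall_self hD.le))
    have h2 : M * (t - τ) ≤ M * r ^ 2 := mul_le_mul_of_nonneg_left (by linarith [hτ.1]) hM0
    have h3 : M * r ^ 2 ≤ 1 * r := by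
      have := mul_le_mul_of_nonneg_right hMr hr0.le
      calc M * r ^ 2 = M * r * r := by ring
        _ ≤ _ := this
    linarith
  -- the dissipation
  have hXc : ContinuousOn (fun τ => X τ) (Icc (t - r ^ 2) t) := hX.cont
  have hcd : ∀ τ ∈ Ioo (t - r ^ 2) t, Continuous (gsq (u τ)) := fun τ hτ =>
    gsq_cont (cd_slice hu.smooth_u ⟨by linarith [hτ.1], hτ.2.trans htT⟩)
  have hms : ms (fun t x => ζ x • u t x) r X (t - r ^ 2) t ≤ ε := by
    unfold ms
    rw [intervalIntegral.integral_of_le (by linarith), integral_Ioc_eq_integral_Ioo,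
      inv_mul_le_iff₀ hr0]
    have i1 : IntegrableOn (fun τ => B2 (X τ) (8 * r) (fun x => ζ x • u τ x))
        (Ioo (t - r ^ 2) t) :=
      ((mass_cont (u := fun t x => ζ x • u t x) hL.smooth_u (by linarith) htT (by linarith) hXc
        (8 * r)).integrableOn_compact isCompact_Icc).mono_set Ioo_subset_Icc_self
    have i2 : IntegrableOn (fun τ => B2 y (9 * r) (u τ)) (Ioo (t - r ^ 2) t) :=
      ((mass_cont hu.smooth_u (by linarith) htT (by linarith) (Y := fun _ => y)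
        continuousOn_const (9 * r)).integrableOn_compact isCompact_Icc).mono_set
        Ioo_subset_Icc_self
    have h1 := setIntegral_mono_on i1 i2 measurableSet_Ioo fun τ hτ => by
      have h2 : B2 (X τ) (8 * r) (fun x => ζ x • u τ x) = B2 (X τ) (8 * r) (u τ) := by
        unfold B2
        exact setIntegral_congr_fun measurableSet_ball fun z hz =>
          gsq_cutG hG hζo τ (hyb _ (hrough τ hτ) hz)
      rw [h2]
      unfold B2
      have hs : ball (X τ) (8 * r) ⊆ ball y (9 * r) := by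
        apply ball_subset_ball'
        rw [dist_comm, dist_eq_norm]
        linarith [hnear τ hτ]
      exact setIntegral_mono_set (int_ball (hcd τ hτ) _ _) (Eventually.of_forall fun z =>
        Finset.sum_nonneg fun _ _ => Finset.sum_nonneg fun _ _ => sq_nonneg _) hs.eventuallyLE
    linarith
  have hfinn := fun n => (hfix T κ E' (ball b (7 / 8 * ρ₀)) (fun t x => ζ x • u t x)
    (fun t x => ζ x * p t x) hL r t hr0 (by linarith) htT X hX
    (fun τ hτ => hyb _ (hrough τ hτ)) hms 0 (mem_ball_self (by norm_num)) n).2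
  have hfin := hfinn 0
  have hfin2 := hfinn 1
  rw [hXt, smul_zero, add_zero] at hfin hfin2
  have ht0 : t ∈ Ioo 0 T := ⟨by linarith, htT⟩
  have hSV : SV (0 + 1) (fun x => ζ x • u t x) y = gsq (u t) y := by
    rw [← gsq_cutG hG hζo t (show y ∈ ball b (7 / 8 * ρ₀) by
      rw [mem_ball, dist_eq_norm]
      linarith)]
    rfl
  have hA2 : A2 y (5 * r) (fun x => ζ x • u t x) ≤ E' ^ 2 := by
    refine (setIntegral_le_integral (hL.en_int t ht0) (Eventually.of_forall fun z =>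
      Finset.sum_nonneg fun _ _ => sq_nonneg _)).trans (hL.en t ht0)
  have hyG : y ∈ ball b (7 / 8 * ρ₀) := by
    rw [mem_ball, dist_eq_norm]
    linarith
  have hSV2 : SV (1 + 1) (fun x => ζ x • u t x) y = gs2 (u t) y := by
    rw [← gs2_cutG hG hζo t hyG]
    rfl
  simp only [hSV] at hfin
  simp only [hSV2] at hfin2
  refine ⟨le_trans ?_ (le_max_left _ _), le_trans ?_ (le_max_right _ _)⟩
  swap
  · rw [le_div_iff₀ (by positivity)]
    have h5 : C (1 + 1) * (1 + CA * r⁻¹ * A2 y (5 * r) (fun x => ζ x • u t x)) ≤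
        C 2 * (1 + CA * r⁻¹ * E' ^ 2) := by
      refine mul_le_mul_of_nonneg_left ?_ (hC 2).le
      have := mul_le_mul_of_nonneg_left hA2 (show 0 ≤ CA * r⁻¹ by positivity)
      linarith
    have h6 : r ^ (2 * 1 + 4) * gs2 (u t) y = gs2 (u t) y * r ^ 6 := by ring
    rw [h6] at hfin2
    exact hfin2.trans h5
  rw [le_div_iff₀ (by positivity)]
  have h5 : C 1 * (1 + CA * r⁻¹ * A2 y (5 * r) (fun x => ζ x • u t x)) ≤
      C 1 * (1 + CA * r⁻¹ * E' ^ 2) := by
    refine mul_le_mul_of_nonneg_left ?_ (hC 1).le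
    have := mul_le_mul_of_nonneg_left hA2 (show 0 ≤ CA * r⁻¹ by positivity)
    linarith
  have h6 : r ^ (2 * 0 + 4) * gsq (u t) y = gsq (u t) y * r ^ 4 := by ring
  rw [h6] at hfin
  exact hfin.trans h5

end Pool.Agent.H9SA
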