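import Pool.Agent.H9SA.Shell
import Pool.Agent.H9SA.GradF
import Pool.Agent.H2CV.Tim

/-!
Around every point there are shells on which the velocity and its gradient are bounded up to the
time `T`.
-/

set_option autoImplicit false

open MeasureTheory Set Metric Filter Topology
open scoped ContDiff ENNReal

namespace Pool.Agent.H9SA

open H459R3.NS W221.NS Pool.Agent.Q85.CL
open W382.ME (cd_slice gsq_cont int_ball)

lemma mol_bd {u : ℝ → V → V} {τ r M : ℝ} {z : V} (hr : 0 < r) (hM : 0 ≤ M)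
    (h : ∀ x ∈ ball z r, ‖u τ x‖ ≤ M) : ‖mol r u τ z‖ ≤ M := by
  rw [pi_norm_le_iff_of_nonneg hM]
  intro i
  unfold mol
  have h1 : Integrable (fun y => W221.NS.th y * M) := (bmp.integrable_normed (μ := volume)).mul_const M
  refine (norm_integral_le_of_norm_le h1 (Eventually.of_forall fun y => ?_)).trans (le_of_eq ?_)
  · have h0 : 0 ≤ W221.NS.th y := bmp.nonneg_normed y
    rw [norm_mul, Real.norm_eq_abs, abs_of_nonneg h0]
    by_cases hy : y ∈ ball (0 : V) 1
    · refine mul_le_mul_of_nonneg_left ((norm_le_pi_norm (u τ (z + r • y)) i).trans (h _ ?_)) h0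
      rw [mem_ball_zero_iff] at hy
      rw [mem_ball, dist_eq_norm, add_sub_cancel_left, norm_smul, Real.norm_eq_abs,
        abs_of_pos hr]
      nlinarith
    · have h2 : W221.NS.th y = 0 := by
        by_contra hcon
        have h3 : y ∈ Function.support (bmp.normed (volume : Measure V)) := hcon
        rw [bmp.support_normed_eq] at h3
        exact hy h3
      rw [h2, zero_mul, zero_mul]
  · rw [integral_mul_const]
    unfold W221.NS.th
    rw [bmp.integral_normed, one_mul]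

lemma gsq_js {T : ℝ} {u : ℝ → V → V}
    (hu : ContDiffOn ℝ ∞ (fun z : ℝ × V => u z.1 z.2) (Ioo 0 T ×ˢ univ)) :
    ContinuousOn (fun z : ℝ × V => gsq (u z.1) z.2) (Ioo 0 T ×ˢ univ) := W335.MD.gsq_cont hu

lemma gs2_js {T : ℝ} {u : ℝ → V → V}
    (hu : ContDiffOn ℝ ∞ (fun z : ℝ × V => u z.1 z.2) (Ioo 0 T ×ˢ univ)) :
    ContinuousOn (fun z : ℝ × V => gs2 (u z.1) z.2) (Ioo 0 T ×ˢ univ) := by
  unfold gs2
  have h1 : ∀ i, Pool.Agent.H2CV.JT T (fun t y => u t y i) := fun i => contDiffOn_pi.1 hu i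
  refine continuousOn_finsetSum _ fun i _ => continuousOn_finsetSum _ fun j _ =>
    continuousOn_finsetSum _ fun k _ => ?_
  exact (((h1 i).pd' j).pd' k).continuousOn.pow 2

lemma gsq_nn (v : V → V) (x : V) : 0 ≤ gsq v x :=
  Finset.sum_nonneg fun _ _ => Finset.sum_nonneg fun _ _ => sq_nonneg _

/-- The dissipation on a part of the set. -/
lemma dis_int {T E : ℝ} {O : Set V} {u : ℝ → V → V} {p : ℝ → V → ℝ} (hu : LSl T E O u p)
    {S : Set V} (hSO : S ⊆ O) : IntegrableOn (fun t => ∫ x in S, gsq (u t) x) (Ioo 0 T) := by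
  have h1 : Integrable (fun z : ℝ × V => gsq (u z.1) z.2)
      ((volume.restrict (Ioo 0 T)).prod (volume.restrict S)) := by
    rw [Measure.prod_restrict, ← Measure.volume_eq_prod]
    exact hu.dis.mono_set (prod_mono subset_rfl hSO)
  exact h1.integral_prod_left

/-- Small windows. -/
lemma win_small {Φ : ℝ → ℝ} {T c : ℝ} (hΦ : IntegrableOn Φ (Ioo 0 T)) (hΦ0 : ∀ t, 0 ≤ Φ t)
    (hc : 0 < c) (hT : 0 < T) : ∃ h₀ : ℝ, 0 < h₀ ∧ ∀ h ∈ Ioc 0 h₀,
      ∫ t in Ioo (T - h) T, Φ t < c := by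
  have h1 : ∫⁻ t in Ioo 0 T, ENNReal.ofReal (Φ t) ≠ ⊤ := hΦ.lintegral_lt_top.ne
  obtain ⟨h₀, hh₀, H⟩ := win_zero hT h1 (c := ENNReal.ofReal c) (ENNReal.ofReal_pos.2 hc)
  refine ⟨min h₀ T, lt_min hh₀ hT, fun h hh => ?_⟩
  have h2 := H h hh.1 (hh.2.trans (min_le_left _ _))
  have hsub : Ioo (T - h) T ⊆ Ioo 0 T := Ioo_subset_Ioo_left (by
    linarith [hh.2.trans (min_le_right h₀ T)])
  rw [← ofReal_integral_eq_lintegral_ofReal (hΦ.mono_set hsub) (Eventually.of_forall hΦ0)] at h2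
  exact (ENNReal.ofReal_lt_ofReal_iff hc).1 h2

/-- The selection of a thin shell. -/
lemma thin {T : ℝ} {u : ℝ → V → V} {a : V} {s₀ w₀ : ℝ} {ε : ℝ} (hw₀ : 0 < w₀)
    (hu : ContDiffOn ℝ ∞ (fun z : ℝ × V => u z.1 z.2) (Ioo 0 T ×ˢ univ))
    {N : ℕ} (hN : 1 ≤ N) {r h : ℝ} (hr : r = w₀ / (10 * N)) (hT : 0 ≤ T - h)
    (hS : ∀ S : Set V, S ⊆ {x | |‖x - a‖ - s₀| ≤ w₀} →
      IntegrableOn (fun t => ∫ x in S, gsq (u t) x) (Ioo (T - h) T))
    (hint : ∫ t in Ioo (T - h) T, ∫ x in {x | |‖x - a‖ - s₀| ≤ w₀}, gsq (u t) x < ε * w₀ / 10) :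
    ∃ s, |s - s₀| ≤ w₀ - 10 * r ∧
      ∫ t in Ioo (T - h) T, ∫ x in {x | s - 10 * r ≤ ‖x - a‖ ∧ ‖x - a‖ < s + 10 * r},
        gsq (u t) x ≤ ε * r := by
  have hN0 : (0 : ℝ) < N := by exact_mod_cast hN
  have hr0 : 0 < r := by rw [hr]; positivity
  have hNr : N * (10 * r) = w₀ := by rw [hr]; field_simp
  obtain ⟨sk, hsk⟩ : ∃ sk : ℕ → ℝ, sk = fun k : ℕ => s₀ - w₀ + 10 * r * (2 * (k : ℝ) + 1) := ⟨_, rfl⟩
  obtain ⟨S, hSd⟩ : ∃ S : ℕ → Set V, S = fun k : ℕ =>
    {x : V | sk k - 10 * r ≤ ‖x - a‖ ∧ ‖x - a‖ < sk k + 10 * r} := ⟨_, rfl⟩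
  by_contra hcon
  push Not at hcon
  have hk : ∀ k ∈ Finset.range N, ε * r < ∫ t in Ioo (T - h) T, ∫ x in S k, gsq (u t) x := by
    intro k hk
    have hk' : (k : ℝ) + 1 ≤ N := by exact_mod_cast Finset.mem_range.1 hk
    have hk0 : (0 : ℝ) ≤ k := Nat.cast_nonneg k
    have h1 := hcon (sk k) (by
      rw [hsk, abs_le]
      simp only
      constructor <;> nlinarith)
    rw [hSd]
    exact h1
  have hmeas : ∀ k, MeasurableSet (S k) := by
    intro k
    rw [hSd]
    simp only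
    have m1 : MeasurableSet {x : V | sk k - 10 * r ≤ ‖x - a‖} :=
      measurableSet_le measurable_const (by fun_prop)
    have m2 : MeasurableSet {x : V | ‖x - a‖ < sk k + 10 * r} :=
      measurableSet_lt (by fun_prop) measurable_const
    exact m1.inter m2
  have hsub : ∀ k ∈ Finset.range N, S k ⊆ {x | |‖x - a‖ - s₀| ≤ w₀} := by
    intro k hk x hx
    have hk' : (k : ℝ) + 1 ≤ N := by exact_mod_cast Finset.mem_range.1 hk
    have hk0 : (0 : ℝ) ≤ k := Nat.cast_nonneg k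
    rw [hSd] at hx
    obtain ⟨hx1, hx2⟩ := hx
    rw [hsk] at hx1 hx2
    simp only at hx1 hx2
    show |‖x - a‖ - s₀| ≤ w₀
    rw [abs_le]
    constructor <;> nlinarith
  have hdisj : Set.Pairwise (↑(Finset.range N) : Set ℕ) (Function.onFun Disjoint S) := by
    intro k _ l _ hkl
    rw [Function.onFun, Set.disjoint_left]
    intro x hx hy
    rw [hSd] at hx hy
    obtain ⟨hx1, hx2⟩ := hx
    obtain ⟨hy1, hy2⟩ := hy
    rw [hsk] at hx1 hx2 hy1 hy2
    simp only at hx1 hx2 hy1 hy2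
    rcases lt_or_gt_of_ne hkl with h1 | h1
    · have : (k : ℝ) + 1 ≤ l := by exact_mod_cast h1
      nlinarith
    · have : (l : ℝ) + 1 ≤ k := by exact_mod_cast h1
      nlinarith
  have hShc : IsCompact {x : V | |‖x - a‖ - s₀| ≤ w₀} := by
    refine (isCompact_closedBall a (s₀ + w₀)).of_isClosed_subset ?_ ?_
    · exact isClosed_le (by fun_prop) continuous_const
    · intro x hx
      have h4 : |‖x - a‖ - s₀| ≤ w₀ := hx
      rw [mem_closedBall, dist_eq_norm]
      linarith [(abs_le.1 h4).2]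
  have hgi : ∀ t ∈ Ioo (T - h) T, IntegrableOn (gsq (u t)) {x : V | |‖x - a‖ - s₀| ≤ w₀} :=
    fun t ht => (gsq_cont (cd_slice hu ⟨hT.trans_lt ht.1, ht.2⟩)).continuousOn.integrableOn_compact
      hShc
  have hsum : ∑ k ∈ Finset.range N, ∫ t in Ioo (T - h) T, ∫ x in S k, gsq (u t) x ≤
      ∫ t in Ioo (T - h) T, ∫ x in {x | |‖x - a‖ - s₀| ≤ w₀}, gsq (u t) x := by
    rw [← integral_finsetSum _ fun k hk => hS (S k) (hsub k hk)]
    refine setIntegral_mono_on (integrable_finsetSum _ fun k hk => hS (S k) (hsub k hk))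
      (hS _ subset_rfl) measurableSet_Ioo fun t ht => ?_
    rw [← integral_biUnion_finset _ (fun k _ => hmeas k) hdisj
      fun k hk => (hgi t ht).mono_set (hsub k hk)]
    refine setIntegral_mono_set (hgi t ht) (Eventually.of_forall fun x => gsq_nn _ _) ?_
    exact (iUnion₂_subset hsub).eventuallyLE
  have h2 : ∑ _k ∈ Finset.range N, ε * r < ∑ k ∈ Finset.range N,
      ∫ t in Ioo (T - h) T, ∫ x in S k, gsq (u t) x :=
    Finset.sum_lt_sum_of_nonempty ⟨0, Finset.mem_range.2 hN⟩ hk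
  rw [Finset.sum_const, Finset.card_range, nsmul_eq_mul] at h2
  have h3 : N * (ε * r) = ε * w₀ / 10 := by
    rw [← hNr]
    ring
  linarith

/-- **The shell.** -/
theorem shell2 {T E : ℝ} {O : Set V} {u : ℝ → V → V} {p : ℝ → V → ℝ} (hT : 0 < T)
    (hu : LSl T E O u p) {a : V} {R : ℝ} (hR : 0 < R) (hRO : closedBall a R ⊆ O) {T₀ : ℝ}
    (hT₀ : 0 < T₀) (hT₀T : T₀ < T) :
    ∃ s w M : ℝ, 0 < w ∧ 2 * w < s ∧ s + 2 * w < R ∧ 0 ≤ M ∧
      ∀ t ∈ Ico T₀ T, ∀ x, |‖x - a‖ - s| ≤ 2 * w →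
        ‖u t x‖ ≤ M ∧ gsq (u t) x ≤ M ∧ gs2 (u t) x ≤ M := by
  obtain ⟨s₀, w₀, M₀, hw₀, hs1, hs2, hM₀, hM⟩ := shell hT hu (a := a) (R := R / 2)
    (by linarith) ((closedBall_subset_closedBall (by linarith)).trans hRO) hT₀
  obtain ⟨ε, hε, hgr⟩ := gradF
  obtain ⟨r₀, hr₀, hgr⟩ := hgr T E O u p hT hu a R (w₀ / 2) hR hRO (by linarith) (by linarith)
  have hShO : {x : V | |‖x - a‖ - s₀| ≤ w₀} ⊆ O := by
    intro x hx
    have h4 : |‖x - a‖ - s₀| ≤ w₀ := hx
    refine hRO ?_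
    rw [mem_closedBall, dist_eq_norm]
    linarith [(abs_le.1 h4).2]
  have hdi := dis_int hu hShO
  obtain ⟨h₀, hh₀, hwin⟩ := win_small hdi (fun t => integral_nonneg fun x => gsq_nn _ _)
    (c := ε * w₀ / 10) (by positivity) hT
  -- the number of shells
  obtain ⟨N, hN1, hN2, hN3, hN4, hN5⟩ : ∃ N : ℕ, 1 ≤ N ∧ w₀ / (10 * N) < r₀ ∧
      2 * (w₀ / (10 * N)) ^ 2 < h₀ ∧ M₀ * (w₀ / (10 * N)) < 1 ∧
      4 * (w₀ / (10 * N)) ^ 2 < (T - T₀) := by
    have t1 : Tendsto (fun N : ℕ => w₀ / (10 * (N : ℝ))) atTop (𝓝 0) := by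
      have h1 : Tendsto (fun N : ℕ => 10 * (N : ℝ)) atTop atTop :=
        Tendsto.const_mul_atTop (by norm_num) tendsto_natCast_atTop_atTop
      exact Tendsto.const_div_atTop h1 w₀
    have t2 : Tendsto (fun N : ℕ => 2 * (w₀ / (10 * (N : ℝ))) ^ 2) atTop (𝓝 0) := by
      have := (t1.pow 2).const_mul (2 : ℝ)
      simpa using this
    have t4 : Tendsto (fun N : ℕ => 4 * (w₀ / (10 * (N : ℝ))) ^ 2) atTop (𝓝 0) := by
      have := (t1.pow 2).const_mul (4 : ℝ)
      simpa using this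
    have t3 : Tendsto (fun N : ℕ => M₀ * (w₀ / (10 * (N : ℝ)))) atTop (𝓝 0) := by
      have := t1.const_mul M₀
      simpa using this
    have e1 := t1.eventually (gt_mem_nhds hr₀)
    have e2 := t2.eventually (gt_mem_nhds hh₀)
    have e3 := t3.eventually (gt_mem_nhds one_pos)
    have e4 := t4.eventually (gt_mem_nhds (show 0 < T - T₀ by linarith))
    obtain ⟨N, h1, h2, h3, h4, h5⟩ :=
      ((eventually_ge_atTop 1).and (e1.and (e2.and (e3.and e4)))).exists
    exact ⟨N, h1, h2, h3, h4, h5⟩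
  have hN0 : (0 : ℝ) < N := by exact_mod_cast hN1
  obtain ⟨r, hr⟩ : ∃ r : ℝ, r = w₀ / (10 * N) := ⟨_, rfl⟩
  have hr0 : 0 < r := by rw [hr]; positivity
  have hrr : 0 < r ^ 2 := by positivity
  have hN1' : (1 : ℝ) ≤ N := by exact_mod_cast hN1
  have hrw : 10 * r ≤ w₀ := by
    rw [hr, mul_div_assoc', div_le_iff₀ (by positivity)]
    nlinarith
  rw [← hr] at hN2 hN3 hN4 hN5
  obtain ⟨s, hs, hthin⟩ := thin (T := T) (u := u) (a := a) (s₀ := s₀) (ε := ε) hw₀ hu.smooth_u
    hN1 hr (h := 2 * r ^ 2) (by linarith)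
    (fun S hS => (dis_int hu (hS.trans hShO)).mono_set (Ioo_subset_Ioo_left (by linarith)))
    (hwin _ ⟨by positivity, hN3.le⟩)
  obtain ⟨Q, hQ⟩ := hgr r ⟨hr0, hN2.le⟩
  have hs' := abs_le.1 hs
  -- the bound at late times
  have hlate : ∀ t ∈ Ioo (T - r ^ 2) T, ∀ x, |‖x - a‖ - s| ≤ r →
      gsq (u t) x ≤ Q ∧ gs2 (u t) x ≤ Q := by
    intro t ht x hx
    have hx' := abs_le.1 hx
    refine hQ t M₀ x (by linarith [ht.1]) ht.2 (by linarith) hN4.le ?_ ?_
    · intro τ hτ z hz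
      refine mol_bd hr0 hM₀ fun y hy => hM τ ⟨by linarith [hτ.1, ht.1], hτ.2.trans ht.2⟩ y ?_
      rw [mem_closedBall, dist_eq_norm] at hz
      rw [mem_ball, dist_eq_norm] at hy
      have h1 : |‖y - a‖ - ‖x - a‖| ≤ ‖y - x‖ := by
        have := abs_norm_sub_norm_le (y - a) (x - a)
        rwa [sub_sub_sub_cancel_right] at this
      have h2 : ‖y - x‖ ≤ r + w₀ / 2 := by
        have e : y - x = (y - z) + (z - x) := by abel
        rw [e]
        exact (norm_add_le _ _).trans (add_le_add hy.le hz)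
      have h1' := abs_le.1 (h1.trans h2)
      rw [abs_le]
      constructor <;> linarith
    · have hsubT : Ioo (t - r ^ 2) t ⊆ Ioo (T - 2 * r ^ 2) T :=
        Ioo_subset_Ioo (by linarith [ht.1]) ht.2.le
      obtain ⟨S, hSd⟩ : ∃ S : Set V, S = {x | s - 10 * r ≤ ‖x - a‖ ∧ ‖x - a‖ < s + 10 * r} :=
        ⟨_, rfl⟩
      rw [← hSd] at hthin
      have hSsub : S ⊆ {x | |‖x - a‖ - s₀| ≤ w₀} := by
        intro y hy
        rw [hSd] at hy
        obtain ⟨hy1, hy2⟩ := hy
        show |‖y - a‖ - s₀| ≤ w₀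
        rw [abs_le]
        constructor <;> linarith
      have hSc : S ⊆ closedBall a R := by
        intro y hy
        rw [hSd] at hy
        rw [mem_closedBall, dist_eq_norm]
        linarith [hy.2]
      have hIS : IntegrableOn (fun t => ∫ x in S, gsq (u t) x) (Ioo (T - 2 * r ^ 2) T) :=
        (dis_int hu (hSsub.trans hShO)).mono_set (Ioo_subset_Ioo_left (by linarith))
      have hball : ball x (9 * r) ⊆ S := by
        intro y hy
        rw [mem_ball, dist_eq_norm] at hy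
        have h1 : |‖y - a‖ - ‖x - a‖| ≤ ‖y - x‖ := by
          have := abs_norm_sub_norm_le (y - a) (x - a)
          rwa [sub_sub_sub_cancel_right] at this
        have h1' := abs_le.1 h1
        rw [hSd]
        constructor <;> linarith
      have i1 : IntegrableOn (fun τ => B2 x (9 * r) (u τ)) (Ioo (t - r ^ 2) t) :=
        ((Pool.Agent.TH305.LW.mass_cont hu.smooth_u (α := t - r ^ 2) (β := t)
          (by linarith [ht.1]) ht.2 (by linarith) (Y := fun _ => x) continuousOn_const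
          (9 * r)).integrableOn_compact isCompact_Icc).mono_set Ioo_subset_Icc_self
      have hm : MeasurableSet S := by
        rw [hSd]
        have m1 : MeasurableSet {x : V | s - 10 * r ≤ ‖x - a‖} :=
          measurableSet_le measurable_const (by fun_prop)
        have m2 : MeasurableSet {x : V | ‖x - a‖ < s + 10 * r} :=
          measurableSet_lt (by fun_prop) measurable_const
        exact m1.inter m2
      calc ∫ τ in Ioo (t - r ^ 2) t, B2 x (9 * r) (u τ)
          ≤ ∫ τ in Ioo (t - r ^ 2) t, ∫ y in S, gsq (u τ) y := by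
            refine setIntegral_mono_on i1 (hIS.mono_set hsubT) measurableSet_Ioo fun τ hτ => ?_
            refine setIntegral_mono_set ?_ (Eventually.of_forall fun z => gsq_nn _ _)
              hball.eventuallyLE
            have hcg : Continuous (gsq (u τ)) := gsq_cont (cd_slice hu.smooth_u
              ⟨by linarith [hτ.1, ht.1], hτ.2.trans ht.2⟩)
            exact (hcg.continuousOn.integrableOn_compact (isCompact_closedBall a R)).mono_set hSc
        _ ≤ ∫ τ in Ioo (T - 2 * r ^ 2) T, ∫ y in S, gsq (u τ) y :=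
            setIntegral_mono_set hIS (Eventually.of_forall fun τ =>
              integral_nonneg fun z => gsq_nn _ _) hsubT.eventuallyLE
        _ ≤ ε * r := hthin
  -- the bound at early times
  have hK : IsCompact (Icc T₀ (T - r ^ 2) ×ˢ closedBall a R) :=
    isCompact_Icc.prod (isCompact_closedBall a R)
  obtain ⟨Q', hQ'⟩ := hK.exists_bound_of_continuousOn ((gsq_js hu.smooth_u).mono (prod_mono
    (fun t ht => ⟨hT₀.trans_le ht.1, by linarith [ht.2]⟩) (subset_univ _)))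
  obtain ⟨Q'', hQ''⟩ := hK.exists_bound_of_continuousOn ((gs2_js hu.smooth_u).mono (prod_mono
    (fun t ht => ⟨hT₀.trans_le ht.1, by linarith [ht.2]⟩) (subset_univ _)))
  refine ⟨s, r / 2, max M₀ (max Q (max Q' Q'')), by linarith, by linarith, by linarith,
    hM₀.trans (le_max_left _ _), fun t ht x hx => ⟨?_, ?_, ?_⟩⟩
  · refine (hM t ht x ?_).trans (le_max_left _ _)
    have hx' := abs_le.1 hx
    rw [abs_le]
    constructor <;> linarith
  · refine le_trans ?_ (le_max_right _ _)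
    by_cases h1 : T - r ^ 2 < t
    · exact (hlate t ⟨h1, ht.2⟩ x (hx.trans (by linarith))).1.trans (le_max_left _ _)
    · have hx' := abs_le.1 hx
      have h2 := hQ' (t, x) ⟨⟨ht.1, not_lt.1 h1⟩, by
        rw [mem_closedBall, dist_eq_norm]
        linarith⟩
      exact (((le_abs_self _).trans h2).trans (le_max_left _ _)).trans (le_max_right _ _)
  · refine le_trans ?_ (le_max_right _ _)
    by_cases h1 : T - r ^ 2 < t
    · exact (hlate t ⟨h1, ht.2⟩ x (hx.trans (by linarith))).2.trans (le_max_left _ _)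
    · have hx' := abs_le.1 hx
      have h2 := hQ'' (t, x) ⟨⟨ht.1, not_lt.1 h1⟩, by
        rw [mem_closedBall, dist_eq_norm]
        linarith⟩
      exact (((le_abs_self _).trans h2).trans (le_max_right _ _)).trans (le_max_right _ _)

end Pool.Agent.H9SA
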