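import Pool.Agent.H9SA.Lq
import Pool.Agent.H9SA.Lam
import Pool.Agent.H9SA.DC
import Pool.Agent.H9SA.PowF
import Pool.Agent.H9SA.Shell2
import Pool.Agent.H2CV.Tim
import Pool.Agent.Q85.CL.Blow

/-!
The assembly, viscosity one.
-/

set_option autoImplicit false

open MeasureTheory Set Metric Filter Topology
open scoped ContDiff

namespace Pool.Agent.H9SA

open H459R3.NS W221.NS Pool.Agent.W583.MD Pool.Agent.W268.NS Pool.Agent.Q85.CL
open Pool.Agent.H2CV (vc sm_vc JT_u JT_vc vor_eq av)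

/-- The thresholds. -/
structure Thr (T : ℝ) (δ : ℝ → ℝ) : Prop where
  sm : ContDiffOn ℝ ∞ δ (Ioo 0 T)
  pos : ∀ t ∈ Ioo 0 T, 0 < δ t
  mono : MonotoneOn δ (Ioo 0 T)

/-- The vorticity divided by the threshold. -/
noncomputable def wd (δ : ℝ → ℝ) (u : ℝ → V → V) (t : ℝ) (i : Fin 3) (x : V) : ℝ :=
  (δ t)⁻¹ * vc (u t) i x

lemma Thr.deriv_nonneg {T : ℝ} {δ : ℝ → ℝ} (h : Thr T δ) {t : ℝ} (ht : t ∈ Ioo 0 T) :
    0 ≤ deriv δ t := by
  rw [← derivWithin_of_isOpen isOpen_Ioo ht]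
  exact h.mono.derivWithin_nonneg

lemma Thr.hd {T : ℝ} {δ : ℝ → ℝ} (h : Thr T δ) {t : ℝ} (ht : t ∈ Ioo 0 T) :
    HasDerivAt δ (deriv δ t) t :=
  ((h.sm.contDiffAt (Ioo_mem_nhds ht.1 ht.2)).differentiableAt (by norm_cast)).hasDerivAt

lemma pd_cmul1 {c : ℝ} {f : V → ℝ} (hf : ContDiff ℝ ∞ f) (j : Fin 3) :
    pd j (fun y => c * f y) = fun y => c * pd j f y := by
  funext x
  unfold pd
  have h := (dif hf x).hasFDerivAt.const_mul c
  rw [h.fderiv]
  rfl

lemma Wq0_nn (w : Fin 3 → V → ℝ) (x : V) : 0 ≤ Wq 0 w x := by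
  unfold Wq
  have : 0 ≤ ∑ i, w i x ^ 2 := Finset.sum_nonneg fun i _ => sq_nonneg _
  positivity

lemma cont_kl {lam : ℝ → ℝ} (h : Cut1 lam) : Continuous fun s : ℝ => lam s / s ^ 2 := by
  rw [continuous_iff_continuousAt]
  intro s
  by_cases hs : s = 0
  · have h1 : (fun s : ℝ => lam s / s ^ 2) =ᶠ[𝓝 s] fun _ => 0 := by
      rw [hs]
      filter_upwards [Iio_mem_nhds (zero_lt_one' ℝ)] with t ht
      rw [h.lo t (le_of_lt ht), zero_div]
    exact continuousAt_const.congr h1.symm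
  · exact h.sm.continuous.continuousAt.div (by fun_prop) (pow_ne_zero 2 hs)

lemma sw_wd {T : ℝ} {O : Set V} {u : ℝ → V → V} {p : ℝ → V → ℝ} (h : LEq T O u p) {δ : ℝ → ℝ}
    (hδ : Thr T δ) (i : Fin 3) : Js T (fun t x => wd δ u t i x) := by
  have h1 : ContDiffOn ℝ ∞ (fun z : ℝ × V => (δ z.1)⁻¹) (Ioo 0 T ×ˢ univ) :=
    (hδ.sm.inv fun t ht => (hδ.pos t ht).ne').comp contDiffOn_fst fun z hz => hz.1
  exact h1.mul (JT_vc h i)

/-- The equation of the vorticity divided by the threshold. -/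
lemma eqn_wd {T : ℝ} {O : Set V} {u : ℝ → V → V} {p : ℝ → V → ℝ} (h : LEq T O u p) {δ : ℝ → ℝ}
    (hδ : Thr T δ) {t : ℝ} (ht : t ∈ Ioo 0 T) {x : V} (hx : x ∈ O) : ∃ ρ : ℝ, 0 ≤ ρ ∧
      ∀ i, deriv (fun s => wd δ u s i x) t = lap (wd δ u t i) x
        - ∑ k, u t x k * pd k (wd δ u t i) x + ∑ k, wd δ u t k x * pd k (fun y => u t y i) x
        - ρ * wd δ u t i x := by
  have hδ0 := hδ.pos t ht
  refine ⟨deriv δ t / δ t, div_nonneg (hδ.deriv_nonneg ht) hδ0.le, fun i => ?_⟩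
  have hv : ∀ i, ContDiff ℝ ∞ (fun y => u t y i) := fun i => (JT_u h i).slice' ht
  have hwi : ContDiff ℝ ∞ (vc (u t) i) := sm_vc hv i
  have h1 : HasDerivAt (fun s => wd δ u s i x) (-deriv δ t / δ t ^ 2 * vc (u t) i x
      + (δ t)⁻¹ * deriv (fun s => vc (u s) i x) t) t :=
    ((hδ.hd ht).inv hδ0.ne').mul ((JT_vc h i).hd ht x)
  have h2 := vor_eq h ht hx i
  unfold Pool.Agent.H2CV.ee av at h2
  rw [h1.deriv, h2]
  have e1 : ∀ j, pd j (wd δ u t i) = fun y => (δ t)⁻¹ * pd j (vc (u t) i) y := fun j =>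
    pd_cmul1 hwi j
  have e2 : ∀ j, pd j (pd j (wd δ u t i)) = fun y => (δ t)⁻¹ * pd j (pd j (vc (u t) i)) y :=
    fun j => by rw [e1, pd_cmul1 (sm_pd hwi j)]
  have e3 : lap (wd δ u t i) x = (δ t)⁻¹ * lap (vc (u t) i) x := by
    unfold lap
    rw [Finset.mul_sum]
    exact Finset.sum_congr rfl fun j _ => congrFun (e2 j) x
  rw [e3]
  simp only [e1]
  unfold wd
  simp only [Fin.sum_univ_three]
  field_simp
  ring

/-- The rate. -/
noncomputable def rl (lam δ : ℝ → ℝ) (u : ℝ → V → V) (t : ℝ) (x : V) : ℝ :=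
  Rl lam (wd δ u t) (fun i y => u t y i) x

/-- The density. -/
noncomputable def Fl (lam δ : ℝ → ℝ) (m : ℝ) (u : ℝ → V → V) (t : ℝ) (x : V) : ℝ :=
  Ph2 lam m (Wq 0 (wd δ u t) x)

lemma cont_rl {T : ℝ} {O : Set V} {u : ℝ → V → V} {p : ℝ → V → ℝ} (h : LEq T O u p) {δ : ℝ → ℝ}
    (hδ : Thr T δ) {lam : ℝ → ℝ} (hl : Cut1 lam) :
    ContinuousOn (fun z : ℝ × V => rl lam δ u z.1 z.2) (Ioo 0 T ×ˢ univ) := by
  have sw := fun i => sw_wd h hδ i
  have su := fun i => JT_u h i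
  have hs : Js T (fun t x => Wq 0 (wd δ u t) x) :=
    contDiffOn_const.add (ContDiffOn.sum fun i _ => (sw i).pow 2)
  unfold rl Rl
  refine ContinuousOn.mul ((cont_kl hl).comp_continuousOn hs.continuousOn)
    (ContinuousOn.sub (hs.continuousOn.mul
      (continuousOn_finsetSum _ fun i _ => continuousOn_finsetSum _ fun k _ => ?_))
      (ContinuousOn.sub (hs.continuousOn.mul
        (continuousOn_finsetSum _ fun j _ => continuousOn_finsetSum _ fun i _ => ?_))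
        (continuousOn_finsetSum _ fun j _ =>
          (continuousOn_finsetSum _ fun i _ => ?_ : ContinuousOn _ _).pow 2)))
  · exact ((sw k).continuousOn.mul (Js.pd' (F := fun t x => u t x i) (su i) k).continuousOn).mul
      (sw i).continuousOn
  · exact ((sw i).pd' j).continuousOn.pow 2
  · exact (sw i).continuousOn.mul ((sw i).pd' j).continuousOn

lemma toDat {T : ℝ} {O : Set V} {u : ℝ → V → V} {p : ℝ → V → ℝ} (h : LEq T O u p) {δ : ℝ → ℝ}
    (hδ : Thr T δ) {lam : ℝ → ℝ} (hl : Cut1 lam) {m : ℝ} (hm : 1 / 2 < m) :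
    Dat T O u (rl lam δ u) (Fl lam δ m u) m := by
  have sw := fun i => sw_wd h hδ i
  have hs : Js T (fun t x => Wq 0 (wd δ u t) x) :=
    contDiffOn_const.add (ContDiffOn.sum fun i _ => (sw i).pow 2)
  refine ⟨fun i => JT_u h i, (sm_Ph2 hl m).comp_contDiffOn hs, fun t x => Real.exp_pos _,
    cont_rl h hδ hl, h.divfree, fun t ht x hx => ?_⟩
  have hws : ∀ i, ContDiff ℝ ∞ (wd δ u t i) := fun i => (sw i).sl ht
  obtain ⟨ρ, hρ, heq⟩ := eqn_wd h hδ ht hx
  have h3 := Ph2_ineq hl hws hm (x := x) (v := fun i y => u t y i)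
    (τ := fun i => deriv (fun s => wd δ u s i x) t) hρ heq
  have h1 : HasDerivAt (fun s => Wq 0 (wd δ u s) x)
      (∑ i, 2 * wd δ u t i x * deriv (fun s => wd δ u s i x) t) t := by
    unfold Wq
    refine HasDerivAt.const_add _ (HasDerivAt.fun_sum fun i _ => ?_)
    refine (((sw i).hd ht x).pow 2).congr_deriv ?_
    norm_num
  have h2 : HasDerivAt (fun s => Fl lam δ m u s x) (m * gl lam (Wq 0 (wd δ u t) x)
      * Ph2 lam m (Wq 0 (wd δ u t) x)
      * (∑ i, 2 * wd δ u t i x * deriv (fun s => wd δ u s i x) t)) t :=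
    (hd_Ph2 hl m (Wq 0 (wd δ u t) x)).comp t h1
  rw [h2.deriv]
  exact h3

lemma Wq_vc (d : ℝ) (v : V → V) (x : V) : Wq d (vc v) x = d ^ 2 + ∑ i, vort v x i ^ 2 := rfl

lemma vort_le_gsq (v : V → V) (x : V) : ∑ i, vort v x i ^ 2 ≤ 2 * gsq v x := by
  unfold gsq vort gradM
  simp only [Fin.sum_univ_three, Matrix.of_apply, Matrix.cons_val_zero, Matrix.cons_val_one,
    Matrix.cons_val]
  nlinarith [sq_nonneg (pd 1 (fun y => v y 2) x + pd 2 (fun y => v y 1) x),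
    sq_nonneg (pd 2 (fun y => v y 0) x + pd 0 (fun y => v y 2) x),
    sq_nonneg (pd 0 (fun y => v y 1) x + pd 1 (fun y => v y 0) x),
    sq_nonneg (pd 0 (fun y => v y 0) x), sq_nonneg (pd 1 (fun y => v y 1) x),
    sq_nonneg (pd 2 (fun y => v y 2) x)]

lemma nsq_nonneg' (v : V → V) (x : V) : 0 ≤ nsq v x := Finset.sum_nonneg fun _ _ => sq_nonneg _

lemma dvort_le (v : V → V) (x : V) :
    ∑ j, ∑ i, pd j (vc v i) x ^ 2 ≤ 2 * ∑ i, ∑ j, ∑ k, pd k (pd j (fun y => v y i)) x ^ 2 ∨ ¬ SM v := by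
  by_cases hv : SM v
  · left
    have h0 : ∀ j, pd j (vc v 0) x = pd j (pd 1 fun y => v y 2) x - pd j (pd 2 fun y => v y 1) x :=
      fun j => by
        have e : vc v 0 = fun y => pd 1 (fun y => v y 2) y - pd 2 (fun y => v y 1) y := rfl
        rw [e, pd_sub1 (sm_pd (hv 2) 1) (sm_pd (hv 1) 2)]
    have h1 : ∀ j, pd j (vc v 1) x = pd j (pd 2 fun y => v y 0) x - pd j (pd 0 fun y => v y 2) x :=
      fun j => by
        have e : vc v 1 = fun y => pd 2 (fun y => v y 0) y - pd 0 (fun y => v y 2) y := rfl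
        rw [e, pd_sub1 (sm_pd (hv 0) 2) (sm_pd (hv 2) 0)]
    have h2 : ∀ j, pd j (vc v 2) x = pd j (pd 0 fun y => v y 1) x - pd j (pd 1 fun y => v y 0) x :=
      fun j => by
        have e : vc v 2 = fun y => pd 0 (fun y => v y 1) y - pd 1 (fun y => v y 0) y := rfl
        rw [e, pd_sub1 (sm_pd (hv 1) 0) (sm_pd (hv 0) 1)]
    have hab : ∀ a b : ℝ, (a - b) ^ 2 ≤ 2 * a ^ 2 + 2 * b ^ 2 := fun a b => by
      nlinarith [sq_nonneg (a + b)]
    have hj : ∀ j, ∑ i, pd j (vc v i) x ^ 2 ≤ 2 * ∑ i, ∑ l, pd j (pd l (fun y => v y i)) x ^ 2 := by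
      intro j
      rw [Fin.sum_univ_three, h0, h1, h2]
      simp only [Fin.sum_univ_three]
      have a0 := hab (pd j (pd 1 fun y => v y 2) x) (pd j (pd 2 fun y => v y 1) x)
      have a1 := hab (pd j (pd 2 fun y => v y 0) x) (pd j (pd 0 fun y => v y 2) x)
      have a2 := hab (pd j (pd 0 fun y => v y 1) x) (pd j (pd 1 fun y => v y 0) x)
      nlinarith [sq_nonneg (pd j (pd 0 fun y => v y 0) x), sq_nonneg (pd j (pd 1 fun y => v y 1) x),
        sq_nonneg (pd j (pd 2 fun y => v y 2) x)]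
    refine (Finset.sum_le_sum fun j _ => hj j).trans (le_of_eq ?_)
    simp only [Fin.sum_univ_three]
    ring
  · right
    exact hv

/-- The bound of the rate. -/
lemma rl_le {u : ℝ → V → V} {δ lam : ℝ → ℝ} (hl : Cut1 lam) {t d₀ : ℝ} (hu : SM (u t))
    (hd₀ : 0 < d₀) (hd : d₀ ≤ δ t) (x : V) :
    |rl lam δ u t x| ≤ 3 * (1 + gsq (u t) x) + 2 / d₀ ^ 2 *
      ∑ i, ∑ j, ∑ k, pd k (pd j (fun y => u t y i)) x ^ 2 := by
  have hδ0 : 0 < δ t := hd₀.trans_le hd
  have hwi : ∀ i, ContDiff ℝ ∞ (vc (u t) i) := fun i => sm_vc hu i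
  have hwd : ∀ i, ContDiff ℝ ∞ (wd δ u t i) := fun i => contDiff_const.mul (hwi i)
  obtain ⟨s, hs⟩ : ∃ s, s = Wq 0 (wd δ u t) x := ⟨_, rfl⟩
  have hs0 : 0 ≤ s := by rw [hs]; exact Wq0_nn _ _
  have hs2 : s = ∑ i, wd δ u t i x ^ 2 := by
    rw [hs]
    unfold Wq
    simp
  have hg : ∀ i k, |pd k (fun y => u t y i) x| ≤ 1 + gsq (u t) x := by
    intro i k
    have h1 : pd k (fun y => u t y i) x ^ 2 ≤ gsq (u t) x := by
      unfold gsq
      have h2 : pd k (fun y => u t y i) x ^ 2 ≤ ∑ j, pd j (fun y => u t y i) x ^ 2 :=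
        Finset.single_le_sum (f := fun j => pd j (fun y => u t y i) x ^ 2)
          (fun _ _ => sq_nonneg _) (Finset.mem_univ k)
      exact h2.trans (Finset.single_le_sum (f := fun i => ∑ j, pd j (fun y => u t y i) x ^ 2)
          (fun _ _ => Finset.sum_nonneg fun _ _ => sq_nonneg _) (Finset.mem_univ i))
    rw [← sq_abs] at h1
    nlinarith [sq_nonneg (|pd k (fun y => u t y i) x| - 1), abs_nonneg (pd k (fun y => u t y i) x)]
  have hg0 : 0 ≤ gsq (u t) x := gsq_nn _ _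
  obtain ⟨S, hS⟩ : ∃ S, S = ∑ i, ∑ k, wd δ u t k x * pd k (fun y => u t y i) x * wd δ u t i x :=
    ⟨_, rfl⟩
  obtain ⟨N2, hN2⟩ : ∃ N2, N2 = ∑ j, ∑ i, pd j (wd δ u t i) x ^ 2 := ⟨_, rfl⟩
  obtain ⟨Q, hQ⟩ : ∃ Q, Q = ∑ j, (∑ i, wd δ u t i x * pd j (wd δ u t i) x) ^ 2 := ⟨_, rfl⟩
  obtain ⟨κ, hκ⟩ : ∃ κ, κ = lam s / s ^ 2 := ⟨_, rfl⟩
  have hκ0 : 0 ≤ κ := by rw [hκ]; exact div_nonneg (hl.nn s) (by positivity)
  have h3 : |S| ≤ 3 * (1 + gsq (u t) x) * s := by
    have h3' : |S| ≤ ∑ i, ∑ k, (1 + gsq (u t) x) * ((wd δ u t k x ^ 2 + wd δ u t i x ^ 2) / 2) := by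
      rw [hS]
      refine (Finset.abs_sum_le_sum_abs _ _).trans (Finset.sum_le_sum fun i _ => ?_)
      refine (Finset.abs_sum_le_sum_abs _ _).trans (Finset.sum_le_sum fun k _ => ?_)
      rw [abs_mul, abs_mul]
      have h4 := hg i k
      have h5 : |wd δ u t k x| * |wd δ u t i x| ≤ (wd δ u t k x ^ 2 + wd δ u t i x ^ 2) / 2 := by
        nlinarith [sq_nonneg (|wd δ u t k x| - |wd δ u t i x|), sq_abs (wd δ u t k x),
          sq_abs (wd δ u t i x)]
      calc |wd δ u t k x| * |pd k (fun y => u t y i) x| * |wd δ u t i x|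
          = |pd k (fun y => u t y i) x| * (|wd δ u t k x| * |wd δ u t i x|) := by ring
        _ ≤ _ := mul_le_mul h4 h5 (by positivity) (by positivity)
    refine h3'.trans (le_of_eq ?_)
    rw [hs2]
    simp only [Fin.sum_univ_three]
    ring
  have hN20 : 0 ≤ N2 := by
    rw [hN2]
    exact Finset.sum_nonneg fun _ _ => Finset.sum_nonneg fun _ _ => sq_nonneg _
  have hQ0 : 0 ≤ Q := by rw [hQ]; exact Finset.sum_nonneg fun _ _ => sq_nonneg _
  have hQN : Q ≤ s * N2 := by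
    rw [hQ, hN2, hs2, Finset.mul_sum]
    exact Finset.sum_le_sum fun j _ => Finset.sum_mul_sq_le_sq_mul_sq Finset.univ
      (fun i => wd δ u t i x) (fun i => pd j (wd δ u t i) x)
  have hκs : κ * s ^ 2 ≤ 1 := by
    rw [hκ]
    rcases hs0.eq_or_lt with h0 | h0
    · rw [← h0]
      simp
    · rw [div_mul_cancel₀ _ (by positivity)]
      exact hl.le s
  have hκs1 : κ * s ≤ 1 := by
    by_cases h1 : s ≤ 1
    · rw [hκ, hl.lo s h1]
      simp
    · have h2 : 1 < s := not_le.1 h1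
      nlinarith [mul_nonneg hκ0 hs0]
  have hr : rl lam δ u t x = κ * (s * S - (s * N2 - Q)) := by
    unfold rl Rl
    rw [← hs, ← hκ, ← hS, ← hN2, ← hQ]
  -- the dissipation
  have hQ2 : N2 ≤ 2 / d₀ ^ 2 * ∑ i, ∑ j, ∑ k, pd k (pd j (fun y => u t y i)) x ^ 2 := by
    have e : N2 = ((δ t)⁻¹) ^ 2 * ∑ j, ∑ i, pd j (vc (u t) i) x ^ 2 := by
      have e1 : ∀ j i, pd j (wd δ u t i) x = (δ t)⁻¹ * pd j (vc (u t) i) x := fun j i => by
        have := pd_cmul1 (c := (δ t)⁻¹) (hwi i) j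
        exact congrFun this x
      rw [hN2]
      simp only [e1, Fin.sum_univ_three]
      ring
    rw [e]
    have h6 := (dvort_le (u t) x).resolve_right (not_not.2 hu)
    have h7 : ((δ t)⁻¹) ^ 2 ≤ 1 / d₀ ^ 2 := by
      rw [inv_pow, one_div]
      exact inv_anti₀ (by positivity) (pow_le_pow_left₀ hd₀.le hd 2)
    calc ((δ t)⁻¹) ^ 2 * ∑ j, ∑ i, pd j (vc (u t) i) x ^ 2
        ≤ 1 / d₀ ^ 2 * (2 * ∑ i, ∑ j, ∑ k, pd k (pd j (fun y => u t y i)) x ^ 2) :=
          mul_le_mul h7 h6 (Finset.sum_nonneg fun _ _ => Finset.sum_nonneg fun _ _ => sq_nonneg _)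
            (by positivity)
      _ = _ := by ring
  rw [hr]
  have a1 : |κ * s * S| ≤ 3 * (1 + gsq (u t) x) := by
    rw [abs_mul, abs_of_nonneg (by positivity)]
    calc κ * s * |S| ≤ κ * s * (3 * (1 + gsq (u t) x) * s) :=
          mul_le_mul_of_nonneg_left h3 (by positivity)
      _ = κ * s ^ 2 * (3 * (1 + gsq (u t) x)) := by ring
      _ ≤ 1 * (3 * (1 + gsq (u t) x)) := mul_le_mul_of_nonneg_right hκs (by positivity)
      _ = _ := one_mul _
  have a2 : 0 ≤ κ * (s * N2 - Q) := mul_nonneg hκ0 (by linarith)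
  have a3 : κ * (s * N2 - Q) ≤ N2 := by
    have h8 : κ * (s * N2 - Q) ≤ κ * (s * N2) := mul_le_mul_of_nonneg_left (by linarith) hκ0
    have h9 : κ * (s * N2) ≤ 1 * N2 := by
      rw [← mul_assoc]
      exact mul_le_mul_of_nonneg_right hκs1 hN20
    linarith
  have e : κ * (s * S - (s * N2 - Q)) = κ * s * S - κ * (s * N2 - Q) := by ring
  rw [e]
  refine (abs_sub _ _).trans ?_
  rw [abs_of_nonneg a2]
  linarith

/-- The data of the shell. -/
structure SD (T₀ T : ℝ) (u : ℝ → V → V) (a : V) (R s w M : ℝ) : Prop where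
  hw : 0 < w
  hws : 2 * w < s
  hsR : s + 2 * w < R
  hM0 : 0 ≤ M
  bd : ∀ t ∈ Ico T₀ T, ∀ x, |‖x - a‖ - s| ≤ 2 * w → ‖u t x‖ ≤ M ∧ gsq (u t) x ≤ M ∧
    gs2 (u t) x ≤ M

/-- The growth of the local `L^q` norm of the vorticity. -/
theorem Lq_end {T E : ℝ} {O : Set V} {u : ℝ → V → V} {p : ℝ → V → ℝ} (hu : LSl T E O u p)
    {T₀ R c m γ C : ℝ} {a : V} {δ lam : ℝ → ℝ} (hδ : Thr T δ) (hl : Cut1 lam) (hT₀ : 0 < T₀)
    (hRO : closedBall a R ⊆ O)
    (hm : 1 / 2 < m) (hc : 0 < c) (hcm : c * (2 * m) ^ 2 < 2 * m - 1)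
    (hB : Bd c u (rl lam δ u) (closedBall a R) T₀ T
      fun t => -(γ * Real.log (T - t)) - Real.log (δ t) + C)
    {s w M : ℝ} (hS : SD T₀ T u a R s w M) {T₁ : ℝ} (hT₁ : T₀ < T₁) (hT₁T : T₁ < T)
    (hγ : 0 ≤ γ) :
    ∃ K, 0 ≤ K ∧ ∀ t ∈ Ico T₁ T, ∫ x in closedBall a (s + 2 * w), Wq (δ T₀) (vc (u t)) x ^ m
      ≤ K * (T - t) ^ (-(2 * m * γ)) := by
  have hT₀m : T₀ ∈ Ioo 0 T := ⟨hT₀, hT₁.trans hT₁T⟩
  obtain ⟨d₀, hd₀d⟩ : ∃ d₀, d₀ = δ T₀ := ⟨_, rfl⟩
  have hd₀ : 0 < d₀ := by rw [hd₀d]; exact hδ.pos _ hT₀m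
  rw [← hd₀d]
  have hδd : ∀ t ∈ Ico T₀ T, d₀ ≤ δ t := fun t ht => by
    rw [hd₀d]
    exact hδ.mono hT₀m ⟨hT₀.trans_le ht.1, ht.2⟩ ht.1
  have hUp : ContinuousOn (fun t => -(γ * Real.log (T - t)) - Real.log (δ t) + C) (Ico T₀ T) := by
    have h1 : ContinuousOn (fun t : ℝ => Real.log (T - t)) (Ico T₀ T) :=
      ContinuousOn.log (by fun_prop) fun t ht => by linarith [ht.2]
    have h2 : ContinuousOn (fun t : ℝ => Real.log (δ t)) (Ico T₀ T) :=
      ContinuousOn.log (hδ.sm.continuousOn.mono fun t ht => ⟨hT₀.trans_le ht.1, ht.2⟩)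
        fun t ht => (hd₀.trans_le (hδd t ht)).ne'
    exact ((continuousOn_const.mul h1).neg.sub h2).add continuousOn_const
  have hm0 : 0 < m := by linarith
  have hw := hS.hw
  have hM0 := hS.hM0
  obtain ⟨M', hM'⟩ : ∃ M', M' = max M (3 * (1 + M) + 2 / d₀ ^ 2 * M) := ⟨_, rfl⟩
  have hT₁0 : 0 < T₁ := hT₀.trans hT₁
  have hSM : ∀ t ∈ Ico T₀ T, SM (u t) := fun t ht i =>
    (JT_u hu.toLEq i).slice' ⟨hT₀.trans_le ht.1, ht.2⟩
  -- the bounds on the shell
  have hFe : ∀ t x, Fl lam δ m u t x = Real.exp (Ll lam (Wq 0 (wd δ u t) x)) ^ m := by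
    intro t x
    unfold Fl Ph2
    rw [← Real.exp_mul, mul_comm]
  have hWm : ∀ t ∈ Ico T₁ T, ∀ x ∈ Sh a s (2 * w), Fl lam δ m u t x ≤
      (1 + 2 / d₀ ^ 2 * M) ^ m := by
    intro t ht x hx
    rw [hFe]
    refine Real.rpow_le_rpow (Real.exp_pos _).le ?_ hm0.le
    refine (exp_Ll_le hl (Wq0_nn _ _)).trans ?_
    have ht' : t ∈ Ico T₀ T := ⟨hT₁.le.trans ht.1, ht.2⟩
    have h1 := vort_le_gsq (u t) x
    have h2 := (hS.bd t ht' x hx).2.1
    have h3 := hδd t ht'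
    have e : Wq 0 (wd δ u t) x = ((δ t)⁻¹) ^ 2 * ∑ i, vort (u t) x i ^ 2 := by
      unfold Wq wd vc
      simp only [Fin.sum_univ_three]
      ring
    rw [e]
    have h4 : ((δ t)⁻¹) ^ 2 ≤ 1 / d₀ ^ 2 := by
      rw [inv_pow, one_div]
      exact inv_anti₀ (by positivity) (pow_le_pow_left₀ hd₀.le h3 2)
    have h5 : ((δ t)⁻¹) ^ 2 * ∑ i, vort (u t) x i ^ 2 ≤ 1 / d₀ ^ 2 * (2 * M) :=
      mul_le_mul h4 (by linarith) (Finset.sum_nonneg fun _ _ => sq_nonneg _) (by positivity)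
    have e2 : 1 / d₀ ^ 2 * (2 * M) = 2 / d₀ ^ 2 * M := by ring
    linarith
  have hWm2 : ∀ t ∈ Ico T₁ T, ∀ x ∈ Sh a s (2 * w), Wq d₀ (vc (u t)) x ^ m ≤
      (d₀ ^ 2 + 2 * M) ^ m := by
    intro t ht x hx
    refine Real.rpow_le_rpow (Wq_pos hd₀.ne' x).le ?_ hm0.le
    rw [Wq_vc]
    have h1 := vort_le_gsq (u t) x
    have h2 := (hS.bd t ⟨hT₁.le.trans ht.1, ht.2⟩ x hx).2.1
    linarith
  have hDat := toDat hu.toLEq hδ hl hm
  have hcW : ∀ t ∈ Ico T₁ T, Continuous fun x => Fl lam δ m u t x := fun t ht =>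
    (hDat.sF.sl ⟨hT₁0.trans_le ht.1, ht.2⟩).continuous
  have hcV : ∀ t ∈ Ico T₁ T, Continuous fun x => Wq d₀ (vc (u t)) x ^ m := fun t ht =>
    ((sm_Wq fun i => sm_vc (hSM t ⟨hT₁.le.trans ht.1, ht.2⟩) i).rpow_const_of_ne
      fun x => (Wq_pos hd₀.ne' x).ne').continuous
  obtain ⟨H, hH⟩ : ∃ H, H = (1 + 2 / d₀ ^ 2 * M) ^ m * volume.real (closedBall a R) := ⟨_, rfl⟩
  have hH0 : 0 ≤ H := by rw [hH]; positivity
  obtain ⟨H', hH'⟩ : ∃ H, H = (d₀ ^ 2 + 2 * M) ^ m * volume.real (closedBall a R) := ⟨_, rfl⟩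
  have hH'0 : 0 ≤ H' := by rw [hH']; positivity
  have hvol : ∀ S : Set V, S ⊆ Sh a s (2 * w) → volume.real S ≤ volume.real (closedBall a R) :=
    fun S hSS => measureReal_mono (hSS.trans (Sh_sub hS.hsR.le))
      (isCompact_closedBall a R).measure_ne_top
  have hint : ∀ t ∈ Ico T₁ T, ∀ S : Set V, IsCompact S → S ⊆ Sh a s (2 * w) →
      ∫ x in S, Fl lam δ m u t x ≤ H := by
    intro t ht S hSc hSS
    have h1 : ∫ x in S, Fl lam δ m u t x ≤ ∫ x in S, (1 + 2 / d₀ ^ 2 * M) ^ m :=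
      setIntegral_mono_on ((hcW t ht).continuousOn.integrableOn_compact hSc)
        (continuousOn_const.integrableOn_compact hSc) hSc.measurableSet fun x hx =>
        hWm t ht x (hSS hx)
    rw [setIntegral_const, smul_eq_mul, mul_comm] at h1
    refine h1.trans ?_
    rw [hH]
    exact mul_le_mul_of_nonneg_left (hvol S hSS) (by positivity)
  have hint2 : ∀ t ∈ Ico T₁ T, ∀ S : Set V, IsCompact S → S ⊆ Sh a s (2 * w) →
      ∫ x in S, Wq d₀ (vc (u t)) x ^ m ≤ H' := by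
    intro t ht S hSc hSS
    have h1 : ∫ x in S, Wq d₀ (vc (u t)) x ^ m ≤ ∫ x in S, (d₀ ^ 2 + 2 * M) ^ m :=
      setIntegral_mono_on ((hcV t ht).continuousOn.integrableOn_compact hSc)
        (continuousOn_const.integrableOn_compact hSc) hSc.measurableSet fun x hx =>
        hWm2 t ht x (hSS hx)
    rw [setIntegral_const, smul_eq_mul, mul_comm] at h1
    refine h1.trans ?_
    rw [hH']
    exact mul_le_mul_of_nonneg_left (hvol S hSS) (by positivity)
  obtain ⟨K, hK0, hK⟩ := Lq_bound hT₀ hDat hRO hm hc hcm hB hUp hw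
    (by linarith [hS.hws]) hS.hsR.le (M := M') (by rw [hM']; exact hM0.trans (le_max_left _ _))
    (fun t ht x hx => by
      obtain ⟨h1, h2, h3⟩ := hS.bd t ht x hx
      rw [hM']
      refine ⟨h1.trans (le_max_left _ _), le_trans ?_ (le_max_right _ _)⟩
      refine (rl_le hl (hSM t ht) hd₀ (hδd t ht) x).trans ?_
      have h4 : 2 / d₀ ^ 2 * ∑ i, ∑ j, ∑ k, pd k (pd j (fun y => u t y i)) x ^ 2 ≤
          2 / d₀ ^ 2 * M := mul_le_mul_of_nonneg_left h3 (by positivity)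
      linarith)
    hT₁ hT₁T (h := fun _ => H) (H := H * T) continuousOn_const
    (fun t ht => hint t ht _ (Sh_compact a s w) fun x hx => by
      have hx' : |‖x - a‖ - s| ≤ w := hx
      exact hx'.trans (by linarith))
    (fun t ht => by
      rw [intervalIntegral.integral_const, smul_eq_mul, mul_comm]
      exact mul_le_mul_of_nonneg_left (by linarith [ht.2]) hH0)
  have hK' : ∀ t ∈ Ico T₁ T, ∫ x in closedBall a (s - w), Wq d₀ (vc (u t)) x ^ m
      ≤ 3 ^ m * (K * Real.exp (2 * m * C)) * (T - t) ^ (-(2 * m * γ)) := by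
    intro t ht
    have hTt : 0 < T - t := by linarith [ht.2]
    have ht' : t ∈ Ico T₀ T := ⟨hT₁.le.trans ht.1, ht.2⟩
    have hδt : 0 < δ t := hd₀.trans_le (hδd t ht')
    have h1 : ∫ x in closedBall a (s - w), Wq d₀ (vc (u t)) x ^ m ≤
        ∫ x in closedBall a (s - w), 3 ^ m * δ t ^ (2 * m) * Fl lam δ m u t x := by
      refine setIntegral_mono_on ((hcV t ht).continuousOn.integrableOn_compact
        (isCompact_closedBall _ _)) ((continuous_const.mul
        (hcW t ht)).continuousOn.integrableOn_compact (isCompact_closedBall _ _))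
        measurableSet_closedBall fun x _ => ?_
      have e1 : δ t ^ (2 * m) = (δ t ^ 2) ^ m := by
        rw [← Real.rpow_natCast, ← Real.rpow_mul hδt.le]
        norm_num
      rw [e1, hFe, ← Real.mul_rpow (by norm_num) (by positivity),
        ← Real.mul_rpow (by positivity) (Real.exp_pos _).le]
      refine Real.rpow_le_rpow (Wq_pos hd₀.ne' x).le ?_ hm0.le
      have e2 : δ t ^ 2 * (1 + Wq 0 (wd δ u t) x) = δ t ^ 2 + ∑ i, vc (u t) i x ^ 2 := by
        unfold Wq wd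
        simp only [Fin.sum_univ_three]
        field_simp
        ring
      have e4 := mul_le_mul_of_nonneg_left (le_exp_Ll hl (Wq0_nn (wd δ u t) x))
        (by positivity : 0 ≤ 3 * δ t ^ 2)
      have e5 : 3 * δ t ^ 2 * ((1 + Wq 0 (wd δ u t) x) / 3) =
          δ t ^ 2 * (1 + Wq 0 (wd δ u t) x) := by ring
      rw [e5, e2] at e4
      refine le_trans ?_ e4
      unfold Wq
      have := pow_le_pow_left₀ hd₀.le (hδd t ht') 2
      linarith
    refine h1.trans ?_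
    rw [integral_const_mul, mul_assoc, mul_assoc]
    refine mul_le_mul_of_nonneg_left ?_ (by positivity)
    refine (mul_le_mul_of_nonneg_left (hK t ht) (by positivity)).trans (le_of_eq ?_)
    rw [Real.rpow_def_of_pos hδt, Real.rpow_def_of_pos hTt]
    have e3 : ∀ a b c K : ℝ, Real.exp a * (K * Real.exp b) = K * Real.exp c ↔
        K * Real.exp (a + b) = K * Real.exp c := fun a b c K => by
      rw [Real.exp_add]
      constructor
      · intro h
        linarith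
      · intro h
        linarith
    rw [mul_assoc K, ← Real.exp_add, e3]
    congr 2
    ring
  refine ⟨3 ^ m * (K * Real.exp (2 * m * C)) + H' * T ^ (2 * m * γ),
    add_nonneg (by positivity) (mul_nonneg hH'0 (Real.rpow_nonneg (by linarith) _)),
    fun t ht => ?_⟩
  have hTt : 0 < T - t := by linarith [ht.2]
  have hT0 : 0 < T := by linarith
  have hc1 := hcV t ht
  have hcov : closedBall a (s + 2 * w) ⊆ closedBall a (s - w) ∪ Sh a s (2 * w) := by
    intro x hx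
    rw [mem_closedBall, dist_eq_norm] at hx
    by_cases h1 : ‖x - a‖ ≤ s - w
    · left
      rwa [mem_closedBall, dist_eq_norm]
    · right
      show |‖x - a‖ - s| ≤ 2 * w
      rw [abs_le]
      constructor <;> linarith
  have i1 : IntegrableOn (fun x => Wq d₀ (vc (u t)) x ^ m) (closedBall a (s - w)) :=
    hc1.continuousOn.integrableOn_compact (isCompact_closedBall _ _)
  have i2 : IntegrableOn (fun x => Wq d₀ (vc (u t)) x ^ m) (Sh a s (2 * w)) :=
    hc1.continuousOn.integrableOn_compact (Sh_compact _ _ _)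
  have hnn : ∀ x, 0 ≤ Wq d₀ (vc (u t)) x ^ m := fun x => Real.rpow_nonneg (Wq_pos hd₀.ne' x).le _
  have h1 : ∫ x in closedBall a (s + 2 * w), Wq d₀ (vc (u t)) x ^ m ≤
      ∫ x in closedBall a (s - w) ∪ Sh a s (2 * w), Wq d₀ (vc (u t)) x ^ m :=
    setIntegral_mono_set (i1.union i2) (Eventually.of_forall hnn) hcov.eventuallyLE
  have h2 : ∫ x in closedBall a (s - w) ∪ Sh a s (2 * w), Wq d₀ (vc (u t)) x ^ m ≤
      (∫ x in closedBall a (s - w), Wq d₀ (vc (u t)) x ^ m)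
        + ∫ x in Sh a s (2 * w), Wq d₀ (vc (u t)) x ^ m := by
    have e : closedBall a (s - w) ∪ Sh a s (2 * w) =
        closedBall a (s - w) ∪ (Sh a s (2 * w) \ closedBall a (s - w)) := by
      rw [union_sdiff_self]
    rw [e, setIntegral_union disjoint_sdiff_self_right
      ((Sh_closed a s (2 * w)).measurableSet.diff measurableSet_closedBall) i1
      (i2.mono_set sdiff_subset)]
    have h3 : ∫ x in Sh a s (2 * w) \ closedBall a (s - w), Wq d₀ (vc (u t)) x ^ m ≤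
        ∫ x in Sh a s (2 * w), Wq d₀ (vc (u t)) x ^ m :=
      setIntegral_mono_set i2 (Eventually.of_forall hnn) sdiff_subset.eventuallyLE
    linarith
  have h4 := hK' t ht
  have h5 := hint2 t ht _ (Sh_compact a s (2 * w)) subset_rfl
  have h6 : 1 ≤ T ^ (2 * m * γ) * (T - t) ^ (-(2 * m * γ)) := by
    rw [Real.rpow_neg hTt.le, ← div_eq_mul_inv, ← Real.div_rpow hT0.le hTt.le]
    refine Real.one_le_rpow ?_ (by positivity)
    rw [one_le_div hTt]
    linarith [hT₁0.trans_le ht.1]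
  have h7 := mul_le_mul_of_nonneg_left h6 hH'0
  rw [add_mul]
  linarith

/-- The gradient in small cubes, from the local enstrophy. -/
lemma B2_one {T E : ℝ} {O : Set V} {u : ℝ → V → V} {p : ℝ → V → ℝ} (hu : LSl T E O u p)
    {a : V} {ρ d : ℝ} (hρ : 0 < ρ) (hO : closedBall a ρ ⊆ O) : ∃ B : ℝ, 0 ≤ B ∧
      ∀ τ ∈ Ioo 0 T, ∀ r ∈ Ioc 0 (ρ / 64), ∀ x ∈ closedBall a (5 / 8 * ρ),
        B2 x (8 * r) (u τ) ≤ 2 * (∫ y in closedBall a ρ, Wq d (vc (u τ)) y) + B := by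
  obtain ⟨φ, hφ, hφc, hφ0, hφ1, hφ2, hφ3, -⟩ := cut a (s := 7 / 8 * ρ) (w := 1 / 8 * ρ)
    (by linarith) (by linarith)
  have a3 : ∀ j, ∃ C, ∀ x, ‖pd j φ x‖ ≤ C := fun j =>
    (sm_pd hφ j).continuous.bounded_above_of_compact_support (cs_pd hφc j)
  choose C3 hC3 using a3
  have p3 : ∀ j, 0 ≤ C3 j := fun j => (norm_nonneg _).trans (hC3 j 0)
  obtain ⟨CP, hCP⟩ : ∃ CP, CP = ∑ j, C3 j ^ 2 := ⟨_, rfl⟩
  have hCP0 : 0 ≤ CP := by rw [hCP]; exact Finset.sum_nonneg fun j _ => sq_nonneg _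
  refine ⟨4 * (CP * |E|), by positivity, fun τ hτ r hr x hx => ?_⟩
  have hv : ∀ i, ContDiff ℝ ∞ fun y => u τ y i := fun i => (JT_u hu.toLEq i).slice' hτ
  have hsupp : ∀ y, φ y ≠ 0 → y ∈ closedBall a ρ := fun y hy => by
    rw [mem_closedBall, dist_eq_norm]
    linarith [hφ3 y hy]
  have hdc := dc (v := u τ) hv hφ hφc fun y hy => hu.divfree τ hτ y (hO (hsupp y hy))
  have hg : Continuous (gsq (u τ)) := by
    unfold gsq
    exact continuous_finsetSum _ fun i _ => continuous_finsetSum _ fun j _ =>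
      (sm_pd (hv i) j).continuous.pow 2
  have hc2 : HasCompactSupport fun y => φ y ^ 2 := by
    have e : (fun y => φ y ^ 2) = fun y => φ y * φ y := by funext y; ring
    rw [e]
    exact hφc.mul_right
  -- the cube
  have h1 : B2 x (8 * r) (u τ) ≤ ∫ y, φ y ^ 2 * gsq (u τ) y := by
    unfold B2
    rw [← integral_indicator measurableSet_ball]
    refine integral_mono_of_nonneg (Eventually.of_forall fun y => ?_)
      (int_cs ((hφ.continuous.pow 2).mul hg) hc2.mul_right) (Eventually.of_forall fun y => ?_)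
    · exact indicator_nonneg (fun y _ => gsq_nn _ _) y
    · simp only
      by_cases hy : y ∈ ball x (8 * r)
      · rw [indicator_of_mem hy, hφ2 y, one_pow, one_mul]
        rw [mem_ball, dist_eq_norm] at hy
        rw [mem_closedBall, dist_eq_norm] at hx ⊢
        have e : y - a = (y - x) + (x - a) := by abel
        rw [e]
        linarith [norm_add_le (y - x) (x - a), hr.2]
      · rw [indicator_of_notMem hy]
        exact mul_nonneg (sq_nonneg _) (gsq_nn _ _)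
  refine h1.trans (hdc.trans (add_le_add ?_ ?_))
  · refine mul_le_mul_of_nonneg_left ?_ (by norm_num)
    rw [← integral_indicator measurableSet_closedBall]
    have hw : Continuous (Wq d (vc (u τ))) :=
      (sm_Wq fun i => sm_vc (v := u τ) hv i).continuous
    refine integral_mono_of_nonneg (Eventually.of_forall fun y => ?_) ?_
      (Eventually.of_forall fun y => ?_)
    · exact mul_nonneg (sq_nonneg _) (Finset.sum_nonneg fun _ _ => sq_nonneg _)
    · rw [integrable_indicator_iff measurableSet_closedBall]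
      exact hw.continuousOn.integrableOn_compact (isCompact_closedBall a ρ)
    · simp only
      by_cases hy : φ y = 0
      · rw [hy]
        simp only [ne_eq, OfNat.ofNat_ne_zero, not_false_eq_true, zero_pow, zero_mul]
        refine indicator_nonneg (fun y _ => ?_) y
        rw [Wq_vc]
        have : 0 ≤ ∑ i, vort (u τ) y i ^ 2 := Finset.sum_nonneg fun _ _ => sq_nonneg _
        positivity
      · rw [indicator_of_mem (hsupp y hy), Wq_vc]
        have h3 : 0 ≤ ∑ i, vort (u τ) y i ^ 2 := Finset.sum_nonneg fun _ _ => sq_nonneg _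
        have h4 : φ y ^ 2 ≤ 1 := pow_le_one₀ (hφ0 y) (hφ1 y)
        have h5 := mul_le_mul_of_nonneg_right h4 h3
        have h6 : 0 ≤ d ^ 2 := sq_nonneg d
        linarith
  · refine mul_le_mul_of_nonneg_left ?_ (by norm_num)
    have h2 : ∫ y, (∑ i, pd i φ y ^ 2) * nsq (u τ) y ≤ ∫ y in O, CP * nsq (u τ) y := by
      rw [← integral_indicator hu.openO.measurableSet]
      refine integral_mono_of_nonneg (Eventually.of_forall fun y => ?_) ?_
        (Eventually.of_forall fun y => ?_)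
      · exact mul_nonneg (Finset.sum_nonneg fun _ _ => sq_nonneg _) (nsq_nonneg' _ _)
      · rw [integrable_indicator_iff hu.openO.measurableSet]
        exact (hu.en_int τ hτ).const_mul CP
      · simp only
        have h3 : ∑ i, pd i φ y ^ 2 ≤ CP := by
          rw [hCP]
          refine Finset.sum_le_sum fun j _ => ?_
          rw [← sq_abs]
          exact pow_le_pow_left₀ (abs_nonneg _) (hC3 j y) 2
        by_cases hy : y ∈ O
        · rw [indicator_of_mem hy]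
          exact mul_le_mul_of_nonneg_right h3 (nsq_nonneg' _ _)
        · rw [indicator_of_notMem hy]
          have h4 : φ =ᶠ[𝓝 y] fun _ => 0 := by
            have h5 : y ∉ closedBall a ρ := fun h => hy (hO h)
            filter_upwards [isClosed_closedBall.isOpen_compl.mem_nhds h5] with z hz
            by_contra hcon
            exact hz (hsupp z hcon)
          have h6 : ∀ i, pd i φ y = 0 := fun i => by
            rw [(pd_ev h4 i).eq_of_nhds, pd_c]
          simp [h6]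
    rw [integral_const_mul] at h2
    exact h2.trans (mul_le_mul_of_nonneg_left ((hu.en τ hτ).trans (le_abs_self E)) hCP0)

/-- The end of the proof, from a bound of the enstrophy. -/
theorem reg_end {T E : ℝ} {O : Set V} {u : ℝ → V → V} {p : ℝ → V → ℝ} (hu : LSl T E O u p)
    {T₁ ρ d K β : ℝ} {a : V} (hT₁ : 0 < T₁) (hT₁T : T₁ < T) (hρ : 0 < ρ)
    (hρO : closedBall a ρ ⊆ O) (hK0 : 0 ≤ K) (hβ0 : 0 ≤ β) (hβ : β < 1 / 2)
    (hK : ∀ t ∈ Ico T₁ T, ∫ x in closedBall a ρ, Wq d (vc (u t)) x ≤ K * (T - t) ^ (-β)) :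
    ¬ Pool.Agent.Q85.CL.Sing T u a := by
  intro hs
  have hT : 0 < T := hT₁.trans hT₁T
  obtain ⟨B, hB0, hBB⟩ := B2_one (d := d) hu hρ hρO
  obtain ⟨B', δ, hδ, hbd⟩ := reg_of_pow hT hu (T₁ := T₁) (r₀ := ρ / 64) (A := 2 * K) (B := B)
    (θ := 0) (β := β) (a := a) hT₁.le hT₁T (by linarith) hρ hρO (by linarith) hB0
    hβ0 (by linarith) le_rfl (by linarith) (fun τ hτ r hr x hx => by
      have h1 := hBB τ ⟨hT₁.trans hτ.1, hτ.2⟩ r hr x hx
      have h2 := hK τ ⟨hτ.1.le, hτ.2⟩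
      rw [Real.rpow_zero, one_mul]
      linarith)
  obtain ⟨t, ht, htδ, x, hx, hxB⟩ := hs B' (min δ (ρ / 2)) (lt_min hδ (by linarith))
  refine absurd (hbd t ⟨by linarith [min_le_left δ (ρ / 2)], ht.2⟩ ht.1 x ?_) (not_le.2 hxB)
  rw [mem_closedBall, dist_eq_norm]
  exact hx.trans (min_le_right _ _)

end Pool.Agent.H9SA
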