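import Pool.Agent.H9SA.One

/-!
The equation of the square of the length of the vorticity, and of its powers.
-/

set_option autoImplicit false

open MeasureTheory Set Metric Filter Topology
open scoped ContDiff

namespace Pool.Agent.H9SA

open H459R3.NS Pool.Agent.W583.MD

/-- `d² + |w|²` -/
noncomputable def Wq (d : ℝ) (w : Fin 3 → V → ℝ) (x : V) : ℝ := d ^ 2 + ∑ i, w i x ^ 2

section

variable {d : ℝ} {w v : Fin 3 → V → ℝ}

lemma Wq_pos (hd : d ≠ 0) (x : V) : 0 < Wq d w x := by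
  unfold Wq
  have : 0 ≤ ∑ i, w i x ^ 2 := Finset.sum_nonneg fun i _ => sq_nonneg _
  positivity

lemma sm_Wq (hw : ∀ i, ContDiff ℝ ∞ (w i)) : ContDiff ℝ ∞ (Wq d w) := by
  unfold Wq
  exact contDiff_const.add (ContDiff.sum fun i _ => (hw i).pow 2)

lemma pd_sum1 {f : Fin 3 → V → ℝ} (hf : ∀ i, ContDiff ℝ ∞ (f i)) (j : Fin 3) (x : V) :
    pd j (fun y => ∑ i, f i y) x = ∑ i, pd j (f i) x := by
  unfold pd
  have h : HasFDerivAt (fun y => ∑ i, f i y) _ x :=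
    HasFDerivAt.fun_sum fun i _ => (dif (hf i) x).hasFDerivAt
  rw [h.fderiv]
  simp

lemma pd_Wq (hw : ∀ i, ContDiff ℝ ∞ (w i)) (j : Fin 3) (x : V) :
    pd j (Wq d w) x = ∑ i, 2 * w i x * pd j (w i) x := by
  have e : pd j (Wq d w) x = pd j (fun y => ∑ i, w i y ^ 2) x := by
    unfold pd Wq
    rw [fderiv_const_add]
  rw [e, pd_sum1 fun i => (hw i).pow 2]
  exact Finset.sum_congr rfl fun i _ => pd_sq (hw i) j x

lemma pdd_Wq (hw : ∀ i, ContDiff ℝ ∞ (w i)) (j : Fin 3) (x : V) :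
    pd j (pd j (Wq d w)) x = ∑ i, (2 * w i x * pd j (pd j (w i)) x + 2 * pd j (w i) x ^ 2) := by
  have e : pd j (Wq d w) = fun y => ∑ i, 2 * w i y * pd j (w i) y := funext fun y => pd_Wq hw j y
  rw [e, pd_sum1 fun i => (contDiff_const.mul (hw i)).mul (sm_pd (hw i) j)]
  refine Finset.sum_congr rfl fun i _ => ?_
  rw [pd_mul' (contDiff_const.mul (hw i)) (sm_pd (hw i) j)]
  have e2 : pd j (fun y => 2 * w i y) x = 2 * pd j (w i) x := by
    unfold pd
    have h := (dif (hw i) x).hasFDerivAt.const_mul (2 : ℝ)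
    rw [h.fderiv]
    rfl
  rw [e2]
  ring

/-- The part of the dissipation which belongs to the variation of the direction. -/
noncomputable def Qd (d : ℝ) (w : Fin 3 → V → ℝ) (x : V) : ℝ :=
  (∑ j, ∑ i, pd j (w i) x ^ 2) - 1 / 4 * (∑ j, pd j (Wq d w) x ^ 2) / Wq d w x

lemma Qd_nonneg (hd : d ≠ 0) (hw : ∀ i, ContDiff ℝ ∞ (w i)) (x : V) : 0 ≤ Qd d w x := by
  have hW := Wq_pos (w := w) hd x
  have cs : 1 / 4 * (∑ j, pd j (Wq d w) x ^ 2) / Wq d w x ≤ ∑ j, ∑ i, pd j (w i) x ^ 2 := by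
    rw [div_le_iff₀ hW, Finset.mul_sum, Finset.sum_mul]
    refine Finset.sum_le_sum fun j _ => ?_
    rw [pd_Wq hw]
    have c := Finset.sum_mul_sq_le_sq_mul_sq Finset.univ (fun i => w i x) (fun i => pd j (w i) x)
    have e : ∑ i, 2 * w i x * pd j (w i) x = 2 * ∑ i, w i x * pd j (w i) x := by
      rw [Finset.mul_sum]
      exact Finset.sum_congr rfl fun i _ => by ring
    rw [e]
    have hS : 0 ≤ ∑ i, pd j (w i) x ^ 2 := Finset.sum_nonneg fun i _ => sq_nonneg _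
    have hd2 : 0 < d ^ 2 := by positivity
    have hWd : Wq d w x = d ^ 2 + ∑ i, w i x ^ 2 := rfl
    rw [hWd]
    nlinarith [mul_nonneg hd2.le hS]
  unfold Qd
  linarith

lemma Qd_le (hd : d ≠ 0) (x : V) : Qd d w x ≤ ∑ j, ∑ i, pd j (w i) x ^ 2 := by
  have hW := Wq_pos (w := w) hd x
  have : 0 ≤ 1 / 4 * (∑ j, pd j (Wq d w) x ^ 2) / Wq d w x :=
    div_nonneg (mul_nonneg (by norm_num) (Finset.sum_nonneg fun _ _ => sq_nonneg _)) hW.le
  unfold Qd
  linarith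

/-- The differential inequality of `d² + |w|²`. -/
lemma Wq_ineq (hd : d ≠ 0) (hw : ∀ i, ContDiff ℝ ∞ (w i)) {x : V} {τ : Fin 3 → ℝ} {ρ : ℝ}
    (hρ : 0 ≤ ρ)
    (hτ : ∀ i, τ i = lap (w i) x - ∑ k, v k x * pd k (w i) x + ∑ k, w k x * pd k (v i) x
      - ρ * w i x) :
    (∑ i, 2 * w i x * τ i) + ∑ j, v j x * pd j (Wq d w) x ≤
      lap (Wq d w) x - 1 / 2 * (∑ j, pd j (Wq d w) x ^ 2) / Wq d w x
      + 2 * (((∑ i, ∑ k, w k x * pd k (v i) x * w i x) - Qd d w x) / Wq d w x) * Wq d w x := by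
  have hW := Wq_pos (w := w) hd x
  have h1 : 2 * (((∑ i, ∑ k, w k x * pd k (v i) x * w i x) - Qd d w x) / Wq d w x) * Wq d w x =
      2 * ((∑ i, ∑ k, w k x * pd k (v i) x * w i x) - Qd d w x) := by
    field_simp
  rw [h1]
  have hl : lap (Wq d w) x = (∑ i, 2 * w i x * lap (w i) x) + 2 * ∑ j, ∑ i, pd j (w i) x ^ 2 := by
    unfold lap
    simp only [pdd_Wq hw, Fin.sum_univ_three]
    ring
  have ht : ∑ i, 2 * w i x * τ i + ∑ j, v j x * pd j (Wq d w) x =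
      (∑ i, 2 * w i x * lap (w i) x) + 2 * (∑ i, ∑ k, w k x * pd k (v i) x * w i x)
      - 2 * ρ * ∑ i, w i x ^ 2 := by
    simp only [hτ, pd_Wq hw, Fin.sum_univ_three]
    ring
  have hS : 0 ≤ 2 * ρ * ∑ i, w i x ^ 2 :=
    mul_nonneg (by positivity) (Finset.sum_nonneg fun i _ => sq_nonneg _)
  rw [ht, hl]
  unfold Qd
  have e : 1 / 4 * (∑ j, pd j (Wq d w) x ^ 2) / Wq d w x =
      1 / 2 * (1 / 2 * (∑ j, pd j (Wq d w) x ^ 2) / Wq d w x) := by ring
  rw [e]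
  linarith

end

section

variable {W : V → ℝ} {v : Fin 3 → V → ℝ}

lemma sm_rpow (hW : ContDiff ℝ ∞ W) (hW0 : ∀ x, 0 < W x) (m : ℝ) :
    ContDiff ℝ ∞ (fun y => W y ^ m) :=
  hW.rpow_const_of_ne fun x => (hW0 x).ne'

lemma pd_rpow (hW : ContDiff ℝ ∞ W) (hW0 : ∀ x, 0 < W x) (m : ℝ) (j : Fin 3) (x : V) :
    pd j (fun y => W y ^ m) x = m * W x ^ (m - 1) * pd j W x := by
  unfold pd
  have h := (dif hW x).hasFDerivAt.rpow_const (p := m) (Or.inl (hW0 x).ne')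
  rw [h.fderiv]
  simp only [_root_.smul_apply, smul_eq_mul]

lemma pdd_rpow (hW : ContDiff ℝ ∞ W) (hW0 : ∀ x, 0 < W x) (m : ℝ) (j : Fin 3) (x : V) :
    pd j (pd j (fun y => W y ^ m)) x =
      m * W x ^ (m - 1) * pd j (pd j W) x + m * (m - 1) * W x ^ (m - 2) * pd j W x ^ 2 := by
  have e : pd j (fun y => W y ^ m) = fun y => m * W y ^ (m - 1) * pd j W y :=
    funext fun y => pd_rpow hW hW0 m j y
  rw [e, pd_mul' (contDiff_const.mul (sm_rpow hW hW0 (m - 1))) (sm_pd hW j)]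
  have e2 : pd j (fun y => m * W y ^ (m - 1)) x = m * ((m - 1) * W x ^ (m - 2) * pd j W x) := by
    have h1 : pd j (fun y => m * W y ^ (m - 1)) x = m * pd j (fun y => W y ^ (m - 1)) x := by
      unfold pd
      have h := (dif (sm_rpow hW hW0 (m - 1)) x).hasFDerivAt.const_mul m
      rw [h.fderiv]
      rfl
    rw [h1, pd_rpow hW hW0]
    have e3 : m - 1 - 1 = m - 2 := by ring
    rw [e3]
  rw [e2]
  ring

/-- The differential inequality of a power. -/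
lemma pow_ineq (hW : ContDiff ℝ ∞ W) (hW0 : ∀ x, 0 < W x) {m : ℝ} (hm : 1 / 2 < m) {x : V}
    {Wt rr : ℝ} (h : Wt + ∑ j, v j x * pd j W x ≤
      lap W x - 1 / 2 * (∑ j, pd j W x ^ 2) / W x + 2 * rr * W x) :
    m * W x ^ (m - 1) * Wt + ∑ j, v j x * pd j (fun y => W y ^ m) x ≤
      lap (fun y => W y ^ m) x - (m - 1 / 2) / m * (∑ j, pd j (fun y => W y ^ m) x ^ 2) / W x ^ m
      + 2 * m * rr * W x ^ m := by
  have hWx := hW0 x
  obtain ⟨a, ha⟩ : ∃ a, a = W x ^ (m - 2) := ⟨_, rfl⟩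
  have ha0 : 0 < a := by rw [ha]; positivity
  have e1 : W x ^ (m - 1) = a * W x := by
    rw [ha, ← Real.rpow_add_one hWx.ne']
    congr 1
    ring
  have e2 : W x ^ m = a * W x ^ 2 := by
    rw [ha, ← Real.rpow_natCast (W x) 2, ← Real.rpow_add hWx]
    congr 1
    push_cast
    ring
  have e3 : lap (fun y => W y ^ m) x = m * (a * W x) * lap W x
      + m * (m - 1) * a * ∑ j, pd j W x ^ 2 := by
    unfold lap
    rw [Finset.mul_sum, Finset.mul_sum, ← Finset.sum_add_distrib]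
    refine Finset.sum_congr rfl fun j _ => ?_
    rw [pdd_rpow hW hW0, e1, ← ha]
  have e4 : ∑ j, pd j (fun y => W y ^ m) x ^ 2 = (m * (a * W x)) ^ 2 * ∑ j, pd j W x ^ 2 := by
    rw [Finset.mul_sum]
    refine Finset.sum_congr rfl fun j _ => ?_
    rw [pd_rpow hW hW0, e1]
    ring
  have e5 : ∑ j, v j x * pd j (fun y => W y ^ m) x = m * (a * W x) * ∑ j, v j x * pd j W x := by
    rw [Finset.mul_sum]
    refine Finset.sum_congr rfl fun j _ => ?_
    rw [pd_rpow hW hW0, e1]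
    ring
  rw [e3, e4, e5, e1, e2]
  have hm0 : 0 < m := by linarith
  have h1 := mul_le_mul_of_nonneg_left h (show 0 ≤ m * (a * W x) by positivity)
  have e6 : (m - 1 / 2) / m * ((m * (a * W x)) ^ 2 * ∑ j, pd j W x ^ 2) / (a * W x ^ 2) =
      m * (m - 1 / 2) * a * ∑ j, pd j W x ^ 2 := by
    field_simp
  have e7 : m * (a * W x) * (1 / 2 * (∑ j, pd j W x ^ 2) / W x) =
      m / 2 * a * ∑ j, pd j W x ^ 2 := by
    field_simp
  rw [e6]
  nlinarith

end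

end Pool.Agent.H9SA
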