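import Pool.Agent.H9SA.Mol
import Pool.Agent.H9SA.Pw
import Pool.Agent.Q225.CC.LE
import Pool.Agent.Q2.CL.LEL

/-!
The data: a field `u` and the solution `w` of the vorticity equation, on an open set.
-/

set_option autoImplicit false

open MeasureTheory Set Metric Filter Topology
open scoped ContDiff

namespace Pool.Agent.H9SA

open H459R3.NS Pool.Agent.W583.MD

/-- Gronwall. -/
lemma gron {Z Z' g : ℝ → ℝ} {α β A : ℝ} (hαβ : α ≤ β) (hA : 0 ≤ A)
    (hZ : ∀ t ∈ Icc α β, HasDerivAt Z (Z' t) t) (hg : ContinuousOn g (Icc α β))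
    (hg0 : ∀ t ∈ Icc α β, 0 ≤ g t) (h : ∀ t ∈ Icc α β, Z' t ≤ A * Z t + g t) :
    Z β ≤ Real.exp (A * (β - α)) * (Z α + ∫ t in α..β, g t) := by
  have hE : ∀ t, HasDerivAt (fun t => Real.exp (-(A * (t - α))))
      (-(A * Real.exp (-(A * (t - α))))) t := by
    intro t
    have h1 : HasDerivAt (fun t : ℝ => -(A * (t - α))) (-(A * 1)) t :=
      (((hasDerivAt_id t).sub_const α).const_mul A).neg
    refine h1.exp.congr_deriv ?_
    ring
  have hY : ∀ t ∈ Icc α β, HasDerivAt (fun t => Real.exp (-(A * (t - α))) * Z t)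
      (-(A * Real.exp (-(A * (t - α)))) * Z t + Real.exp (-(A * (t - α))) * Z' t) t :=
    fun t ht => (hE t).mul (hZ t ht)
  have key := intervalIntegral.sub_le_integral_of_hasDeriv_right_of_le hαβ
    (g := fun t => Real.exp (-(A * (t - α))) * Z t)
    (g' := fun t => -(A * Real.exp (-(A * (t - α)))) * Z t + Real.exp (-(A * (t - α))) * Z' t)
    (φ := g) (fun t ht => (hY t ht).continuousAt.continuousWithinAt)
    (fun t ht => (hY t (Ioo_subset_Icc_self ht)).hasDerivWithinAt)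
    (hg.integrableOn_compact isCompact_Icc) (fun t ht => by
      have ht' := Ioo_subset_Icc_self ht
      have h1 := h t ht'
      have h2 := Real.exp_pos (-(A * (t - α)))
      have h3 : Real.exp (-(A * (t - α))) ≤ 1 := by
        rw [Real.exp_le_one_iff]
        have := mul_nonneg hA (sub_nonneg.2 ht'.1)
        linarith
      have h4 := mul_le_mul_of_nonneg_left h1 h2.le
      have h5 := mul_le_mul_of_nonneg_right h3 (hg0 t ht')
      nlinarith)
  simp only [sub_self, mul_zero, neg_zero, Real.exp_zero, one_mul] at key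
  have e : Real.exp (A * (β - α)) * Real.exp (-(A * (β - α))) = 1 := by
    rw [← Real.exp_add, add_neg_cancel, Real.exp_zero]
  have h2 := mul_le_mul_of_nonneg_left key (Real.exp_pos (A * (β - α))).le
  have e2 : Real.exp (A * (β - α)) * (Real.exp (-(A * (β - α))) * Z β - Z α)
      = Z β - Real.exp (A * (β - α)) * Z α := by
    rw [mul_sub, ← mul_assoc, e, one_mul]
  rw [e2] at h2
  linarith

/-- Jointly smooth on `(0, T) × ℝ³`. -/
def Js (T : ℝ) (F : ℝ → V → ℝ) : Prop :=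
  ContDiffOn ℝ ∞ (fun z : ℝ × V => F z.1 z.2) (Ioo 0 T ×ˢ univ)

lemma Js.pd' {T : ℝ} {F : ℝ → V → ℝ} (hf : Js T F) (j : Fin 3) :
    Js T (fun t => pd j (F t)) := by
  have hO : IsOpen (Ioo 0 T ×ˢ (univ : Set V)) := isOpen_Ioo.prod isOpen_univ
  have h1 : ContDiffOn ℝ ∞ (fderiv ℝ (fun z : ℝ × V => F z.1 z.2)) (Ioo 0 T ×ˢ univ) :=
    hf.fderiv_of_isOpen hO (by norm_cast)
  have h2 : ContDiffOn ℝ ∞ (fun z : ℝ × V => fderiv ℝ (fun z : ℝ × V => F z.1 z.2) z
      (0, Pi.single j 1)) (Ioo 0 T ×ˢ univ) := h1.clm_apply contDiffOn_const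
  exact h2.congr fun z hz => Pool.Agent.Q2.CL.pd_eqI hf hz.1 j z.2

lemma Js.sl {T : ℝ} {F : ℝ → V → ℝ} (hf : Js T F) {t : ℝ} (ht : t ∈ Ioo 0 T) :
    ContDiff ℝ ∞ (F t) := slice (F := F) hf ht

lemma Js.hd {T : ℝ} {F : ℝ → V → ℝ} (hf : Js T F) {t : ℝ} (ht : t ∈ Ioo 0 T) (x : V) :
    HasDerivAt (fun s => F s x) (deriv (fun s => F s x) t) t := by
  have h := hd_slice (F := F) hf ht x
  rw [← h.deriv] at h
  exact h

/-- The data: the velocity `u`, the rate `r` and the density `F`, the power of a weight. -/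
structure Dat (T : ℝ) (O : Set V) (u : ℝ → V → V) (r F : ℝ → V → ℝ) (m : ℝ) : Prop where
  su : ∀ i, Js T (fun t x => u t x i)
  sF : Js T F
  F0 : ∀ t x, 0 < F t x
  cr : ContinuousOn (fun z : ℝ × V => r z.1 z.2) (Ioo 0 T ×ˢ univ)
  dv : ∀ t ∈ Ioo 0 T, ∀ x ∈ O, ∑ j, pd j (fun y => u t y j) x = 0
  ineq : ∀ t ∈ Ioo 0 T, ∀ x ∈ O, deriv (fun s => F s x) t
      + ∑ j, (fun j y => u t y j) j x * pd j (F t) x ≤
      lap (F t) x - (m - 1 / 2) / m * (∑ j, pd j (F t) x ^ 2) / F t x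
      + 2 * m * r t x * F t x

variable {T : ℝ} {O : Set V} {u : ℝ → V → V} {r F : ℝ → V → ℝ} {m : ℝ}

lemma Dat.cont_u (h : Dat T O u r F m) :
    ContinuousOn (fun z : ℝ × V => u z.1 z.2) (Ioo 0 T ×ˢ univ) :=
  continuousOn_pi.2 fun i => (h.su i).continuousOn

end Pool.Agent.H9SA
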