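import Pool.Agent.H9SA.Dat
import Pool.Agent.H9SA.Cut

/-!
The local enstrophy, with a splitting of the velocity.
-/

set_option autoImplicit false

open MeasureTheory Set Metric Filter Topology
open scoped ContDiff

namespace Pool.Agent.H9SA

open H459R3.NS Pool.Agent.W583.MD

variable {χ : V → ℝ} {w v g : Fin 3 → V → ℝ} {d : ℝ}

/-- The field. -/
noncomputable def HE (d : ℝ) (χ : V → ℝ) (w v g : Fin 3 → V → ℝ) (j : Fin 3) (x : V) : ℝ :=
  χ x ^ 2 * pd j (Wq d w) x - Wq d w x * pd j (fun y => χ y ^ 2) x - v j x * (χ x ^ 2 * Wq d w x)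
    + 2 * (χ x ^ 2 * w j x * ∑ i, w i x * (v i x - g i x))

lemma pd_add1 {f g : V → ℝ} (hf : ContDiff ℝ ∞ f) (hg : ContDiff ℝ ∞ g) (j : Fin 3) (x : V) :
    pd j (fun y => f y + g y) x = pd j f x + pd j g x := by
  unfold pd
  have h : HasFDerivAt (fun y => f y + g y) _ x := (dif hf x).hasFDerivAt.add (dif hg x).hasFDerivAt
  rw [h.fderiv]
  rfl

lemma pd_cm (c : ℝ) {f : V → ℝ} (hf : ContDiff ℝ ∞ f) (j : Fin 3) (x : V) :
    pd j (fun y => c * f y) x = c * pd j f x := by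
  unfold pd
  rw [((dif hf x).hasFDerivAt.const_mul c).fderiv]
  rfl

variable (hχ : ContDiff ℝ ∞ χ) (hw : ∀ i, ContDiff ℝ ∞ (w i)) (hv : ∀ i, ContDiff ℝ ∞ (v i))
  (hg : ∀ i, ContDiff ℝ ∞ (g i))

include hw hv hg in
lemma sm_wh : ContDiff ℝ ∞ fun x => ∑ i, w i x * (v i x - g i x) :=
  ContDiff.sum fun i _ => (hw i).mul ((hv i).sub (hg i))

include hχ hw hv hg in
lemma sm_HE (j : Fin 3) : ContDiff ℝ ∞ (HE d χ w v g j) := by
  have h2 : ContDiff ℝ ∞ fun y => χ y ^ 2 := hχ.pow 2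
  have hW : ContDiff ℝ ∞ (Wq d w) := sm_Wq hw
  unfold HE
  exact (((h2.mul (sm_pd hW j)).sub (hW.mul (sm_pd h2 j))).sub ((hv j).mul (h2.mul hW))).add
    (contDiff_const.mul ((h2.mul (hw j)).mul (sm_wh hw hv hg)))

include hχ hw hv hg in
lemma div_HE (x : V) : ∑ j, pd j (HE d χ w v g j) x =
    χ x ^ 2 * lap (Wq d w) x - Wq d w x * lap (fun y => χ y ^ 2) x
    - (∑ j, pd j (v j) x) * (χ x ^ 2 * Wq d w x)
    - (∑ j, v j x * pd j (fun y => χ y ^ 2) x) * Wq d w x
    - χ x ^ 2 * (∑ j, v j x * pd j (Wq d w) x)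
    + 2 * ((∑ j, pd j (fun y => χ y ^ 2) x * w j x) * ∑ i, w i x * (v i x - g i x))
    + 2 * (χ x ^ 2 * (∑ j, pd j (w j) x) * ∑ i, w i x * (v i x - g i x))
    + 2 * (χ x ^ 2 * ∑ j, w j x * ∑ i, (pd j (w i) x * (v i x - g i x)
      + w i x * (pd j (v i) x - pd j (g i) x))) := by
  have h2 : ContDiff ℝ ∞ fun y => χ y ^ 2 := hχ.pow 2
  have hW : ContDiff ℝ ∞ (Wq d w) := sm_Wq hw
  have hS := sm_wh hw hv hg
  have key : ∀ j, pd j (HE d χ w v g j) x =
      (χ x ^ 2 * pd j (pd j (Wq d w)) x + pd j (fun y => χ y ^ 2) x * pd j (Wq d w) x)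
      - (Wq d w x * pd j (pd j (fun y => χ y ^ 2)) x
        + pd j (Wq d w) x * pd j (fun y => χ y ^ 2) x)
      - (v j x * (χ x ^ 2 * pd j (Wq d w) x + pd j (fun y => χ y ^ 2) x * Wq d w x)
        + pd j (v j) x * (χ x ^ 2 * Wq d w x))
      + 2 * (pd j (fun y => χ y ^ 2) x * w j x * (∑ i, w i x * (v i x - g i x))
        + χ x ^ 2 * pd j (w j) x * (∑ i, w i x * (v i x - g i x))
        + χ x ^ 2 * w j x * ∑ i, (w i x * (pd j (v i) x - pd j (g i) x)
          + pd j (w i) x * (v i x - g i x))) := by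
    intro j
    unfold HE
    rw [pd_add1 (((h2.mul (sm_pd hW j)).sub (hW.mul (sm_pd h2 j))).sub ((hv j).mul (h2.mul hW)))
      (contDiff_const.mul ((h2.mul (hw j)).mul hS)),
      pd_sub1 ((h2.mul (sm_pd hW j)).sub (hW.mul (sm_pd h2 j))) ((hv j).mul (h2.mul hW)),
      pd_sub1 (h2.mul (sm_pd hW j)) (hW.mul (sm_pd h2 j)),
      pd_mul' h2 (sm_pd hW j), pd_mul' hW (sm_pd h2 j), pd_mul' (hv j) (h2.mul hW),
      pd_mul' h2 hW, pd_cm 2 ((h2.mul (hw j)).mul hS), pd_mul3 h2 (hw j) hS,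
      pd_sum1 fun i => (hw i).mul ((hv i).sub (hg i))]
    congr 3
    congr 1
    refine Finset.sum_congr rfl fun i _ => ?_
    rw [pd_mul' (hw i) ((hv i).sub (hg i)), pd_sub1 (hv i) (hg i)]
  simp only [key, lap]
  simp only [Fin.sum_univ_three]
  ring

include hχ hw hv hg in
/-- The pointwise inequality. -/
lemma ens_pt {x : V} {τ : Fin 3 → ℝ} {η D : ℝ} (hη0 : 0 ≤ η) (hD0 : 0 ≤ D)
    (h1 : χ x ≠ 0 → ∀ i, τ i = lap (w i) x - ∑ k, v k x * pd k (w i) x
      + ∑ k, w k x * pd k (v i) x)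
    (h2 : χ x ≠ 0 → ∑ j, pd j (v j) x = 0) (h3 : χ x ≠ 0 → ∑ j, pd j (w j) x = 0)
    (hη : χ x ≠ 0 → ∀ i, |v i x - g i x| ≤ η) (hDg : χ x ≠ 0 → ∀ i k, |pd k (g i) x| ≤ D) :
    χ x ^ 2 * (∑ i, 2 * w i x * τ i) ≤ ∑ j, pd j (HE d χ w v g j) x
      + Wq d w x * (lap (fun y => χ y ^ 2) x + ∑ j, v j x * pd j (fun y => χ y ^ 2) x)
      + 2 * |(∑ j, pd j (fun y => χ y ^ 2) x * w j x) * ∑ i, w i x * (v i x - g i x)|
      + (6 * D + 2 * η ^ 2) * (χ x ^ 2 * Wq d w x) := by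
  rw [div_HE hχ hw hv hg x]
  obtain ⟨A, hA⟩ : ∃ A, A = (∑ j, pd j (fun y => χ y ^ 2) x * w j x)
    * ∑ i, w i x * (v i x - g i x) := ⟨_, rfl⟩
  have hab := neg_abs_le A
  rw [← hA]
  by_cases hx : χ x = 0
  · have e1 : ∀ j, pd j (fun y => χ y ^ 2) x = 0 := fun j => by rw [pd_sq hχ, hx]; ring
    have hA0 : A = 0 := by
      rw [hA]
      simp [e1]
    rw [hA0]
    simp only [e1, hx]
    simp
  · have a1 := h1 hx
    have a2 := h2 hx
    have a3 := h3 hx
    have a4 := hη hx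
    have a5 := hDg hx
    rw [a2, a3]
    -- Young
    have y1 : ∀ i j, -(2 * (w j x * (pd j (w i) x * (v i x - g i x)))) ≤
        2 * pd j (w i) x ^ 2 + η ^ 2 / 2 * w j x ^ 2 := by
      intro i j
      have h6 : (v i x - g i x) ^ 2 ≤ η ^ 2 := by
        rw [← sq_abs]
        exact pow_le_pow_left₀ (abs_nonneg _) (a4 i) 2
      have h7 := mul_le_mul_of_nonneg_right h6 (sq_nonneg (w j x))
      nlinarith [sq_nonneg (2 * pd j (w i) x + w j x * (v i x - g i x))]
    have y2 : ∀ i j, 2 * (w j x * (w i x * pd j (g i) x)) ≤ D * (w j x ^ 2 + w i x ^ 2) := by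
      intro i j
      have h6 := abs_le.1 (a5 i j)
      have h7 : |w j x * w i x| ≤ (w j x ^ 2 + w i x ^ 2) / 2 := by
        rw [abs_mul]
        nlinarith [sq_nonneg (|w j x| - |w i x|), sq_abs (w j x), sq_abs (w i x)]
      calc 2 * (w j x * (w i x * pd j (g i) x)) = 2 * (w j x * w i x * pd j (g i) x) := by ring
        _ ≤ 2 * (|w j x * w i x| * |pd j (g i) x|) := by
            rw [← abs_mul]
            linarith [le_abs_self (w j x * w i x * pd j (g i) x)]
        _ ≤ 2 * ((w j x ^ 2 + w i x ^ 2) / 2 * D) := by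
            have := mul_le_mul h7 (a5 i j) (abs_nonneg _) (by positivity)
            linarith
        _ = _ := by ring
    have hl : lap (Wq d w) x = (∑ i, 2 * w i x * lap (w i) x)
        + 2 * ∑ j, ∑ i, pd j (w i) x ^ 2 := by
      unfold lap
      simp only [pdd_Wq hw, Fin.sum_univ_three]
      ring
    have hp : ∀ j, pd j (Wq d w) x = ∑ i, 2 * w i x * pd j (w i) x := fun j => pd_Wq hw j x
    -- everything in terms of the sums
    have key : χ x ^ 2 * (∑ i, 2 * w i x * τ i) = χ x ^ 2 * (lap (Wq d w) x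
        - 2 * (∑ j, ∑ i, pd j (w i) x ^ 2) - (∑ j, v j x * pd j (Wq d w) x)
        + 2 * ∑ j, w j x * ∑ i, w i x * pd j (v i) x) := by
      rw [hl]
      simp only [a1, hp, Fin.sum_univ_three]
      ring
    rw [key]
    have s1 : -(2 * ∑ j, w j x * ∑ i, pd j (w i) x * (v i x - g i x)) ≤
        2 * (∑ j, ∑ i, pd j (w i) x ^ 2) + 3 * η ^ 2 / 2 * ∑ j, w j x ^ 2 := by
      simp only [Fin.sum_univ_three]
      have := y1 0 0
      have := y1 0 1
      have := y1 0 2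
      have := y1 1 0
      have := y1 1 1
      have := y1 1 2
      have := y1 2 0
      have := y1 2 1
      have := y1 2 2
      linarith
    have s2 : 2 * ∑ j, w j x * ∑ i, w i x * pd j (g i) x ≤ 6 * D * ∑ j, w j x ^ 2 := by
      simp only [Fin.sum_univ_three]
      have := y2 0 0
      have := y2 0 1
      have := y2 0 2
      have := y2 1 0
      have := y2 1 1
      have := y2 1 2
      have := y2 2 0
      have := y2 2 1
      have := y2 2 2
      linarith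
    have hχ2 : 0 ≤ χ x ^ 2 := sq_nonneg _
    have hW : Wq d w x = d ^ 2 + ∑ j, w j x ^ 2 := rfl
    have hS0 : 0 ≤ ∑ j, w j x ^ 2 := Finset.sum_nonneg fun _ _ => sq_nonneg _
    have t1 := mul_le_mul_of_nonneg_left s1 hχ2
    have t2 := mul_le_mul_of_nonneg_left s2 hχ2
    have t3 : (6 * D + 3 * η ^ 2 / 2) * (χ x ^ 2 * ∑ j, w j x ^ 2) ≤
        (6 * D + 2 * η ^ 2) * (χ x ^ 2 * Wq d w x) := by
      refine mul_le_mul (by nlinarith [sq_nonneg η]) ?_ (by positivity) (by positivity)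
      refine mul_le_mul_of_nonneg_left ?_ hχ2
      rw [hW]
      nlinarith [sq_nonneg d]
    have e9 : ∑ j, w j x * ∑ i, (pd j (w i) x * (v i x - g i x)
        + w i x * (pd j (v i) x - pd j (g i) x)) =
        (∑ j, w j x * ∑ i, pd j (w i) x * (v i x - g i x))
        + (∑ j, w j x * ∑ i, w i x * pd j (v i) x)
        - ∑ j, w j x * ∑ i, w i x * pd j (g i) x := by
      simp only [Fin.sum_univ_three]
      ring
    rw [e9]
    nlinarith

include hχ hw hv hg in
/-- The inequality of the local enstrophy at one time. -/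
theorem ens_ineq (hχc : HasCompactSupport χ) {τ : Fin 3 → V → ℝ} {η D : ℝ} (hη0 : 0 ≤ η)
    (hD0 : 0 ≤ D) (hτc : ∀ i, Continuous (τ i))
    (h1 : ∀ x, χ x ≠ 0 → ∀ i, τ i x = lap (w i) x - ∑ k, v k x * pd k (w i) x
      + ∑ k, w k x * pd k (v i) x)
    (h2 : ∀ x, χ x ≠ 0 → ∑ j, pd j (v j) x = 0) (h3 : ∀ x, χ x ≠ 0 → ∑ j, pd j (w j) x = 0)
    (hη : ∀ x, χ x ≠ 0 → ∀ i, |v i x - g i x| ≤ η)
    (hDg : ∀ x, χ x ≠ 0 → ∀ i k, |pd k (g i) x| ≤ D) :
    ∫ x, χ x ^ 2 * (∑ i, 2 * w i x * τ i x) ≤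
      (∫ x, (Wq d w x * (lap (fun y => χ y ^ 2) x + ∑ j, v j x * pd j (fun y => χ y ^ 2) x)
      + 2 * |(∑ j, pd j (fun y => χ y ^ 2) x * w j x) * ∑ i, w i x * (v i x - g i x)|))
      + (6 * D + 2 * η ^ 2) * ∫ x, χ x ^ 2 * Wq d w x := by
  have h2s : ContDiff ℝ ∞ fun y => χ y ^ 2 := hχ.pow 2
  have hW : ContDiff ℝ ∞ (Wq d w) := sm_Wq hw
  have hS := sm_wh hw hv hg
  have hc2 : HasCompactSupport fun y => χ y ^ 2 := by
    have e : (fun y => χ y ^ 2) = fun y => χ y * χ y := by funext y; ring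
    rw [e]
    exact hχc.mul_right
  have hsum : ∀ {f : Fin 3 → V → ℝ}, (∀ j, HasCompactSupport (f j)) →
      HasCompactSupport fun x => ∑ j, f j x := by
    intro f hf
    have e : (fun x => ∑ j, f j x) = f 0 + f 1 + f 2 := by
      funext x
      rw [Fin.sum_univ_three]
      rfl
    rw [e]
    exact ((hf 0).add (hf 1)).add (hf 2)
  have hHc : ∀ j, HasCompactSupport (HE d χ w v g j) := by
    intro j
    unfold HE
    refine ((hc2.mul_right.sub (cs_pd hc2 j).mul_left).sub (hc2.mul_right.mul_left)).add ?_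
    exact HasCompactSupport.mul_left (hc2.mul_right.mul_right)
  have hZ : Z (fun x => ∑ j, pd j (HE d χ w v g j) x) :=
    Z.sum fun j => Z_pd (sm_HE hχ hw hv hg j) (hHc j) j
  have hlapQ : Continuous (lap fun y => χ y ^ 2) := by
    unfold lap
    exact continuous_finsetSum _ fun j _ => (sm_pd (sm_pd h2s j) j).continuous
  have i0 : Integrable fun x => χ x ^ 2 * (∑ i, 2 * w i x * τ i x) :=
    int_cs (h2s.continuous.mul (continuous_finsetSum _ fun i _ =>
      (continuous_const.mul (hw i).continuous).mul (hτc i))) hc2.mul_right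
  have i1 : Integrable fun x => (Wq d w x * (lap (fun y => χ y ^ 2) x
      + ∑ j, v j x * pd j (fun y => χ y ^ 2) x)
      + 2 * |(∑ j, pd j (fun y => χ y ^ 2) x * w j x) * ∑ i, w i x * (v i x - g i x)|) := by
    refine Integrable.add (int_cs ?_ ?_) (((int_cs ?_ ?_).abs).const_mul 2)
    · exact hW.continuous.mul (hlapQ.add (continuous_finsetSum _ fun j _ =>
        (hv j).continuous.mul (sm_pd h2s j).continuous))
    · have a1 : HasCompactSupport (lap fun y => χ y ^ 2) := hsum fun j => cs_pd (cs_pd hc2 j) j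
      have a2 : HasCompactSupport fun x => ∑ j, v j x * pd j (fun y => χ y ^ 2) x :=
        hsum fun j => (cs_pd hc2 j).mul_left
      exact HasCompactSupport.mul_left (a1.add a2)
    · exact (continuous_finsetSum _ fun j _ => (sm_pd h2s j).continuous.mul
        (hw j).continuous).mul hS.continuous
    · exact HasCompactSupport.mul_right (hsum fun j => (cs_pd hc2 j).mul_right)
  have i2 : Integrable fun x => χ x ^ 2 * Wq d w x :=
    int_cs (h2s.continuous.mul hW.continuous) hc2.mul_right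
  have key := integral_mono i0 ((hZ.1.add i1).add (i2.const_mul (6 * D + 2 * η ^ 2))) fun x => by
    have := ens_pt hχ hw hv hg (d := d) (x := x) (τ := fun i => τ i x) hη0 hD0 (h1 x) (h2 x) (h3 x)
      (hη x) (hDg x)
    simp only [Pi.add_apply]
    linarith
  refine key.trans (le_of_eq ?_)
  have e1 := integral_add (hZ.1.add i1) (i2.const_mul (6 * D + 2 * η ^ 2))
  have e2 := integral_add hZ.1 i1
  simp only [Pi.add_apply] at e1 e2 ⊢
  rw [e1, e2, hZ.2, integral_const_mul, zero_add]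

end Pool.Agent.H9SA
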