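import Pool.Agent.H9SA.Spl

/-!
The splitting of the velocity, continued.
-/

set_option autoImplicit false

open MeasureTheory Set Metric Filter Topology
open scoped ContDiff

namespace Pool.Agent.H9SA

open H459R3.NS W221.NS Pool.Agent.W583.MD Pool.Agent.W268.NS Pool.Agent.Q85.CL Pool.Agent.Q67.VD
open Pool.Agent.H2CV (vc sm_vc JT_u JT_vc)
open Pool.Agent.Q85.CC (cur)

theorem split_at {T E : ℝ} {O : Set V} {u : ℝ → V → V} {p : ℝ → V → ℝ} (hT : 0 < T)
    (hu : LSl T E O u p) {a : V} {R T₁ s w d m : ℝ} (hR : 0 < R) (hRO : closedBall a R ⊆ O)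
    (hT₁ : 0 < T₁) (hT₁T : T₁ < T) (hw : 0 < w) (hs : 0 < s) (hsR : s + 2 * w < R / 4)
    (hd : d ≠ 0) (hm : 3 / 2 < m) : ∃ A : ℝ, 0 ≤ A ∧ ∀ t ∈ Ico T₁ T, ∀ r ∈ Ioc 0 w, ∀ I : ℝ,
      ∫ x in closedBall a (s + 2 * w), Wq d (vc (u t)) x ^ m ≤ I →
      ∃ g : Fin 3 → V → ℝ, (∀ i, ContDiff ℝ ∞ (g i)) ∧ ∀ x ∈ closedBall a (s + w),
        (∀ i, |u t x i - g i x| ≤ A * (I ^ (1 / (2 * m)) * r ^ (1 - 3 / (2 * m)))) ∧
        ∀ i k, |pd k (g i) x| ≤ A * (I ^ (1 / (2 * m)) * r ^ (-(3 / (2 * m))) + 1) := by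
  obtain ⟨C, hC, hdec⟩ := Pool.Agent.Q81.CL.decL
  obtain ⟨J, hJ0, hJ⟩ := Pool.Agent.Q81.CL.l1L T E O u p hT hu a R T₁ hR hRO hT₁ hT₁T
  obtain ⟨V₀, hV₀⟩ : ∃ V₀, V₀ = (volume.real (closedBall a R) + |E|) / (R / 4) ^ 4 := ⟨_, rfl⟩
  have hV₀0 : 0 ≤ V₀ := by rw [hV₀]; positivity
  have hkn := kn_nonneg hm
  have hkf := kf_nonneg (m := m) (by linarith)
  refine ⟨C * (3 * kn m + 3 * kf m + 3 * (J / w ^ 3) + V₀), by positivity,
    fun t ht r hr I hI => ?_⟩
  have ht0 : t ∈ Ioo 0 T := ⟨hT₁.trans_le ht.1, ht.2⟩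
  have hv : SM (u t) := fun i => (JT_u hu.toLEq i).slice' ht0
  have hdiv : DFO O (u t) := fun x hx => hu.divfree t ht0 x hx
  have hdec' := fun i => hdec r (R / 4) (fun y => u t y i) (fun k => cur k i (u t)) a hr.1
    (by linarith [hr.2]) (hv i) (fun k => Pool.Agent.Q284.CL.sm_cur hv k i) (fun x hx =>
      Pool.Agent.Q284.CL.lap_curL hv hu.openO hdiv i (hRO (by
        rw [mem_ball] at hx
        rw [mem_closedBall]
        linarith)))
  choose g hg1 hg2 hg3 using hdec'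
  refine ⟨g, hg1, fun x hx => ?_⟩
  have hxa : dist x a ≤ s + w := hx
  have hxL : x ∈ closedBall a (R / 4) := by
    rw [mem_closedBall]
    linarith
  have hW : Continuous fun y => Wq d (vc (u t)) y ^ m :=
    (sm_rpow (sm_Wq fun i => sm_vc hv i) (fun y => Wq_pos hd y) m).continuous
  have hIw : ∀ ρ ≤ w, ∫ y in closedBall x ρ, Wq d (vc (u t)) y ^ m ≤ I := by
    intro ρ hρ
    refine le_trans ?_ hI
    refine setIntegral_mono_set (hW.continuousOn.integrableOn_compact (isCompact_closedBall _ _))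
      (Eventually.of_forall fun z => Real.rpow_nonneg (Wq_pos hd z).le _) ?_
    exact (closedBall_subset_closedBall' (by linarith)).eventuallyLE
  have hI0 : 0 ≤ I :=
    le_trans (integral_nonneg fun y => Real.rpow_nonneg (Wq_pos hd y).le _) hI
  obtain ⟨P, hP⟩ : ∃ P, P = I ^ (1 / (2 * m)) * r ^ (1 - 3 / (2 * m)) := ⟨_, rfl⟩
  obtain ⟨Q, hQ⟩ : ∃ Q, Q = I ^ (1 / (2 * m)) * r ^ (-(3 / (2 * m))) := ⟨_, rfl⟩
  have hP0 : 0 ≤ P := by
    rw [hP]
    exact mul_nonneg (Real.rpow_nonneg hI0 _) (Real.rpow_nonneg hr.1.le _)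
  have hQ0 : 0 ≤ Q := by
    rw [hQ]
    exact mul_nonneg (Real.rpow_nonneg hI0 _) (Real.rpow_nonneg hr.1.le _)
  have hJw : 0 ≤ J / w ^ 3 := by positivity
  refine ⟨fun i => ?_, fun i k => ?_⟩
  · refine (hg2 i x hxL).trans ?_
    have h1 : ∑ k, pot r (cur k i (u t)) x ≤ ∑ _k : Fin 3, kn m * P := by
      refine Finset.sum_le_sum fun k _ => ?_
      rw [hP]
      exact pot_bd hv hd hm k i x hr.1 (hIw r hr.2)
    rw [Finset.sum_const, Finset.card_univ, Fintype.card_fin, nsmul_eq_mul] at h1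
    rw [← hP]
    have h2 := mul_le_mul_of_nonneg_left h1 hC.le
    refine h2.trans ?_
    push_cast
    have h3 : 0 ≤ C * (3 * kf m + 3 * (J / w ^ 3) + V₀) * P := by positivity
    nlinarith
  · refine (hg3 i x hxL k).trans ?_
    have hsubJ : closedBall x (R / 4) ⊆ closedBall a (R / 2) :=
      closedBall_subset_closedBall' (by linarith)
    have h0 : ∫ y in closedBall x (R / 4), om (u t) y ≤ J := by
      refine le_trans ?_ (hJ t ht)
      exact setIntegral_mono_set ((om_c hv).continuousOn.integrableOn_compact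
        (isCompact_closedBall _ _)) (Eventually.of_forall fun z => Real.sqrt_nonneg _)
        hsubJ.eventuallyLE
    have h1 : ∑ l, far r (R / 4) (cur l i (u t)) x ≤ ∑ _l : Fin 3, (kf m * Q + J / w ^ 3) := by
      refine Finset.sum_le_sum fun l _ => ?_
      rw [hQ]
      exact far_bd hv hd (by linarith) l i x hr.1 (by linarith [hr.2, hr.1]) (by linarith)
        (hIw w le_rfl) h0
    rw [Finset.sum_const, Finset.card_univ, Fintype.card_fin, nsmul_eq_mul] at h1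
    have h2 : (∫ z in closedBall (0 : V) (R / 4), |u t (x + z) i|) / (R / 4) ^ 4 ≤ V₀ := by
      rw [hV₀]
      refine div_le_div_of_nonneg_right ?_ (by positivity)
      rw [shift (fun y => |u t y i|) x (R / 4)]
      have hsub : closedBall x (R / 4) ⊆ closedBall a R :=
        hsubJ.trans (closedBall_subset_closedBall (by linarith))
      have hnc : Continuous (nsq (u t)) := by
        unfold nsq
        exact continuous_finsetSum _ fun i _ => (hv i).continuous.pow 2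
      have i1 : IntegrableOn (fun y => |u t y i|) (closedBall x (R / 4)) :=
        ((hv i).continuous.abs).continuousOn.integrableOn_compact (isCompact_closedBall _ _)
      have i2 : IntegrableOn (nsq (u t)) (closedBall x (R / 4)) :=
        hnc.continuousOn.integrableOn_compact (isCompact_closedBall _ _)
      have i3 : IntegrableOn (fun _ : V => (1 : ℝ)) (closedBall x (R / 4)) :=
        continuousOn_const.integrableOn_compact (isCompact_closedBall _ _)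
      have h3 : ∫ y in closedBall x (R / 4), |u t y i| ≤
          ∫ y in closedBall x (R / 4), (1 + nsq (u t) y) := by
        refine setIntegral_mono_on i1 (i3.add i2) measurableSet_closedBall fun y _ => ?_
        have h4 : u t y i ^ 2 ≤ nsq (u t) y := by
          unfold nsq
          exact Finset.single_le_sum (f := fun i => u t y i ^ 2) (fun _ _ => sq_nonneg _)
            (Finset.mem_univ i)
        rw [← sq_abs] at h4
        nlinarith [sq_nonneg (|u t y i| - 1), abs_nonneg (u t y i)]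
      refine h3.trans ?_
      rw [integral_add i3 i2, setIntegral_const, smul_eq_mul, mul_one]
      refine add_le_add ?_ ?_
      · exact measureReal_mono hsub (isCompact_closedBall a R).measure_ne_top
      · refine le_trans ?_ ((hu.en t ht0).trans (le_abs_self E))
        exact setIntegral_mono_set (hu.en_int t ht0) (Eventually.of_forall fun z =>
          nsq_nonneg' _ _) (hsub.trans hRO).eventuallyLE
    rw [← hQ]
    have h5 := mul_le_mul_of_nonneg_left (add_le_add h1 h2) hC.le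
    refine h5.trans ?_
    push_cast
    have h6 : 0 ≤ C * (3 * kn m) * (Q + 1) := by positivity
    have h7 : 0 ≤ C * (3 * kf m) := by positivity
    have h8 : 0 ≤ C * (3 * (J / w ^ 3) + V₀) * Q := by positivity
    nlinarith

/-- The splitting with the optimal scale. -/
theorem split_opt {T E : ℝ} {O : Set V} {u : ℝ → V → V} {p : ℝ → V → ℝ} (hT : 0 < T)
    (hu : LSl T E O u p) {a : V} {R T₁ s w d m γ K : ℝ} (hR : 0 < R) (hRO : closedBall a R ⊆ O)
    (hT₁ : 0 < T₁) (hT₁T : T₁ < T) (hw : 0 < w) (hs : 0 < s) (hsR : s + 2 * w < R / 4)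
    (hd : d ≠ 0) (hm : 3 / 2 < m) (hγ : 0 ≤ γ) (hK0 : 0 ≤ K)
    (hK : ∀ t ∈ Ico T₁ T, ∫ x in closedBall a (s + 2 * w), Wq d (vc (u t)) x ^ m
      ≤ K * (T - t) ^ (-(2 * m * γ))) :
    ∃ A : ℝ, 0 ≤ A ∧ ∀ t ∈ Ico T₁ T, ∃ g : Fin 3 → V → ℝ, (∀ i, ContDiff ℝ ∞ (g i)) ∧
      ∀ x ∈ closedBall a (s + w),
        (∀ i, |u t x i - g i x| ≤ A * (T - t) ^ (-(γ / (2 - 3 / (2 * m))))) ∧
        ∀ i k, |pd k (g i) x| ≤ A * ((T - t) ^ (-(2 * (γ / (2 - 3 / (2 * m))))) + 1) := by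
  obtain ⟨A, hA, H⟩ := split_at (d := d) hT hu hR hRO hT₁ hT₁T hw hs hsR hd hm
  obtain ⟨θ, hθ⟩ : ∃ θ, θ = 3 / (2 * m) := ⟨_, rfl⟩
  have hm0 : 0 < 2 * m := by linarith
  have hθ0 : 0 < θ := by rw [hθ]; positivity
  have hθ1 : θ < 1 := by
    rw [hθ, div_lt_one hm0]
    linarith
  rw [← hθ]
  obtain ⟨lam, hlam⟩ : ∃ lam, lam = γ / (2 - θ) := ⟨_, rfl⟩
  have hlam0 : 0 ≤ lam := by
    rw [hlam]
    exact div_nonneg hγ (by linarith)
  have hγl : γ = lam * (2 - θ) := by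
    rw [hlam]
    field_simp [show (2 - θ) ≠ 0 by linarith]
  rw [← hlam]
  obtain ⟨κ, hκ⟩ : ∃ κ, κ = w * T⁻¹ ^ lam := ⟨_, rfl⟩
  have hκ0 : 0 < κ := by rw [hκ]; positivity
  obtain ⟨K₁, hK₁⟩ : ∃ K₁, K₁ = K ^ (1 / (2 * m)) := ⟨_, rfl⟩
  have hK₁0 : 0 ≤ K₁ := by rw [hK₁]; exact Real.rpow_nonneg hK0 _
  refine ⟨A * (K₁ * κ ^ (1 - θ)) + A * (K₁ * κ ^ (-θ) + 1),
    by positivity, fun t ht => ?_⟩
  obtain ⟨τ, hτ⟩ : ∃ τ, τ = T - t := ⟨_, rfl⟩
  have hτ0 : 0 < τ := by rw [hτ]; linarith [ht.2]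
  have hτT : τ ≤ T := by rw [hτ]; linarith [ht.1]
  have hr0 : 0 < κ * τ ^ lam := by positivity
  have hrw : κ * τ ^ lam ≤ w := by
    rw [hκ, mul_assoc, ← Real.mul_rpow (by positivity) hτ0.le]
    have h1 : (T⁻¹ * τ) ^ lam ≤ 1 := by
      refine Real.rpow_le_one (by positivity) ?_ hlam0
      rw [inv_mul_le_iff₀ hT]
      linarith
    nlinarith
  obtain ⟨g, hg1, hg2⟩ := H t ht (κ * τ ^ lam) ⟨hr0, hrw⟩ (K * (T - t) ^ (-(2 * m * γ))) (hK t ht)
  rw [← hτ, ← hθ] at hg2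
  rw [← hτ]
  have eI : (K * τ ^ (-(2 * m * γ))) ^ (1 / (2 * m)) = K₁ * τ ^ (-γ) := by
    rw [Real.mul_rpow hK0 (by positivity), ← Real.rpow_mul hτ0.le, hK₁]
    congr 2
    field_simp
  have e1 : K₁ * τ ^ (-γ) * (κ * τ ^ lam) ^ (1 - θ) = K₁ * κ ^ (1 - θ) * τ ^ (-lam) := by
    rw [Real.mul_rpow hκ0.le (by positivity), ← Real.rpow_mul hτ0.le]
    have e : τ ^ (-lam) = τ ^ (-γ) * τ ^ (lam * (1 - θ)) := by
      rw [← Real.rpow_add hτ0]
      congr 1
      rw [hγl]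
      ring
    rw [e]
    ring
  have e2 : K₁ * τ ^ (-γ) * (κ * τ ^ lam) ^ (-θ) = K₁ * κ ^ (-θ) * τ ^ (-(2 * lam)) := by
    rw [Real.mul_rpow hκ0.le (by positivity), ← Real.rpow_mul hτ0.le]
    have e : τ ^ (-(2 * lam)) = τ ^ (-γ) * τ ^ (lam * -θ) := by
      rw [← Real.rpow_add hτ0]
      congr 1
      rw [hγl]
      ring
    rw [e]
    ring
  rw [eI, e1, e2] at hg2
  have hp1 : 0 ≤ τ ^ (-lam) := by positivity
  have hp2 : 0 ≤ τ ^ (-(2 * lam)) := by positivity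
  refine ⟨g, hg1, fun x hx => ⟨fun i => ((hg2 x hx).1 i).trans ?_,
    fun i k => ((hg2 x hx).2 i k).trans ?_⟩⟩
  · have h1 : 0 ≤ A * (K₁ * κ ^ (-θ) + 1) * τ ^ (-lam) := by positivity
    nlinarith
  · have h1 : 0 ≤ A * (K₁ * κ ^ (1 - θ)) * (τ ^ (-(2 * lam)) + 1) := by positivity
    have h2 : 0 ≤ A * (K₁ * κ ^ (-θ)) := by positivity
    have h3 : 0 ≤ A * τ ^ (-(2 * lam)) := by positivity
    nlinarith

end Pool.Agent.H9SA
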