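import Pool.Agent.H9SA.Ens
import Pool.Agent.H9SA.Asm
import Pool.Agent.H9SA.Spl2

/-!
The bound of the local enstrophy.
-/

set_option autoImplicit false

open MeasureTheory Set Metric Filter Topology
open scoped ContDiff

namespace Pool.Agent.H9SA

open H459R3.NS W221.NS Pool.Agent.W583.MD Pool.Agent.W268.NS Pool.Agent.Q85.CL
open Pool.Agent.H2CV (vc sm_vc JT_u JT_vc vor_eq av div_vc)

/-- Gronwall with an integrable power. -/
lemma gron2 {Z Z' : ℝ → ℝ} {α τ T B β : ℝ} (hατ : α ≤ τ) (hτT : τ < T) (hB : 0 ≤ B)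
    (hβ0 : 0 ≤ β) (hβ : β < 1) (hZ : ∀ t ∈ Icc α τ, HasDerivAt Z (Z' t) t) (hZ0 : ∀ t ∈ Icc α τ, 0 ≤ Z t)
    (h : ∀ t ∈ Icc α τ, Z' t ≤ B * (T - t) ^ (-β) * (1 + Z t)) :
    1 + Z τ ≤ (1 + Z α) * Real.exp (B * (T - α) ^ (1 - β) / (1 - β)) := by
  have hP : ∀ t ∈ Icc α τ, HasDerivAt (fun t => Real.exp (B / (1 - β) * (T - t) ^ (1 - β)))
      (Real.exp (B / (1 - β) * (T - t) ^ (1 - β)) * -(B * (T - t) ^ (-β))) t := by
    intro t ht
    have hTt : T - t ≠ 0 := by linarith [ht.2]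
    have h1 : HasDerivAt (fun t : ℝ => T - t) (-1) t := by
      simpa using (hasDerivAt_id t).const_sub T
    have h2 := (h1.rpow_const (p := 1 - β) (Or.inl hTt)).const_mul (B / (1 - β))
    refine h2.exp.congr_deriv ?_
    congr 1
    have e : 1 - β - 1 = -β := by ring
    have h3 : 1 - β ≠ 0 := by linarith
    rw [e]
    field_simp
  have hY : ∀ t ∈ Icc α τ, HasDerivAt
      (fun t => (1 + Z t) * Real.exp (B / (1 - β) * (T - t) ^ (1 - β)))
      (Z' t * Real.exp (B / (1 - β) * (T - t) ^ (1 - β))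
        + (1 + Z t) * (Real.exp (B / (1 - β) * (T - t) ^ (1 - β)) * -(B * (T - t) ^ (-β)))) t :=
    fun t ht => ((hZ t ht).const_add 1).mul (hP t ht)
  have hanti : AntitoneOn (fun t => (1 + Z t) * Real.exp (B / (1 - β) * (T - t) ^ (1 - β)))
      (Icc α τ) := by
    refine antitoneOn_of_hasDerivWithinAt_nonpos (convex_Icc α τ)
      (fun t ht => (hY t ht).continuousAt.continuousWithinAt)
      (fun t ht => (hY t (interior_subset ht)).hasDerivWithinAt) fun t ht => ?_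
    have ht' : t ∈ Icc α τ := interior_subset ht
    have h1 := h t ht'
    have h2 := Real.exp_pos (B / (1 - β) * (T - t) ^ (1 - β))
    have h3 : Z' t * Real.exp (B / (1 - β) * (T - t) ^ (1 - β))
        + (1 + Z t) * (Real.exp (B / (1 - β) * (T - t) ^ (1 - β)) * -(B * (T - t) ^ (-β)))
        = (Z' t - B * (T - t) ^ (-β) * (1 + Z t))
          * Real.exp (B / (1 - β) * (T - t) ^ (1 - β)) := by ring
    rw [h3]
    exact mul_nonpos_of_nonpos_of_nonneg (by linarith) h2.le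
  have h1 := hanti (left_mem_Icc.2 hατ) (right_mem_Icc.2 hατ) hατ
  simp only at h1
  have h2 : 1 ≤ Real.exp (B / (1 - β) * (T - τ) ^ (1 - β)) := by
    refine Real.one_le_exp ?_
    have : 0 < 1 - β := by linarith
    have : 0 ≤ (T - τ) ^ (1 - β) := Real.rpow_nonneg (by linarith) _
    positivity
  have h3 : 0 ≤ 1 + Z τ := by linarith [hZ0 τ (right_mem_Icc.2 hατ)]
  have h4 := mul_le_mul_of_nonneg_left h2 h3
  have e : B * (T - α) ^ (1 - β) / (1 - β) = B / (1 - β) * (T - α) ^ (1 - β) := by ring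
  rw [e]
  linarith

/-- The boundary term of the enstrophy. -/
lemma ens_bdry {χ : V → ℝ} {w v g : Fin 3 → V → ℝ} {d C1 C2 M η : ℝ} {x : V} (hC2 : 0 ≤ C2)
    (hM : 0 ≤ M) (hη : 0 ≤ η) (h1 : |lap (fun y => χ y ^ 2) x| ≤ C1)
    (h2 : ∀ j, |pd j (fun y => χ y ^ 2) x| ≤ C2) (hv : ∀ j, |v j x| ≤ M)
    (hg : ∀ j, |v j x - g j x| ≤ η) :
    Wq d w x * (lap (fun y => χ y ^ 2) x + ∑ j, v j x * pd j (fun y => χ y ^ 2) x)
      + 2 * |(∑ j, pd j (fun y => χ y ^ 2) x * w j x) * ∑ i, w i x * (v i x - g i x)| ≤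
      Wq d w x * (C1 + 3 * (M * C2) + 6 * (C2 * η)) := by
  have hS0 : 0 ≤ ∑ i, w i x ^ 2 := Finset.sum_nonneg fun _ _ => sq_nonneg _
  have hW0 : 0 ≤ Wq d w x := by unfold Wq; positivity
  have hSW : ∑ i, w i x ^ 2 ≤ Wq d w x := by
    unfold Wq
    linarith [sq_nonneg d]
  have a1 : lap (fun y => χ y ^ 2) x + ∑ j, v j x * pd j (fun y => χ y ^ 2) x ≤
      C1 + 3 * (M * C2) := by
    refine add_le_add ((le_abs_self _).trans h1) ?_
    have : ∀ j, v j x * pd j (fun y => χ y ^ 2) x ≤ M * C2 := fun j => by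
      refine (le_abs_self _).trans ?_
      rw [abs_mul]
      exact mul_le_mul (hv j) (h2 j) (abs_nonneg _) hM
    rw [Fin.sum_univ_three]
    linarith [this 0, this 1, this 2]
  have a2 : |∑ j, pd j (fun y => χ y ^ 2) x * w j x| ≤ C2 * ∑ j, |w j x| := by
    rw [Finset.mul_sum]
    refine (Finset.abs_sum_le_sum_abs _ _).trans (Finset.sum_le_sum fun j _ => ?_)
    rw [abs_mul]
    exact mul_le_mul_of_nonneg_right (h2 j) (abs_nonneg _)
  have a3 : |∑ i, w i x * (v i x - g i x)| ≤ η * ∑ j, |w j x| := by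
    rw [Finset.mul_sum]
    refine (Finset.abs_sum_le_sum_abs _ _).trans (Finset.sum_le_sum fun j _ => ?_)
    rw [abs_mul, mul_comm]
    exact mul_le_mul_of_nonneg_right (hg j) (abs_nonneg _)
  have a4 : |(∑ j, pd j (fun y => χ y ^ 2) x * w j x) * ∑ i, w i x * (v i x - g i x)| ≤
      C2 * η * (3 * ∑ i, w i x ^ 2) := by
    rw [abs_mul]
    have h3 : 0 ≤ ∑ j, |w j x| := Finset.sum_nonneg fun _ _ => abs_nonneg _
    have h4 : (∑ j, |w j x|) ^ 2 ≤ 3 * ∑ i, w i x ^ 2 := by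
      simp only [Fin.sum_univ_three]
      nlinarith [sq_nonneg (|w 0 x| - |w 1 x|), sq_nonneg (|w 1 x| - |w 2 x|),
        sq_nonneg (|w 2 x| - |w 0 x|), sq_abs (w 0 x), sq_abs (w 1 x), sq_abs (w 2 x)]
    calc _ ≤ (C2 * ∑ j, |w j x|) * (η * ∑ j, |w j x|) :=
          mul_le_mul a2 a3 (abs_nonneg _) (by positivity)
      _ = C2 * η * (∑ j, |w j x|) ^ 2 := by ring
      _ ≤ _ := mul_le_mul_of_nonneg_left h4 (by positivity)
  have a5 : C2 * η * (3 * ∑ i, w i x ^ 2) ≤ C2 * η * (3 * Wq d w x) := by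
    refine mul_le_mul_of_nonneg_left ?_ (by positivity)
    linarith
  have a6 := mul_le_mul_of_nonneg_left a1 hW0
  nlinarith

theorem ens_bound {T E : ℝ} {O : Set V} {u : ℝ → V → V} {p : ℝ → V → ℝ} (hu : LSl T E O u p)
    {T₀ T₁ R d A lam : ℝ} {a : V} (hT₀ : 0 < T₀) (hRO : closedBall a R ⊆ O) (hd : d ≠ 0)
    {s w M : ℝ} (hS : SD T₀ T u a R s w M) (hT₁ : T₀ < T₁) (hT₁T : T₁ < T) (hA : 0 ≤ A)
    (hlam : 0 ≤ lam) (hlam1 : 2 * lam < 1)
    (hg : ∀ t ∈ Ico T₁ T, ∃ g : Fin 3 → V → ℝ, (∀ i, ContDiff ℝ ∞ (g i)) ∧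
      ∀ x ∈ closedBall a (s + w), (∀ i, |u t x i - g i x| ≤ A * (T - t) ^ (-lam)) ∧
        ∀ i k, |pd k (g i) x| ≤ A * ((T - t) ^ (-(2 * lam)) + 1)) :
    ∃ K, 0 ≤ K ∧ ∀ t ∈ Ico T₁ T, ∫ x in closedBall a (s - w), Wq d (vc (u t)) x ≤ K := by
  have hw := hS.hw
  have hM0 := hS.hM0
  have hsw : w < s := by linarith [hS.hws]
  have hT : 0 < T := by linarith
  obtain ⟨χ, hχ, hχc, hχ0, hχ1, hχ2, hχ3, hχ4⟩ := cut a hw hsw
  have h2s : ContDiff ℝ ∞ fun y => χ y ^ 2 := hχ.pow 2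
  have hc2 : HasCompactSupport fun y => χ y ^ 2 := by
    have e : (fun y => χ y ^ 2) = fun y => χ y * χ y := by funext y; ring
    rw [e]
    exact hχc.mul_right
  have hlapc : Continuous (lap fun y => χ y ^ 2) := by
    unfold lap
    exact continuous_finsetSum _ fun j _ => (sm_pd (sm_pd h2s j) j).continuous
  have a1 : ∃ C, ∀ x, |lap (fun y => χ y ^ 2) x| ≤ C := by
    have : ∀ j, ∃ C, ∀ x, ‖pd j (pd j fun y => χ y ^ 2) x‖ ≤ C := fun j =>
      (sm_pd (sm_pd h2s j) j).continuous.bounded_above_of_compact_support (cs_pd (cs_pd hc2 j) j)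
    choose C hC using this
    refine ⟨∑ j, C j, fun x => ?_⟩
    unfold lap
    exact (Finset.abs_sum_le_sum_abs _ _).trans (Finset.sum_le_sum fun j _ => hC j x)
  obtain ⟨C1, hC1⟩ := a1
  have a2 : ∃ C, 0 ≤ C ∧ ∀ x j, |pd j (fun y => χ y ^ 2) x| ≤ C := by
    have : ∀ j, ∃ C, ∀ x, ‖pd j (fun y => χ y ^ 2) x‖ ≤ C := fun j =>
      (sm_pd h2s j).continuous.bounded_above_of_compact_support (cs_pd hc2 j)
    choose C hC using this
    have hC0 : ∀ j, 0 ≤ C j := fun j => (norm_nonneg _).trans (hC j 0)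
    refine ⟨∑ j, C j, Finset.sum_nonneg fun j _ => hC0 j, fun x j => (hC j x).trans ?_⟩
    exact Finset.single_le_sum (f := C) (fun j _ => hC0 j) (Finset.mem_univ j)
  obtain ⟨C2, hC20, hC2⟩ := a2
  have hC10 : 0 ≤ C1 := (abs_nonneg _).trans (hC1 0)
  -- outside the shell
  have hout : ∀ x ∉ Sh a s w, lap (fun y => χ y ^ 2) x = 0 ∧ ∀ j, pd j (fun y => χ y ^ 2) x = 0 := by
    intro x hx
    have h1 := hχ4 0 1 (fun _ _ => 0) x hx
    unfold BR at h1
    simp only [zero_mul, Finset.sum_const_zero, zero_div, add_zero] at h1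
    refine ⟨h1, fun j => ?_⟩
    have h2 := hχ4 0 1 (fun i _ => if i = j then 1 else 0) x hx
    unfold BR at h2
    simp only [h1, ite_mul, one_mul, zero_mul, Finset.sum_ite_eq', Finset.mem_univ, if_true,
      zero_div, add_zero, zero_add] at h2
    exact h2
  have hsw : ∀ i, Js T (fun t x => vc (u t) i x) := fun i => JT_vc hu.toLEq i
  have hWj : Js T (fun t x => Wq d (vc (u t)) x) :=
    contDiffOn_const.add (ContDiffOn.sum fun i _ => (hsw i).pow 2)
  have hI : ∀ t ∈ Ico T₁ T, t ∈ Ioo 0 T := fun t ht => ⟨by linarith [ht.1], ht.2⟩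
  set Y : ℝ → ℝ := fun t => ∫ x, χ x ^ 2 * Wq d (vc (u t)) x with hYdef
  have hY0 : ∀ t, 0 ≤ Y t := fun t => integral_nonneg fun x =>
    mul_nonneg (sq_nonneg _) (Wq_pos hd x).le
  obtain ⟨R', hR'⟩ : ∃ R : ℝ, tsupport χ ⊆ closedBall (0 : V) R :=
    hχc.isCompact.isBounded.subset_closedBall 0
  have hz0 : ∀ z ∉ closedBall (0 : V) R', χ z = 0 := fun z hz =>
    image_eq_zero_of_notMem_tsupport fun h => hz (hR' h)
  have hYd : ∀ t ∈ Ico T₁ T, HasDerivAt Y (∫ x, χ x ^ 2 * (∑ i, 2 * vc (u t) i x *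
      deriv (fun s => vc (u s) i x) t)) t := by
    intro t ht
    have hj : ContDiffOn ℝ ∞ (fun z : ℝ × V => χ z.2 ^ 2 * Wq d (vc (u z.1)) z.2)
        (Ioo 0 T ×ˢ univ) :=
      ((hχ.comp contDiff_snd).pow 2).contDiffOn.mul hWj
    have h1 := Pool.Agent.Q225.CC.hd_intR (F := fun t x => χ x ^ 2 * Wq d (vc (u t)) x)
      (R := R') hj (fun t _ z hz => by rw [hz0 z hz]; ring) (hI t ht)
    refine h1.congr_deriv (integral_congr_ae (Eventually.of_forall fun x => ?_))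
    simp only
    have h2 : HasDerivAt (fun s => Wq d (vc (u s)) x)
        (∑ i, 2 * vc (u t) i x * deriv (fun s => vc (u s) i x) t) t := by
      unfold Wq
      refine HasDerivAt.const_add _ (HasDerivAt.fun_sum fun i _ => ?_)
      refine (((hsw i).hd (hI t ht) x).pow 2).congr_deriv ?_
      norm_num
    exact (h2.const_mul (χ x ^ 2)).deriv
  obtain ⟨vol, hvol⟩ : ∃ vol, vol = volume.real (Sh a s w) := ⟨_, rfl⟩
  have hvol0 : 0 ≤ vol := by rw [hvol]; positivity
  obtain ⟨Wm, hWm⟩ : ∃ Wm, Wm = d ^ 2 + 2 * M := ⟨_, rfl⟩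
  have hWm0 : 0 ≤ Wm := by rw [hWm]; positivity
  -- the constant
  obtain ⟨B₁, hB₁⟩ : ∃ B₁, B₁ = vol * (Wm * (C1 + 3 * (M * C2) + 6 * (C2 * A)))
    + 6 * A + 2 * A ^ 2 := ⟨_, rfl⟩
  have hB₁0 : 0 ≤ B₁ := by rw [hB₁]; positivity
  obtain ⟨β, hβ⟩ : ∃ β, β = 2 * lam := ⟨_, rfl⟩
  have hβ0 : 0 ≤ β := by linarith
  have hdi : ∀ t ∈ Ico T₁ T, ∫ x, χ x ^ 2 * (∑ i, 2 * vc (u t) i x *
      deriv (fun s => vc (u s) i x) t) ≤ B₁ * (1 + T ^ β) * (T - t) ^ (-β) * (1 + Y t) := by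
    intro t ht
    obtain ⟨g, hg1, hg2⟩ := hg t ht
    have hTt : 0 < T - t := by linarith [ht.2]
    have htI := hI t ht
    obtain ⟨P, hP⟩ : ∃ P, P = (T - t) ^ (-lam) := ⟨_, rfl⟩
    have hP0 : 0 ≤ P := by rw [hP]; positivity
    have hP2 : (T - t) ^ (-(2 * lam)) = P ^ 2 := by
      rw [hP, ← Real.rpow_natCast, ← Real.rpow_mul hTt.le]
      congr 1
      push_cast
      ring
    have hv : ∀ i, ContDiff ℝ ∞ fun y => u t y i := fun i => (JT_u hu.toLEq i).slice' htI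
    have hsupp : ∀ x, χ x ≠ 0 → x ∈ closedBall a (s + w) := fun x hx => by
      rw [mem_closedBall, dist_eq_norm]
      exact (hχ3 x hx).le
    have hOx : ∀ x, χ x ≠ 0 → x ∈ O := fun x hx => hRO
      (closedBall_subset_closedBall (by linarith [hS.hsR]) (hsupp x hx))
    rw [hP2] at hg2
    rw [← hP] at hg2
    have key := ens_ineq (d := d) (w := vc (u t)) (v := fun i y => u t y i) (g := g) hχ
      (fun i => sm_vc hv i) hv hg1 hχc
      (τ := fun i x => deriv (fun s => vc (u s) i x) t) (η := A * P) (D := A * (P ^ 2 + 1))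
      (by positivity) (by positivity)
      (fun i => cont_dt_slice (F := fun t x => vc (u t) i x) (hsw i) htI)
      (fun x hx i => by
        have := vor_eq hu.toLEq htI (hOx x hx) i
        unfold Pool.Agent.H2CV.ee av at this
        exact this)
      (fun x hx => hu.divfree t htI x (hOx x hx)) (fun x _ => div_vc hv x)
      (fun x hx i => (hg2 x (hsupp x hx)).1 i) (fun x hx i k => (hg2 x (hsupp x hx)).2 i k)
    refine key.trans ?_
    -- the boundary term
    have hb : ∫ x, (Wq d (vc (u t)) x * (lap (fun y => χ y ^ 2) x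
        + ∑ j, u t x j * pd j (fun y => χ y ^ 2) x)
        + 2 * |(∑ j, pd j (fun y => χ y ^ 2) x * vc (u t) j x) *
          ∑ i, vc (u t) i x * (u t x i - g i x)|) ≤
        vol * (Wm * (C1 + 3 * (M * C2) + 6 * (C2 * (A * P)))) := by
      have e1 : ∫ x, (Wq d (vc (u t)) x * (lap (fun y => χ y ^ 2) x
        + ∑ j, u t x j * pd j (fun y => χ y ^ 2) x)
        + 2 * |(∑ j, pd j (fun y => χ y ^ 2) x * vc (u t) j x) *
          ∑ i, vc (u t) i x * (u t x i - g i x)|) = ∫ x in Sh a s w,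
        (Wq d (vc (u t)) x * (lap (fun y => χ y ^ 2) x
        + ∑ j, u t x j * pd j (fun y => χ y ^ 2) x)
        + 2 * |(∑ j, pd j (fun y => χ y ^ 2) x * vc (u t) j x) *
          ∑ i, vc (u t) i x * (u t x i - g i x)|) := by
        rw [setIntegral_eq_integral_of_forall_compl_eq_zero]
        intro x hx
        obtain ⟨h1, h2⟩ := hout x hx
        simp [h1, h2]
      rw [e1]
      have e2 : ∫ x in Sh a s w,
        (Wq d (vc (u t)) x * (lap (fun y => χ y ^ 2) x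
        + ∑ j, u t x j * pd j (fun y => χ y ^ 2) x)
        + 2 * |(∑ j, pd j (fun y => χ y ^ 2) x * vc (u t) j x) *
          ∑ i, vc (u t) i x * (u t x i - g i x)|) ≤
          ∫ x in Sh a s w, (Wm * (C1 + 3 * (M * C2) + 6 * (C2 * (A * P)))) := by
        have hWc : Continuous (Wq d (vc (u t))) := (sm_Wq fun i => sm_vc hv i).continuous
        have hwc : ∀ i, Continuous (vc (u t) i) := fun i => (sm_vc hv i).continuous
        have hvc : ∀ i, Continuous fun x => u t x i := fun i => (hv i).continuous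
        have hgc : ∀ i, Continuous (g i) := fun i => (hg1 i).continuous
        have hpc : ∀ j, Continuous (pd j fun y => χ y ^ 2) := fun j => (sm_pd h2s j).continuous
        refine setIntegral_mono_on ?_ (continuousOn_const.integrableOn_compact (Sh_compact a s w))
          (Sh_closed a s w).measurableSet fun x hx => ?_
        · refine ContinuousOn.integrableOn_compact (Sh_compact a s w) (Continuous.continuousOn ?_)
          refine (hWc.mul (hlapc.add (continuous_finsetSum _ fun j _ => (hvc j).mul (hpc j)))).add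
            (continuous_const.mul (Continuous.abs ?_))
          exact (continuous_finsetSum _ fun j _ => (hpc j).mul (hwc j)).mul
            (continuous_finsetSum _ fun i _ => (hwc i).mul ((hvc i).sub (hgc i)))
        · have hx' : |‖x - a‖ - s| ≤ w := hx
          obtain ⟨b1, b2, -⟩ := hS.bd t ⟨by linarith [ht.1], ht.2⟩ x (hx'.trans (by linarith))
          have b3 : x ∈ closedBall a (s + w) := by
            rw [mem_closedBall, dist_eq_norm]
            linarith [(abs_le.1 hx').2]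
          have h1 := ens_bdry (χ := χ) (w := vc (u t)) (v := fun i y => u t y i) (g := g) (d := d)
            (C1 := C1) (C2 := C2) (M := M) (η := A * P) (x := x) hC20 hM0 (by positivity) (hC1 x)
            (hC2 x) (fun j => (norm_le_pi_norm (u t x) j).trans b1) (hg2 x b3).1
          refine h1.trans (mul_le_mul_of_nonneg_right ?_ (by positivity))
          rw [Wq_vc, hWm]
          linarith [vort_le_gsq (u t) x]
      rw [setIntegral_const, smul_eq_mul, ← hvol] at e2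
      exact e2
    have hYt := hY0 t
    have hY1 : (∫ x, χ x ^ 2 * Wq d (vc (u t)) x) = Y t := rfl
    rw [hY1]
    refine (add_le_add_left hb _).trans ?_
    -- algebra
    have hP1 : P ≤ 1 + P ^ 2 := by nlinarith [sq_nonneg (P - 1)]
    have c1 : vol * (Wm * (C1 + 3 * (M * C2) + 6 * (C2 * (A * P)))) ≤
        vol * (Wm * (C1 + 3 * (M * C2) + 6 * (C2 * A))) * (1 + P ^ 2) := by
      have e : vol * (Wm * (C1 + 3 * (M * C2) + 6 * (C2 * A))) * (1 + P ^ 2) =
        vol * (Wm * ((C1 + 3 * (M * C2)) * (1 + P ^ 2) + 6 * (C2 * A) * (1 + P ^ 2))) := by ring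
      rw [e]
      refine mul_le_mul_of_nonneg_left (mul_le_mul_of_nonneg_left (add_le_add ?_ ?_) hWm0) hvol0
      · have : 0 ≤ (C1 + 3 * (M * C2)) * P ^ 2 := by positivity
        linarith
      · have : 0 ≤ 6 * (C2 * A) := by positivity
        have := mul_le_mul_of_nonneg_left hP1 this
        linarith
    have c2 : 6 * (A * (P ^ 2 + 1)) + 2 * (A * P) ^ 2 ≤ (6 * A + 2 * A ^ 2) * (1 + P ^ 2) := by
      nlinarith [sq_nonneg A]
    have c3 := mul_le_mul_of_nonneg_right c2 hYt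
    have hPβ : P ^ 2 = (T - t) ^ (-β) := by rw [← hP2, hβ]
    have c4 : 1 + P ^ 2 ≤ (1 + T ^ β) * (T - t) ^ (-β) := by
      rw [hPβ]
      have h6 : 1 ≤ T ^ β * (T - t) ^ (-β) := by
        rw [Real.rpow_neg hTt.le, ← div_eq_mul_inv, ← Real.div_rpow hT.le hTt.le]
        refine Real.one_le_rpow ?_ hβ0
        rw [one_le_div hTt]
        linarith [htI.1]
      linarith
    have c5 : vol * (Wm * (C1 + 3 * (M * C2) + 6 * (C2 * A))) * (1 + P ^ 2)
        + (6 * A + 2 * A ^ 2) * (1 + P ^ 2) * Y t ≤ B₁ * (1 + P ^ 2) * (1 + Y t) := by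
      rw [hB₁]
      have d1 : 0 ≤ vol * (Wm * (C1 + 3 * (M * C2) + 6 * (C2 * A))) * (1 + P ^ 2) * Y t := by
        positivity
      have d2 : 0 ≤ (6 * A + 2 * A ^ 2) * (1 + P ^ 2) := by positivity
      linarith
    have c6 : B₁ * (1 + P ^ 2) * (1 + Y t) ≤ B₁ * ((1 + T ^ β) * (T - t) ^ (-β)) * (1 + Y t) :=
      mul_le_mul_of_nonneg_right (mul_le_mul_of_nonneg_left c4 hB₁0) (by linarith)
    have c7 : B₁ * ((1 + T ^ β) * (T - t) ^ (-β)) * (1 + Y t) =
        B₁ * (1 + T ^ β) * (T - t) ^ (-β) * (1 + Y t) := by ring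
    linarith
  -- the end
  obtain ⟨B, hB⟩ : ∃ B, B = B₁ * (1 + T ^ β) := ⟨_, rfl⟩
  have hB0 : 0 ≤ B := by rw [hB]; positivity
  refine ⟨(1 + Y T₁) * Real.exp (B * (T - T₁) ^ (1 - β) / (1 - β)), ?_, fun t ht => ?_⟩
  · have := hY0 T₁
    positivity
  · have h1 := gron2 (Z := Y) (Z' := fun t => ∫ x, χ x ^ 2 * (∑ i, 2 * vc (u t) i x *
      deriv (fun s => vc (u s) i x) t)) (α := T₁) (τ := t) (T := T) (B := B) (β := β) ht.1 ht.2 hB0
      hβ0 (by linarith) (fun τ hτ => hYd τ ⟨hτ.1, hτ.2.trans_lt ht.2⟩) (fun τ _ => hY0 τ)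
      (fun τ hτ => by
        rw [hB]
        exact hdi τ ⟨hτ.1, hτ.2.trans_lt ht.2⟩)
    refine le_trans ?_ ((by linarith : Y t ≤ 1 + Y t).trans h1)
    have hv : ∀ i, ContDiff ℝ ∞ fun y => u t y i := fun i =>
      (JT_u hu.toLEq i).slice' (hI t ht)
    have hWc : Continuous (Wq d (vc (u t))) := (sm_Wq fun i => sm_vc hv i).continuous
    rw [hYdef]
    simp only
    rw [← integral_indicator measurableSet_closedBall]
    refine integral_mono_of_nonneg (Eventually.of_forall fun x => ?_)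
      (int_cs ((hχ.continuous.pow 2).mul hWc) hc2.mul_right) (Eventually.of_forall fun x => ?_)
    · exact indicator_nonneg (fun x _ => (Wq_pos hd x).le) x
    · simp only
      by_cases hx : x ∈ closedBall a (s - w)
      · rw [indicator_of_mem hx, hχ2 x hx, one_pow, one_mul]
      · rw [indicator_of_notMem hx]
        exact mul_nonneg (sq_nonneg _) (Wq_pos hd x).le

/-- **The case `q > 3`.** -/
theorem not_sing_big {T E : ℝ} {O : Set V} {u : ℝ → V → V} {p : ℝ → V → ℝ} (hu : LSl T E O u p)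
    {T₀ R c m γ C : ℝ} {a : V} {δ lam : ℝ → ℝ} (hδ : Thr T δ) (hl : Cut1 lam) (hT₀ : 0 < T₀)
    (hT₀T : T₀ < T)
    (hR : 0 < R) (hRO : closedBall a R ⊆ O) (hc : 0 < c) (hm : 3 / 2 < m)
    (hcm : c * (2 * m) ^ 2 < 2 * m - 1) (hγ : 0 ≤ γ) (hγ1 : γ < 1 - 3 / (4 * m))
    (hB : Bd c u (rl lam δ u) (closedBall a R) T₀ T
      fun t => -(γ * Real.log (T - t)) - Real.log (δ t) + C) :
    ¬ Pool.Agent.Q85.CL.Sing T u a := by
  have hT : 0 < T := hT₀.trans hT₀T
  have hd : δ T₀ ≠ 0 := (hδ.pos _ ⟨hT₀, hT₀T⟩).ne'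
  have hsub4 : closedBall a (R / 4) ⊆ closedBall a R :=
    closedBall_subset_closedBall (by linarith)
  obtain ⟨s, w, M, hw, hs1, hs2, hM0, hM⟩ := shell2 hT hu (R := R / 4) (by linarith)
    (hsub4.trans hRO) hT₀ hT₀T
  obtain ⟨T₁, hT₁, hT₁T⟩ := exists_between hT₀T
  have hSD : SD T₀ T u a R s w M := ⟨hw, hs1, by linarith, hM0, hM⟩
  obtain ⟨K, hK0, hK⟩ := Lq_end (m := m) hu hδ hl hT₀ hRO (by linarith) hc hcm hB hSD hT₁ hT₁T hγ
  obtain ⟨A, hA, hsp⟩ := split_opt (d := δ T₀) hT hu hR hRO (hT₀.trans hT₁) hT₁T hw (by linarith) hs2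
    hd hm hγ hK0 hK
  have h2 : 0 < 2 - 3 / (2 * m) := by
    rw [sub_pos, div_lt_iff₀ (by linarith)]
    linarith
  obtain ⟨K', hK'0, hK'⟩ := ens_bound hu hT₀ hRO hd hSD hT₁ hT₁T hA
    (lam := γ / (2 - 3 / (2 * m))) (by positivity) (by
      rw [← mul_div_assoc, div_lt_one h2]
      have : 3 / (2 * m) = 2 * (3 / (4 * m)) := by
        field_simp
        norm_num
      rw [this]
      linarith) hsp
  refine reg_end hu (d := δ T₀) (K := K') (β := 0) (hT₀.trans hT₁) hT₁T (ρ := s - w) (by linarith)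
    ((closedBall_subset_closedBall (by linarith)).trans hRO) hK'0 le_rfl (by norm_num)
    fun t ht => ?_
  rw [neg_zero, Real.rpow_zero, mul_one]
  exact hK' t ht

end Pool.Agent.H9SA
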