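import Pool.Agent.H9SA.Inf2
import Pool.Agent.Q85.CL.PerD
import Pool.Agent.Q95.CL.Far
import Pool.Agent.Q285.CL.WSc
import Pool.Agent.Q284.CL.Dom

/-!
The stretching action at the singular points: scaling and the three settings.
-/

set_option autoImplicit false

open MeasureTheory Set Metric Filter Topology
open scoped ContDiff

namespace Pool.Agent.H9SA

open H459R3.NS Pool.Agent.W268.NS Pool.Agent.Q85.CL
open Pool.Agent.H2CV (vc sm_vc JT_u)

/-! ### Small lemmas -/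

lemma vort_evL {v w : V → V} {c : ℝ} {x : V} (h : ∀ᶠ y in 𝓝 x, w y = c • v y) :
    vort w x = c • vort v x := by
  have h1 : ∀ i j, gradM w x i j = c * gradM v x i j := by
    intro i j
    have h2 : (fun y => w y j) =ᶠ[𝓝 x] fun y => c * v y j := by
      filter_upwards [h] with y hy
      rw [hy]
      rfl
    show pd i (fun y => w y j) x = c * pd i (fun y => v y j) x
    rw [(Pool.Agent.Q284.CL.pd_evD h2 i).self_of_nhds]
    exact Pool.Agent.Q284.CL.pd_cmulD c i _ x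
  funext k
  simp only [vort, Pi.smul_apply, smul_eq_mul]
  fin_cases k
  · show gradM w x 1 2 - gradM w x 2 1 = c * (gradM v x 1 2 - gradM v x 2 1)
    rw [h1, h1]
    ring
  · show gradM w x 2 0 - gradM w x 0 2 = c * (gradM v x 2 0 - gradM v x 0 2)
    rw [h1, h1]
    ring
  · show gradM w x 0 1 - gradM w x 1 0 = c * (gradM v x 0 1 - gradM v x 1 0)
    rw [h1, h1]
    ring

lemma sing_pos {T : ℝ} {u : ℝ → V → V} {a : V} (ha : Sing T u a) : 0 < T := by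
  obtain ⟨t, ht, -⟩ := ha 0 1 one_pos
  exact ht.1.trans ht.2

lemma small_bl {Ω : Set V} (hΩ : IsOpen Ω) {a : V} (ha : a ∈ Ω) {R : ℝ} (hR : 0 < R) :
    ∃ R', 0 < R' ∧ R' ≤ R ∧ closedBall a R' ⊆ Ω := by
  obtain ⟨r, hr, h⟩ := nhds_basis_closedBall.mem_iff.1 (hΩ.mem_nhds ha)
  exact ⟨min r R, lt_min hr hR, min_le_right _ _,
    (closedBall_subset_closedBall (min_le_left _ _)).trans h⟩

lemma sing_scale {ν T : ℝ} {a : V} {R : ℝ} {u v : ℝ → V → V} (hν : 0 < ν) (hR : 0 < R)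
    (hv : ∀ t ∈ Ioo 0 T, ∀ x ∈ ball a R, v (ν * t) x = ν⁻¹ • u t x) (h : Sing T u a) :
    Sing (ν * T) v a := by
  intro B δ hδ
  obtain ⟨t, ht, htδ, x, hx, hB⟩ := h (ν * B) (min (δ / ν) (min δ (R / 2))) (by positivity)
  have h1 := min_le_left (δ / ν) (min δ (R / 2))
  have h2 := (min_le_right (δ / ν) (min δ (R / 2))).trans (min_le_left δ (R / 2))
  have h3 := (min_le_right (δ / ν) (min δ (R / 2))).trans (min_le_right δ (R / 2))
  refine ⟨ν * t, ⟨mul_pos hν ht.1, mul_lt_mul_of_pos_left ht.2 hν⟩, ?_, x, hx.trans h2, ?_⟩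
  · have h4 : T - δ / ν < t := by linarith
    have h5 := mul_lt_mul_of_pos_left h4 hν
    have e1 : ν * (T - δ / ν) = ν * T - δ := by field_simp
    linarith
  · rw [hv t ht x (by rw [mem_ball, dist_eq_norm]; linarith), norm_smul, Real.norm_eq_abs,
      abs_of_pos (inv_pos.2 hν), inv_mul_eq_div, lt_div_iff₀ hν, mul_comm]
    exact hB

/-! ### The definitions -/

/-- The rate of stretching of the vorticity, minus the dissipation by the variation of its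
direction, where the vorticity is larger than `d`. -/
noncomputable def rate (ν d : ℝ) (lam : ℝ → ℝ) (v : V → V) (x : V) : ℝ :=
  lam ((∑ i, vort v x i ^ 2) / d ^ 2) *
    ((∑ i, ∑ k, vort v x k * pd k (fun y => v y i) x * vort v x i) / (∑ i, vort v x i ^ 2)
    - ν * ((∑ i, vort v x i ^ 2) * (∑ j, ∑ i, pd j (fun y => vort v y i) x ^ 2)
      - ∑ j, (∑ i, vort v x i * pd j (fun y => vort v y i) x) ^ 2)
        / (∑ i, vort v x i ^ 2) ^ 2)

/-- The action of the segment from `(s, y)` to `(t, x)`. -/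
noncomputable def segAction (ν c : ℝ) (d : ℝ → ℝ) (lam : ℝ → ℝ) (u : ℝ → V → V) (s : ℝ) (y : V)
    (t : ℝ) (x : V) : ℝ :=
  ∫ τ in s..t, (rate ν (d τ) lam (u τ) (y + ((τ - s) / (t - s)) • (x - y))
    - c / ν * ∑ i, ((x i - y i) / (t - s) - u τ (y + ((τ - s) / (t - s)) • (x - y)) i) ^ 2)

/-- At the point `a` there are polygonal paths with an infinite action. -/
def ActAt (ν T : ℝ) (u : ℝ → V → V) (a : V) : Prop :=
  ∀ (T₀ R : ℝ) (d lam : ℝ → ℝ), 0 < T₀ → T₀ < T → 0 < R → ContDiffOn ℝ ∞ d (Ioo 0 T) →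
    (∀ t ∈ Ioo 0 T, 0 < d t) → MonotoneOn d (Ioo 0 T) → Cut1 lam →
    ∃ (τ : ℕ → ℝ) (y : ℕ → V), τ 0 = T₀ ∧ y 0 = a ∧ StrictMono τ ∧ Tendsto τ atTop (𝓝 T) ∧
      (∀ n, ‖y n - a‖ ≤ R) ∧ Tendsto y atTop (𝓝 a) ∧
      ∀ c γ : ℝ, 0 ≤ c → c < 1 / 4 → γ < (1 + 3 * √(1 - 4 * c)) / 4 → ∀ C : ℝ, ∃ᶠ n in atTop,
        γ * Real.log (1 / (T - τ n)) + C < Real.log (d (τ n)) +
          ∑ i ∈ Finset.range n, segAction ν c d lam u (τ i) (y i) (τ (i + 1)) (y (i + 1))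

/-! ### The scaling -/

lemma rl_rate {v : ℝ → V → V} {δ lam : ℝ → ℝ} {t : ℝ} (hl : Cut1 lam) (hv : SM (v t))
    (hδ : δ t ≠ 0) (x : V) :
    rl lam δ v t x = rate 1 (δ t) lam (v t) x := by
  have hwi : ∀ i, ContDiff ℝ ∞ (vc (v t) i) := fun i => sm_vc hv i
  have e1 : ∀ j i, pd j (wd δ v t i) x = (δ t)⁻¹ * pd j (fun y => vort (v t) y i) x := fun j i =>
    congrFun (pd_cmul1 (c := (δ t)⁻¹) (hwi i) j) x
  have e0 : ∀ i, wd δ v t i x = (δ t)⁻¹ * vort (v t) x i := fun i => rfl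
  obtain ⟨D, hD⟩ : ∃ D, D = ∑ i, vort (v t) x i ^ 2 := ⟨_, rfl⟩
  have hW : Wq 0 (wd δ v t) x = D / δ t ^ 2 := by
    rw [hD]
    unfold Wq
    simp only [e0, Fin.sum_univ_three]
    field_simp
    ring
  unfold rl Rl rate
  rw [← hD, hW]
  simp only [e1, e0]
  by_cases hD0 : D = 0
  · rw [hD0, zero_div, hl.lo 0 (by norm_num)]
    simp
  have f1 : ∑ i, ∑ k, (δ t)⁻¹ * vort (v t) x k * pd k (fun y => v t y i) x
      * ((δ t)⁻¹ * vort (v t) x i) = (δ t)⁻¹ ^ 2 * ∑ i, ∑ k, vort (v t) x k *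
      pd k (fun y => v t y i) x * vort (v t) x i := by
    simp only [Fin.sum_univ_three]
    ring
  have f2 : ∑ j, ∑ i, ((δ t)⁻¹ * pd j (fun y => vort (v t) y i) x) ^ 2 =
      (δ t)⁻¹ ^ 2 * ∑ j, ∑ i, pd j (fun y => vort (v t) y i) x ^ 2 := by
    simp only [Fin.sum_univ_three]
    ring
  have f3 : ∑ j, (∑ i, (δ t)⁻¹ * vort (v t) x i *
      ((δ t)⁻¹ * pd j (fun y => vort (v t) y i) x)) ^ 2 = (δ t)⁻¹ ^ 4 *
      ∑ j, (∑ i, vort (v t) x i * pd j (fun y => vort (v t) y i) x) ^ 2 := by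
    simp only [Fin.sum_univ_three]
    ring
  rw [f1, f2, f3]
  field_simp

section

variable {ν T R : ℝ} {a : V} {u v : ℝ → V → V} {c : ℝ}

lemma rate_scale (hν : 0 < ν) (hv : ∀ t ∈ Ioo 0 T, ∀ x ∈ ball a R, v (ν * t) x = ν⁻¹ • u t x)
    {t : ℝ} (ht : t ∈ Ioo 0 T) {x : V} (hx : x ∈ ball a R) (d : ℝ) {lam : ℝ → ℝ}
    (hl : Cut1 lam) :
    rate 1 (ν⁻¹ * d) lam (v (ν * t)) x = ν⁻¹ * rate ν d lam (u t) x := by
  have hev : ∀ z ∈ ball a R, ∀ᶠ z' in 𝓝 z, v (ν * t) z' = ν⁻¹ • u t z' := fun z hz => by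
    filter_upwards [isOpen_ball.mem_nhds hz] with z' hz' using hv t ht z' hz'
  have h1 : ∀ z ∈ ball a R, vort (v (ν * t)) z = ν⁻¹ • vort (u t) z := fun z hz =>
    vort_evL (hev z hz)
  have h2 : ∀ i, vort (v (ν * t)) x i = ν⁻¹ * vort (u t) x i := fun i => by
    rw [h1 x hx]
    rfl
  have h3 : ∀ i k, pd k (fun y => v (ν * t) y i) x = ν⁻¹ * pd k (fun y => u t y i) x := by
    intro i k
    have h4 : (fun y => v (ν * t) y i) =ᶠ[𝓝 x] fun y => ν⁻¹ * u t y i := by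
      filter_upwards [hev x hx] with z hz
      rw [hz]
      rfl
    rw [(Pool.Agent.Q284.CL.pd_evD h4 k).eq_of_nhds, Pool.Agent.Q284.CL.pd_cmulD]
  have h5 : ∀ i k, pd k (fun y => vort (v (ν * t)) y i) x =
      ν⁻¹ * pd k (fun y => vort (u t) y i) x := by
    intro i k
    have h4 : (fun y => vort (v (ν * t)) y i) =ᶠ[𝓝 x] fun y => ν⁻¹ * vort (u t) y i := by
      filter_upwards [isOpen_ball.mem_nhds hx] with z hz
      rw [h1 z hz]
      rfl
    rw [(Pool.Agent.Q284.CL.pd_evD h4 k).eq_of_nhds, Pool.Agent.Q284.CL.pd_cmulD]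
  obtain ⟨D, hD⟩ : ∃ D, D = ∑ i, vort (u t) x i ^ 2 := ⟨_, rfl⟩
  unfold rate
  simp only [h2, h3, h5]
  have e1 : ∑ i, ∑ k, ν⁻¹ * vort (u t) x k * (ν⁻¹ * pd k (fun y => u t y i) x)
      * (ν⁻¹ * vort (u t) x i) = ν⁻¹ ^ 3 * ∑ i, ∑ k, vort (u t) x k * pd k (fun y => u t y i) x
      * vort (u t) x i := by
    simp only [Fin.sum_univ_three]
    ring
  have e2 : ∑ i, (ν⁻¹ * vort (u t) x i) ^ 2 = ν⁻¹ ^ 2 * D := by
    rw [hD]
    simp only [Fin.sum_univ_three]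
    ring
  have e3 : ∑ j, ∑ i, (ν⁻¹ * pd j (fun y => vort (u t) y i) x) ^ 2 =
      ν⁻¹ ^ 2 * ∑ j, ∑ i, pd j (fun y => vort (u t) y i) x ^ 2 := by
    simp only [Fin.sum_univ_three]
    ring
  have e4 : ∑ j, (∑ i, ν⁻¹ * vort (u t) x i * (ν⁻¹ * pd j (fun y => vort (u t) y i) x)) ^ 2 =
      ν⁻¹ ^ 4 * ∑ j, (∑ i, vort (u t) x i * pd j (fun y => vort (u t) y i) x) ^ 2 := by
    simp only [Fin.sum_univ_three]
    ring
  rw [e1, e2, e3, e4, ← hD]
  have e5 : ν⁻¹ ^ 2 * D / (ν⁻¹ * d) ^ 2 = D / d ^ 2 := by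
    field_simp
  rw [e5]
  by_cases hD0 : D = 0
  · rw [hD0, zero_div, hl.lo 0 (by norm_num)]
    simp
  field_simp

/-- The threshold of the scaled solution. -/
lemma thr_scale (hν : 0 < ν) {δ : ℝ → ℝ} (hδ : Thr T δ) :
    Thr (ν * T) (fun s => ν⁻¹ * δ (s / ν)) := by
  have hmem : ∀ s ∈ Ioo 0 (ν * T), s / ν ∈ Ioo 0 T := fun s hs =>
    ⟨div_pos hs.1 hν, by rw [div_lt_iff₀ hν, mul_comm]; exact hs.2⟩
  refine ⟨?_, fun s hs => mul_pos (inv_pos.2 hν) (hδ.pos _ (hmem s hs)), fun s hs t ht hst => ?_⟩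
  · have h1 : ContDiffOn ℝ ∞ (fun s : ℝ => δ (s / ν)) (Ioo 0 (ν * T)) :=
      hδ.sm.comp (contDiff_id.div_const ν).contDiffOn hmem
    exact contDiffOn_const.mul h1
  · exact mul_le_mul_of_nonneg_left (hδ.mono (hmem s hs) (hmem t ht)
      (div_le_div_of_nonneg_right hst hν.le)) (inv_pos.2 hν).le

lemma sg_scale (hν : 0 < ν) (hv : ∀ t ∈ Ioo 0 T, ∀ x ∈ ball a R, v (ν * t) x = ν⁻¹ • u t x)
    (hsm : ∀ s ∈ Ioo 0 (ν * T), SM (v s)) {δ lam : ℝ → ℝ} (hδ : Thr T δ) (hl : Cut1 lam)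
    {s t : ℝ} (hs : 0 < s) (hst : s < t) (ht : t < T) {y x : V} (hy : y ∈ ball a R)
    (hx : x ∈ ball a R) :
    sg c v (rl lam (fun s => ν⁻¹ * δ (s / ν)) v) (ν * s) y (ν * t) x =
      segAction ν c δ lam u s y t x := by
  have hts : t - s ≠ 0 := by linarith
  have h := intervalIntegral.smul_integral_comp_add_mul (a := 0) (b := 1)
    (fun τ => rate ν (δ τ) lam (u τ) (y + ((τ - s) / (t - s)) • (x - y))
    - c / ν * ∑ i, ((x i - y i) / (t - s) - u τ (y + ((τ - s) / (t - s)) • (x - y)) i) ^ 2)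
    (t - s) s
  unfold segAction
  rw [mul_zero, add_zero, mul_one, add_sub_cancel] at h
  rw [← h, smul_eq_mul]
  unfold sg
  have e0 : ν * t - ν * s = (t - s) * ν := by ring
  rw [e0, mul_assoc, ← intervalIntegral.integral_const_mul]
  congr 1
  refine intervalIntegral.integral_congr fun θ hθ => ?_
  rw [uIcc_of_le zero_le_one] at hθ
  have h1 : 0 ≤ θ * (t - s) := mul_nonneg hθ.1 (by linarith)
  have h2 : θ * (t - s) ≤ 1 * (t - s) := mul_le_mul_of_nonneg_right hθ.2 (by linarith)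
  have hI : s + θ * (t - s) ∈ Ioo 0 T := ⟨by linarith, by linarith⟩
  have hIν : ν * (s + θ * (t - s)) ∈ Ioo 0 (ν * T) :=
    ⟨mul_pos hν hI.1, mul_lt_mul_of_pos_left hI.2 hν⟩
  have hz : y + θ • (x - y) ∈ ball a R := by
    have := (convex_ball a R) hy hx (a := 1 - θ) (b := θ) (by linarith [hθ.2]) hθ.1 (by ring)
    have e : (1 - θ) • y + θ • x = y + θ • (x - y) := by
      rw [sub_smul, one_smul, smul_sub]
      abel
    rwa [e] at this
  have e1 : ν * s + θ * ((t - s) * ν) = ν * (s + θ * (t - s)) := by ring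
  have e2 : s + (t - s) * θ = s + θ * (t - s) := by ring
  have e3 : (s + θ * (t - s) - s) / (t - s) = θ := by
    field_simp
    ring
  simp only [e2, e3]
  rw [e1]
  unfold Lg
  rw [rl_rate hl (hsm _ hIν) (by
      have := (thr_scale hν hδ).pos _ hIν
      exact this.ne'), hv _ hI _ hz]
  have e4 : ν * (s + θ * (t - s)) / ν = s + θ * (t - s) := by field_simp
  rw [e4, rate_scale hν hv hI hz _ hl]
  have e5 : ((t - s) * ν)⁻¹ • (x - y) - ν⁻¹ • u (s + θ * (t - s)) (y + θ • (x - y)) =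
      ν⁻¹ • ((t - s)⁻¹ • (x - y) - u (s + θ * (t - s)) (y + θ • (x - y))) := by
    have e6 : ((t - s) * ν)⁻¹ = ν⁻¹ * (t - s)⁻¹ := by rw [mul_inv, mul_comm]
    rw [e6, mul_smul, ← smul_sub]
  rw [e5, smul_dotProduct, dotProduct_smul, smul_eq_mul, smul_eq_mul]
  have e7 : ((t - s)⁻¹ • (x - y) - u (s + θ * (t - s)) (y + θ • (x - y))) ⬝ᵥ
      ((t - s)⁻¹ • (x - y) - u (s + θ * (t - s)) (y + θ • (x - y))) =
      ∑ i, ((x i - y i) / (t - s) - u (s + θ * (t - s)) (y + θ • (x - y)) i) ^ 2 := by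
    unfold dotProduct
    refine Finset.sum_congr rfl fun i _ => ?_
    simp only [Pi.sub_apply, Pi.smul_apply, smul_eq_mul]
    rw [sq, div_eq_inv_mul]
  rw [e7]
  field_simp

end

/-- The statement in an open set. -/
theorem actD {ν T E : ℝ} {Ω : Set V} {u : ℝ → V → V}
    {p : ℝ → V → ℝ} (hν : 0 < ν) (h : DSl ν T E Ω u p) {a : V} (ha : a ∈ Ω) (hs : Sing T u a) :
    ActAt ν T u a := by
  intro T₀ R d lam hT₀ hT₀T hR hd1 hd2 hd3 hl
  have hT := sing_pos hs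
  have hδ : Thr T d := ⟨hd1, hd2, hd3⟩
  obtain ⟨R', hR', hRR, hsub⟩ := small_bl h.openO ha hR
  obtain ⟨E', v, pr, hL, hv⟩ := Pool.Agent.Q284.CL.dom ν T E Ω u p hν hT h a R' hR' hsub
  have hsm : ∀ s ∈ Ioo 0 (ν * T), SM (v s) := fun s hs i => (JT_u hL.toLEq i).slice' hs
  obtain ⟨τ', y, h0, h1, h2, h3, h4, h5, h6⟩ := inf_path hL (thr_scale hν hδ) hl
    (T₀ := ν * T₀) (R := R' / 2) (a := a) (by positivity) (mul_lt_mul_of_pos_left hT₀T hν)
    (by positivity) (closedBall_subset_ball (by linarith)) (sing_scale hν hR' hv hs)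
  have hτ'T : ∀ n, τ' n < ν * T := fun n =>
    (h2 (Nat.lt_succ_self n)).trans_le (h2.monotone.ge_of_tendsto h3 (n + 1))
  have hτ'0 : ∀ n, ν * T₀ ≤ τ' n := fun n => by
    rw [← h0]
    exact h2.monotone (Nat.zero_le n)
  have hyb : ∀ n, y n ∈ ball a R' := fun n => closedBall_subset_ball (by linarith) (h4 n)
  refine ⟨fun n => τ' n / ν, y, ?_, h1, fun m n hmn => div_lt_div_of_pos_right (h2 hmn) hν, ?_,
    fun n => ?_, h5, fun c γ hc hc4 hγ C => ?_⟩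
  · simp only
    rw [h0, mul_div_cancel_left₀ _ hν.ne']
  · have := h3.div_const ν
    rwa [mul_div_cancel_left₀ _ hν.ne'] at this
  · have := h4 n
    rw [mem_closedBall, dist_eq_norm] at this
    linarith
  · refine (h6 c γ hc hc4 hγ (C + γ * Real.log ν - Real.log ν)).mono fun n hn => ?_
    have hact : act c v (rl lam (fun s => ν⁻¹ * d (s / ν)) v) n τ' y =
        ∑ i ∈ Finset.range n, segAction ν c d lam u (τ' i / ν) (y i) (τ' (i + 1) / ν) (y (i + 1)) := by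
      unfold act
      refine Finset.sum_congr rfl fun i _ => ?_
      have hlow : 0 < τ' i / ν := div_pos (lt_of_lt_of_le (by positivity) (hτ'0 i)) hν
      have hup : τ' (i + 1) / ν < T := by
        rw [div_lt_iff₀ hν, mul_comm]
        exact hτ'T _
      have hinc : τ' i / ν < τ' (i + 1) / ν :=
        div_lt_div_of_pos_right (h2 (Nat.lt_succ_self i)) hν
      have := sg_scale (c := c) hν hv hsm hδ hl hlow hinc hup (hyb i) (hyb (i + 1))
      rw [mul_div_cancel₀ _ hν.ne', mul_div_cancel₀ _ hν.ne'] at this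
      exact this
    rw [hact] at hn
    simp only
    have hT' : 0 < T - τ' n / ν := by
      rw [sub_pos, div_lt_iff₀ hν, mul_comm]
      exact hτ'T n
    have hmem : τ' n / ν ∈ Ioo 0 T :=
      ⟨div_pos (lt_of_lt_of_le (by positivity) (hτ'0 n)) hν, by linarith⟩
    have e1 : ν * T - τ' n = ν * (T - τ' n / ν) := by field_simp
    rw [e1, Real.log_mul hν.ne' hT'.ne', Real.log_mul (inv_ne_zero hν.ne') (hd2 _ hmem).ne',
      Real.log_inv] at hn
    rw [one_div, Real.log_inv]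
    linarith

theorem actW {ν T E : ℝ} {u : ℝ → V → V}
    {p : ℝ → V → ℝ} (hν : 0 < ν) (h : WSl ν T E u p) :
    (Blow T u → ∃ a, Sing T u a) ∧ ∀ a, Sing T u a → ActAt ν T u a :=
  ⟨fun hB => sing_whole Pool.Agent.Q95.CL.far Pool.Agent.Q285.CL.wsc hν h hB,
    fun a hs => actD hν (whole_D h a) (mem_ball_self (by norm_num)) hs⟩

theorem actP {ν T : ℝ} {u : ℝ → V → V}
    {p : ℝ → V → ℝ} (hν : 0 < ν) (h : IsSol ν T u p) :
    (Blow T u → ∃ a, Sing T u a) ∧ ∀ a, Sing T u a → ActAt ν T u a := by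
  refine ⟨fun hB => sing_per h hB, fun a hs => ?_⟩
  obtain ⟨p', h'⟩ := perD hν (sing_pos hs) h a
  exact actD hν h' (mem_ball_self (by norm_num)) hs

end Pool.Agent.H9SA
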