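import Pool.Agent.H9SA.Small2

/-!
One infinite polygonal path.
-/

set_option autoImplicit false

open MeasureTheory Set Metric Filter Topology
open scoped ContDiff

namespace Pool.Agent.H9SA

open H459R3.NS Pool.Agent.W268.NS Pool.Agent.Q85.CL
open Pool.Agent.H2CV (vc JT_u)

/-- The statement for viscosity one. -/
theorem not_sing {T E : ℝ} {O : Set V} {u : ℝ → V → V} {p : ℝ → V → ℝ} (hu : LSl T E O u p)
    {q T₀ R c γ C : ℝ} {a : V} {δ lam : ℝ → ℝ} (hδ : Thr T δ) (hl : Cut1 lam) (hT₀ : 0 < T₀)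
    (hT₀T : T₀ < T) (hR : 0 < R) (hRO : closedBall a R ⊆ O) (hq : 2 ≤ q) (hc : 0 < c) (hcq : c * q ^ 2 < q - 1)
    (hγ : 0 ≤ γ) (hγ1 : γ < 1 - 3 / (2 * q))
    (hB : Bd c u (rl lam δ u) (closedBall a R) T₀ T
      fun t => -(γ * Real.log (T - t)) - Real.log (δ t) + C) : ¬ Sing T u a := by
  have e1 : 2 * (q / 2) = q := by ring
  have e2 : 4 * (q / 2) = 2 * q := by ring
  rcases le_or_gt q 3 with h3 | h3
  · exact not_sing_small hu (m := q / 2) hδ hl hT₀ hT₀T hR hRO hc (by linarith) (by linarith)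
      (by rw [e1]; exact hcq) hγ (by rw [e2]; exact hγ1) hB
  · exact not_sing_big hu (m := q / 2) hδ hl hT₀ hT₀T hR hRO hc (by linarith)
      (by rw [e1]; exact hcq) hγ (by rw [e2]; exact hγ1) hB

/-- The admissible pairs of constants. -/
def Adm (c γ : ℝ) : Prop := 0 < c ∧ c < 1 / 4 ∧ 0 ≤ γ ∧ γ < (1 + 3 * √(1 - 4 * c)) / 4

lemma Adm.exists_q {c γ : ℝ} (h : Adm c γ) : ∃ q : ℝ, 2 ≤ q ∧ c * q ^ 2 < q - 1 ∧
    γ < 1 - 3 / (2 * q) := by
  obtain ⟨h1, h2, h3, h4⟩ := h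
  obtain ⟨s, hs⟩ : ∃ s, s = √(1 - 4 * c) := ⟨_, rfl⟩
  have hs0 : 0 < s := by rw [hs]; exact Real.sqrt_pos.2 (by linarith)
  have hs2 : s ^ 2 = 1 - 4 * c := by rw [hs]; exact Real.sq_sqrt (by linarith)
  have hs1 : s < 1 := by nlinarith
  rw [← hs] at h4
  obtain ⟨r, hr1, hr2⟩ := exists_between (show max 0 ((4 * γ - 1) / 3) < s from
    max_lt hs0 (by linarith))
  have hr0 : 0 < r := (le_max_left _ _).trans_lt hr1
  have hrγ : (4 * γ - 1) / 3 < r := (le_max_right _ _).trans_lt hr1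
  have h1r : 0 < 1 - r := by linarith
  refine ⟨2 / (1 - r), ?_, ?_, ?_⟩
  · rw [le_div_iff₀ h1r]
    linarith
  · have e : (2 : ℝ) / (1 - r) - 1 = (1 + r) / (1 - r) := by
      field_simp
      ring
    rw [e, div_pow, ← mul_div_assoc, div_lt_div_iff₀ (by positivity) h1r]
    have h5 : 4 * c < (1 - r) * (1 + r) := by nlinarith
    have h6 : 0 < (1 - r) := h1r
    nlinarith
  · have e : 3 / (2 * (2 / (1 - r))) = 3 * (1 - r) / 4 := by
      field_simp
      norm_num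
    rw [e]
    linarith

/-- The approximation by rational constants. -/
lemma Adm.rat {c γ : ℝ} (hc : 0 ≤ c) (hc4 : c < 1 / 4) (hγ : γ < (1 + 3 * √(1 - 4 * c)) / 4) :
    ∃ c' γ' : ℚ, c < c' ∧ γ < γ' ∧ Adm c' γ' := by
  have h0 : 0 < √(1 - 4 * c) := Real.sqrt_pos.2 (by linarith)
  obtain ⟨g, hg1, hg2⟩ := exists_rat_btwn (show max γ 0 < (1 + 3 * √(1 - 4 * c)) / 4 from
    max_lt hγ (by linarith))
  have hcont : ContinuousAt (fun x : ℝ => (1 + 3 * √(1 - 4 * x)) / 4) c := by fun_prop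
  have hev : ∀ᶠ x in 𝓝 c, (g : ℝ) < (1 + 3 * √(1 - 4 * x)) / 4 :=
    hcont.eventually (lt_mem_nhds hg2)
  obtain ⟨ε, hε, hball⟩ := Metric.eventually_nhds_iff.1 hev
  obtain ⟨c', hc1, hc2⟩ := exists_rat_btwn (show c < min (c + ε) (1 / 4) from
    lt_min (by linarith) hc4)
  have hc3 : (c' : ℝ) < c + ε := hc2.trans_le (min_le_left _ _)
  refine ⟨c', g, hc1, (le_max_left _ _).trans_lt hg1, hc.trans_lt hc1,
    hc2.trans_le (min_le_right _ _), ((le_max_right _ _).trans_lt hg1).le, hball ?_⟩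
  rw [Real.dist_eq, abs_of_pos (by linarith)]
  linarith

/-- A finite polygonal path. -/
structure FP (T₀ T : ℝ) (B : Set V) where
  n : ℕ
  τ : ℕ → ℝ
  y : ℕ → V
  h0 : τ 0 = T₀
  inc : ∀ i < n, τ i < τ (i + 1)
  lt : τ n < T
  mem : ∀ i ≤ n, y i ∈ B

section

variable {T₀ T : ℝ} {B : Set V}

lemma FP.le (P : FP T₀ T B) {i j : ℕ} (hij : i ≤ j) (hj : j ≤ P.n) : P.τ i ≤ P.τ j := by
  induction j, hij using Nat.le_induction with
  | base => exact le_rfl
  | succ j _ ih => exact (ih (by omega)).trans (P.inc j (by omega)).le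

/-- The action. -/
noncomputable def act (c : ℝ) (b : ℝ → V → V) (r : ℝ → V → ℝ) (n : ℕ) (τ : ℕ → ℝ) (y : ℕ → V) : ℝ :=
  ∑ i ∈ Finset.range n, sg c b r (τ i) (y i) (τ (i + 1)) (y (i + 1))

lemma reach_path {c : ℝ} {b : ℝ → V → V} {r : ℝ → V → ℝ} {t : ℝ} {x : V} {A : ℝ}
    (h : Reach c b r B T₀ t x A) : ∃ (n : ℕ) (τ : ℕ → ℝ) (y : ℕ → V), τ 0 = T₀ ∧ τ n = t ∧ y n = x ∧
      (∀ i < n, τ i < τ (i + 1)) ∧ (∀ i ≤ n, y i ∈ B) ∧ A = act c b r n τ y := by
  unfold act
  induction h with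
  | base y hy => exact ⟨0, fun _ => T₀, fun _ => y, rfl, rfl, rfl, by simp, fun _ _ => hy, by simp⟩
  | step s y₀ A t x h hst hx ih =>
    obtain ⟨n, τ, y, h0, h1, h2, h3, h4, h5⟩ := ih
    have eτ : ∀ i ≤ n, (if i ≤ n then τ i else t) = τ i := fun i hi => if_pos hi
    have ey : ∀ i ≤ n, (if i ≤ n then y i else x) = y i := fun i hi => if_pos hi
    refine ⟨n + 1, fun i => if i ≤ n then τ i else t, fun i => if i ≤ n then y i else x, ?_, ?_, ?_,
      fun i hi => ?_, fun i hi => ?_, ?_⟩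
    · simp only [Nat.zero_le, if_true]
      exact h0
    · simp
    · simp
    · rcases Nat.lt_succ_iff_lt_or_eq.1 hi with hi | hi
      · simp only
        rw [eτ i hi.le, eτ (i + 1) hi]
        exact h3 i hi
      · simp only
        rw [eτ i hi.le, if_neg (by omega), hi, h1]
        exact hst
    · simp only
      by_cases hi' : i ≤ n
      · rw [ey i hi']
        exact h4 i hi'
      · rw [if_neg hi']
        exact hx
    · simp only
      rw [Finset.sum_range_succ, eτ n le_rfl, ey n le_rfl, if_neg (by omega), if_neg (by omega), h1,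
        h2, h5]
      congr 1
      refine Finset.sum_congr rfl fun i hi => ?_
      rw [Finset.mem_range] at hi
      rw [eτ i hi.le, ey i hi.le, eτ (i + 1) hi, ey (i + 1) hi]

/-- The bound of the action of a segment. -/
lemma sg_bd {c : ℝ} {b : ℝ → V → V} {r : ℝ → V → ℝ} {s t M R : ℝ} {a y x : V} (hst : s < t)
    (hc : 0 ≤ c) (hM : ∀ τ ∈ Icc s t, ∀ z ∈ closedBall a R, ‖b τ z‖ ≤ M ∧ |r τ z| ≤ M)
    (hy : y ∈ closedBall a R) (hx : x ∈ closedBall a R) :
    |sg c b r s y t x| ≤ (t - s) * (M + c * (3 * ((t - s)⁻¹ * (2 * R) + M) ^ 2)) := by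
  have hts : 0 < t - s := by linarith
  unfold sg
  rw [abs_mul, abs_of_pos hts]
  refine mul_le_mul_of_nonneg_left ?_ hts.le
  have h1 := intervalIntegral.norm_integral_le_of_norm_le_const (a := 0) (b := 1)
    (f := fun θ => Lg c b r ((t - s)⁻¹ • (x - y)) (s + θ * (t - s)) (y + θ • (x - y)))
    (C := M + c * (3 * ((t - s)⁻¹ * (2 * R) + M) ^ 2)) (fun θ hθ => ?_)
  · rw [Real.norm_eq_abs, sub_zero, abs_one, mul_one] at h1
    exact h1
  · rw [uIoc_of_le zero_le_one] at hθ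
    have h2 : 0 ≤ θ * (t - s) := mul_nonneg hθ.1.le hts.le
    have h3 : θ * (t - s) ≤ 1 * (t - s) := mul_le_mul_of_nonneg_right hθ.2 hts.le
    have hz : y + θ • (x - y) ∈ closedBall a R := by
      have := (convex_closedBall a R) hy hx (a := 1 - θ) (b := θ) (by linarith [hθ.2]) hθ.1.le
        (by ring)
      have e : (1 - θ) • y + θ • x = y + θ • (x - y) := by
        rw [sub_smul, one_smul, smul_sub]
        abel
      rwa [e] at this
    obtain ⟨h4, h5⟩ := hM (s + θ * (t - s)) ⟨by linarith, by linarith⟩ _ hz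
    unfold Lg
    have h6 : ‖(t - s)⁻¹ • (x - y) - b (s + θ * (t - s)) (y + θ • (x - y))‖ ≤
        (t - s)⁻¹ * (2 * R) + M := by
      refine (norm_sub_le _ _).trans (add_le_add ?_ h4)
      rw [norm_smul, norm_inv, Real.norm_eq_abs, abs_of_pos hts]
      refine mul_le_mul_of_nonneg_left ?_ (by positivity)
      rw [mem_closedBall, dist_eq_norm] at hx hy
      have e : x - y = (x - a) - (y - a) := by abel
      rw [e]
      linarith [norm_sub_le (x - a) (y - a)]
    have h7 := mul_le_mul_of_nonneg_left (dot_le h6) hc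
    have h8 : 0 ≤ ((t - s)⁻¹ • (x - y) - b (s + θ * (t - s)) (y + θ • (x - y))) ⬝ᵥ
        ((t - s)⁻¹ • (x - y) - b (s + θ * (t - s)) (y + θ • (x - y))) := by
      unfold dotProduct
      exact Finset.sum_nonneg fun i _ => mul_self_nonneg _
    have h9 := mul_nonneg hc h8
    rw [Real.norm_eq_abs]
    have h10 := abs_le.1 h5
    rw [abs_le]
    constructor <;> linarith

end

end Pool.Agent.H9SA
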