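import Pool.Agent.H9SA.Inf

/-!
One infinite polygonal path, continued.
-/

set_option autoImplicit false

open MeasureTheory Set Metric Filter Topology
open scoped ContDiff

namespace Pool.Agent.H9SA

open H459R3.NS Pool.Agent.W268.NS Pool.Agent.Q85.CL
open Pool.Agent.H2CV (vc JT_u)

/-- The extension of a finite path. -/
theorem step {T E : ℝ} {O : Set V} {u : ℝ → V → V} {p : ℝ → V → ℝ} (hu : LSl T E O u p)
    {T₀ R : ℝ} {a : V} {δ lam : ℝ → ℝ} (hδ : Thr T δ) (hl : Cut1 lam) (hT₀ : 0 < T₀)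
    (hRO : closedBall a R ⊆ O) (hs : Sing T u a) (P : FP T₀ T (closedBall a R)) {R' : ℝ}
    (hR' : 0 < R') (hRR : R' ≤ R) {c γ : ℝ} (hA : Adm c γ) (K : ℝ) :
    ∃ P' : FP T₀ T (closedBall a R), P.n < P'.n ∧
      (∀ i ≤ P.n, P'.τ i = P.τ i ∧ P'.y i = P.y i) ∧
      (∀ i, P.n < i → i ≤ P'.n → P'.y i ∈ closedBall a R' ∧ (P.τ P.n + T) / 2 ≤ P'.τ i) ∧
      -(γ * Real.log (T - P'.τ P'.n)) - Real.log (δ (P'.τ P'.n)) + K <
        act c u (rl lam δ u) P'.n P'.τ P'.y := by
  obtain ⟨q, hq, hcq, hγq⟩ := hA.exists_q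
  obtain ⟨hc, -, hγ, -⟩ := hA
  obtain ⟨s, hsd⟩ : ∃ s, s = P.τ P.n := ⟨_, rfl⟩
  have hs0 : T₀ ≤ s := by
    rw [hsd]
    exact P.h0.ge.trans (P.le (Nat.zero_le _) le_rfl)
  have hsT : s < T := by rw [hsd]; exact P.lt
  obtain ⟨T', hT'⟩ : ∃ T', T' = (s + T) / 2 := ⟨_, rfl⟩
  have hsT' : s < T' := by linarith
  have hT'T : T' < T := by linarith
  obtain ⟨M, hM0, hM⟩ := (toDat hu.toLEq hδ hl (m := 1) (by norm_num)).bd (hT₀.trans_le hs0) hT'T a R
  obtain ⟨L, hL⟩ : ∃ L, L = (T' - s) * (M + c * (3 * ((T' - s)⁻¹ * (2 * R) + M) ^ 2)) := ⟨_, rfl⟩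
  have hnB : ¬ Bd c u (rl lam δ u) (closedBall a R') T' T
      fun t => -(γ * Real.log (T - t)) - Real.log (δ t)
        + (K + L - act c u (rl lam δ u) P.n P.τ P.y) := fun hB =>
    not_sing hu hδ hl (by linarith) hT'T hR'
      ((closedBall_subset_closedBall hRR).trans hRO) hq hc hcq hγ hγq hB hs
  unfold Bd at hnB
  push Not at hnB
  obtain ⟨t, ht, x, hx, A, hRe, hlt⟩ := hnB
  obtain ⟨n', τ', y', h0, h1, h2, h3, h4, h5⟩ := reach_path hRe
  have eτ : ∀ i ≤ P.n, (if i ≤ P.n then P.τ i else τ' (i - (P.n + 1))) = P.τ i := fun i hi =>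
    if_pos hi
  have ey : ∀ i ≤ P.n, (if i ≤ P.n then P.y i else y' (i - (P.n + 1))) = P.y i := fun i hi =>
    if_pos hi
  have eτ2 : ∀ i, (if P.n + 1 + i ≤ P.n then P.τ (P.n + 1 + i) else τ' (P.n + 1 + i - (P.n + 1)))
      = τ' i := fun i => by
    rw [if_neg (by omega)]
    congr 1
    omega
  have ey2 : ∀ i, (if P.n + 1 + i ≤ P.n then P.y (P.n + 1 + i) else y' (P.n + 1 + i - (P.n + 1)))
      = y' i := fun i => by
    rw [if_neg (by omega)]
    congr 1
    omega
  have hτ'0 : ∀ i ≤ n', T' ≤ τ' i := by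
    intro i hi
    induction i with
    | zero => exact h0.ge
    | succ i ih => exact (ih (by omega)).trans (h3 i (by omega)).le
  refine ⟨⟨P.n + 1 + n', fun i => if i ≤ P.n then P.τ i else τ' (i - (P.n + 1)),
    fun i => if i ≤ P.n then P.y i else y' (i - (P.n + 1)), ?_, fun i hi => ?_, ?_, fun i hi => ?_⟩,
    ?_, fun i hi => ⟨eτ i hi, ey i hi⟩, fun i hi1 hi2 => ?_, ?_⟩
  · rw [eτ 0 (Nat.zero_le _)]
    exact P.h0
  · rcases lt_trichotomy i P.n with h | h | h
    · rw [eτ i h.le, eτ (i + 1) h]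
      exact P.inc i h
    · rw [eτ i h.le, h]
      have := eτ2 0
      rw [add_zero] at this
      rw [this, h0, ← hsd]
      exact hsT'
    · obtain ⟨j, rfl⟩ : ∃ j, i = P.n + 1 + j := ⟨i - (P.n + 1), by omega⟩
      have e : P.n + 1 + j + 1 = P.n + 1 + (j + 1) := by ring
      rw [e, eτ2 j, eτ2 (j + 1)]
      exact h3 j (by omega)
  · rw [eτ2 n', h1]
    exact ht.2
  · by_cases h : i ≤ P.n
    · rw [ey i h]
      exact P.mem i h
    · obtain ⟨j, rfl⟩ : ∃ j, i = P.n + 1 + j := ⟨i - (P.n + 1), by omega⟩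
      rw [ey2 j]
      exact closedBall_subset_closedBall hRR (h4 j (by omega))
  · show P.n < P.n + 1 + n'
    omega
  · have hi2' : i ≤ P.n + 1 + n' := hi2
    obtain ⟨j, rfl⟩ : ∃ j, i = P.n + 1 + j := ⟨i - (P.n + 1), by omega⟩
    simp only
    rw [ey2 j, eτ2 j, ← hsd, ← hT']
    exact ⟨h4 j (by omega), hτ'0 j (by omega)⟩
  · simp only
    rw [eτ2 n', h1]
    have key : act c u (rl lam δ u) (P.n + 1 + n')
        (fun i => if i ≤ P.n then P.τ i else τ' (i - (P.n + 1)))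
        (fun i => if i ≤ P.n then P.y i else y' (i - (P.n + 1))) =
        act c u (rl lam δ u) P.n P.τ P.y
          + sg c u (rl lam δ u) s (P.y P.n) T' (y' 0)
          + act c u (rl lam δ u) n' τ' y' := by
      unfold act
      rw [Finset.sum_range_add, Finset.sum_range_succ]
      simp only
      congr 1
      · congr 1
        · refine Finset.sum_congr rfl fun i hi => ?_
          rw [Finset.mem_range] at hi
          rw [eτ i hi.le, ey i hi.le, eτ (i + 1) hi, ey (i + 1) hi]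
        · have a1 := eτ2 0
          have a2 := ey2 0
          rw [add_zero] at a1 a2
          rw [eτ _ le_rfl, ey _ le_rfl, a1, a2, h0, hsd]
      · refine Finset.sum_congr rfl fun i hi => ?_
        have e : P.n + 1 + i + 1 = P.n + 1 + (i + 1) := by ring
        rw [e, eτ2 i, ey2 i, eτ2 (i + 1), ey2 (i + 1)]
    rw [key]
    have hseg := sg_bd (c := c) (b := u) (r := rl lam δ u) (a := a) (R := R) (M := M)
      (y := P.y P.n) (x := y' 0) hsT' hc.le hM (P.mem _ le_rfl)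
      (closedBall_subset_closedBall hRR (h4 0 (Nat.zero_le _)))
    rw [← hL] at hseg
    have := (abs_le.1 hseg).1
    rw [← h5]
    linarith

/-! ### Monotonicity in `c` -/

lemma lg_cont {c : ℝ} {b : ℝ → V → V} {r : ℝ → V → ℝ} {T s t : ℝ} {x y w : V}
    (hb : ContinuousOn (fun z : ℝ × V => b z.1 z.2) (Ioo 0 T ×ˢ univ))
    (hr : ContinuousOn (fun z : ℝ × V => r z.1 z.2) (Ioo 0 T ×ˢ univ)) (hs : 0 < s) (hst : s < t)
    (ht : t < T) :
    ContinuousOn (fun θ => Lg c b r w (s + θ * (t - s)) (y + θ • (x - y))) (Icc 0 1) := by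
  have hmap : MapsTo (fun θ : ℝ => ((s + θ * (t - s), y + θ • (x - y)) : ℝ × V)) (Icc 0 1)
      (Ioo 0 T ×ˢ univ) := by
    intro θ hθ
    have h1 : 0 ≤ θ * (t - s) := mul_nonneg hθ.1 (by linarith)
    have h2 : θ * (t - s) ≤ 1 * (t - s) := mul_le_mul_of_nonneg_right hθ.2 (by linarith)
    refine ⟨⟨?_, ?_⟩, mem_univ _⟩
    · show 0 < s + θ * (t - s)
      linarith
    · show s + θ * (t - s) < T
      linarith
  have h0 : ContinuousOn (fun θ : ℝ => ((s + θ * (t - s), y + θ • (x - y)) : ℝ × V)) (Icc 0 1) := by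
    fun_prop
  have hb' : ContinuousOn (fun θ : ℝ => b (s + θ * (t - s)) (y + θ • (x - y))) (Icc 0 1) :=
    hb.comp h0 hmap
  have hr' : ContinuousOn (fun θ : ℝ => r (s + θ * (t - s)) (y + θ • (x - y))) (Icc 0 1) :=
    hr.comp h0 hmap
  unfold Lg
  refine hr'.sub (continuousOn_const.mul ?_)
  unfold dotProduct
  have h2 := continuousOn_const (c := w) |>.sub hb'
  exact continuousOn_finsetSum _ fun i _ =>
    ((continuous_apply i).comp_continuousOn h2).mul ((continuous_apply i).comp_continuousOn h2)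

lemma sg_anti {c c' : ℝ} {b : ℝ → V → V} {r : ℝ → V → ℝ} {T s t : ℝ} {x y : V}
    (hb : ContinuousOn (fun z : ℝ × V => b z.1 z.2) (Ioo 0 T ×ˢ univ))
    (hr : ContinuousOn (fun z : ℝ × V => r z.1 z.2) (Ioo 0 T ×ˢ univ)) (hs : 0 < s) (hst : s < t)
    (ht : t < T) (hcc : c ≤ c') : sg c' b r s y t x ≤ sg c b r s y t x := by
  unfold sg
  refine mul_le_mul_of_nonneg_left ?_ (by linarith)
  have h1 := fun c => lg_cont (c := c) (x := x) (y := y) (w := (t - s)⁻¹ • (x - y)) hb hr hs hst ht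
  refine intervalIntegral.integral_mono_on zero_le_one
    ((h1 c').intervalIntegrable_of_Icc zero_le_one) ((h1 c).intervalIntegrable_of_Icc zero_le_one)
    fun θ _ => ?_
  unfold Lg
  have h8 : 0 ≤ ((t - s)⁻¹ • (x - y) - b (s + θ * (t - s)) (y + θ • (x - y))) ⬝ᵥ
      ((t - s)⁻¹ • (x - y) - b (s + θ * (t - s)) (y + θ • (x - y))) := by
    unfold dotProduct
    exact Finset.sum_nonneg fun i _ => mul_self_nonneg _
  have := mul_le_mul_of_nonneg_right hcc h8
  linarith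

/-! ### The infinite path -/

theorem inf_path {T E : ℝ} {O : Set V} {u : ℝ → V → V} {p : ℝ → V → ℝ} (hu : LSl T E O u p)
    {T₀ R : ℝ} {a : V} {δ lam : ℝ → ℝ} (hδ : Thr T δ) (hl : Cut1 lam) (hT₀ : 0 < T₀) (hT₀T : T₀ < T) (hR : 0 < R)
    (hRO : closedBall a R ⊆ O) (hs : Sing T u a) :
    ∃ (τ : ℕ → ℝ) (y : ℕ → V), τ 0 = T₀ ∧ y 0 = a ∧ StrictMono τ ∧ Tendsto τ atTop (𝓝 T) ∧
      (∀ n, y n ∈ closedBall a R) ∧ Tendsto y atTop (𝓝 a) ∧
      ∀ c γ : ℝ, 0 ≤ c → c < 1 / 4 → γ < (1 + 3 * √(1 - 4 * c)) / 4 → ∀ C : ℝ,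
        ∃ᶠ n in atTop, -(γ * Real.log (T - τ n)) - Real.log (δ (τ n)) + C <
          act c u (rl lam δ u) n τ y := by
  obtain ⟨e, he⟩ := exists_surjective_nat (ℚ × ℚ)
  have hdef : Adm (1 / 8) 0 := by
    refine ⟨by norm_num, by norm_num, le_rfl, ?_⟩
    have := Real.sqrt_nonneg (1 - 4 * (1 / 8 : ℝ))
    positivity
  have hstep : ∀ (k : ℕ) (P : FP T₀ T (closedBall a R)), ∃ P' : FP T₀ T (closedBall a R),
      P.n < P'.n ∧ (∀ i ≤ P.n, P'.τ i = P.τ i ∧ P'.y i = P.y i) ∧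
      (∀ i, P.n < i → i ≤ P'.n → P'.y i ∈ closedBall a (R / (k + 1)) ∧
        (P.τ P.n + T) / 2 ≤ P'.τ i) ∧
      (Adm (e k.unpair.1).1 (e k.unpair.1).2 →
      -(((e k.unpair.1).2 : ℝ) * Real.log (T - P'.τ P'.n)) - Real.log (δ (P'.τ P'.n)) + k <
        act (e k.unpair.1).1 u (rl lam δ u) P'.n P'.τ P'.y) := by
    intro k P
    have hRk : 0 < R / (k + 1) := by positivity
    have hRk2 : R / (k + 1) ≤ R := div_le_self hR.le (by
      have : (0 : ℝ) ≤ k := Nat.cast_nonneg k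
      linarith)
    by_cases hA : Adm (e k.unpair.1).1 (e k.unpair.1).2
    · obtain ⟨P', h1, h2, h3, h4⟩ := step hu hδ hl hT₀ hRO hs P hRk hRk2 hA k
      exact ⟨P', h1, h2, h3, fun _ => h4⟩
    · obtain ⟨P', h1, h2, h3, h4⟩ := step hu hδ hl hT₀ hRO hs P hRk hRk2 hdef k
      exact ⟨P', h1, h2, h3, fun h => absurd h hA⟩
  choose F hF1 hF2 hF3 hF4 using hstep
  have haR : a ∈ closedBall a R := mem_closedBall_self hR.le
  let P : ℕ → FP T₀ T (closedBall a R) := fun k => Nat.rec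
    (⟨0, fun _ => T₀, fun _ => a, rfl, fun i hi => absurd hi (Nat.not_lt_zero _), hT₀T,
      fun _ _ => haR⟩ : FP T₀ T (closedBall a R)) (fun k P => F k P) k
  have hP : ∀ k, P (k + 1) = F k (P k) := fun k => rfl
  have hn : ∀ k, (P k).n < (P (k + 1)).n := fun k => hF1 k (P k)
  have hnm : StrictMono fun k => (P k).n := strictMono_nat_of_lt_succ hn
  have hnk : ∀ k, k ≤ (P k).n := fun k => hnm.le_apply
  have hag : ∀ k j, k ≤ j → ∀ i ≤ (P k).n, (P j).τ i = (P k).τ i ∧ (P j).y i = (P k).y i := by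
    intro k j hkj
    induction j, hkj using Nat.le_induction with
    | base => exact fun i _ => ⟨rfl, rfl⟩
    | succ j hj ih =>
      intro i hi
      obtain ⟨h1, h2⟩ := hF2 j (P j) i (hi.trans (hnm.monotone hj))
      obtain ⟨h3, h4⟩ := ih i hi
      exact ⟨h1.trans h3, h2.trans h4⟩
  have heq : ∀ k i, i ≤ (P k).n → (P i).τ i = (P k).τ i ∧ (P i).y i = (P k).y i := by
    intro k i hi
    rcases le_total k i with h | h
    · exact hag k i h i hi
    · obtain ⟨h1, h2⟩ := hag i k h i (hnk i)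
      exact ⟨h1.symm, h2.symm⟩
  obtain ⟨τ, hτ⟩ : ∃ τ : ℕ → ℝ, τ = fun i => (P i).τ i := ⟨_, rfl⟩
  obtain ⟨y, hy⟩ : ∃ y : ℕ → V, y = fun i => (P i).y i := ⟨_, rfl⟩
  have eqτ : ∀ k i, i ≤ (P k).n → τ i = (P k).τ i := fun k i hi => by
    rw [hτ]
    exact (heq k i hi).1
  have eqy : ∀ k i, i ≤ (P k).n → y i = (P k).y i := fun k i hi => by
    rw [hy]
    exact (heq k i hi).2
  have hmono : StrictMono τ := by
    refine strictMono_nat_of_lt_succ fun i => ?_
    have h1 := hnk (i + 1)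
    rw [eqτ (i + 1) i (by omega), eqτ (i + 1) (i + 1) h1]
    exact (P (i + 1)).inc i (by omega)
  have hτT : ∀ i, τ i < T := by
    intro i
    rw [eqτ i i (hnk i)]
    exact ((P i).le (hnk i) le_rfl).trans_lt (P i).lt
  have hτ0 : τ 0 = T₀ := by
    rw [eqτ 0 0 le_rfl]
    exact (P 0).h0
  have hgap : ∀ k, T - τ (P k).n ≤ (T - T₀) / 2 ^ k := by
    intro k
    induction k with
    | zero =>
      rw [pow_zero, div_one]
      have := hmono.monotone (Nat.zero_le (P 0).n)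
      rw [hτ0] at this
      linarith
    | succ k ih =>
      have h1 := (hF3 k (P k) (P (k + 1)).n (hn k) le_rfl).2
      rw [← hP k, ← eqτ (k + 1) _ le_rfl, ← eqτ k _ le_rfl] at h1
      rw [pow_succ, ← div_div]
      linarith
  have hgap0 : Tendsto (fun k : ℕ => (T - T₀) / 2 ^ k) atTop (𝓝 0) := by
    have h1 := (tendsto_pow_atTop_nhds_zero_of_lt_one (r := (1 / 2 : ℝ)) (by norm_num)
      (by norm_num)).const_mul (T - T₀)
    rw [mul_zero] at h1
    refine h1.congr fun k => ?_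
    rw [one_div, inv_pow, div_eq_mul_inv]
  have hτlim : Tendsto τ atTop (𝓝 T) := by
    rw [Metric.tendsto_atTop]
    intro ε hε
    obtain ⟨k, hk⟩ := (hgap0.eventually (gt_mem_nhds hε)).exists
    refine ⟨(P k).n, fun i hi => ?_⟩
    have h1 := hmono.monotone hi
    have h2 := hgap k
    rw [Real.dist_eq, abs_sub_comm, abs_of_pos (by linarith [hτT i])]
    linarith
  have hyb : ∀ k j, k ≤ j → ∀ i, (P k).n < i → i ≤ (P j).n → y i ∈ closedBall a (R / (k + 1)) := by
    intro k j hkj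
    induction j, hkj using Nat.le_induction with
    | base => exact fun i h1 h2 => absurd h1 (not_lt.2 h2)
    | succ j hj ih =>
      intro i h1 h2
      by_cases h3 : i ≤ (P j).n
      · exact ih i h1 h3
      · have h4 := (hF3 j (P j) i (by omega) h2).1
        rw [← hP j, ← eqy (j + 1) i h2] at h4
        refine closedBall_subset_closedBall ?_ h4
        have hkj' : (k : ℝ) ≤ j := by exact_mod_cast hj
        exact div_le_div_of_nonneg_left hR.le (by positivity) (by linarith)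
  have hylim : Tendsto y atTop (𝓝 a) := by
    rw [Metric.tendsto_atTop]
    intro ε hε
    have h0 : Tendsto (fun k : ℕ => R / ((k : ℝ) + 1)) atTop (𝓝 0) := by
      have := tendsto_one_div_add_atTop_nhds_zero_nat.const_mul R
      rw [mul_zero] at this
      refine this.congr fun k => ?_
      rw [mul_one_div]
    obtain ⟨k, hk⟩ := (h0.eventually (gt_mem_nhds hε)).exists
    refine ⟨(P k).n + 1, fun i hi => ?_⟩
    have h1 := hnk k
    have h2 := hyb k i (by omega) i (by omega) (hnk i)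
    exact (mem_closedBall.1 h2).trans_lt hk
  refine ⟨τ, y, hτ0, ?_, hmono, hτlim, fun i => ?_, hylim, fun c γ hc hc4 hγ C => ?_⟩
  · rw [eqy 0 0 le_rfl]
    rfl
  · rw [eqy i i (hnk i)]
    exact (P i).mem i (hnk i)
  · obtain ⟨c', γ', hcc, hγγ, hA⟩ := Adm.rat hc hc4 hγ
    obtain ⟨j, hj⟩ := he (c', γ')
    rw [frequently_atTop]
    intro N
    have hev : ∀ᶠ n in atTop, T - τ n < 1 := by
      have h1 : Tendsto (fun n => T - τ n) atTop (𝓝 (T - T)) := hτlim.const_sub T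
      rw [sub_self] at h1
      exact h1.eventually (gt_mem_nhds one_pos)
    obtain ⟨N', hN'⟩ := eventually_atTop.1 hev
    obtain ⟨m, hm⟩ := exists_nat_ge (max C (max (N : ℝ) N'))
    obtain ⟨k, hk⟩ : ∃ k, k = Nat.pair j m := ⟨_, rfl⟩
    have hk1 : k.unpair.1 = j := by rw [hk, Nat.unpair_pair]
    have hkm : m ≤ k := by rw [hk]; exact Nat.right_le_pair j m
    have hkm' : (m : ℝ) ≤ k := by exact_mod_cast hkm
    have hCm : C ≤ m := (le_max_left _ _).trans hm
    have hNm : N ≤ m := by exact_mod_cast ((le_max_left _ _).trans (le_max_right _ _)).trans hm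
    have hN'm : N' ≤ m := by exact_mod_cast ((le_max_right _ _).trans (le_max_right _ _)).trans hm
    have hk2 := hnk (k + 1)
    refine ⟨(P (k + 1)).n, by omega, ?_⟩
    have h4 := hF4 k (P k)
    rw [hk1, hj, ← hP k] at h4
    have h5 := h4 hA
    simp only at h5
    rw [← eqτ (k + 1) _ le_rfl] at h5
    have h6 : act (c' : ℝ) u (rl lam δ u) (P (k + 1)).n (P (k + 1)).τ (P (k + 1)).y =
        act (c' : ℝ) u (rl lam δ u) (P (k + 1)).n τ y := by
      unfold act
      refine Finset.sum_congr rfl fun i hi => ?_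
      rw [Finset.mem_range] at hi
      rw [eqτ (k + 1) i hi.le, eqτ (k + 1) (i + 1) hi, eqy (k + 1) i hi.le, eqy (k + 1) (i + 1) hi]
    rw [h6] at h5
    have hDat := toDat hu.toLEq hδ hl (m := 1) (by norm_num)
    have h7 : act (c' : ℝ) u (rl lam δ u) (P (k + 1)).n τ y ≤
        act c u (rl lam δ u) (P (k + 1)).n τ y := by
      unfold act
      refine Finset.sum_le_sum fun i _ => ?_
      refine sg_anti hDat.cont_u hDat.cr ?_ (hmono (Nat.lt_succ_self i))
        (hτT _) hcc.le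
      have := hmono.monotone (Nat.zero_le i)
      rw [hτ0] at this
      linarith
    refine lt_of_le_of_lt ?_ (h5.trans_le h7)
    have h8 : T - τ (P (k + 1)).n < 1 := hN' _ (by omega)
    have h9 : 0 < T - τ (P (k + 1)).n := by linarith [hτT (P (k + 1)).n]
    have h10 : Real.log (T - τ (P (k + 1)).n) ≤ 0 := Real.log_nonpos h9.le h8.le
    nlinarith

end Pool.Agent.H9SA
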