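import Pool.Agent.H459R3.NS.Defs

/-!
Integrals of powers of the norm, and Hölder's inequality for the truncated potentials.
-/

set_option autoImplicit false

open MeasureTheory Set Metric Filter Topology

namespace Pool.Agent.H9SA

open H459R3.NS

lemma vol_ball_one : volume.real (ball (0 : V) 1) = 8 := by
  rw [measureReal_def, Real.volume_pi_ball _ one_pos]
  simp
  norm_num

/-- The kernel near the origin. -/
lemma ker_near {α r : ℝ} (hα : α < 3) (hr : 0 < r) :
    IntegrableOn (fun z : V => ‖z‖ ^ (-α)) (closedBall 0 r) ∧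
      ∫ z in closedBall (0 : V) r, ‖z‖ ^ (-α) = 24 * (r ^ (3 - α) / (3 - α)) := by
  have hind : (closedBall (0 : V) r).indicator (fun z : V => ‖z‖ ^ (-α)) =
      fun z : V => (Iic r).indicator (fun y : ℝ => y ^ (-α)) ‖z‖ := by
    funext z
    by_cases hz : z ∈ closedBall (0 : V) r
    · have hz' : ‖z‖ ∈ Iic r := by rwa [mem_closedBall_zero_iff] at hz
      rw [indicator_of_mem hz, indicator_of_mem hz']
    · have hz' : ‖z‖ ∉ Iic r := by rwa [mem_closedBall_zero_iff] at hz
      rw [indicator_of_notMem hz, indicator_of_notMem hz']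
  have hdim : Module.finrank ℝ V = 3 := by simp
  have heq : EqOn (fun y : ℝ => y ^ (Module.finrank ℝ V - 1) •
      (Iic r).indicator (fun y : ℝ => y ^ (-α)) y)
      ((Ioc 0 r).indicator fun y : ℝ => y ^ (2 - α)) (Ioi 0) := by
    intro y hy
    have hy0 : 0 < y := hy
    simp only [hdim]
    by_cases h : y ≤ r
    · rw [indicator_of_mem (show y ∈ Iic r from h), indicator_of_mem (show y ∈ Ioc 0 r from ⟨hy0, h⟩),
        smul_eq_mul]
      rw [show (3 - 1 : ℕ) = 2 from rfl, ← Real.rpow_natCast y 2, ← Real.rpow_add hy0]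
      congr 1
    · rw [indicator_of_notMem (show y ∉ Iic r from h),
        indicator_of_notMem (show y ∉ Ioc 0 r from fun h' => h h'.2), smul_zero]
  have hi : IntegrableOn (fun y : ℝ => y ^ (2 - α)) (Ioc 0 r) := by
    rw [← intervalIntegrable_iff_integrableOn_Ioc_of_le hr.le]
    exact intervalIntegral.intervalIntegrable_rpow' (by linarith)
  constructor
  · rw [← integrable_indicator_iff measurableSet_closedBall, hind, integrable_fun_norm_addHaar,
      integrableOn_congr_fun heq measurableSet_Ioi]
    exact ((integrable_indicator_iff measurableSet_Ioc).2 hi).integrableOn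
  · rw [← integral_indicator measurableSet_closedBall, hind, integral_fun_norm_addHaar,
      setIntegral_congr_fun measurableSet_Ioi heq, vol_ball_one, hdim]
    have h1 : ∫ y in Ioi (0 : ℝ), (Ioc 0 r).indicator (fun y : ℝ => y ^ (2 - α)) y =
        ∫ y in Ioc 0 r, y ^ (2 - α) := by
      rw [setIntegral_indicator measurableSet_Ioc]
      congr 2
      ext y
      exact ⟨fun h => h.2, fun h => ⟨h.1, h⟩⟩
    rw [h1, ← intervalIntegral.integral_of_le hr.le, integral_rpow (Or.inl (by linarith)),
      Real.zero_rpow (by linarith)]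
    simp only [smul_eq_mul, nsmul_eq_mul]
    have e : 2 - α + 1 = 3 - α := by ring
    rw [e]
    push_cast
    ring

/-- The kernel far from the origin. -/
lemma ker_far {α r : ℝ} (hα : 3 < α) (hr : 0 < r) :
    IntegrableOn (fun z : V => ‖z‖ ^ (-α)) {z | r < ‖z‖} ∧
      ∫ z in {z : V | r < ‖z‖}, ‖z‖ ^ (-α) = 24 * (r ^ (3 - α) / (α - 3)) := by
  have hms : MeasurableSet {z : V | r < ‖z‖} := measurableSet_lt measurable_const (by fun_prop)
  have hind : ({z : V | r < ‖z‖}).indicator (fun z : V => ‖z‖ ^ (-α)) =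
      fun z : V => (Ioi r).indicator (fun y : ℝ => y ^ (-α)) ‖z‖ := by
    funext z
    by_cases hz : z ∈ {z : V | r < ‖z‖}
    · have hz' : ‖z‖ ∈ Ioi r := hz
      rw [indicator_of_mem hz, indicator_of_mem hz']
    · have hz' : ‖z‖ ∉ Ioi r := hz
      rw [indicator_of_notMem hz, indicator_of_notMem hz']
  have hdim : Module.finrank ℝ V = 3 := by simp
  have heq : EqOn (fun y : ℝ => y ^ (Module.finrank ℝ V - 1) •
      (Ioi r).indicator (fun y : ℝ => y ^ (-α)) y)
      ((Ioi r).indicator fun y : ℝ => y ^ (2 - α)) (Ioi 0) := by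
    intro y hy
    have hy0 : 0 < y := hy
    simp only [hdim]
    by_cases h : r < y
    · rw [indicator_of_mem (show y ∈ Ioi r from h), indicator_of_mem (show y ∈ Ioi r from h),
        smul_eq_mul]
      rw [show (3 - 1 : ℕ) = 2 from rfl, ← Real.rpow_natCast y 2, ← Real.rpow_add hy0]
      congr 1
    · rw [indicator_of_notMem (show y ∉ Ioi r from h),
        indicator_of_notMem (show y ∉ Ioi r from h), smul_zero]
  have hi : IntegrableOn (fun y : ℝ => y ^ (2 - α)) (Ioi r) :=
    integrableOn_Ioi_rpow_of_lt (by linarith) hr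
  constructor
  · rw [← integrable_indicator_iff hms, hind, integrable_fun_norm_addHaar,
      integrableOn_congr_fun heq measurableSet_Ioi]
    exact ((integrable_indicator_iff measurableSet_Ioi).2 hi).integrableOn
  · rw [← integral_indicator hms, hind, integral_fun_norm_addHaar,
      setIntegral_congr_fun measurableSet_Ioi heq, vol_ball_one, hdim]
    have h1 : ∫ y in Ioi (0 : ℝ), (Ioi r).indicator (fun y : ℝ => y ^ (2 - α)) y =
        ∫ y in Ioi r, y ^ (2 - α) := by
      rw [setIntegral_indicator measurableSet_Ioi]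
      congr 2
      ext y
      exact ⟨fun h => h.2, fun h => ⟨hr.trans h, h⟩⟩
    rw [h1, integral_Ioi_rpow_of_lt (by linarith) hr]
    simp only [smul_eq_mul, nsmul_eq_mul]
    have e : 2 - α + 1 = 3 - α := by ring
    have e2 : α - 3 = -(3 - α) := by ring
    rw [e, e2, div_neg, neg_div]
    push_cast
    ring

/-- Hölder's inequality for a kernel. -/
lemma hold_ker {S : Set V} {q q' β L : ℝ} (hpq : q.HolderConjugate q') {f : V → ℝ}
    (hf : Continuous f) (hS : MeasurableSet S) (hSL : S ⊆ closedBall 0 L)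
    (hk : IntegrableOn (fun z : V => ‖z‖ ^ (-(β * q'))) S) (x : V) :
    ∫ z in S, |f (x + z)| * ‖z‖ ^ (-β) ≤
      (∫ z in S, |f (x + z)| ^ q) ^ (1 / q) * (∫ z in S, ‖z‖ ^ (-(β * q'))) ^ (1 / q') := by
  have hq : 0 < q := hpq.pos
  have hq' : 0 < q' := hpq.symm.pos
  have hfin : IsFiniteMeasure (volume.restrict S) := by
    refine ⟨?_⟩
    rw [Measure.restrict_apply_univ]
    exact (measure_mono hSL).trans_lt (isCompact_closedBall (0 : V) L).measure_lt_top
  have hfc : Continuous fun z : V => |f (x + z)| := (hf.comp (continuous_const.add continuous_id)).abs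
  obtain ⟨B, hB⟩ := (isCompact_closedBall (0 : V) L).exists_bound_of_continuousOn
    hfc.continuousOn
  have m1 : MemLp (fun z : V => |f (x + z)|) (ENNReal.ofReal q) (volume.restrict S) := by
    refine MemLp.of_bound hfc.aestronglyMeasurable B ?_
    filter_upwards [ae_restrict_mem hS] with z hz
    exact hB z (hSL hz)
  have hpow : ∀ z : V, ‖‖z‖ ^ (-β)‖ ^ q' = ‖z‖ ^ (-(β * q')) := by
    intro z
    rw [Real.norm_eq_abs, abs_of_nonneg (Real.rpow_nonneg (norm_nonneg z) _),
      ← Real.rpow_mul (norm_nonneg z)]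
    congr 1
    ring
  have hkm : AEStronglyMeasurable (fun z : V => ‖z‖ ^ (-β)) (volume.restrict S) := by
    refine Measurable.aestronglyMeasurable ?_
    fun_prop
  have m2 : MemLp (fun z : V => ‖z‖ ^ (-β)) (ENNReal.ofReal q') (volume.restrict S) := by
    rw [← integrable_norm_rpow_iff hkm (by simpa using hq') ENNReal.ofReal_ne_top,
      ENNReal.toReal_ofReal hq'.le]
    simp only [hpow]
    exact hk
  have key := integral_mul_le_Lp_mul_Lq_of_nonneg (μ := volume.restrict S) hpq
    (f := fun z : V => |f (x + z)|) (g := fun z : V => ‖z‖ ^ (-β))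
    (Eventually.of_forall fun z => abs_nonneg _)
    (Eventually.of_forall fun z => Real.rpow_nonneg (norm_nonneg z) _) m1 m2
  refine key.trans (le_of_eq ?_)
  congr 2
  refine integral_congr_ae (Eventually.of_forall fun z => ?_)
  have := hpow z
  rwa [Real.norm_eq_abs, abs_of_nonneg (Real.rpow_nonneg (norm_nonneg z) _)] at this

end Pool.Agent.H9SA
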