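import Pool.Agent.H9SA.Dat
import Pool.Agent.H9SA.Cut

/-!
The bound of the local `L^q` norm of the vorticity from the bound of the actions.
-/

set_option autoImplicit false

open MeasureTheory Set Metric Filter Topology
open scoped ContDiff

namespace Pool.Agent.H9SA

open H459R3.NS Pool.Agent.W583.MD

variable {T T₀ R c : ℝ} {a : V} {O : Set V} {u : ℝ → V → V} {r F : ℝ → V → ℝ} {m : ℝ}
  {Up : ℝ → ℝ}

lemma dot_le {v : V} {M : ℝ} (h : ‖v‖ ≤ M) : v ⬝ᵥ v ≤ 3 * M ^ 2 := by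
  unfold dotProduct
  rw [Fin.sum_univ_three]
  have : ∀ i, v i * v i ≤ M ^ 2 := fun i => by
    have := (norm_le_pi_norm v i).trans h
    rw [Real.norm_eq_abs] at this
    nlinarith [abs_nonneg (v i), abs_mul_abs_self (v i)]
  linarith [this 0, this 1, this 2]

/-- Bound of the velocity and of the rate on compact sets. -/
lemma Dat.bd (h : Dat T O u r F m) {α β : ℝ} (hα : 0 < α) (hβ : β < T) (a : V) (R : ℝ) :
    ∃ M, 0 ≤ M ∧ ∀ t ∈ Icc α β, ∀ x ∈ closedBall a R, ‖u t x‖ ≤ M ∧ |r t x| ≤ M := by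
  have hK : IsCompact (Icc α β ×ˢ closedBall a R) := isCompact_Icc.prod (isCompact_closedBall a R)
  obtain ⟨C, hC⟩ := hK.exists_bound_of_continuousOn (h.cont_u.mono (prod_mono
    (fun t ht => ⟨hα.trans_le ht.1, ht.2.trans_lt hβ⟩) (subset_univ _)))
  obtain ⟨C', hC'⟩ := hK.exists_bound_of_continuousOn (h.cr.mono (prod_mono
    (fun t ht => ⟨hα.trans_le ht.1, ht.2.trans_lt hβ⟩) (subset_univ _)))
  exact ⟨max (max C C') 0, le_max_right _ _, fun t ht x hx =>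
    ⟨(hC (t, x) ⟨ht, hx⟩).trans ((le_max_left _ _).trans (le_max_left _ _)),
      (hC' (t, x) ⟨ht, hx⟩).trans ((le_max_right _ _).trans (le_max_left _ _))⟩⟩

/-- Lower bound of the value function. -/
lemma val_low (hD : Dat T O u r F m) (hB : Bd c u (r) (closedBall a R) T₀ T Up)
    (hT₀ : 0 < T₀) (hc : 0 ≤ c) {t : ℝ} (ht : t ∈ Ioo T₀ T) {x : V} (hx : x ∈ closedBall a R)
    {M : ℝ} (hM : ∀ τ ∈ Icc T₀ t, ‖u τ x‖ ≤ M ∧ |r τ x| ≤ M) :
    -((M + c * (3 * M ^ 2)) * T) ≤ val c u (r) (closedBall a R) T₀ t x := by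
  have hM0 : 0 ≤ M := (norm_nonneg _).trans (hM T₀ ⟨le_rfl, ht.1.le⟩).1
  refine le_trans ?_ (val_ge_stay hB hD.cont_u hD.cr hT₀ hc ht hx
    (fun τ hτ => (abs_le.1 (hM τ hτ).2).1) (fun τ hτ => dot_le (hM τ hτ).1))
  have h1 : 0 ≤ M + c * (3 * M ^ 2) := by positivity
  have h2 : t - T₀ ≤ T := by linarith [ht.2]
  have h3 := mul_le_mul_of_nonneg_left h2 h1
  linarith

lemma vf_int (hD : Dat T O u r F m) (hB : Bd c u (r) (closedBall a R) T₀ T Up)
    (hT₀ : 0 < T₀) (hc : 0 ≤ c) (hUp : ContinuousOn Up (Ico T₀ T)) {T₂ : ℝ} (h02 : T₀ < T₂)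
    (hT₂ : T₂ < T) :
    Integrable (vf c u (r) (closedBall a R) (ball a R) T₀ T₂) := by
  obtain ⟨M, hM0, hM⟩ := hD.bd hT₀ hT₂ a R
  have hmeas := meas_vf hB hD.cont_u hD.cr hT₀ hT₂.le isOpen_ball ball_subset_closedBall
  have hT0 : 0 < T := by linarith
  obtain ⟨B, hBU⟩ := (isCompact_Icc (a := T₀) (b := T₂)).exists_bound_of_continuousOn
    (hUp.mono fun t ht => ⟨ht.1, ht.2.trans_lt hT₂⟩)
  have hB0 : 0 ≤ B := (norm_nonneg _).trans (hBU T₂ ⟨h02.le, le_rfl⟩)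
  set C : ℝ := B + (M + c * (3 * M ^ 2)) * T with hC
  have hKc : IsCompact (Icc T₀ T₂ ×ˢ closedBall a R) :=
    isCompact_Icc.prod (isCompact_closedBall a R)
  have hi : Integrable ((Icc T₀ T₂ ×ˢ closedBall a R).indicator fun _ => C) := by
    rw [integrable_indicator_iff hKc.measurableSet]
    exact integrableOn_const hKc.measure_lt_top.ne
  refine hi.mono' hmeas.aestronglyMeasurable (Eventually.of_forall fun z => ?_)
  by_cases hz : z ∈ Ioo T₀ T₂ ×ˢ ball a R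
  · have hz' : z ∈ Icc T₀ T₂ ×ˢ closedBall a R := ⟨Ioo_subset_Icc_self hz.1,
      ball_subset_closedBall hz.2⟩
    rw [vf_eq hz, indicator_of_mem hz', Real.norm_eq_abs, abs_le]
    have hzT : z.1 ∈ Ioo T₀ T := ⟨hz.1.1, hz.1.2.trans hT₂⟩
    have h1 := val_low hD hB hT₀ hc hzT hz'.2 (M := M) fun τ hτ =>
      hM τ ⟨hτ.1, hτ.2.trans hz.1.2.le⟩ _ hz'.2
    have h2 := (val_le hB hzT hz'.2).trans ((le_abs_self _).trans (hBU z.1 hz'.1))
    have h5 : 0 ≤ (M + c * (3 * M ^ 2)) * T := by positivity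
    constructor <;> linarith
  · unfold vf
    rw [indicator_of_notMem hz, norm_zero]
    refine indicator_nonneg (fun _ _ => ?_) z
    positivity

/-- The modulus of continuity. -/
lemma eps_exists (hD : Dat T O u r F m) (hT₀ : 0 < T₀) {T₂ : ℝ} (hT₂ : T₂ < T) {A : ℝ}
    (hA : 0 ≤ A) : ∃ ε₀ : ℝ, 0 < ε₀ ∧ ∀ z ∈ Icc T₀ T₂ ×ˢ closedBall a R,
      ∀ z' ∈ Icc T₀ T₂ ×ˢ closedBall a R, dist z z' ≤ ε₀ →
        r z.1 z.2 - 1 ≤ r z'.1 z'.2 ∧
        A * ((u z.1 z.2 - u z'.1 z'.2) ⬝ᵥ (u z.1 z.2 - u z'.1 z'.2)) ≤ 1 := by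
  have hKc : IsCompact (Icc T₀ T₂ ×ˢ closedBall a R) :=
    isCompact_Icc.prod (isCompact_closedBall a R)
  have hsub : Icc T₀ T₂ ×ˢ closedBall a R ⊆ Ioo 0 T ×ˢ (univ : Set V) :=
    prod_mono (fun t ht => ⟨hT₀.trans_le ht.1, ht.2.trans_lt hT₂⟩) (subset_univ _)
  have h1 := hKc.uniformContinuousOn_of_continuous (hD.cr.mono hsub)
  have h2 := hKc.uniformContinuousOn_of_continuous (hD.cont_u.mono hsub)
  rw [Metric.uniformContinuousOn_iff_le] at h1 h2
  obtain ⟨δ₁, hδ₁, H₁⟩ := h1 1 one_pos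
  obtain ⟨δ₂, hδ₂, H₂⟩ := h2 (1 + 3 * A)⁻¹ (by positivity)
  refine ⟨min δ₁ δ₂, lt_min hδ₁ hδ₂, fun z hz z' hz' hzz => ⟨?_, ?_⟩⟩
  · have := H₁ z hz z' hz' (hzz.trans (min_le_left _ _))
    rw [Real.dist_eq] at this
    linarith [(abs_le.1 this).2]
  · have h3 := H₂ z hz z' hz' (hzz.trans (min_le_right _ _))
    rw [dist_eq_norm] at h3
    have h4 := mul_le_mul_of_nonneg_left (dot_le h3) hA
    refine h4.trans ?_
    have h5 : 0 < 1 + 3 * A := by positivity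
    have h6 : (1 + 3 * A)⁻¹ ≤ 1 := inv_le_one_of_one_le₀ (by linarith)
    have h7 : (1 + 3 * A) * (1 + 3 * A)⁻¹ = 1 := mul_inv_cancel₀ h5.ne'
    have h8 : 0 < (1 + 3 * A)⁻¹ := inv_pos.2 h5
    nlinarith [mul_nonneg hA h8.le]

lemma params (hm : 1 / 2 < m) (hc : 0 < c) (hcm : c * (2 * m) ^ 2 < 2 * m - 1) :
    ∃ κ μ : ℝ, 0 < κ ∧ 0 < μ ∧
      2 * m / (4 * ((m - 1 / 2) / m)) + μ ≤ (4 * ((1 + κ) * c))⁻¹ := by
  have hm0 : 0 < m := by linarith
  have h1 : 0 < 2 * m - 1 := by linarith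
  have h2 : 0 < c * (2 * m) ^ 2 := by positivity
  refine ⟨((2 * m - 1) / (c * (2 * m) ^ 2) - 1) / 2,
    (4 * ((1 + ((2 * m - 1) / (c * (2 * m) ^ 2) - 1) / 2) * c))⁻¹
      - 2 * m / (4 * ((m - 1 / 2) / m)), ?_, ?_, by linarith⟩
  · have : 1 < (2 * m - 1) / (c * (2 * m) ^ 2) := by rwa [one_lt_div h2]
    linarith
  · rw [sub_pos]
    have e1 : 2 * m / (4 * ((m - 1 / 2) / m)) = (2 * m) ^ 2 / (4 * (2 * m - 1)) := by
      have : m - 1 / 2 ≠ 0 := by linarith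
      field_simp
    have e2 : 4 * ((1 + ((2 * m - 1) / (c * (2 * m) ^ 2) - 1) / 2) * c) =
        2 * ((2 * m - 1) + c * (2 * m) ^ 2) / (2 * m) ^ 2 := by
      field_simp
      ring
    rw [e1, e2, inv_div]
    refine div_lt_div_of_pos_left (by positivity) (by positivity) (by linarith)

/-- The closed balls in space-time. -/
lemma cb_sub {t : ℝ} {x : V} {ε s₁ T₂ : ℝ} (hx : ‖x - a‖ ≤ s₁) (h1 : T₀ + ε < t)
    (h2 : t + ε < T₂) (h3 : s₁ + ε < R) : closedBall ((t, x) : ℝ × V) ε ⊆ Ioo T₀ T₂ ×ˢ ball a R := by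
  rw [← closedBall_prod_same]
  refine prod_mono (fun τ hτ => ?_) fun y hy => ?_
  · rw [mem_closedBall, Real.dist_eq, abs_le] at hτ
    constructor <;> linarith [hτ.1, hτ.2]
  · rw [mem_closedBall, dist_eq_norm] at hy
    rw [mem_ball, dist_eq_norm]
    have e : y - a = (y - x) + (x - a) := by abel
    rw [e]
    linarith [norm_add_le (y - x) (x - a)]

/-- The pointwise bound of the boundary terms. -/
lemma bdry_pt {E E' F CB B : ℝ} (hE0 : 0 ≤ E) (hE : E ≤ E') (hF : 0 ≤ F) (hB : |B| ≤ CB) :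
    E * F * B ≤ E' * CB * F := by
  have h1 : E * F * B ≤ E * F * |B| := mul_le_mul_of_nonneg_left (le_abs_self B) (by positivity)
  have h2 : E * F * |B| ≤ E * F * CB := mul_le_mul_of_nonneg_left hB (by positivity)
  have hCB : 0 ≤ CB := (abs_nonneg _).trans hB
  have h3 : E * (F * CB) ≤ E' * (F * CB) := mul_le_mul_of_nonneg_right hE (by positivity)
  nlinarith

theorem Lq_bound (hT₀ : 0 < T₀) (hD : Dat T O u r F m) (hRO : closedBall a R ⊆ O)
    (hm : 1 / 2 < m) (hc : 0 < c) (hcm : c * (2 * m) ^ 2 < 2 * m - 1)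
    (hB : Bd c u (r) (closedBall a R) T₀ T Up) (hUp : ContinuousOn Up (Ico T₀ T))
    {s ww M : ℝ} (hw : 0 < ww) (hsw : ww < s) (hsR : s + 2 * ww ≤ R) (hM0 : 0 ≤ M)
    (hM : ∀ t ∈ Ico T₀ T, ∀ x ∈ Sh a s (2 * ww), ‖u t x‖ ≤ M ∧ |r t x| ≤ M) {T₁ : ℝ} (hT₁ : T₀ < T₁)
    (hT₁T : T₁ < T) {h : ℝ → ℝ} {H : ℝ} (hh : ContinuousOn h (Ico T₁ T))
    (hh1 : ∀ t ∈ Ico T₁ T, ∫ x in Sh a s ww, F t x ≤ h t)
    (hH : ∀ t ∈ Ico T₁ T, ∫ τ in T₁..t, h τ ≤ H) :
    ∃ K, 0 ≤ K ∧ ∀ t ∈ Ico T₁ T, ∫ x in closedBall a (s - ww), F t x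
      ≤ K * Real.exp (2 * m * Up t) := by
  obtain ⟨q, hq⟩ : ∃ q, q = 2 * m := ⟨_, rfl⟩
  have hq0 : 0 < q := by linarith
  have hm0 : 0 < m := by linarith
  have hκq : 0 < (m - 1 / 2) / m := div_pos (by linarith) hm0
  have hTp : 0 < T := by linarith
  obtain ⟨κ, μ, hκ, hμ, hlam⟩ := params hm hc hcm
  rw [← hq] at hlam ⊢
  obtain ⟨χ, hχ, hχc, hχ0, hχ1, hχ2, hχ3, hχ4⟩ := cut a hw hsw
  obtain ⟨CB, hCB0, hCB⟩ := BR_bd hχ hχc (q := q) (μ := μ) hq0.le hμ hM0
  obtain ⟨M₁, hM₁0, hM₁⟩ := hD.bd hT₀ (β := (T₁ + T) / 2) (by linarith) a R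
  have hF0 : ∀ t x, 0 < F t x := hD.F0
  obtain ⟨E₀, hE₀⟩ : ∃ E₀, E₀ = Real.exp (q * ((M₁ + c * (3 * M₁ ^ 2)) * T)) := ⟨_, rfl⟩
  obtain ⟨E₁, hE₁⟩ : ∃ E₁, E₁ = Real.exp (q * ((M + c * (3 * M ^ 2)) * T)) := ⟨_, rfl⟩
  have hE₀0 : 0 < E₀ := by rw [hE₀]; exact Real.exp_pos _
  have hE₁0 : 0 < E₁ := by rw [hE₁]; exact Real.exp_pos _
  obtain ⟨K₀, hK₀⟩ : ∃ K₀, K₀ = E₀ * ∫ x, χ x ^ 2 * F T₁ x := ⟨_, rfl⟩
  have hK₀0 : 0 ≤ K₀ := by
    rw [hK₀]
    exact mul_nonneg hE₀0.le (integral_nonneg fun x => mul_nonneg (sq_nonneg _) (hF0 _ x).le)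
  have hH0 : 0 ≤ H := by
    have := hH T₁ ⟨le_rfl, hT₁T⟩
    simpa using this
  refine ⟨Real.exp (2 * q * T) * (K₀ + E₁ * CB * H) * Real.exp q, by positivity,
    fun ts hts => ?_⟩
  obtain ⟨T₂, hT₂⟩ : ∃ T₂, T₂ = (ts + T) / 2 := ⟨_, rfl⟩
  have hts1 : T₁ ≤ ts := hts.1
  have hts2 : ts < T := hts.2
  have hT₂T : T₂ < T := by linarith
  have htsT₂ : ts < T₂ := by linarith
  obtain ⟨ε₀', hε₀', hmod'⟩ := eps_exists (a := a) (R := R) hD hT₀ hT₂T
    (A := c * (1 + κ⁻¹)) (by positivity)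
  obtain ⟨ε₁, hε₁, hUε⟩ : ∃ ε₁ : ℝ, 0 < ε₁ ∧ ∀ τ : ℝ, |τ - ts| < ε₁ → Up τ ≤ Up ts + 1 := by
    have hc1 : ContinuousAt Up ts := hUp.continuousAt (Ico_mem_nhds (by linarith) hts2)
    obtain ⟨ε₁, hε₁, h⟩ := Metric.continuousAt_iff.1 hc1 1 one_pos
    refine ⟨ε₁, hε₁, fun τ hτ => ?_⟩
    have := h (x := τ) (by rwa [Real.dist_eq])
    rw [Real.dist_eq] at this
    linarith [(abs_lt.1 this).2]
  obtain ⟨ε₀, hε₀, hε₀a, hε₀b⟩ : ∃ ε₀ : ℝ, 0 < ε₀ ∧ ε₀ ≤ ε₀' ∧ ε₀ ≤ ε₁ :=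
    ⟨min ε₀' ε₁, lt_min hε₀' hε₁, min_le_left _ _, min_le_right _ _⟩
  have hmod : ∀ z ∈ Icc T₀ T₂ ×ˢ closedBall a R, ∀ z' ∈ Icc T₀ T₂ ×ˢ closedBall a R,
      dist z z' ≤ ε₀ → r z.1 z.2 - 1 ≤ r z'.1 z'.2 ∧
        c * (1 + κ⁻¹) * ((u z.1 z.2 - u z'.1 z'.2) ⬝ᵥ (u z.1 z.2 - u z'.1 z'.2)) ≤ 1 :=
    fun z hz z' hz' h => hmod' z hz z' hz' (h.trans hε₀a)
  obtain ⟨ε, hε, hεa, hεb, hεc, hεd⟩ : ∃ ε : ℝ, 0 < ε ∧ 2 * ε ≤ ε₀ ∧ 2 * ε < ww ∧
      2 * ε < T₁ - T₀ ∧ 2 * ε < (T - ts) / 2 := by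
    obtain ⟨e, he0, he1⟩ := exists_between (show (0 : ℝ) < min (min ε₀ ww) (min (T₁ - T₀)
      ((T - ts) / 2)) from lt_min (lt_min hε₀ hw) (lt_min (by linarith) (by linarith)))
    refine ⟨e / 2, by linarith, ?_, ?_, ?_, ?_⟩
    · linarith [min_le_left (min ε₀ ww) (min (T₁ - T₀) ((T - ts) / 2)), min_le_left ε₀ ww]
    · linarith [min_le_left (min ε₀ ww) (min (T₁ - T₀) ((T - ts) / 2)), min_le_right ε₀ ww]
    · linarith [min_le_right (min ε₀ ww) (min (T₁ - T₀) ((T - ts) / 2)),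
        min_le_left (T₁ - T₀) ((T - ts) / 2)]
    · linarith [min_le_right (min ε₀ ww) (min (T₁ - T₀) ((T - ts) / 2)),
        min_le_right (T₁ - T₀) ((T - ts) / 2)]
  have hvf := vf_int hD hB hT₀ hc.le hUp (T₂ := T₂) (by linarith) hT₂T
  set G : ℝ × V → ℝ := mo ε hε (vf c u (r) (closedBall a R) (ball a R) T₀ T₂) with hGdef
  have hG : ContDiff ℝ ∞ G := mo_smooth hε hvf
  have hGj : Js T (fun t x => G (t, x)) := hG.contDiffOn
  have hI : ∀ t ∈ Icc T₁ ts, t ∈ Ioo 0 T := fun t ht => ⟨by linarith [ht.1], by linarith [ht.2]⟩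
  -- the balls
  have hcb : ∀ t ∈ Icc T₁ ts, ∀ x, ‖x - a‖ ≤ s + ww →
      closedBall ((t, x) : ℝ × V) (2 * ε) ⊆ Ioo T₀ T₂ ×ˢ ball a R := fun t ht x hx =>
    cb_sub hx (by linarith [ht.1]) (by linarith [ht.2]) (by linarith)
  have hsubz : ∀ {z : ℝ × V} {ζ : ℝ × V}, ζ ∈ ball (0 : ℝ × V) ε → z - ζ ∈ closedBall z ε := by
    intro z ζ hζ
    rw [mem_ball_zero_iff] at hζ
    rw [mem_closedBall, dist_eq_norm, sub_sub_cancel_left, norm_neg]
    exact hζ.le
  -- the inequality of Hamilton and Jacobi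
  have hHJ : ∀ t ∈ Icc T₁ ts, ∀ x, χ x ≠ 0 → r t x - 2 * 1 + (4 * ((1 + κ) * c))⁻¹ *
      (∑ j, pd j (fun y => G (t, y)) x ^ 2) ≤ deriv (fun s => G (s, x)) t
        + ∑ j, (fun j y => u t y j) j x * pd j (fun y => G (t, y)) x := by
    intro t ht x hx
    have hxs := (hχ3 x hx).le
    have hsub := hcb t ht x hxs
    have hz₀ : ((t, x) : ℝ × V) ∈ Icc T₀ T₂ ×ˢ closedBall a R := by
      have := hsub (mem_closedBall_self (by linarith))
      exact ⟨Ioo_subset_Icc_self this.1, ball_subset_closedBall this.2⟩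
    have hzz : ∀ z ∈ closedBall ((t, x) : ℝ × V) (2 * ε), z ∈ Icc T₀ T₂ ×ˢ closedBall a R :=
      fun z hz => ⟨Ioo_subset_Icc_self (hsub hz).1, ball_subset_closedBall (hsub hz).2⟩
    have key := mol_hj hB hD.cont_u hD.cr hT₀ hT₂T.le ball_subset_closedBall hvf hε
      (z₀ := (t, x)) hsub hc (κ := κ) (η := 1) (r₀ := r t x) (b₀ := u t x) hκ
      (fun z hz => (hmod (t, x) hz₀ z (hzz z hz) (by rw [dist_comm]; exact hz.trans hεa)).1)
      (fun z hz => (hmod (t, x) hz₀ z (hzz z hz) (by rw [dist_comm]; exact hz.trans hεa)).2)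
    have e1 : ∀ j, pd j (fun y => G (t, y)) x = fderiv ℝ G (t, x) (0, Pi.single j 1) := fun j =>
      Pool.Agent.Q2.CL.pd_eqI (f := fun t x => G (t, x)) hGj (hI t ht) j x
    have e2 : deriv (fun s => G (s, x)) t = fderiv ℝ G (t, x) (1, 0) :=
      Pool.Agent.Q2.CL.dt_eqI (f := fun t x => G (t, x)) hGj (hI t ht) x
    have e3 : fderiv ℝ G (t, x) (1, u t x) = fderiv ℝ G (t, x) (1, 0)
        + ∑ j, u t x j * fderiv ℝ G (t, x) (0, Pi.single j 1) := by
      have e4 : ((1, u t x) : ℝ × V) = (1, 0) + ∑ i, u t x i • ((0, Pi.single i 1) : ℝ × V) := by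
        refine Prod.ext ?_ ?_
        · simp [Prod.fst_sum]
        · simp only [Prod.snd_add, Prod.snd_sum, Prod.smul_snd, zero_add]
          funext j
          simp [Finset.sum_apply, Pi.single_apply]
      rw [e4, map_add, map_sum]
      congr 1
      exact Finset.sum_congr rfl fun i _ => by rw [map_smul, smul_eq_mul]
    simp only [e1, e2]
    rw [← e3]
    exact key
  -- the bounds of `G`
  have hGl : ∀ t ∈ Icc T₁ ts, ∀ x ∈ Sh a s ww, -((M + c * (3 * M ^ 2)) * T) ≤ G (t, x) := by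
    intro t ht x hx
    have hx' : |‖x - a‖ - s| ≤ ww := hx
    refine le_mo hε hvf fun ζ hζ => ?_
    have h1 := hsubz (z := (t, x)) hζ
    have h2 := hcb t ht x (by linarith [(abs_le.1 hx').2])
      (closedBall_subset_closedBall (by linarith) h1)
    rw [vf_eq h2]
    have h3 : (((t, x) : ℝ × V) - ζ).2 ∈ Sh a s (2 * ww) := by
      rw [← closedBall_prod_same] at h1
      have h4 := h1.2
      rw [mem_closedBall, dist_eq_norm] at h4
      have h5 := abs_norm_sub_norm_le ((((t, x) : ℝ × V) - ζ).2 - a) (x - a)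
      rw [sub_sub_sub_cancel_right] at h5
      show |‖(((t, x) : ℝ × V) - ζ).2 - a‖ - s| ≤ 2 * ww
      have e : ‖(((t, x) : ℝ × V) - ζ).2 - a‖ - s = (‖(((t, x) : ℝ × V) - ζ).2 - a‖ - ‖x - a‖)
          + (‖x - a‖ - s) := by ring
      rw [e]
      refine (abs_add_le _ _).trans ?_
      have h6 : ‖(((t, x) : ℝ × V) - ζ).2 - x‖ ≤ ε := h4
      linarith
    exact val_low hD hB hT₀ hc.le ⟨h2.1.1, h2.1.2.trans hT₂T⟩ (ball_subset_closedBall h2.2)
      fun τ hτ => hM τ ⟨hτ.1, hτ.2.trans_lt (h2.1.2.trans hT₂T)⟩ _ h3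
  have hG0 : ∀ x, χ x ≠ 0 → -((M₁ + c * (3 * M₁ ^ 2)) * T) ≤ G (T₁, x) := by
    intro x hx
    refine le_mo hε hvf fun ζ hζ => ?_
    have h1 := hsubz (z := (T₁, x)) hζ
    have h2 := hcb T₁ ⟨le_rfl, hts1⟩ x (hχ3 x hx).le (closedBall_subset_closedBall (by linarith) h1)
    rw [vf_eq h2]
    rw [← closedBall_prod_same] at h1
    have h3 : (((T₁, x) : ℝ × V) - ζ).1 ≤ (T₁ + T) / 2 := by
      have h4 := h1.1
      rw [mem_closedBall, Real.dist_eq] at h4
      have h5 := (abs_le.1 h4).2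
      linarith
    exact val_low hD hB hT₀ hc.le ⟨h2.1.1, h2.1.2.trans hT₂T⟩ (ball_subset_closedBall h2.2)
      fun τ hτ => hM₁ τ ⟨hτ.1, hτ.2.trans h3⟩ _ (ball_subset_closedBall h2.2)
  have hGu : ∀ x ∈ closedBall a (s - ww), G (ts, x) ≤ Up ts + 1 := by
    intro x hx
    rw [mem_closedBall, dist_eq_norm] at hx
    refine mo_le hε hvf fun ζ hζ => ?_
    have h1 := hsubz (z := (ts, x)) hζ
    have h2 := hcb ts ⟨hts1, le_rfl⟩ x (by linarith) (closedBall_subset_closedBall (by linarith) h1)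
    rw [vf_eq h2]
    have h3 : (((ts, x) : ℝ × V) - ζ).1 ∈ Ioo T₀ T := ⟨h2.1.1, h2.1.2.trans hT₂T⟩
    refine (val_le hB h3 (ball_subset_closedBall h2.2)).trans (hUε _ ?_)
    rw [← closedBall_prod_same] at h1
    have h4 := h1.1
    rw [mem_closedBall, Real.dist_eq] at h4
    have h5 : |(((ts, x) : ℝ × V) - ζ).1 - ts| ≤ ε := h4
    linarith
  -- the derivative
  set Z : ℝ → ℝ := fun t => ∫ x, χ x ^ 2 * Real.exp (-(q * G (t, x))) * F t x with hZdef
  have hFj : Js T F := hD.sF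
  obtain ⟨R', hR'⟩ : ∃ R : ℝ, tsupport χ ⊆ closedBall (0 : V) R :=
    hχc.isCompact.isBounded.subset_closedBall 0
  have hz0 : ∀ z ∉ closedBall (0 : V) R', χ z = 0 := fun z hz =>
    image_eq_zero_of_notMem_tsupport fun h => hz (hR' h)
  have hZ : ∀ t ∈ Icc T₁ ts, HasDerivAt Z (∫ x, χ x ^ 2 * Real.exp (-(q * G (t, x))) *
      (deriv (fun s => F s x) t
        - q * deriv (fun s => G (s, x)) t * F t x)) t := by
    intro t ht
    have hj : ContDiffOn ℝ ∞ (fun z : ℝ × V => χ z.2 ^ 2 * Real.exp (-(q * G (z.1, z.2))) *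
        F z.1 z.2) (Ioo 0 T ×ˢ univ) := by
      refine ContDiffOn.mul (ContDiffOn.mul ?_ ?_) hFj
      · exact ((hχ.comp contDiff_snd).pow 2).contDiffOn
      · exact ((contDiff_const.mul hG).neg.exp).contDiffOn
    have h1 := Pool.Agent.Q225.CC.hd_intR (F := fun t x => χ x ^ 2 * Real.exp (-(q * G (t, x))) *
      F t x) (R := R') hj (fun t _ z hz => by rw [hz0 z hz]; ring) (hI t ht)
    refine h1.congr_deriv (integral_congr_ae (Eventually.of_forall fun x => ?_))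
    simp only
    have d1 := hFj.hd (hI t ht) x
    have d2 := hGj.hd (hI t ht) x
    have d3 : HasDerivAt (fun s => χ x ^ 2 * Real.exp (-(q * G (s, x))) * F s x)
        (χ x ^ 2 * (Real.exp (-(q * G (t, x))) * -(q * deriv (fun s => G (s, x)) t))
          * F t x + χ x ^ 2 * Real.exp (-(q * G (t, x)))
          * deriv (fun s => F s x) t) t :=
      (((d2.const_mul q).neg.exp).const_mul (χ x ^ 2)).mul d1
    rw [d3.deriv]
    ring
  -- the differential inequality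
  have hdi : ∀ t ∈ Icc T₁ ts, ∫ x, χ x ^ 2 * Real.exp (-(q * G (t, x))) *
      (deriv (fun s => F s x) t
        - q * deriv (fun s => G (s, x)) t * F t x) ≤
      2 * q * Z t + E₁ * CB * h t := by
    intro t ht
    have htI := hI t ht
    have htc : t ∈ Ico T₁ T := ⟨ht.1, by linarith [ht.2]⟩
    have hv : ∀ j, ContDiff ℝ ∞ ((fun j y => u t y j : Fin 3 → V → ℝ) j) := fun j =>
      (hD.su j).sl htI
    have hFt : Continuous fun x => deriv (fun s => F s x) t :=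
      cont_dt_slice (F := fun t x => F t x) hFj htI
    have hGt : Continuous fun x => deriv (fun s => G (s, x)) t :=
      cont_dt_slice (F := fun t x => G (t, x)) hGj htI
    have hOx : ∀ x, χ x ≠ 0 → x ∈ O := fun x hx => hRO (by
      rw [mem_closedBall, dist_eq_norm]
      linarith [hχ3 x hx])
    have k1 := one_time (F := fun y => F t y) (G := fun y => G (t, y)) (χ := χ)
      (v := fun j y => u t y j) q (hFj.sl htI) (hGj.sl htI) hχ hv hχc
      (κ := (m - 1 / 2) / m) (μ := μ) (lam := (4 * ((1 + κ) * c))⁻¹) (η := 1) hq0 hκq hμ hlam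
      (r := fun x => r t x) hFt hGt (hF0 t)
      (fun x hx => by
        have := hD.ineq t htI x (hOx x hx)
        rw [← hq] at this
        exact this)
      (fun x hx => hD.dv t htI x (hOx x hx))
      (fun x hx => hHJ t ht x hx)
    refine k1.trans (add_le_add (le_of_eq (by ring)) ?_)
    -- the boundary term
    have hcont : Continuous (fun x => F t x) := (hFj.sl htI).continuous
    have hFi : IntegrableOn (fun x => E₁ * CB * F t x) (Sh a s ww) :=
      (continuous_const.mul hcont).continuousOn.integrableOn_compact (Sh_compact a s ww)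
    have e1 : ∫ x, Real.exp (-(q * G (t, x))) * F t x *
        BR q μ χ (fun j y => u t y j) x = ∫ x in Sh a s ww, Real.exp (-(q * G (t, x)))
          * F t x * BR q μ χ (fun j y => u t y j) x := by
      rw [setIntegral_eq_integral_of_forall_compl_eq_zero]
      intro x hx
      rw [hχ4 q μ _ x hx, mul_zero]
    rw [e1]
    have e2 : ∫ x in Sh a s ww, Real.exp (-(q * G (t, x)))
          * F t x * BR q μ χ (fun j y => u t y j) x ≤
        ∫ x in Sh a s ww, E₁ * CB * F t x := by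
      refine setIntegral_mono_on ?_ hFi (Sh_closed a s ww).measurableSet fun x hx => ?_
      · refine ContinuousOn.integrableOn_compact (Sh_compact a s ww) (Continuous.continuousOn ?_)
        exact (((continuous_const.mul (hGj.sl htI).continuous).neg.rexp).mul hcont).mul
          (cont_BR hχ hv q μ)
      · refine bdry_pt (Real.exp_pos _).le ?_ (hF0 t x).le (hCB _ x fun j => ?_)
        · rw [hE₁]
          refine Real.exp_le_exp.2 ?_
          have := mul_le_mul_of_nonneg_left (hGl t ht x hx) hq0.le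
          linarith
        · have hx' : |‖x - a‖ - s| ≤ ww := hx
          refine (norm_le_pi_norm (u t x) j).trans (hM t ⟨by linarith [ht.1], htc.2⟩ x ?_).1
          exact hx'.trans (by linarith)
    refine e2.trans ?_
    rw [integral_const_mul]
    exact mul_le_mul_of_nonneg_left (hh1 t htc) (by positivity)
  -- Gronwall
  have hg := gron (Z := Z) (g := fun t => E₁ * CB * h t) (A := 2 * q) hts1 (by positivity) hZ
    ((continuousOn_const.mul hh).mono fun t ht => ⟨ht.1, ht.2.trans_lt hts2⟩)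
    (fun t ht => by
      have h1 : 0 ≤ h t := le_trans (integral_nonneg fun x => (hF0 t x).le)
        (hh1 t ⟨ht.1, ht.2.trans_lt hts2⟩)
      positivity) hdi
  rw [intervalIntegral.integral_const_mul] at hg
  -- the initial value
  have hF1 : Continuous (fun x => F T₁ x) := (hFj.sl (hI T₁ ⟨le_rfl, hts1⟩)).continuous
  have hcs2 : HasCompactSupport fun x => χ x ^ 2 := by
    have e : (fun y => χ y ^ 2) = fun y => χ y * χ y := by funext y; ring
    rw [e]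
    exact hχc.mul_right
  have hZ0 : Z T₁ ≤ K₀ := by
    rw [hK₀, ← integral_const_mul]
    refine integral_mono (int_cs ((((hχ.continuous.pow 2)).mul ((continuous_const.mul
      (hGj.sl (hI T₁ ⟨le_rfl, hts1⟩)).continuous).neg.rexp)).mul hF1)
      (hcs2.mul_right.mul_right)) (int_cs (continuous_const.mul ((hχ.continuous.pow 2).mul hF1))
      (HasCompactSupport.mul_left (hcs2.mul_right))) fun x => ?_
    simp only
    by_cases hx : χ x = 0
    · rw [hx]
      norm_num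
    · have h1 : Real.exp (-(q * G (T₁, x))) ≤ E₀ := by
        rw [hE₀]
        refine Real.exp_le_exp.2 ?_
        have := mul_le_mul_of_nonneg_left (hG0 x hx) hq0.le
        linarith
      have h2 : 0 ≤ χ x ^ 2 * F T₁ x := mul_nonneg (sq_nonneg _) (hF0 _ x).le
      have h3 := mul_le_mul_of_nonneg_right h1 h2
      linarith
  -- the final value
  have hFs : Continuous (fun x => F ts x) := (hFj.sl (hI ts ⟨hts1, le_rfl⟩)).continuous
  have hGs : Continuous fun x => G (ts, x) := (hGj.sl (hI ts ⟨hts1, le_rfl⟩)).continuous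
  have hfin : ∫ x in closedBall a (s - ww), F ts x ≤ Real.exp (q * (Up ts + 1)) * Z ts := by
    rw [hZdef]
    simp only
    rw [← integral_const_mul, ← integral_indicator measurableSet_closedBall]
    refine integral_mono_of_nonneg (Eventually.of_forall fun x => ?_)
      (int_cs (continuous_const.mul (((hχ.continuous.pow 2).mul
        ((continuous_const.mul hGs).neg.rexp)).mul hFs))
        (HasCompactSupport.mul_left (hcs2.mul_right.mul_right)))
      (Eventually.of_forall fun x => ?_)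
    · exact indicator_nonneg (fun x _ => (hF0 ts x).le) x
    · simp only
      by_cases hx : x ∈ closedBall a (s - ww)
      · rw [indicator_of_mem hx, hχ2 x hx, one_pow, one_mul]
        have h1 : 1 ≤ Real.exp (q * (Up ts + 1)) * Real.exp (-(q * G (ts, x))) := by
          rw [← Real.exp_add]
          refine Real.one_le_exp ?_
          have := mul_le_mul_of_nonneg_left (hGu x hx) hq0.le
          linarith
        have h2 := mul_le_mul_of_nonneg_right h1 (hF0 ts x).le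
        linarith
      · rw [indicator_of_notMem hx]
        have := (hF0 ts x).le
        positivity
  refine hfin.trans ?_
  have eX : Real.exp (q * (Up ts + 1)) = Real.exp q * Real.exp (q * Up ts) := by
    rw [← Real.exp_add]
    congr 1
    ring
  rw [eX, mul_comm, ← mul_assoc]
  refine mul_le_mul_of_nonneg_right (mul_le_mul_of_nonneg_right (hg.trans ?_)
    (Real.exp_pos _).le) (Real.exp_pos _).le
  have h1 : Real.exp (2 * q * (ts - T₁)) ≤ Real.exp (2 * q * T) := by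
    refine Real.exp_le_exp.2 (mul_le_mul_of_nonneg_left (by linarith) (by positivity))
  have h2 : E₁ * CB * ∫ t in T₁..ts, h t ≤ E₁ * CB * H :=
    mul_le_mul_of_nonneg_left (hH ts hts) (by positivity)
  calc Real.exp (2 * q * (ts - T₁)) * (Z T₁ + E₁ * CB * ∫ t in T₁..ts, h t)
      ≤ Real.exp (2 * q * (ts - T₁)) * (K₀ + E₁ * CB * H) :=
        mul_le_mul_of_nonneg_left (add_le_add hZ0 h2) (Real.exp_pos _).le
    _ ≤ _ := mul_le_mul_of_nonneg_right h1 (by positivity)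

end Pool.Agent.H9SA
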