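import Pool.Agent.H9SA.Val

/-!
Mollification of the value function: the inequality of Hamilton and Jacobi.
-/

set_option autoImplicit false

open MeasureTheory Set Metric Filter Topology
open scoped ContDiff Convolution

namespace Pool.Agent.H9SA

open H459R3.NS

lemma haar_prod : (volume : Measure (ℝ × V)).IsAddHaarMeasure := by
  rw [Measure.volume_eq_prod]
  infer_instance

/-- The bump on space-time. -/
noncomputable def bp (ε : ℝ) (hε : 0 < ε) : ContDiffBump (0 : ℝ × V) :=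
  ⟨ε / 2, ε, by positivity, by linarith⟩

/-- Mollification in space-time. -/
noncomputable def mo (ε : ℝ) (hε : 0 < ε) (f : ℝ × V → ℝ) (z : ℝ × V) : ℝ :=
  ∫ ζ, (bp ε hε).normed volume ζ * f (z - ζ)

lemma mo_smooth {ε : ℝ} (hε : 0 < ε) {f : ℝ × V → ℝ} (hf : Integrable f) :
    ContDiff ℝ ∞ (mo ε hε f) := by
  have := haar_prod
  have h := HasCompactSupport.contDiff_convolution_left (𝕜 := ℝ) (n := (⊤ : ℕ∞))
    (ContinuousLinearMap.lsmul ℝ ℝ) (f := (bp ε hε).normed (volume : Measure (ℝ × V)))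
    (g := f) (μ := volume) ((bp ε hε).hasCompactSupport_normed) ((bp ε hε).contDiff_normed)
    hf.locallyIntegrable
  exact h

lemma bp_zero {ε : ℝ} (hε : 0 < ε) {ζ : ℝ × V} (h : ζ ∉ ball (0 : ℝ × V) ε) :
    (bp ε hε).normed (volume : Measure (ℝ × V)) ζ = 0 := by
  have := (bp ε hε).support_normed_eq (μ := (volume : Measure (ℝ × V)))
  by_contra hc
  have h2 : ζ ∈ Function.support ((bp ε hε).normed (volume : Measure (ℝ × V))) := hc
  rw [this] at h2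
  exact h h2

lemma mo_int {ε : ℝ} (hε : 0 < ε) {f : ℝ × V → ℝ} (hf : Integrable f) (z : ℝ × V) :
    Integrable fun ζ => (bp ε hε).normed (volume : Measure (ℝ × V)) ζ * f (z - ζ) := by
  have := haar_prod
  have h1 : Continuous ((bp ε hε).normed (volume : Measure (ℝ × V))) := (bp ε hε).continuous_normed
  obtain ⟨C, hC⟩ := h1.bounded_above_of_compact_support (bp ε hε).hasCompactSupport_normed
  exact (hf.comp_sub_left z).bdd_mul h1.aestronglyMeasurable (Eventually.of_forall hC)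

lemma mo_dir {ε : ℝ} (hε : 0 < ε) {f : ℝ × V → ℝ} (hf : Integrable f) {z₀ : ℝ × V} {v : ℝ × V}
    {m : ℝ} (h : ∀ᶠ s : ℝ in 𝓝[>] 0, ∀ ζ ∈ ball (0 : ℝ × V) ε,
      f (z₀ - ζ) + s * m ≤ f (z₀ + s • v - ζ)) : m ≤ fderiv ℝ (mo ε hε f) z₀ v := by
  have hd : DifferentiableAt ℝ (mo ε hε f) z₀ :=
    ((mo_smooth hε hf).differentiable (by norm_cast)) z₀
  have h1 : HasDerivAt (fun s : ℝ => z₀ + s • v) v 0 := by
    simpa using ((hasDerivAt_id (0 : ℝ)).smul_const v).const_add z₀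
  have h2 : HasDerivAt (fun s : ℝ => mo ε hε f (z₀ + s • v)) (fderiv ℝ (mo ε hε f) z₀ v) 0 := by
    have h3 : HasFDerivAt (mo ε hε f) (fderiv ℝ (mo ε hε f) z₀) (z₀ + (0 : ℝ) • v) := by
      rw [zero_smul, add_zero]
      exact hd.hasFDerivAt
    exact h3.comp_hasDerivAt (0 : ℝ) h1
  have h4 := (hasDerivAt_iff_tendsto_slope_zero.1 h2).mono_left
    (nhdsWithin_mono (0 : ℝ) (show Ioi (0 : ℝ) ⊆ {0}ᶜ from fun s hs => ne_of_gt hs))
  refine ge_of_tendsto h4 ?_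
  filter_upwards [h, self_mem_nhdsWithin] with s hs hs0
  have hs0' : 0 < s := hs0
  rw [smul_eq_mul, zero_add, zero_smul, add_zero, le_inv_mul_iff₀ hs0']
  have := haar_prod
  unfold mo
  rw [← integral_sub (mo_int hε hf _) (mo_int hε hf _)]
  have h5 : s * m = ∫ ζ, (bp ε hε).normed (volume : Measure (ℝ × V)) ζ * (s * m) := by
    rw [integral_mul_const, (bp ε hε).integral_normed, one_mul]
  rw [h5]
  refine integral_mono ((bp ε hε).integrable_normed.mul_const _)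
    ((mo_int hε hf _).sub (mo_int hε hf _)) fun ζ => ?_
  simp only
  by_cases hζ : ζ ∈ ball (0 : ℝ × V) ε
  · rw [← mul_sub]
    exact mul_le_mul_of_nonneg_left (by linarith [hs ζ hζ]) ((bp ε hε).nonneg_normed _)
  · rw [bp_zero hε hζ]
    simp

/-- Bounds of the mollification. -/
lemma mo_le {ε : ℝ} (hε : 0 < ε) {f : ℝ × V → ℝ} (hf : Integrable f) {z : ℝ × V} {m : ℝ}
    (h : ∀ ζ ∈ ball (0 : ℝ × V) ε, f (z - ζ) ≤ m) : mo ε hε f z ≤ m := by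
  have := haar_prod
  have h5 : m = ∫ ζ, (bp ε hε).normed (volume : Measure (ℝ × V)) ζ * m := by
    rw [integral_mul_const, (bp ε hε).integral_normed, one_mul]
  rw [h5]
  refine integral_mono (mo_int hε hf _) ((bp ε hε).integrable_normed.mul_const _) fun ζ => ?_
  simp only
  by_cases hζ : ζ ∈ ball (0 : ℝ × V) ε
  · exact mul_le_mul_of_nonneg_left (h ζ hζ) ((bp ε hε).nonneg_normed _)
  · rw [bp_zero hε hζ]
    simp

lemma le_mo {ε : ℝ} (hε : 0 < ε) {f : ℝ × V → ℝ} (hf : Integrable f) {z : ℝ × V} {m : ℝ}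
    (h : ∀ ζ ∈ ball (0 : ℝ × V) ε, m ≤ f (z - ζ)) : m ≤ mo ε hε f z := by
  have := haar_prod
  have h5 : m = ∫ ζ, (bp ε hε).normed (volume : Measure (ℝ × V)) ζ * m := by
    rw [integral_mul_const, (bp ε hε).integral_normed, one_mul]
  rw [h5]
  refine integral_mono ((bp ε hε).integrable_normed.mul_const _) (mo_int hε hf _) fun ζ => ?_
  simp only
  by_cases hζ : ζ ∈ ball (0 : ℝ × V) ε
  · exact mul_le_mul_of_nonneg_left (h ζ hζ) ((bp ε hε).nonneg_normed _)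
  · rw [bp_zero hε hζ]
    simp

variable {c : ℝ} {b : ℝ → V → V} {r : ℝ → V → ℝ} {B : Set V} {T₀ T : ℝ} {Up : ℝ → ℝ}

lemma vf_eq {U : Set V} {T₁ : ℝ} {z : ℝ × V} (hz : z ∈ Ioo T₀ T₁ ×ˢ U) :
    vf c b r B U T₀ T₁ z = val c b r B T₀ z.1 z.2 := by
  unfold vf
  rw [indicator_of_mem hz]

/-- The step of the value function in a direction. -/
lemma vf_step (hB : Bd c b r B T₀ T Up)
    (hb : ContinuousOn (fun z : ℝ × V => b z.1 z.2) (Ioo 0 T ×ˢ univ))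
    (hr : ContinuousOn (fun z : ℝ × V => r z.1 z.2) (Ioo 0 T ×ˢ univ)) (hT₀ : 0 < T₀) {T₁ : ℝ}
    (hT₁ : T₁ ≤ T) {U : Set V} (hUB : U ⊆ B) {ε : ℝ} {z₀ : ℝ × V}
    (hz₀ : closedBall z₀ (2 * ε) ⊆ Ioo T₀ T₁ ×ˢ U) {w : V} {m : ℝ}
    (hm : ∀ z ∈ closedBall z₀ (2 * ε), m ≤ Lg c b r w z.1 z.2) {s : ℝ} (hs : 0 < s)
    (hsε : s * (1 + ‖w‖) ≤ ε) {ζ : ℝ × V} (hζ : ζ ∈ ball (0 : ℝ × V) ε) :
    vf c b r B U T₀ T₁ (z₀ - ζ) + s * m ≤ vf c b r B U T₀ T₁ (z₀ + s • ((1, w) : ℝ × V) - ζ) := by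
  rw [mem_ball_zero_iff] at hζ
  have hw : ‖((1, w) : ℝ × V)‖ ≤ 1 + ‖w‖ := by
    rw [Prod.norm_def]
    simp only [norm_one]
    exact max_le (by linarith [norm_nonneg w]) (by linarith)
  have hpt : ∀ θ ∈ Icc (0 : ℝ) 1, z₀ - ζ + (θ * s) • ((1, w) : ℝ × V) ∈ closedBall z₀ (2 * ε) := by
    intro θ hθ
    rw [mem_closedBall, dist_eq_norm]
    have e : z₀ - ζ + (θ * s) • ((1, w) : ℝ × V) - z₀ = -ζ + (θ * s) • ((1, w) : ℝ × V) := by abel
    rw [e]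
    refine (norm_add_le _ _).trans ?_
    rw [norm_neg, norm_smul, Real.norm_eq_abs, abs_of_nonneg (mul_nonneg hθ.1 hs.le)]
    have h1 : θ * s * ‖((1, w) : ℝ × V)‖ ≤ 1 * s * (1 + ‖w‖) := by
      refine mul_le_mul (mul_le_mul_of_nonneg_right hθ.2 hs.le) hw (norm_nonneg _) (by linarith)
    linarith
  have h0 := hz₀ (hpt 0 ⟨le_rfl, zero_le_one⟩)
  have h1 := hz₀ (hpt 1 ⟨zero_le_one, le_rfl⟩)
  rw [zero_mul, zero_smul, add_zero] at h0
  rw [one_mul] at h1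
  have e : z₀ + s • ((1, w) : ℝ × V) - ζ = z₀ - ζ + s • ((1, w) : ℝ × V) := by abel
  rw [e, vf_eq h0, vf_eq h1]
  obtain ⟨t, x⟩ := z₀
  obtain ⟨τ, ξ⟩ := ζ
  simp only [Prod.smul_mk, smul_eq_mul, mul_one, Prod.mk_sub_mk, Prod.mk_add_mk] at h0 h1 hpt ⊢
  have h2 := val_step hB (s := t - τ) (t := t - τ + s) h0.1.1 (by linarith)
    (h1.1.2.trans_le hT₁) (hUB h0.2) (hUB h1.2)
  refine le_trans ?_ h2
  have h3 := sg_ge (c := c) (b := b) (r := r) hb hr (s := t - τ) (t := t - τ + s)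
    (hT₀.trans h0.1.1) (by linarith) (h1.1.2.trans_le hT₁) (y := x - ξ) (x := x - ξ + s • w)
    (m := m) fun θ hθ => by
      have h4 := hpt θ hθ
      have h5 := hm _ h4
      simp only at h5
      have e1 : t - τ + s - (t - τ) = s := by ring
      have e2 : x - ξ + s • w - (x - ξ) = s • w := by abel
      rw [e1, e2, smul_smul, inv_mul_cancel₀ hs.ne', one_smul, smul_smul]
      exact h5
  have e1 : t - τ + s - (t - τ) = s := by ring
  rw [e1] at h3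
  linarith

/-- `|a + b|² ≤ (1 + κ) |a|² + (1 + 1/κ) |b|²`. -/
lemma dot_young {κ : ℝ} (hκ : 0 < κ) (v w : V) :
    (v + w) ⬝ᵥ (v + w) ≤ (1 + κ) * (v ⬝ᵥ v) + (1 + κ⁻¹) * (w ⬝ᵥ w) := by
  unfold dotProduct
  rw [Finset.mul_sum, Finset.mul_sum, ← Finset.sum_add_distrib]
  refine Finset.sum_le_sum fun i _ => ?_
  simp only [Pi.add_apply]
  have h1 : κ * κ⁻¹ = 1 := mul_inv_cancel₀ hκ.ne'
  have h2 : 0 < κ⁻¹ := inv_pos.2 hκ
  nlinarith [mul_nonneg hκ.le (sq_nonneg (v i - κ⁻¹ * w i))]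

/-- **The inequality of Hamilton and Jacobi** for the mollified value function. -/
theorem mol_hj (hB : Bd c b r B T₀ T Up)
    (hb : ContinuousOn (fun z : ℝ × V => b z.1 z.2) (Ioo 0 T ×ˢ univ))
    (hr : ContinuousOn (fun z : ℝ × V => r z.1 z.2) (Ioo 0 T ×ˢ univ)) (hT₀ : 0 < T₀) {T₁ : ℝ}
    (hT₁ : T₁ ≤ T) {U : Set V} (hUB : U ⊆ B) (hf : Integrable (vf c b r B U T₀ T₁)) {ε : ℝ}
    (hε : 0 < ε) {z₀ : ℝ × V} (hz₀ : closedBall z₀ (2 * ε) ⊆ Ioo T₀ T₁ ×ˢ U) (hc : 0 < c)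
    {κ η r₀ : ℝ} {b₀ : V} (hκ : 0 < κ)
    (hrη : ∀ z ∈ closedBall z₀ (2 * ε), r₀ - η ≤ r z.1 z.2)
    (hbη : ∀ z ∈ closedBall z₀ (2 * ε),
      c * (1 + κ⁻¹) * ((b₀ - b z.1 z.2) ⬝ᵥ (b₀ - b z.1 z.2)) ≤ η) :
    r₀ - 2 * η + (4 * ((1 + κ) * c))⁻¹ *
      (∑ i, fderiv ℝ (mo ε hε (vf c b r B U T₀ T₁)) z₀ (0, Pi.single i 1) ^ 2)
      ≤ fderiv ℝ (mo ε hε (vf c b r B U T₀ T₁)) z₀ (1, b₀) := by
  set G := mo ε hε (vf c b r B U T₀ T₁) with hG
  set g : Fin 3 → ℝ := fun i => fderiv ℝ G z₀ (0, Pi.single i 1) with hg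
  obtain ⟨c', hc'⟩ : ∃ c', c' = (1 + κ) * c := ⟨_, rfl⟩
  have hc'0 : 0 < c' := by rw [hc']; positivity
  rw [← hc']
  set v : V := fun i => -((2 * c')⁻¹ * g i) with hv
  have h1 : ∀ z ∈ closedBall z₀ (2 * ε), r₀ - 2 * η - c' * (v ⬝ᵥ v) ≤
      Lg c b r (b₀ + v) z.1 z.2 := by
    intro z hz
    have h2 := dot_young hκ v (b₀ - b z.1 z.2)
    have h3 := hrη z hz
    have h4 := hbη z hz
    unfold Lg
    have e : b₀ + v - b z.1 z.2 = v + (b₀ - b z.1 z.2) := by abel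
    rw [e]
    have h5 := mul_le_mul_of_nonneg_left h2 hc.le
    rw [hc']
    nlinarith
  have h2 : r₀ - 2 * η - c' * (v ⬝ᵥ v) ≤ fderiv ℝ G z₀ (1, b₀ + v) := by
    refine mo_dir hε hf ?_
    have hp : 0 < ε / (1 + ‖b₀ + v‖) := by positivity
    filter_upwards [Ioo_mem_nhdsGT hp] with s hs ζ hζ
    refine vf_step hB hb hr hT₀ hT₁ hUB hz₀ h1 hs.1 ?_ hζ
    have := hs.2
    rw [lt_div_iff₀ (by positivity)] at this
    exact this.le
  have h3 : fderiv ℝ G z₀ (1, b₀ + v) = fderiv ℝ G z₀ (1, b₀) + ∑ i, v i * g i := by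
    have e1 : ((1, b₀ + v) : ℝ × V) = (1, b₀) + ∑ i, v i • ((0, Pi.single i 1) : ℝ × V) := by
      refine Prod.ext ?_ ?_
      · simp [Prod.fst_sum]
      · simp only [Prod.snd_add, Prod.snd_sum, Prod.smul_snd]
        congr 1
        funext j
        simp [Finset.sum_apply, Pi.single_apply]
    rw [e1, map_add, map_sum]
    congr 1
    exact Finset.sum_congr rfl fun i _ => by rw [map_smul, smul_eq_mul]
  have h4 : v ⬝ᵥ v = (2 * c')⁻¹ ^ 2 * ∑ i, g i ^ 2 := by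
    unfold dotProduct
    rw [Finset.mul_sum]
    exact Finset.sum_congr rfl fun i _ => by rw [hv]; ring
  have h5 : ∑ i, v i * g i = -((2 * c')⁻¹ * ∑ i, g i ^ 2) := by
    rw [Finset.mul_sum, ← Finset.sum_neg_distrib]
    exact Finset.sum_congr rfl fun i _ => by rw [hv]; ring
  rw [h3, h4, h5] at h2
  have h6 : c' * ((2 * c')⁻¹ ^ 2 * ∑ i, g i ^ 2) = (4 * c')⁻¹ * ∑ i, g i ^ 2 := by
    field_simp
    ring
  have h7 : (2 * c')⁻¹ * ∑ i, g i ^ 2 = 2 * ((4 * c')⁻¹ * ∑ i, g i ^ 2) := by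
    field_simp
    ring
  rw [h6, h7] at h2
  linarith

end Pool.Agent.H9SA
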