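import Pool.Agent.W583.MD.EN

/-!
The weighted integral at one time: `∫ χ² exp (-q G) F`.
-/

set_option autoImplicit false

open MeasureTheory Set Metric Filter Topology
open scoped ContDiff

namespace Pool.Agent.H9SA

open H459R3.NS Pool.Agent.W583.MD

section

variable {f g h : V → ℝ}

lemma dif (hf : ContDiff ℝ ∞ f) (x : V) : DifferentiableAt ℝ f x :=
  (hf.differentiable (by norm_cast)) x

lemma pd_sub1 (hf : ContDiff ℝ ∞ f) (hg : ContDiff ℝ ∞ g) (j : Fin 3) (x : V) :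
    pd j (fun y => f y - g y) x = pd j f x - pd j g x := by
  unfold pd
  have h : HasFDerivAt (fun y => f y - g y) _ x := (dif hf x).hasFDerivAt.sub (dif hg x).hasFDerivAt
  rw [h.fderiv]
  rfl

lemma pd_mul3 (hf : ContDiff ℝ ∞ f) (hg : ContDiff ℝ ∞ g) (hh : ContDiff ℝ ∞ h) (j : Fin 3)
    (x : V) : pd j (fun y => f y * g y * h y) x =
      pd j f x * g x * h x + f x * pd j g x * h x + f x * g x * pd j h x := by
  rw [pd_mul' (hf.mul hg) hh, pd_mul' hf hg]
  ring

lemma pd_sq (hf : ContDiff ℝ ∞ f) (j : Fin 3) (x : V) :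
    pd j (fun y => f y ^ 2) x = 2 * f x * pd j f x := by
  have e : (fun y => f y ^ 2) = fun y => f y * f y := by funext y; ring
  rw [e, pd_mul' hf hf]
  ring

lemma pd_expG (q : ℝ) (hg : ContDiff ℝ ∞ g) (j : Fin 3) (x : V) :
    pd j (fun y => Real.exp (-(q * g y))) x = -(q * pd j g x * Real.exp (-(q * g x))) := by
  unfold pd
  have h1 : HasFDerivAt (fun y => Real.exp (-(q * g y))) _ x :=
    (((dif hg x).hasFDerivAt.const_mul q).neg).exp
  rw [h1.fderiv]
  have e : (-fun y => q * g y) x = -(q * g x) := rfl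
  rw [e]
  simp only [_root_.smul_apply, _root_.neg_apply, smul_eq_mul]
  ring

lemma sm_expG (q : ℝ) (hg : ContDiff ℝ ∞ g) : ContDiff ℝ ∞ fun y => Real.exp (-(q * g y)) :=
  ((contDiff_const.mul hg).neg).exp

end

section

variable {F G χ : V → ℝ} {v : Fin 3 → V → ℝ}

/-- The field whose divergence is removed. -/
noncomputable def HJ (q : ℝ) (F G χ : V → ℝ) (v : Fin 3 → V → ℝ) (j : Fin 3) (y : V) : ℝ :=
  χ y ^ 2 * Real.exp (-(q * G y)) * pd j F y - F y * Real.exp (-(q * G y)) * pd j (fun y => χ y ^ 2) y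
    - v j y * (χ y ^ 2 * Real.exp (-(q * G y)) * F y)

variable (q : ℝ) (hF : ContDiff ℝ ∞ F) (hG : ContDiff ℝ ∞ G) (hχ : ContDiff ℝ ∞ χ)
  (hv : ∀ i, ContDiff ℝ ∞ (v i))

include hF hG hχ hv in
lemma sm_HJ (j : Fin 3) : ContDiff ℝ ∞ (HJ q F G χ v j) := by
  unfold HJ
  have h1 := sm_expG q hG
  have h2 : ContDiff ℝ ∞ fun y => χ y ^ 2 := hχ.pow 2
  exact (((h2.mul h1).mul (sm_pd hF j)).sub ((hF.mul h1).mul (sm_pd h2 j))).sub
    ((hv j).mul ((h2.mul h1).mul hF))

include hF hG hχ hv in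
/-- The divergence. -/
lemma div_HJ (x : V) : ∑ j, pd j (HJ q F G χ v j) x =
    χ x ^ 2 * Real.exp (-(q * G x)) * (lap F x - q * ∑ j, pd j G x * pd j F x
      + q * F x * (∑ j, v j x * pd j G x) - ∑ j, v j x * pd j F x - (∑ j, pd j (v j) x) * F x)
    - F x * Real.exp (-(q * G x)) * (lap (fun y => χ y ^ 2) x
      - q * (∑ j, pd j G x * pd j (fun y => χ y ^ 2) x)
      + ∑ j, v j x * pd j (fun y => χ y ^ 2) x) := by
  have h1 := sm_expG q hG
  have h2 : ContDiff ℝ ∞ fun y => χ y ^ 2 := hχ.pow 2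
  have key : ∀ j, pd j (HJ q F G χ v j) x =
      (pd j (fun y => χ y ^ 2) x * Real.exp (-(q * G x)) * pd j F x
        + χ x ^ 2 * (-(q * pd j G x * Real.exp (-(q * G x)))) * pd j F x
        + χ x ^ 2 * Real.exp (-(q * G x)) * pd j (pd j F) x)
      - (pd j F x * Real.exp (-(q * G x)) * pd j (fun y => χ y ^ 2) x
        + F x * (-(q * pd j G x * Real.exp (-(q * G x)))) * pd j (fun y => χ y ^ 2) x
        + F x * Real.exp (-(q * G x)) * pd j (pd j (fun y => χ y ^ 2)) x)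
      - (v j x * (pd j (fun y => χ y ^ 2) x * Real.exp (-(q * G x)) * F x
        + χ x ^ 2 * (-(q * pd j G x * Real.exp (-(q * G x)))) * F x
        + χ x ^ 2 * Real.exp (-(q * G x)) * pd j F x)
        + pd j (v j) x * (χ x ^ 2 * Real.exp (-(q * G x)) * F x)) := by
    intro j
    unfold HJ
    rw [pd_sub1 (((h2.mul h1).mul (sm_pd hF j)).sub ((hF.mul h1).mul (sm_pd h2 j)))
      ((hv j).mul ((h2.mul h1).mul hF)),
      pd_sub1 ((h2.mul h1).mul (sm_pd hF j)) ((hF.mul h1).mul (sm_pd h2 j)),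
      pd_mul' (hv j) ((h2.mul h1).mul hF), pd_mul3 h2 h1 (sm_pd hF j),
      pd_mul3 hF h1 (sm_pd h2 j), pd_mul3 h2 h1 hF, pd_expG q hG]
  simp only [key, lap, Fin.sum_univ_three]
  ring

/-- The remainder at the boundary. -/
noncomputable def BR (q μ : ℝ) (χ : V → ℝ) (v : Fin 3 → V → ℝ) (x : V) : ℝ :=
  lap (fun y => χ y ^ 2) x + (∑ j, v j x * pd j (fun y => χ y ^ 2) x) + q / μ * ∑ j, pd j χ x ^ 2

include hF hG hχ hv in
/-- The pointwise inequality. -/
lemma pt_ineq {κ μ lam η Ft Gt r : ℝ} (hq : 0 < q) (hκ : 0 < κ) (hμ : 0 < μ)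
    (hlam : q / (4 * κ) + μ ≤ lam) {x : V} (hF0 : 0 < F x)
    (h1 : χ x ≠ 0 → Ft + ∑ j, v j x * pd j F x ≤ lap F x - κ * (∑ j, pd j F x ^ 2) / F x
      + q * r * F x)
    (h2 : χ x ≠ 0 → ∑ j, pd j (v j) x = 0)
    (h3 : χ x ≠ 0 → r - 2 * η + lam * (∑ j, pd j G x ^ 2) ≤ Gt + ∑ j, v j x * pd j G x) :
    χ x ^ 2 * Real.exp (-(q * G x)) * (Ft - q * Gt * F x) ≤ ∑ j, pd j (HJ q F G χ v j) x
      + 2 * η * q * (χ x ^ 2 * Real.exp (-(q * G x)) * F x)
      + Real.exp (-(q * G x)) * F x * BR q μ χ v x := by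
  rw [div_HJ q hF hG hχ hv x]
  have hE : 0 < Real.exp (-(q * G x)) := Real.exp_pos _
  obtain ⟨E, hEd⟩ : ∃ E, E = Real.exp (-(q * G x)) := ⟨_, rfl⟩
  rw [← hEd] at hE ⊢
  unfold BR
  have hQj : ∀ j, pd j (fun y => χ y ^ 2) x = 2 * χ x * pd j χ x := fun j => pd_sq hχ j x
  by_cases hx : χ x = 0
  · have e1 : ∀ j, pd j (fun y => χ y ^ 2) x = 0 := fun j => by rw [hQj, hx]; ring
    simp only [e1, hx]
    have h4 : 0 ≤ q / μ * ∑ j, pd j χ x ^ 2 :=
      mul_nonneg (by positivity) (Finset.sum_nonneg fun j _ => sq_nonneg _)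
    have h5 : 0 ≤ E * F x * (q / μ * ∑ j, pd j χ x ^ 2) := by positivity
    simp only [mul_zero, Finset.sum_const_zero, ne_eq, OfNat.ofNat_ne_zero, not_false_eq_true,
      zero_pow, zero_mul]
    nlinarith
  · have a1 := h1 hx
    have a2 := h2 hx
    have a3 := h3 hx
    rw [a2]
    obtain ⟨A, hA⟩ : ∃ A, A = ∑ j, pd j F x ^ 2 := ⟨_, rfl⟩
    obtain ⟨P, hP⟩ : ∃ P, P = ∑ j, pd j G x ^ 2 := ⟨_, rfl⟩
    obtain ⟨X, hX⟩ : ∃ X, X = ∑ j, pd j χ x ^ 2 := ⟨_, rfl⟩
    obtain ⟨I, hI⟩ : ∃ I, I = ∑ j, pd j G x * pd j F x := ⟨_, rfl⟩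
    obtain ⟨J, hJ⟩ : ∃ J, J = ∑ j, pd j G x * pd j (fun y => χ y ^ 2) x := ⟨_, rfl⟩
    rw [← hA] at a1
    rw [← hP] at a3
    rw [← hX, ← hI, ← hJ]
    have hQ : 0 < χ x ^ 2 := by positivity
    -- Young for `∇G · ∇F`
    have y1 : q * I - κ * A / F x ≤ q ^ 2 / (4 * κ) * P * F x := by
      have : ∀ j, q * (pd j G x * pd j F x) - κ / F x * pd j F x ^ 2
          ≤ q ^ 2 / (4 * κ) * F x * pd j G x ^ 2 := by
        intro j
        have e : q ^ 2 / (4 * κ) * F x * pd j G x ^ 2 - (q * (pd j G x * pd j F x)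
            - κ / F x * pd j F x ^ 2) =
            κ / F x * (pd j F x - q * F x / (2 * κ) * pd j G x) ^ 2 := by
          field_simp
          ring
        have : 0 ≤ κ / F x * (pd j F x - q * F x / (2 * κ) * pd j G x) ^ 2 := by positivity
        linarith
      have s := Finset.sum_le_sum fun j (_ : j ∈ Finset.univ) => this j
      rw [Finset.sum_sub_distrib, ← Finset.mul_sum, ← Finset.mul_sum, ← Finset.mul_sum, ← hA, ← hP,
        ← hI] at s
      have e1 : κ * A / F x = κ / F x * A := by ring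
      have e2 : q ^ 2 / (4 * κ) * P * F x = q ^ 2 / (4 * κ) * F x * P := by ring
      rw [e1, e2]
      exact s
    -- Young for `∇G · ∇χ²`
    have y2 : -J ≤ μ * χ x ^ 2 * P + μ⁻¹ * X := by
      have : ∀ j, -(pd j G x * pd j (fun y => χ y ^ 2) x) ≤
          μ * χ x ^ 2 * pd j G x ^ 2 + μ⁻¹ * pd j χ x ^ 2 := by
        intro j
        rw [hQj]
        have e : μ * χ x ^ 2 * pd j G x ^ 2 + μ⁻¹ * pd j χ x ^ 2
            - -(pd j G x * (2 * χ x * pd j χ x)) = μ * (χ x * pd j G x + μ⁻¹ * pd j χ x) ^ 2 := by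
          field_simp
          ring
        have : 0 ≤ μ * (χ x * pd j G x + μ⁻¹ * pd j χ x) ^ 2 := by positivity
        linarith
      have s := Finset.sum_le_sum fun j (_ : j ∈ Finset.univ) => this j
      rw [Finset.sum_neg_distrib, Finset.sum_add_distrib, ← Finset.mul_sum, ← Finset.mul_sum,
        ← hP, ← hX, ← hJ] at s
      exact s
    have hP0 : 0 ≤ P := by rw [hP]; exact Finset.sum_nonneg fun j _ => sq_nonneg _
    -- the bulk
    have z1 : χ x ^ 2 * E * (Ft - q * Gt * F x) - χ x ^ 2 * E * (lap F x - q * I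
        + q * F x * (∑ j, v j x * pd j G x) - ∑ j, v j x * pd j F x - 0 * F x)
        ≤ χ x ^ 2 * E * (q * F x * (2 * η + (q / (4 * κ) - lam) * P)) := by
      rw [← mul_sub]
      refine mul_le_mul_of_nonneg_left ?_ (by positivity)
      have b3 := mul_le_mul_of_nonneg_left a3 (show 0 ≤ q * F x by positivity)
      have e3 : q ^ 2 / (4 * κ) * P * F x = q * F x * (q / (4 * κ) * P) := by
        field_simp
      rw [e3] at y1
      have e4 : κ * A / F x = κ * A / F x := rfl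
      nlinarith
    have z2 : q * (F x * E * -J) ≤ q * (F x * E * (μ * χ x ^ 2 * P + μ⁻¹ * X)) :=
      mul_le_mul_of_nonneg_left (mul_le_mul_of_nonneg_left y2 (by positivity)) hq.le
    have z3 : χ x ^ 2 * E * (q * F x * ((q / (4 * κ) + μ - lam) * P)) ≤ 0 := by
      have : (q / (4 * κ) + μ - lam) * P ≤ 0 :=
        mul_nonpos_of_nonpos_of_nonneg (by linarith) hP0
      have h7 : 0 ≤ χ x ^ 2 * E * (q * F x) := by positivity
      nlinarith
    have e5 : q / μ * X = q * (μ⁻¹ * X) := by ring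
    rw [e5]
    nlinarith

include hF hG hχ hv in
/-- The inequality at one time. -/
theorem one_time (hχc : HasCompactSupport χ) {κ μ lam η : ℝ} (hq : 0 < q) (hκ : 0 < κ)
    (hμ : 0 < μ) (hlam : q / (4 * κ) + μ ≤ lam) {Ft Gt r : V → ℝ} (hFt : Continuous Ft)
    (hGt : Continuous Gt) (hF0 : ∀ x, 0 < F x)
    (h1 : ∀ x, χ x ≠ 0 → Ft x + ∑ j, v j x * pd j F x ≤ lap F x - κ * (∑ j, pd j F x ^ 2) / F x
      + q * r x * F x)
    (h2 : ∀ x, χ x ≠ 0 → ∑ j, pd j (v j) x = 0)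
    (h3 : ∀ x, χ x ≠ 0 →
      r x - 2 * η + lam * (∑ j, pd j G x ^ 2) ≤ Gt x + ∑ j, v j x * pd j G x) :
    ∫ x, χ x ^ 2 * Real.exp (-(q * G x)) * (Ft x - q * Gt x * F x) ≤
      2 * η * q * (∫ x, χ x ^ 2 * Real.exp (-(q * G x)) * F x)
      + ∫ x, Real.exp (-(q * G x)) * F x * BR q μ χ v x := by
  have hE := sm_expG q hG
  have h2s : ContDiff ℝ ∞ fun y => χ y ^ 2 := hχ.pow 2
  have hc2 : HasCompactSupport fun y => χ y ^ 2 := by
    have e : (fun y => χ y ^ 2) = fun y => χ y * χ y := by funext y; ring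
    rw [e]
    exact hχc.mul_right
  have hHc : ∀ j, HasCompactSupport (HJ q F G χ v j) := by
    intro j
    unfold HJ
    exact ((hc2.mul_right.mul_right).sub (cs_pd hc2 j).mul_left).sub
      (hc2.mul_right.mul_right.mul_left)
  have hZ : Z (fun x => ∑ j, pd j (HJ q F G χ v j) x) :=
    Z.sum fun j => Z_pd (sm_HJ q hF hG hχ hv j) (hHc j) j
  have hlapQ : Continuous (lap fun y => χ y ^ 2) := by
    unfold lap
    exact continuous_finsetSum _ fun j _ => (sm_pd (sm_pd h2s j) j).continuous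
  have hBRc : Continuous (BR q μ χ v) := by
    unfold BR
    exact (hlapQ.add (continuous_finsetSum _ fun j _ => (hv j).continuous.mul
      (sm_pd h2s j).continuous)).add (continuous_const.mul (continuous_finsetSum _ fun j _ =>
        (sm_pd hχ j).continuous.pow 2))
  have hsum : ∀ {f : Fin 3 → V → ℝ}, (∀ j, HasCompactSupport (f j)) →
      HasCompactSupport fun x => ∑ j, f j x := by
    intro f hf
    have e : (fun x => ∑ j, f j x) = f 0 + f 1 + f 2 := by
      funext x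
      rw [Fin.sum_univ_three]
      rfl
    rw [e]
    exact ((hf 0).add (hf 1)).add (hf 2)
  have hBRs : HasCompactSupport (BR q μ χ v) := by
    unfold BR
    have a1 : HasCompactSupport (lap fun y => χ y ^ 2) :=
      hsum fun j => cs_pd (cs_pd hc2 j) j
    have a2 : HasCompactSupport fun x => ∑ j, v j x * pd j (fun y => χ y ^ 2) x :=
      hsum fun j => (cs_pd hc2 j).mul_left
    have a3 : HasCompactSupport fun x => q / μ * ∑ j, pd j χ x ^ 2 := by
      refine HasCompactSupport.mul_left (f := fun _ => q / μ) (f' := fun x => ∑ j, pd j χ x ^ 2) ?_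
      refine hsum fun j => ?_
      have e : (fun x => pd j χ x ^ 2) = fun x => pd j χ x * pd j χ x := by funext y; ring
      rw [e]
      exact (cs_pd hχc j).mul_right
    exact (a1.add a2).add a3
  have i0 : Integrable fun x => χ x ^ 2 * Real.exp (-(q * G x)) * (Ft x - q * Gt x * F x) :=
    int_cs ((h2s.continuous.mul hE.continuous).mul (hFt.sub ((continuous_const.mul hGt).mul
      hF.continuous))) hc2.mul_right.mul_right
  have i1 : Integrable fun x => χ x ^ 2 * Real.exp (-(q * G x)) * F x :=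
    int_cs ((h2s.continuous.mul hE.continuous).mul hF.continuous) hc2.mul_right.mul_right
  have i2 : Integrable fun x => Real.exp (-(q * G x)) * F x * BR q μ χ v x :=
    int_cs ((hE.continuous.mul hF.continuous).mul hBRc) hBRs.mul_left
  have key := integral_mono i0 ((hZ.1.add (i1.const_mul (2 * η * q))).add i2) fun x =>
    pt_ineq q hF hG hχ hv (Ft := Ft x) (Gt := Gt x) (r := r x) (η := η) hq hκ hμ hlam (hF0 x)
      (h1 x) (h2 x) (h3 x)
  refine key.trans (le_of_eq ?_)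
  have e1 := integral_add (hZ.1.add (i1.const_mul (2 * η * q))) i2
  have e2 := integral_add hZ.1 (i1.const_mul (2 * η * q))
  simp only [Pi.add_apply] at e1 e2 ⊢
  rw [e1, e2, hZ.2, integral_const_mul, zero_add]

end

end Pool.Agent.H9SA
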