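import Pool.Agent.H9SA.Lam

/-!
An example of a cut-off function.
-/

set_option autoImplicit false

open Set Metric Filter Topology
open scoped ContDiff

namespace Pool.Agent.H9SA

/-- The smooth transition is a cut-off function. -/
theorem cut1_smoothTransition : Cut1 (fun s => Real.smoothTransition (s - 1)) := by
  have hsm : ContDiff ℝ ∞ (fun s : ℝ => Real.smoothTransition (s - 1)) :=
    Real.smoothTransition.contDiff.comp (contDiff_id.sub contDiff_const)
  refine ⟨hsm, fun s => Real.smoothTransition.nonneg _, fun s => Real.smoothTransition.le_one _,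
    fun s hs => Real.smoothTransition.zero_of_nonpos (by linarith),
    fun s hs => Real.smoothTransition.one_of_one_le (by linarith), fun s hs0 => ?_⟩
  rcases le_or_gt s 1 with h1 | h1
  · have h0 : Real.smoothTransition (s - 1) = 0 :=
      Real.smoothTransition.zero_of_nonpos (by linarith)
    have hmin : IsLocalMin (fun s : ℝ => Real.smoothTransition (s - 1)) s :=
      Eventually.of_forall fun x => by
        simp only [h0]
        exact Real.smoothTransition.nonneg _
    rw [hmin.deriv_eq_zero, h0]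
    simp
  rcases le_or_gt 2 s with h2 | h2
  · have h0 : Real.smoothTransition (s - 1) = 1 :=
      Real.smoothTransition.one_of_one_le (by linarith)
    have hmax : IsLocalMax (fun s : ℝ => Real.smoothTransition (s - 1)) s :=
      Eventually.of_forall fun x => by
        simp only [h0]
        exact Real.smoothTransition.le_one _
    rw [hmax.deriv_eq_zero, h0]
    simp
  -- the middle part
  obtain ⟨f, hf⟩ : ∃ f : ℝ → ℝ, f = fun s => Real.exp (-(s - 1)⁻¹) := ⟨_, rfl⟩
  obtain ⟨g, hg⟩ : ∃ g : ℝ → ℝ, g = fun s => Real.exp (-(1 - (s - 1))⁻¹) := ⟨_, rfl⟩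
  have hfd : HasDerivAt f (f s * (1 / (s - 1) ^ 2)) s := by
    rw [hf]
    have h3 : HasDerivAt (fun s : ℝ => s - 1) 1 s := (hasDerivAt_id s).sub_const 1
    have h4 : HasDerivAt (fun s : ℝ => -(s - 1)⁻¹) (1 / (s - 1) ^ 2) s :=
      (h3.inv (by linarith : s - 1 ≠ 0)).neg.congr_deriv (by ring)
    exact h4.exp
  have hgd : HasDerivAt g (-(g s * (1 / (1 - (s - 1)) ^ 2))) s := by
    rw [hg]
    have h3 : HasDerivAt (fun s : ℝ => 1 - (s - 1)) (-1) s :=
      ((hasDerivAt_id s).sub_const 1).const_sub 1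
    have h4 : HasDerivAt (fun s : ℝ => -(1 - (s - 1))⁻¹) (-(1 / (1 - (s - 1)) ^ 2)) s :=
      (h3.inv (by linarith : 1 - (s - 1) ≠ 0)).neg.congr_deriv (by ring)
    refine h4.exp.congr_deriv ?_
    ring
  have hf0 : 0 < f s := by rw [hf]; exact Real.exp_pos _
  have hg0 : 0 < g s := by rw [hg]; exact Real.exp_pos _
  have hev : (fun s : ℝ => Real.smoothTransition (s - 1)) =ᶠ[𝓝 s] fun s => f s / (f s + g s) := by
    filter_upwards [Ioo_mem_nhds h1 h2] with x hx
    unfold Real.smoothTransition expNegInvGlue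
    rw [if_neg (by linarith [hx.1]), if_neg (by linarith [hx.2]), hf, hg]
  have hd := hfd.div (hfd.add hgd) (by positivity : f s + g s ≠ 0)
  rw [hev.deriv_eq, hev.eq_of_nhds]
  have hd' : deriv (fun s => f s / (f s + g s)) s = _ := hd.deriv
  rw [hd']
  simp only [Pi.add_apply]
  have hx : 0 < s - 1 := by linarith
  have hy : 0 < 1 - (s - 1) := by linarith
  have hx1 : 1 ≤ 1 / (s - 1) ^ 2 := by
    rw [le_div_iff₀ (by positivity)]
    nlinarith
  have hy1 : 0 ≤ 1 / (1 - (s - 1)) ^ 2 := by positivity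
  obtain ⟨X, hX⟩ : ∃ X, X = 1 / (s - 1) ^ 2 := ⟨_, rfl⟩
  obtain ⟨Y, hY⟩ : ∃ Y, Y = 1 / (1 - (s - 1)) ^ 2 := ⟨_, rfl⟩
  rw [← hX] at hx1
  rw [← hY] at hy1
  rw [← hX, ← hY]
  have e1 : f s / (f s + g s) * (1 - f s / (f s + g s)) = f s * g s / (f s + g s) ^ 2 := by
    field_simp
    ring
  have e2 : 2 * s * ((f s * X * (f s + g s) - f s * (f s * X + -(g s * Y))) / (f s + g s) ^ 2) =
      (2 * s * (X + Y)) * (f s * g s / (f s + g s) ^ 2) := by
    field_simp
    ring
  rw [e1, e2]
  have h5 : 0 ≤ f s * g s / (f s + g s) ^ 2 := by positivity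
  have h6 : 1 ≤ 2 * s * (X + Y) := by nlinarith
  nlinarith

end Pool.Agent.H9SA
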