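import Pool.Agent.H9SA.Spl

/-!
The mean square of the truncated potential.
-/

set_option autoImplicit false

open MeasureTheory Set Metric Filter Topology
open scoped ContDiff

namespace Pool.Agent.H9SA

open H459R3.NS Pool.Agent.Q67.VD

lemma ker2 {r : ℝ} (hr : 0 < r) : IntegrableOn (fun z : V => 1 / ‖z‖ ^ 2) (closedBall 0 r) ∧
    ∫ z in closedBall (0 : V) r, 1 / ‖z‖ ^ 2 = 24 * r := by
  obtain ⟨h1, h2⟩ := ker_near (α := 2) (by norm_num) hr
  have e : (fun z : V => ‖z‖ ^ (-2 : ℝ)) = fun z => 1 / ‖z‖ ^ 2 := by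
    funext z
    rw [Real.rpow_neg (norm_nonneg z), one_div]
    norm_num
  rw [e] at h1 h2
  refine ⟨h1, h2.trans ?_⟩
  have e2 : (3 : ℝ) - 2 = 1 := by norm_num
  rw [e2, Real.rpow_one, div_one]

lemma int_ker {h : V → ℝ} (hh : Continuous h) {r : ℝ} (hr : 0 < r) :
    IntegrableOn (fun z : V => h z / ‖z‖ ^ 2) (closedBall 0 r) := by
  obtain ⟨M, hM⟩ := (isCompact_closedBall (0 : V) r).exists_bound_of_continuousOn hh.continuousOn
  have hm : Measurable fun z : V => h z / ‖z‖ ^ 2 := hh.measurable.div (by fun_prop)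
  refine Integrable.mono' ((ker2 hr).1.const_mul M) hm.aestronglyMeasurable ?_
  filter_upwards [ae_restrict_mem measurableSet_closedBall] with z hz
  rw [norm_div, mul_one_div]
  have e : ‖‖z‖ ^ 2‖ = ‖z‖ ^ 2 := by
    rw [Real.norm_eq_abs, abs_of_nonneg (by positivity)]
  rw [e]
  exact div_le_div_of_nonneg_right (hM z hz) (by positivity)

lemma pot_nonneg' (r : ℝ) (G : V → ℝ) (y : V) : 0 ≤ pot r G y :=
  integral_nonneg fun z => by positivity

lemma pot_sq {G : V → ℝ} (hG : Continuous G) {r : ℝ} (hr : 0 < r) (y : V) :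
    pot r G y ^ 2 ≤ 24 * r * ∫ z in closedBall (0 : V) r, G (y + z) ^ 2 / ‖z‖ ^ 2 := by
  obtain ⟨k1, k2⟩ := ker2 hr
  have hGy : Continuous fun z => G (y + z) := hG.comp (continuous_const.add continuous_id)
  have i1 : IntegrableOn (fun z : V => |G (y + z)| / ‖z‖ ^ 2) (closedBall 0 r) :=
    int_ker hGy.abs hr
  have i2 : IntegrableOn (fun z : V => G (y + z) ^ 2 / ‖z‖ ^ 2) (closedBall 0 r) :=
    int_ker (hGy.pow 2) hr
  obtain ⟨a, ha⟩ : ∃ a, a = pot r G y := ⟨_, rfl⟩
  obtain ⟨S, hS⟩ : ∃ S, S = ∫ z in closedBall (0 : V) r, G (y + z) ^ 2 / ‖z‖ ^ 2 := ⟨_, rfl⟩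
  obtain ⟨μ, hμ⟩ : ∃ μ, μ = a / (24 * r) := ⟨_, rfl⟩
  have h0 : 0 ≤ ∫ z in closedBall (0 : V) r, (|G (y + z)| - μ) ^ 2 / ‖z‖ ^ 2 :=
    integral_nonneg fun z => by positivity
  have e1 : ∫ z in closedBall (0 : V) r, (|G (y + z)| - μ) ^ 2 / ‖z‖ ^ 2 =
      S - 2 * μ * a + μ ^ 2 * (24 * r) := by
    have e2 : (fun z : V => (|G (y + z)| - μ) ^ 2 / ‖z‖ ^ 2) = fun z =>
        (G (y + z) ^ 2 / ‖z‖ ^ 2 - 2 * μ * (|G (y + z)| / ‖z‖ ^ 2)) + μ ^ 2 * (1 / ‖z‖ ^ 2) := by
      funext z
      rw [← sq_abs (G (y + z))]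
      ring
    have i3 : IntegrableOn (fun z : V => G (y + z) ^ 2 / ‖z‖ ^ 2
        - 2 * μ * (|G (y + z)| / ‖z‖ ^ 2)) (closedBall 0 r) := i2.sub (i1.const_mul (2 * μ))
    have e3 := integral_add i3 (k1.const_mul (μ ^ 2))
    have e4 := integral_sub i2 (i1.const_mul (2 * μ))
    rw [e2, e3, e4, integral_const_mul, integral_const_mul, k2, hS, ha]
    rfl
  rw [e1] at h0
  rw [← ha, ← hS]
  have hr24 : 0 < 24 * r := by positivity
  have e3 : a = μ * (24 * r) := by
    rw [hμ]
    field_simp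
  rw [e3] at h0 ⊢
  nlinarith

lemma shift2 (F : V → ℝ) (x z : V) (ρ : ℝ) :
    ∫ y in closedBall x ρ, F (y + z) = ∫ y in closedBall (x + z) ρ, F y := by
  have h := (measurePreserving_add_right (volume : Measure V) z).setIntegral_preimage_emb
    (MeasurableEquiv.addRight z).measurableEmbedding F (closedBall (x + z) ρ)
  rw [← h]
  congr 2
  ext y
  simp [mem_closedBall, dist_eq_norm]

/-- The mean square of the truncated potential. -/
theorem pot_L2 {G : V → ℝ} (hG : Continuous G) {r ρ : ℝ} (hr : 0 < r) (x : V) :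
    IntegrableOn (fun y => pot r G y ^ 2) (closedBall x ρ) ∧
    ∫ y in closedBall x ρ, pot r G y ^ 2 ≤
      (24 * r) ^ 2 * ∫ y in closedBall x (ρ + r), G y ^ 2 := by
  obtain ⟨k1, k2⟩ := ker2 hr
  obtain ⟨M, hM⟩ := (isCompact_closedBall x (ρ + r)).exists_bound_of_continuousOn
    (hG.pow 2).continuousOn
  have hfin : IsFiniteMeasure ((volume : Measure V).restrict (closedBall x ρ)) := by
    refine ⟨?_⟩
    rw [Measure.restrict_apply_univ]
    exact (isCompact_closedBall x ρ).measure_lt_top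
  have hF : Integrable (Function.uncurry fun (y z : V) => G (y + z) ^ 2 / ‖z‖ ^ 2)
      (((volume : Measure V).restrict (closedBall x ρ)).prod
        ((volume : Measure V).restrict (closedBall 0 r))) := by
    have h1 : Integrable (fun p : V × V => M * (1 / ‖p.2‖ ^ 2))
        (((volume : Measure V).restrict (closedBall x ρ)).prod
        ((volume : Measure V).restrict (closedBall 0 r))) :=
      Integrable.comp_snd (f := fun z : V => M * (1 / ‖z‖ ^ 2)) (k1.const_mul M) _
    have hm : Measurable (Function.uncurry fun (y z : V) => G (y + z) ^ 2 / ‖z‖ ^ 2) := by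
      have hGm : Measurable G := hG.measurable
      unfold Function.uncurry
      fun_prop
    refine Integrable.mono' h1 hm.aestronglyMeasurable ?_
    rw [Measure.prod_restrict]
    filter_upwards [ae_restrict_mem (measurableSet_closedBall.prod measurableSet_closedBall)]
      with p hp
    have h2 : p.1 + p.2 ∈ closedBall x (ρ + r) := by
      have a1 := hp.1
      have a2 := hp.2
      rw [mem_closedBall, dist_eq_norm] at a1 ⊢
      rw [mem_closedBall_zero_iff] at a2
      have e : p.1 + p.2 - x = (p.1 - x) + p.2 := by abel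
      rw [e]
      exact (norm_add_le _ _).trans (add_le_add a1 a2)
    show ‖G (p.1 + p.2) ^ 2 / ‖p.2‖ ^ 2‖ ≤ _
    rw [norm_div, mul_one_div]
    have e : ‖‖p.2‖ ^ 2‖ = ‖p.2‖ ^ 2 := by
      rw [Real.norm_eq_abs, abs_of_nonneg (by positivity)]
    rw [e]
    exact div_le_div_of_nonneg_right (hM _ h2) (by positivity)
  have hFy := hF.integral_prod_left
  have hFz := hF.integral_prod_right
  simp only [Function.uncurry_apply_pair] at hFy hFz
  have hm : AEStronglyMeasurable (fun y => pot r G y ^ 2)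
      ((volume : Measure V).restrict (closedBall x ρ)) := by
    have h1 : StronglyMeasurable fun y => ∫ z in closedBall (0 : V) r, |G (y + z)| / ‖z‖ ^ 2 := by
      refine StronglyMeasurable.integral_prod_right (f := fun y z => |G (y + z)| / ‖z‖ ^ 2) ?_
      have hGm : Measurable G := hG.measurable
      refine Measurable.stronglyMeasurable ?_
      unfold Function.uncurry
      fun_prop
    exact (h1.pow 2).aestronglyMeasurable
  have i1 : IntegrableOn (fun y => pot r G y ^ 2) (closedBall x ρ) := by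
    refine Integrable.mono' (hFy.const_mul (24 * r)) hm (Eventually.of_forall fun y => ?_)
    rw [Real.norm_eq_abs, abs_of_nonneg (sq_nonneg _)]
    exact pot_sq hG hr y
  refine ⟨i1, ?_⟩
  have h1 : ∫ y in closedBall x ρ, pot r G y ^ 2 ≤
      ∫ y in closedBall x ρ, 24 * r * ∫ z in closedBall (0 : V) r, G (y + z) ^ 2 / ‖z‖ ^ 2 :=
    integral_mono i1 (hFy.const_mul (24 * r)) fun y => pot_sq hG hr y
  refine h1.trans ?_
  rw [integral_const_mul, integral_integral_swap hF]
  have h2 : ∫ z in closedBall (0 : V) r, ∫ y in closedBall x ρ, G (y + z) ^ 2 / ‖z‖ ^ 2 ≤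
      ∫ z in closedBall (0 : V) r, (∫ y in closedBall x (ρ + r), G y ^ 2) * (1 / ‖z‖ ^ 2) := by
    refine setIntegral_mono_on hFz (k1.const_mul _) measurableSet_closedBall fun z hz => ?_
    rw [mul_one_div, integral_div]
    refine div_le_div_of_nonneg_right ?_ (by positivity)
    rw [shift2 (fun y => G y ^ 2) x z ρ]
    refine setIntegral_mono_set ((hG.pow 2).continuousOn.integrableOn_compact
      (isCompact_closedBall _ _)) (Eventually.of_forall fun y => sq_nonneg _) ?_
    refine (closedBall_subset_closedBall' ?_).eventuallyLE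
    rw [mem_closedBall_zero_iff] at hz
    rw [dist_eq_norm]
    have e : x + z - x = z := by abel
    rw [e]
    linarith
  rw [integral_const_mul, k2] at h2
  have h3 := mul_le_mul_of_nonneg_left h2 (by positivity : 0 ≤ 24 * r)
  refine h3.trans (le_of_eq ?_)
  ring

end Pool.Agent.H9SA
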