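import Pool.Agent.Q95.CL.Reg

/-!
Small dissipation in the cubes of radius `8 r` near a point, during the times `(t - r², t)`, implies
boundedness near the point (adapted from `Pool.Agent.Q95.CL.regK`).
-/

set_option autoImplicit false

open MeasureTheory Set Metric Filter Topology
open scoped ContDiff ENNReal

namespace Pool.Agent.H9SA

open H459R3.NS W221.NS W221.NS.B Pool.Agent.Q85.CL Pool.Agent.Q95.CL
open Pool.Agent.TH305.LW (ms ms_eq frame_int mass_cont speed_num)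
open W382.ME (point A2_bd cd_slice gsq_cont int_ball)

theorem regF : ∃ ε : ℝ, 0 < ε ∧ ∀ (T E : ℝ) (O : Set V) (u : ℝ → V → V)
  (p : ℝ → V → ℝ), 0 < T → LSl T E O u p → ∀ (T₁ r₁ ρ : ℝ) (a : V), 0 ≤ T₁ → T₁ < T →
    0 < r₁ → 0 < ρ → closedBall a ρ ⊆ O →
    (∀ t ∈ Ioo T₁ T, ∀ r ∈ Ioc 0 r₁, T₁ < t - r ^ 2 → ∃ D : ℝ → ℝ,
      IntegrableOn D (Ioo (t - r ^ 2) t) ∧
      (∀ τ ∈ Ioo (t - r ^ 2) t, ∀ x ∈ closedBall a (5 / 8 * ρ), B2 x (8 * r) (u τ) ≤ D τ) ∧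
      ∫ τ in Ioo (t - r ^ 2) t, D τ ≤ ε * r) →
    ∃ B δ : ℝ, 0 < δ ∧ ∀ t ∈ Ioo (T - δ) T, 0 < t → ∀ x ∈ closedBall a (ρ / 2), ‖u t x‖ ≤ B := by
  obtain ⟨εL, CL, hεL, hCL, hloc⟩ := p_local
  obtain ⟨CM, hCM, hmol⟩ := p_moll2
  refine ⟨εL, hεL, ?_⟩
  intro T E O u p hT hu T₁ r₁ ρ a hT₁ hT₁T hr₁ hρ hO hdis
  have hE0 : 0 ≤ E := by
    have h1 : (T₁ + T) / 2 ∈ Ioo 0 T := ⟨by linarith, by linarith⟩
    exact (integral_nonneg fun y => Finset.sum_nonneg fun _ _ => sq_nonneg _).trans (hu.en _ h1)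
  obtain ⟨ζ, κ, hκ, hζ, hζ1, hL⟩ := cut_exists hu hE0 hρ hO
  obtain ⟨E', hE'd⟩ : ∃ E', E' = √E := ⟨_, rfl⟩
  have hE' : 0 ≤ E' := by rw [hE'd]; exact Real.sqrt_nonneg _
  rw [← hE'd] at hL
  obtain ⟨U, hU⟩ : ∃ U : ℝ → V → V, U = fun t x => ζ x • u t x := ⟨_, rfl⟩
  obtain ⟨P, hP⟩ : ∃ P : ℝ → V → ℝ, P = fun t x => ζ x * p t x := ⟨_, rfl⟩
  rw [← hU, ← hP] at hL
  have hζo : ∀ x ∈ ball a (7 / 8 * ρ), ζ x = 1 := fun x hx => hζ1 x (ball_subset_closedBall hx)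
  have hUg : ∀ τ, ∀ y ∈ ball a (7 / 8 * ρ), gsq (U τ) y = gsq (u τ) y := fun τ y hy => by
    rw [hU]
    exact gsq_cutG isOpen_ball hζo τ hy
  -- the radius
  obtain ⟨r, hr, c1, c2, c3, c4⟩ := small_rad (N := 8) (A := CM * E') hr₁ hρ
    (b := (T - T₁) / 2) (by linarith)
  have hr1 : r ≤ r₁ := by linarith
  have hr2 : 0 < r ^ 2 := by positivity
  have hrN : r ^ 2 ≤ (8 * r) ^ 2 := pow_le_pow_left₀ hr.le (by linarith) 2
  -- the speed
  obtain ⟨Lc, hgood⟩ := hmol T κ E' (ball a (7 / 8 * ρ)) U P hκ hE' hL r hr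
  have hMr := speed_num (C := CM) (E := E') hr
  obtain ⟨M, hM⟩ : ∃ M, M = CM * E' / √(r ^ 3) := ⟨_, rfl⟩
  rw [← hM] at hgood hMr
  have hM0 : 0 ≤ M := by rw [hM]; positivity
  obtain ⟨δ, hδ0, hδ1, hδ2, hδ3⟩ : ∃ δ : ℝ, 0 < δ ∧ δ ≤ r ^ 2 / 32 ∧ δ ≤ r / 16 ∧ M * δ ≤ r / 16 := by
    refine ⟨min (r ^ 2 / 32) (r / 16 / (M + 1)), by positivity, min_le_left _ _, ?_, ?_⟩
    · refine (min_le_right _ _).trans (div_le_self (by positivity) (by linarith))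
    · calc M * min (r ^ 2 / 32) (r / 16 / (M + 1)) ≤ (M + 1) * (r / 16 / (M + 1)) := by
            apply mul_le_mul (by linarith) (min_le_right _ _) (by positivity) (by positivity)
        _ = r / 16 := by field_simp
  obtain ⟨Q, hQ⟩ : ∃ Q, Q = CL * (1 + √(2 * r ^ 2 * ((r ^ 3)⁻¹ * E' ^ 2 + 1536 * M ^ 2))) := ⟨_, rfl⟩
  refine ⟨Q / r + M, (T - T₁) / 2, by linarith, ?_⟩
  intro t ht ht0 x hx
  -- the final time
  obtain ⟨s, hts, hsδ, hsT⟩ : ∃ s, t < s ∧ s - δ < t ∧ s < T := by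
    refine ⟨min ((t + T) / 2) (t + δ / 2), lt_min (by linarith [ht.2]) (by linarith), ?_, ?_⟩
    · have := min_le_right ((t + T) / 2) (t + δ / 2)
      linarith
    · have := min_le_left ((t + T) / 2) (t + δ / 2)
      linarith [ht.2]
  have hs1 : (T + T₁) / 2 < s := by linarith [ht.1]
  have hs2 : T₁ < s - (8 * r) ^ 2 := by linarith
  have hα : 0 < s - r ^ 2 := by linarith
  obtain ⟨X, hX⟩ := p_flowx2 T M Lc _ (mol r U) hgood (s - r ^ 2) s hα (by linarith) hsT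
  have hMb : ∀ t ∈ Ioo (s - r ^ 2) s, ∀ x, ‖mol r U t x‖ ≤ M := fun t ht x =>
    hgood.bd t ⟨hα.trans ht.1, ht.2.trans hsT⟩ x
  have hxa : ‖x - a‖ ≤ ρ / 2 := by rwa [mem_closedBall, dist_eq_norm] at hx
  -- the rough position
  have hrough : ∀ τ ∈ Ioo (s - r ^ 2) s, ‖x - X τ x‖ ≤ ρ / 8 := by
    intro τ hτ
    have h1 := W382.ME.speed hX hMb hτ x
    rw [hX.fin x] at h1
    refine h1.trans (le_trans ?_ c3)
    rw [← hMr]
    exact mul_le_mul_of_nonneg_left (by linarith [hτ.1]) hM0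
  have hin : ∀ τ ∈ Ioo (s - r ^ 2) s, ‖X τ x - a‖ ≤ 5 / 8 * ρ := by
    intro τ hτ
    have h1 := hrough τ hτ
    calc ‖X τ x - a‖ = ‖(x - a) - (x - X τ x)‖ := by congr 1; abel
      _ ≤ ‖x - a‖ + ‖x - X τ x‖ := norm_sub_le _ _
      _ ≤ _ := by linarith
  have htube : ∀ τ ∈ Ioo (s - r ^ 2) s, ball (X τ x) (8 * r) ⊆ ball a (7 / 8 * ρ) := by
    intro τ hτ
    apply ball_subset_ball'
    rw [dist_eq_norm]
    have := hin τ hτ
    linarith
  -- the dissipation along the path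
  have hXc : ContinuousOn (fun τ => X τ x) (Icc (s - r ^ 2) s) :=
    hX.cont.comp (f := fun τ : ℝ => (τ, x)) (by fun_prop) (fun τ hτ => ⟨hτ, mem_univ _⟩)
  obtain ⟨D, hD1, hD2, hD3⟩ := hdis s ⟨by linarith, hsT⟩ r ⟨hr, hr1⟩ (by linarith)
  have hms : ms U r (fun τ => X τ x) (s - r ^ 2) s ≤ εL := by
    unfold ms
    rw [intervalIntegral.integral_of_le (by linarith), integral_Ioc_eq_integral_Ioo]
    have i1 : IntegrableOn (fun τ => B2 (X τ x) (8 * r) (U τ)) (Ioo (s - r ^ 2) s) :=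
      ((mass_cont hL.smooth_u hα hsT (by linarith) hXc (8 * r)).integrableOn_compact
        isCompact_Icc).mono_set Ioo_subset_Icc_self
    have h1 : ∫ τ in Ioo (s - r ^ 2) s, B2 (X τ x) (8 * r) (U τ)
        ≤ ∫ τ in Ioo (s - r ^ 2) s, D τ := by
      refine setIntegral_mono_on i1 hD1 measurableSet_Ioo fun τ hτ => ?_
      have h2 : B2 (X τ x) (8 * r) (U τ) = B2 (X τ x) (8 * r) (u τ) := by
        unfold B2
        exact setIntegral_congr_fun measurableSet_ball fun y hy => hUg τ y (htube τ hτ hy)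
      rw [h2]
      refine hD2 τ hτ _ ?_
      rw [mem_closedBall, dist_eq_norm]
      exact hin τ hτ
    rw [inv_mul_le_iff₀ hr]
    linarith
  -- the local regularity theorem
  have hL2 := p_frame2 T κ E' (ball a (7 / 8 * ρ)) U P hL r s hr (by linarith) hsT
    (fun τ => X τ x) (hX.smooth x) (fun τ hτ => hX.ode x τ hτ) htube
  have hInt := frame_int (r := r) (s := s) hL.smooth_u hr hα le_rfl le_rfl hsT hXc
  have hmse := ms_eq (r := r) (s := s) hL.smooth_u hr hα hsT (fun τ => X τ x)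
  have hl := hloc _ _ hL2 hInt (by rw [hmse]; exact hms)
  have htime : ∀ t ∈ Ioo (-1 : ℝ) 0, s + r ^ 2 * t ∈ Ioo (s - r ^ 2) s := by
    intro t ht
    have a1 : r ^ 2 * (-1) < r ^ 2 * t := (mul_lt_mul_iff_right₀ hr2).2 ht.1
    have a2 : r ^ 2 * t < r ^ 2 * 0 := (mul_lt_mul_iff_right₀ hr2).2 ht.2
    constructor <;> linarith
  have hT' : ∀ t ∈ Ioo (-1 : ℝ) 0, s + r ^ 2 * t ∈ Ioo 0 T := fun t ht =>
    ⟨hα.trans (htime t ht).1, (htime t ht).2.trans hsT⟩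
  have hl' : ∀ t ∈ Ioo (-1 / 16 : ℝ) 0, ∀ w ∈ ball (0 : V) (1 / 4), ∀ i,
      |frv r s (fun τ => X τ x) U t w i| ≤ Q := by
    intro t ht w hw i
    refine (hl t ht w hw i).trans ?_
    have ht' : t ∈ Ioo (-1 : ℝ) 0 := ⟨by linarith [ht.1], ht.2⟩
    have hA2 : A2 0 4 (frv r s (fun τ => X τ x) U t)
        ≤ 2 * r ^ 2 * ((r ^ 3)⁻¹ * E' ^ 2 + 1536 * M ^ 2) := by
      refine A2_bd (cd_slice hL.smooth_u (hT' t ht')) (hL.en_int _ (hT' t ht'))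
        (hL.en _ (hT' t ht')) hr
        (X (s + r ^ 2 * t) x) (fun i => deriv (fun τ => X τ x i) (s + r ^ 2 * t)) ?_
      intro i
      have hd : HasDerivAt (fun τ => X τ x i) (mol r U (s + r ^ 2 * t) (X (s + r ^ 2 * t) x) i)
          (s + r ^ 2 * t) := (hasDerivAt_pi.1 (hX.ode x _ (htime t ht'))) i
      rw [hd.deriv]
      exact (norm_le_pi_norm (mol r U _ (X _ x)) i).trans (hMb _ (htime t ht') _)
    rw [hQ]
    gcongr
  have hpt := point (CL := Q) hr hM0 hX hMb hδ1 hδ2 hδ3 (x := x) (z := x) (y := x) (t := t) hsδ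
    hts (mem_ball_self (by positivity)) (mem_ball_self hδ0) hl'
  have hUx : U t x = u t x := by
    rw [hU]
    show ζ x • u t x = u t x
    rw [hζ1 x (closedBall_subset_closedBall (by linarith) hx), one_smul]
  rwa [hUx] at hpt

end Pool.Agent.H9SA
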