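import Pool.Agent.W221.NS.Asm3
import Pool.Agent.W221.NS.Fin4
import Pool.Agent.Q85.CL.Defs

/-!
Around every point there are shells on which the velocity is bounded up to the time `T`.
-/

set_option autoImplicit false

open MeasureTheory Set Metric Filter Topology
open scoped ContDiff ENNReal

namespace Pool.Agent.H9SA

open H459R3.NS W221.NS Pool.Agent.Q85.CL

/-- Small windows. -/
lemma win_zero {Φ : ℝ → ℝ≥0∞} {T : ℝ} (hT : 0 < T) (hΦ : ∫⁻ t in Ioo 0 T, Φ t ≠ ⊤) {c : ℝ≥0∞}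
    (hc : 0 < c) : ∃ h₀ : ℝ, 0 < h₀ ∧ ∀ h : ℝ, 0 < h → h ≤ h₀ → ∫⁻ t in Ioo (T - h) T, Φ t < c := by
  obtain ⟨δ, hδ, H⟩ := exists_pos_setLIntegral_lt_of_measure_lt hΦ hc.ne'
  obtain ⟨δ', hδ', hδδ⟩ : ∃ δ' : ℝ, 0 < δ' ∧ ENNReal.ofReal δ' < δ := by
    obtain ⟨e, he0, he1⟩ := exists_between hδ
    refine ⟨e.toReal, ENNReal.toReal_pos he0.ne' (he1.trans_le le_top).ne, ?_⟩
    rwa [ENNReal.ofReal_toReal (he1.trans_le le_top).ne]
  refine ⟨min δ' (T / 2), by positivity, fun h hh hhle => ?_⟩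
  have h1 := H (Ioo (T - h) T) (by
    refine lt_of_le_of_lt (Measure.restrict_apply_le _ _) ?_
    rw [Real.volume_Ioo]
    refine lt_of_le_of_lt (ENNReal.ofReal_le_ofReal ?_) hδδ
    have := min_le_left δ' (T / 2)
    linarith)
  rw [Measure.restrict_restrict measurableSet_Ioo, inter_eq_left.2] at h1
  · exact h1
  · intro t ht
    have := min_le_right δ' (T / 2)
    exact ⟨by linarith [ht.1], ht.2⟩

lemma diss_fin {T E : ℝ} {O : Set V} {u : ℝ → V → V} {p : ℝ → V → ℝ} (hu : LSl T E O u p) :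
    ∫⁻ t in Ioo 0 T, ∫⁻ y in O, ENNReal.ofReal (gsq (u t) y) ≠ ⊤ := by
  have h1 : ∫⁻ z in Ioo 0 T ×ˢ O, ENNReal.ofReal (gsq (u z.1) z.2) < ⊤ :=
    hu.dis.lintegral_lt_top
  have h2 : AEMeasurable (fun z : ℝ × V => ENNReal.ofReal (gsq (u z.1) z.2))
      ((volume.restrict (Ioo 0 T)).prod (volume.restrict O)) := by
    rw [Measure.prod_restrict, ← Measure.volume_eq_prod]
    exact hu.dis.aemeasurable.ennreal_ofReal
  rw [Measure.volume_eq_prod, ← Measure.prod_restrict, lintegral_prod _ h2] at h1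
  exact h1.ne

lemma bd3_zero (O : Set V) : Bd3 0 O (fun _ => (0 : V)) := by
  intro x _ i
  have e : ∀ j, pd j (fun _ : V => (0 : ℝ)) = fun _ => 0 := by
    intro j
    funext y
    unfold pd
    simp
  refine ⟨by simp, fun j => ?_, fun j k => ?_, fun j k l => ?_⟩
  · show |pd j (fun _ : V => (0 : ℝ)) x| ≤ 0
    rw [e]
    simp
  · show |pd j (pd k (fun _ : V => (0 : ℝ))) x| ≤ 0
    rw [e, e]
    simp
  · show |pd j (pd k (pd l (fun _ : V => (0 : ℝ)))) x| ≤ 0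
    rw [e, e, e]
    simp

lemma toO {T E : ℝ} {O : Set V} {u : ℝ → V → V} {p : ℝ → V → ℝ} (hT : 0 < T)
    (hu : LSl T E O u p) : OSolF 1 T (√E) 0 O u p (fun _ _ => 0) := by
  have hE0 : 0 ≤ E := (integral_nonneg fun y => Finset.sum_nonneg fun _ _ => sq_nonneg _).trans
    (hu.en (T / 2) ⟨by linarith, by linarith⟩)
  refine ⟨hu.openO, hu.smooth_u.mono (prod_mono subset_rfl (subset_univ _)),
    hu.smooth_p.mono (prod_mono subset_rfl (subset_univ _)), hu.divfree, ?_,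
    fun t ht => bd3_zero O, hu.en_int, ?_⟩
  · intro t ht x hx i
    have h := hu.momentum t ht x hx i
    simp only [one_mul, Pi.zero_apply, add_zero]
    exact h
  · intro t ht
    rw [Real.sq_sqrt hE0]
    exact hu.en t ht

/-- A shell without singular points. -/
lemma shell_free {T E : ℝ} {O : Set V} {u : ℝ → V → V} {p : ℝ → V → ℝ} (hT : 0 < T)
    (hu : LSl T E O u p) {a : V} {R : ℝ} (hR : 0 < R) (hRO : closedBall a R ⊆ O) :
    ∃ s w : ℝ, 0 < w ∧ R / 2 < s - 2 * w ∧ s + 2 * w < R ∧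
      ∀ x, |‖x - a‖ - s| ≤ 2 * w → ¬ W221.NS.Sing T u x := by
  obtain ⟨C, hC, H⟩ := omega_final3 B.p_omega3 B.p_osc3 B.p_mink
  obtain ⟨⟨r₀, hr₀, hcnt⟩, -, -⟩ := H 1 T (√E) 0 O u p (fun _ _ => 0) one_pos hT (toO hT hu)
    (closedBall a R) (isCompact_closedBall a R) hRO
  have hc : (0 : ℝ≥0∞) < ENNReal.ofReal (R / (4 * C)) := ENNReal.ofReal_pos.2 (by positivity)
  obtain ⟨h₀, hh₀, hwin⟩ := win_zero hT (diss_fin hu) hc
  -- the number of shells
  obtain ⟨N, hN⟩ : ∃ N : ℕ, 1 ≤ N ∧ R / (4 * N) < r₀ ∧ 32 * (R / (4 * N)) ^ 2 ≤ h₀ := by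
    have t1 : Tendsto (fun N : ℕ => R / (4 * (N : ℝ))) atTop (𝓝 0) := by
      have h1 : Tendsto (fun N : ℕ => 4 * (N : ℝ)) atTop atTop :=
        Tendsto.const_mul_atTop (by norm_num) tendsto_natCast_atTop_atTop
      exact Tendsto.const_div_atTop h1 R
    have t2 : Tendsto (fun N : ℕ => 32 * (R / (4 * (N : ℝ))) ^ 2) atTop (𝓝 0) := by
      have := (t1.pow 2).const_mul (32 : ℝ)
      simpa using this
    have e1 := t1.eventually (gt_mem_nhds hr₀)
    have e2 := t2.eventually (gt_mem_nhds hh₀)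
    obtain ⟨N, h1, h2, h3⟩ := ((eventually_ge_atTop 1).and (e1.and e2)).exists
    exact ⟨N, h1, h2, h3.le⟩
  obtain ⟨hN1, hN2, hN3⟩ := hN
  have hN0 : (0 : ℝ) < N := by exact_mod_cast hN1
  obtain ⟨q, hq⟩ : ∃ q : ℝ, q = R / (4 * N) := ⟨_, rfl⟩
  have hq0 : 0 < q := by rw [hq]; positivity
  have hqN : N * q = R / 4 := by rw [hq]; field_simp
  rw [← hq] at hN2 hN3
  obtain ⟨sk, hsk⟩ : ∃ sk : ℕ → ℝ, sk = fun k : ℕ => R / 2 + q * (2 * (k : ℝ) + 1) := ⟨_, rfl⟩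
  by_contra hcon
  push Not at hcon
  have hex : ∀ k ∈ Finset.range N, ∃ x, |‖x - a‖ - sk k| ≤ q / 2 ∧ W221.NS.Sing T u x := by
    intro k hk
    have hk' : (k : ℝ) + 1 ≤ N := by exact_mod_cast Finset.mem_range.1 hk
    have hk0 : (0 : ℝ) ≤ k := Nat.cast_nonneg k
    have h1 := hcon (sk k) (q / 4) (by positivity) (by rw [hsk]; simp only; nlinarith)
      (by rw [hsk]; simp only; nlinarith)
    obtain ⟨x, hx1, hx2⟩ := h1
    exact ⟨x, by linarith, hx2⟩
  choose! x hx1 hx2 using hex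
  have hsep : ∀ k ∈ Finset.range N, ∀ l ∈ Finset.range N, k ≠ l → q ≤ ‖x k - x l‖ := by
    intro k hk l hl hkl
    have h1 := hx1 k hk
    have h2 := hx1 l hl
    have h3 : |‖x k - a‖ - ‖x l - a‖| ≤ ‖x k - x l‖ := by
      have := abs_norm_sub_norm_le (x k - a) (x l - a)
      rwa [sub_sub_sub_cancel_right] at this
    have h4 : 2 * q ≤ |sk k - sk l| := by
      rw [hsk]
      simp only
      have e : R / 2 + q * (2 * (k : ℝ) + 1) - (R / 2 + q * (2 * (l : ℝ) + 1)) =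
          2 * q * ((k : ℝ) - l) := by ring
      rw [e, abs_mul, abs_of_pos (by positivity)]
      have : (1 : ℝ) ≤ |(k : ℝ) - l| := by
        have h5 : (1 : ℤ) ≤ |(k : ℤ) - l| := Int.one_le_abs (by omega)
        exact_mod_cast h5
      nlinarith
    have h5 : |sk k - sk l| ≤ |‖x k - a‖ - sk k| + |‖x l - a‖ - sk l| + |‖x k - a‖ - ‖x l - a‖| := by
      have e : sk k - sk l = -(‖x k - a‖ - sk k) + (‖x l - a‖ - sk l)
          + (‖x k - a‖ - ‖x l - a‖) := by ring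
      rw [e]
      refine (abs_add_le _ _).trans (add_le_add_left ?_ _) |>.trans le_rfl
      refine (abs_add_le _ _).trans ?_
      rw [abs_neg]
    linarith
  have hinj : Set.InjOn x (Finset.range N : Set ℕ) := by
    intro k hk l hl hkl
    by_contra hne
    have := hsep k hk l hl hne
    rw [hkl, sub_self, norm_zero] at this
    linarith
  have hcard : ((Finset.range N).image x).card = N := by
    rw [Finset.card_image_of_injOn hinj, Finset.card_range]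
  have h1 := hcnt q hq0 hN2 ((Finset.range N).image x) (by
    intro y hy
    obtain ⟨k, hk, rfl⟩ := Finset.mem_image.1 hy
    refine ⟨?_, hx2 k hk⟩
    have hk' : (k : ℝ) + 1 ≤ N := by exact_mod_cast Finset.mem_range.1 hk
    have h2 := (abs_le.1 (hx1 k hk)).2
    rw [mem_closedBall, dist_eq_norm]
    rw [hsk] at h2
    simp only at h2
    nlinarith) (by
    intro y hy z hz hyz
    obtain ⟨k, hk, rfl⟩ := Finset.mem_image.1 hy
    obtain ⟨l, hl, rfl⟩ := Finset.mem_image.1 hz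
    exact hsep k hk l hl fun h => hyz (by rw [h]))
  rw [hcard, hqN, div_one, div_one] at h1
  have h2 := hwin (32 * q ^ 2) (by positivity) hN3
  have h3 : ENNReal.ofReal C * ∫⁻ t in Ioo (T - 32 * q ^ 2) T, ∫⁻ y in O,
      ENNReal.ofReal (gsq (u t) y) < ENNReal.ofReal (R / 4) := by
    have h4 : ENNReal.ofReal (R / 4) = ENNReal.ofReal C * ENNReal.ofReal (R / (4 * C)) := by
      rw [← ENNReal.ofReal_mul hC.le]
      congr 1
      field_simp
    rw [h4]
    exact ENNReal.mul_lt_mul_right (ENNReal.ofReal_pos.2 hC).ne' ENNReal.ofReal_ne_top h2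
  exact absurd h1 (not_le.2 h3)

/-- A shell on which the velocity is bounded up to the time `T`. -/
theorem shell {T E : ℝ} {O : Set V} {u : ℝ → V → V} {p : ℝ → V → ℝ} (hT : 0 < T)
    (hu : LSl T E O u p) {a : V} {R : ℝ} (hR : 0 < R) (hRO : closedBall a R ⊆ O) {T₀ : ℝ}
    (hT₀ : 0 < T₀) :
    ∃ s w M : ℝ, 0 < w ∧ R / 2 < s - 2 * w ∧ s + 2 * w < R ∧ 0 ≤ M ∧
      ∀ t ∈ Ico T₀ T, ∀ x, |‖x - a‖ - s| ≤ 2 * w → ‖u t x‖ ≤ M := by
  obtain ⟨s, w, hw, h1, h2, h3⟩ := shell_free hT hu hR hRO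
  set K : Set V := {x | |‖x - a‖ - s| ≤ 2 * w} with hK
  have hKc : IsCompact K := by
    refine (isCompact_closedBall a R).of_isClosed_subset ?_ ?_
    · exact isClosed_le (by fun_prop) continuous_const
    · intro x hx
      have h4 : |‖x - a‖ - s| ≤ 2 * w := hx
      rw [mem_closedBall, dist_eq_norm]
      linarith [(abs_le.1 h4).2]
  have key : ∃ B δ : ℝ, 0 < δ ∧ ∀ t ∈ Ioo (T - δ) T, ∀ x ∈ K, ‖u t x‖ ≤ B := by
    refine hKc.induction_on (p := fun S => ∃ B δ : ℝ, 0 < δ ∧ ∀ t ∈ Ioo (T - δ) T,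
      ∀ x ∈ S, ‖u t x‖ ≤ B) ?_ ?_ ?_ ?_
    · exact ⟨0, 1, one_pos, fun t _ x hx => absurd hx (notMem_empty _)⟩
    · rintro S S' hSS ⟨B, δ, hδ, hB⟩
      exact ⟨B, δ, hδ, fun t ht x hx => hB t ht x (hSS hx)⟩
    · rintro S S' ⟨B, δ, hδ, hB⟩ ⟨B', δ', hδ', hB'⟩
      refine ⟨max B B', min δ δ', lt_min hδ hδ', fun t ht x hx => ?_⟩
      rcases hx with hx | hx
      · exact (hB t ⟨by linarith [min_le_left δ δ', ht.1], ht.2⟩ x hx).trans (le_max_left _ _)
      · exact (hB' t ⟨by linarith [min_le_right δ δ', ht.1], ht.2⟩ x hx).trans (le_max_right _ _)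
    · intro x hx
      have h4 := h3 x hx
      unfold W221.NS.Sing at h4
      push Not at h4
      obtain ⟨δ, hδ, B, hB⟩ := h4
      exact ⟨ball x δ, mem_nhdsWithin_of_mem_nhds (ball_mem_nhds x hδ), B, δ, hδ,
        fun t ht y hy => hB t ht y hy⟩
  obtain ⟨B, δ, hδ, hB⟩ := key
  have hcomp : IsCompact (Icc T₀ (T - δ) ×ˢ K) := isCompact_Icc.prod hKc
  have hcont : ContinuousOn (fun z : ℝ × V => ‖u z.1 z.2‖) (Icc T₀ (T - δ) ×ˢ K) :=
    (hu.smooth_u.continuousOn.mono (prod_mono (fun t ht =>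
      ⟨hT₀.trans_le ht.1, by linarith [ht.2]⟩) (subset_univ _))).norm
  obtain ⟨B', hB'⟩ := (hcomp.image_of_continuousOn hcont).bddAbove
  refine ⟨s, w, max 0 (max B B'), hw, h1, h2, le_max_left _ _, fun t ht x hx => ?_⟩
  refine le_trans ?_ (le_max_right _ _)
  by_cases htδ : T - δ < t
  · exact (hB t ⟨htδ, ht.2⟩ x hx).trans (le_max_left _ _)
  · exact (hB' ⟨(t, x), ⟨⟨ht.1, not_lt.1 htδ⟩, hx⟩, rfl⟩).trans (le_max_right _ _)

end Pool.Agent.H9SA
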