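import Pool.Agent.H9SA.Pot2
import Pool.Agent.H9SA.Spl2
import Pool.Agent.H2CV.Lip

/-!
The gradient in small cubes, from a bound of the local `L^q` norm of the vorticity, `2 ≤ q ≤ 3`.
-/

set_option autoImplicit false

open MeasureTheory Set Metric Filter Topology
open scoped ContDiff

namespace Pool.Agent.H9SA

open H459R3.NS W221.NS Pool.Agent.W583.MD Pool.Agent.W268.NS Pool.Agent.Q85.CL Pool.Agent.Q67.VD
open Pool.Agent.H2CV (vc sm_vc JT_u JT_vc)
open Pool.Agent.Q85.CC (cur)

/-- The splitting at the scale `r`. -/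
theorem split_c {T E : ℝ} {O : Set V} {u : ℝ → V → V} {p : ℝ → V → ℝ} (hT : 0 < T)
    (hu : LSl T E O u p) {a : V} {R T₁ s w d m : ℝ} (hR : 0 < R) (hRO : closedBall a R ⊆ O)
    (hT₁ : 0 < T₁) (hT₁T : T₁ < T) (hw : 0 < w) (hs : 0 < s) (hsR : s + 2 * w < R / 4)
    (hd : d ≠ 0) (hm : 1 / 2 < m) : ∃ A : ℝ, 0 ≤ A ∧ ∀ t ∈ Ico T₁ T, ∀ r ∈ Ioc 0 w, ∀ I : ℝ,
      ∫ x in closedBall a (s + 2 * w), Wq d (vc (u t)) x ^ m ≤ I →
      ∃ g : Fin 3 → V → ℝ, (∀ i, ContDiff ℝ ∞ (g i)) ∧ ∀ x ∈ closedBall a (s + w),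
        (∀ i, |u t x i - g i x| ≤ A * ∑ k, pot r (cur k i (u t)) x) ∧
        ∀ i k, |pd k (g i) x| ≤ A * (I ^ (1 / (2 * m)) * r ^ (-(3 / (2 * m))) + 1) := by
  obtain ⟨C, hC, hdec⟩ := Pool.Agent.Q81.CL.decL
  obtain ⟨J, hJ0, hJ⟩ := Pool.Agent.Q81.CL.l1L T E O u p hT hu a R T₁ hR hRO hT₁ hT₁T
  obtain ⟨V₀, hV₀⟩ : ∃ V₀, V₀ = (volume.real (closedBall a R) + |E|) / (R / 4) ^ 4 := ⟨_, rfl⟩
  have hV₀0 : 0 ≤ V₀ := by rw [hV₀]; positivity
  have hkf := kf_nonneg hm
  have hJw : 0 ≤ J / w ^ 3 := by positivity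
  refine ⟨C * (1 + 3 * kf m + 3 * (J / w ^ 3) + V₀), by positivity,
    fun t ht r hr I hI => ?_⟩
  have ht0 : t ∈ Ioo 0 T := ⟨hT₁.trans_le ht.1, ht.2⟩
  have hv : SM (u t) := fun i => (JT_u hu.toLEq i).slice' ht0
  have hdiv : DFO O (u t) := fun x hx => hu.divfree t ht0 x hx
  have hdec' := fun i => hdec r (R / 4) (fun y => u t y i) (fun k => cur k i (u t)) a hr.1
    (by linarith [hr.2]) (hv i) (fun k => Pool.Agent.Q284.CL.sm_cur hv k i) (fun x hx =>
      Pool.Agent.Q284.CL.lap_curL hv hu.openO hdiv i (hRO (by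
        rw [mem_ball] at hx
        rw [mem_closedBall]
        linarith)))
  choose g hg1 hg2 hg3 using hdec'
  refine ⟨g, hg1, fun x hx => ?_⟩
  have hxa : dist x a ≤ s + w := hx
  have hxL : x ∈ closedBall a (R / 4) := by
    rw [mem_closedBall]
    linarith
  have hW : Continuous fun y => Wq d (vc (u t)) y ^ m :=
    (sm_rpow (sm_Wq fun i => sm_vc hv i) (fun y => Wq_pos hd y) m).continuous
  have hIw : ∀ ρ ≤ w, ∫ y in closedBall x ρ, Wq d (vc (u t)) y ^ m ≤ I := by
    intro ρ hρ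
    refine le_trans ?_ hI
    refine setIntegral_mono_set (hW.continuousOn.integrableOn_compact (isCompact_closedBall _ _))
      (Eventually.of_forall fun z => Real.rpow_nonneg (Wq_pos hd z).le _) ?_
    exact (closedBall_subset_closedBall' (by linarith)).eventuallyLE
  have hI0 : 0 ≤ I :=
    le_trans (integral_nonneg fun y => Real.rpow_nonneg (Wq_pos hd y).le _) hI
  obtain ⟨Q, hQ⟩ : ∃ Q, Q = I ^ (1 / (2 * m)) * r ^ (-(3 / (2 * m))) := ⟨_, rfl⟩
  have hQ0 : 0 ≤ Q := by
    rw [hQ]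
    exact mul_nonneg (Real.rpow_nonneg hI0 _) (Real.rpow_nonneg hr.1.le _)
  refine ⟨fun i => ?_, fun i k => ?_⟩
  · refine (hg2 i x hxL).trans ?_
    have h1 : 0 ≤ ∑ k, pot r (cur k i (u t)) x := Finset.sum_nonneg fun k _ => pot_nonneg' _ _ _
    refine mul_le_mul_of_nonneg_right ?_ h1
    have h3 : 0 ≤ C * (3 * kf m + 3 * (J / w ^ 3) + V₀) := by positivity
    nlinarith
  · refine (hg3 i x hxL k).trans ?_
    have hsubJ : closedBall x (R / 4) ⊆ closedBall a (R / 2) :=
      closedBall_subset_closedBall' (by linarith)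
    have h0 : ∫ y in closedBall x (R / 4), om (u t) y ≤ J := by
      refine le_trans ?_ (hJ t ht)
      exact setIntegral_mono_set ((om_c hv).continuousOn.integrableOn_compact
        (isCompact_closedBall _ _)) (Eventually.of_forall fun z => Real.sqrt_nonneg _)
        hsubJ.eventuallyLE
    have h1 : ∑ l, far r (R / 4) (cur l i (u t)) x ≤ ∑ _l : Fin 3, (kf m * Q + J / w ^ 3) := by
      refine Finset.sum_le_sum fun l _ => ?_
      rw [hQ]
      exact far_bd hv hd hm l i x hr.1 (by linarith [hr.2, hr.1]) (by linarith)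
        (hIw w le_rfl) h0
    rw [Finset.sum_const, Finset.card_univ, Fintype.card_fin, nsmul_eq_mul] at h1
    have h2 : (∫ z in closedBall (0 : V) (R / 4), |u t (x + z) i|) / (R / 4) ^ 4 ≤ V₀ := by
      rw [hV₀]
      refine div_le_div_of_nonneg_right ?_ (by positivity)
      rw [shift (fun y => |u t y i|) x (R / 4)]
      have hsub : closedBall x (R / 4) ⊆ closedBall a R :=
        hsubJ.trans (closedBall_subset_closedBall (by linarith))
      have hnc : Continuous (nsq (u t)) := by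
        unfold nsq
        exact continuous_finsetSum _ fun i _ => (hv i).continuous.pow 2
      have i1 : IntegrableOn (fun y => |u t y i|) (closedBall x (R / 4)) :=
        ((hv i).continuous.abs).continuousOn.integrableOn_compact (isCompact_closedBall _ _)
      have i2 : IntegrableOn (nsq (u t)) (closedBall x (R / 4)) :=
        hnc.continuousOn.integrableOn_compact (isCompact_closedBall _ _)
      have i3 : IntegrableOn (fun _ : V => (1 : ℝ)) (closedBall x (R / 4)) :=
        continuousOn_const.integrableOn_compact (isCompact_closedBall _ _)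
      have h3 : ∫ y in closedBall x (R / 4), |u t y i| ≤
          ∫ y in closedBall x (R / 4), (1 + nsq (u t) y) := by
        refine setIntegral_mono_on i1 (i3.add i2) measurableSet_closedBall fun y _ => ?_
        have h4 : u t y i ^ 2 ≤ nsq (u t) y := by
          unfold nsq
          exact Finset.single_le_sum (f := fun i => u t y i ^ 2) (fun _ _ => sq_nonneg _)
            (Finset.mem_univ i)
        rw [← sq_abs] at h4
        nlinarith [sq_nonneg (|u t y i| - 1), abs_nonneg (u t y i)]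
      refine h3.trans ?_
      rw [integral_add i3 i2, setIntegral_const, smul_eq_mul, mul_one]
      refine add_le_add ?_ ?_
      · exact measureReal_mono hsub (isCompact_closedBall a R).measure_ne_top
      · refine le_trans ?_ ((hu.en t ht0).trans (le_abs_self E))
        exact setIntegral_mono_set (hu.en_int t ht0) (Eventually.of_forall fun z =>
          nsq_nonneg' _ _) (hsub.trans hRO).eventuallyLE
    rw [← hQ]
    have h5 := mul_le_mul_of_nonneg_left (add_le_add h1 h2) hC.le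
    refine h5.trans ?_
    push_cast
    have h6 : 0 ≤ C * (Q + 1) := by positivity
    have h7 : 0 ≤ C * (3 * kf m) := by positivity
    have h8 : 0 ≤ C * (3 * (J / w ^ 3) + V₀) * Q := by positivity
    nlinarith

/-- The curl and the gradient of `v - c`. -/
lemma pd_subc {f : V → ℝ} (c : ℝ) (j : Fin 3) (x : V) : pd j (fun y => f y - c) x = pd j f x := by
  unfold pd
  have e : (fun y => f y - c) = fun y => f y + (-c) := by funext y; ring
  rw [e, fderiv_add_const]

lemma gsq_subc (v : V → V) (c : V) (x : V) : gsq (fun y => v y - c) x = gsq v x := by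
  unfold gsq
  simp only [Pi.sub_apply, pd_subc]

lemma vort_subc (v : V → V) (c : V) (x : V) : vort (fun y => v y - c) x = vort v x := by
  have h1 : ∀ i j, gradM (fun y => v y - c) x i j = gradM v x i j := by
    intro i j
    show pd i (fun y => (v y - c) j) x = pd i (fun y => v y j) x
    simp only [Pi.sub_apply, pd_subc]
  funext k
  simp only [vort]
  fin_cases k
  · show gradM (fun y => v y - c) x 1 2 - gradM (fun y => v y - c) x 2 1 =
      gradM v x 1 2 - gradM v x 2 1
    rw [h1, h1]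
  · show gradM (fun y => v y - c) x 2 0 - gradM (fun y => v y - c) x 0 2 =
      gradM v x 2 0 - gradM v x 0 2
    rw [h1, h1]
  · show gradM (fun y => v y - c) x 0 1 - gradM (fun y => v y - c) x 1 0 =
      gradM v x 0 1 - gradM v x 1 0
    rw [h1, h1]

/-- The scaled cut-off function. -/
lemma cut_r : ∃ C : ℝ, 0 ≤ C ∧ ∀ (x : V) (r : ℝ), 0 < r → ∃ φ : V → ℝ, ContDiff ℝ ∞ φ ∧
    HasCompactSupport φ ∧ (∀ y, 0 ≤ φ y) ∧ (∀ y, φ y ≤ 1) ∧ (∀ y ∈ closedBall x (8 * r), φ y = 1) ∧
    (∀ y ∉ closedBall x (16 * r), φ y = 0 ∧ ∀ i, pd i φ y = 0) ∧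
    ∀ y i, pd i φ y ^ 2 ≤ C / r ^ 2 := by
  let b : ContDiffBump (0 : V) := ⟨8, 12, by norm_num, by norm_num⟩
  have hb : ContDiff ℝ ∞ b := b.contDiff
  have hbc : HasCompactSupport b := b.hasCompactSupport
  have a3 : ∀ j, ∃ C, ∀ x, ‖pd j b x‖ ≤ C := fun j =>
    (sm_pd hb j).continuous.bounded_above_of_compact_support (cs_pd hbc j)
  choose C3 hC3 using a3
  have p3 : ∀ j, 0 ≤ C3 j := fun j => (norm_nonneg _).trans (hC3 j 0)
  refine ⟨∑ j, C3 j ^ 2, Finset.sum_nonneg fun j _ => sq_nonneg _, fun x r hr => ?_⟩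
  have hpd : ∀ y i, pd i (fun y => b (r⁻¹ • (y - x))) y = r⁻¹ * pd i b (r⁻¹ • (y - x)) := by
    intro y i
    unfold pd
    have h1 : HasFDerivAt (fun y : V => r⁻¹ • (y - x)) (r⁻¹ • ContinuousLinearMap.id ℝ V) y :=
      ((hasFDerivAt_id y).sub_const x).const_smul r⁻¹
    have h2 : HasFDerivAt (b : V → ℝ) (fderiv ℝ b (r⁻¹ • (y - x))) (r⁻¹ • (y - x)) :=
      ((hb.differentiable (by norm_cast)) _).hasFDerivAt
    have h3 := h2.comp y h1
    have h4 : fderiv ℝ (fun y => b (r⁻¹ • (y - x))) y =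
      (fderiv ℝ b (r⁻¹ • (y - x))).comp (r⁻¹ • ContinuousLinearMap.id ℝ V) := h3.fderiv
    rw [h4]
    simp
  have hsup : ∀ y, b (r⁻¹ • (y - x)) ≠ 0 → y ∈ ball x (12 * r) := by
    intro y hy
    have h : r⁻¹ • (y - x) ∈ Function.support b := hy
    rw [b.support_eq, mem_ball, dist_zero_right, norm_smul, norm_inv, Real.norm_eq_abs,
      abs_of_pos hr, inv_mul_lt_iff₀ hr] at h
    rw [mem_ball, dist_eq_norm]
    have : b.rOut = 12 := rfl
    rw [this] at h
    linarith
  refine ⟨fun y => b (r⁻¹ • (y - x)), ?_, ?_, fun y => b.nonneg, fun y => b.le_one,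
    fun y hy => ?_, fun y hy => ?_, fun y i => ?_⟩
  · have h6 : ContDiff ℝ ∞ fun y : V => r⁻¹ • (y - x) := by fun_prop
    exact hb.comp h6
  · refine HasCompactSupport.intro (isCompact_closedBall x (12 * r)) fun y hy => ?_
    by_contra hcon
    exact hy (ball_subset_closedBall (hsup y hcon))
  · refine b.one_of_mem_closedBall ?_
    rw [mem_closedBall, dist_eq_norm] at hy
    rw [mem_closedBall, dist_zero_right, norm_smul, norm_inv, Real.norm_eq_abs, abs_of_pos hr,
      inv_mul_le_iff₀ hr]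
    have : b.rIn = 8 := rfl
    rw [this]
    linarith
  · have hev : (fun y => b (r⁻¹ • (y - x))) =ᶠ[𝓝 y] fun _ => (0 : ℝ) := by
      have h5 : y ∈ (closedBall x (12 * r))ᶜ := fun h =>
        hy (closedBall_subset_closedBall (by linarith) h)
      filter_upwards [isClosed_closedBall.isOpen_compl.mem_nhds h5] with z hz
      by_contra hcon
      exact hz (ball_subset_closedBall (hsup z hcon))
    refine ⟨hev.eq_of_nhds, fun i => ?_⟩
    rw [(pd_ev hev i).eq_of_nhds, pd_c]
  · rw [hpd, mul_pow, inv_pow, ← div_eq_inv_mul]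
    refine div_le_div_of_nonneg_right ?_ (by positivity)
    have h1 : pd i b (r⁻¹ • (y - x)) ^ 2 ≤ C3 i ^ 2 := by
      rw [← sq_abs]
      exact pow_le_pow_left₀ (abs_nonneg _) (hC3 i _) 2
    exact h1.trans (Finset.single_le_sum (f := fun j => C3 j ^ 2) (fun _ _ => sq_nonneg _)
      (Finset.mem_univ i))

/-- The mean value inequality. -/
lemma lip_pd {f : V → ℝ} (hf : ContDiff ℝ ∞ f) {x : V} {ρ D : ℝ} (hD : 0 ≤ D)
    (h : ∀ z ∈ closedBall x ρ, ∀ k, |pd k f z| ≤ D) {y : V} (hy : y ∈ closedBall x ρ) :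
    |f y - f x| ≤ 3 * D * ‖y - x‖ := by
  have hfd : ∀ z ∈ closedBall x ρ, ‖fderiv ℝ f z‖ ≤ 3 * D := by
    intro z hz
    refine ContinuousLinearMap.opNorm_le_bound _ (by positivity) fun e => ?_
    rw [Pool.Agent.H2CV.fd_sum, Real.norm_eq_abs]
    refine (Finset.abs_sum_le_sum_abs _ _).trans ?_
    have h1 : ∀ k, |e k * pd k f z| ≤ ‖e‖ * D := by
      intro k
      rw [abs_mul]
      exact mul_le_mul (norm_le_pi_norm e k) (h z hz k) (abs_nonneg _) (norm_nonneg _)
    refine (Finset.sum_le_sum fun k _ => h1 k).trans (le_of_eq ?_)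
    simp
    ring
  have hρ : 0 ≤ ρ := dist_nonneg.trans hy
  have h1 := (convex_closedBall x ρ).norm_image_sub_le_of_norm_fderiv_le (𝕜 := ℝ)
    (f := f) (C := 3 * D) (fun x _ => (hf.differentiable (by norm_cast)) x)
    (fun x hx => hfd x hx) (mem_closedBall_self hρ) hy
  exact h1

/-- The integral of `d² + |ω|²` from the integral of its power. -/
lemma Wq_int {v : V → V} (hv : SM v) {d m : ℝ} (hd : d ≠ 0) (hm : 1 ≤ m) {x : V} {ρ lam I : ℝ}
    (hρ : 0 ≤ ρ) (hlam : 0 < lam) (hI : ∫ y in closedBall x ρ, Wq d (vc v) y ^ m ≤ I) :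
    ∫ y in closedBall x ρ, Wq d (vc v) y ≤ lam * (2 * ρ) ^ 3 + lam ^ (1 - m) * I := by
  have hW : Continuous (Wq d (vc v)) := (sm_Wq fun i => sm_vc hv i).continuous
  have hWm : Continuous fun y => Wq d (vc v) y ^ m :=
    (sm_rpow (sm_Wq fun i => sm_vc hv i) (fun y => Wq_pos hd y) m).continuous
  have i1 : IntegrableOn (Wq d (vc v)) (closedBall x ρ) :=
    hW.continuousOn.integrableOn_compact (isCompact_closedBall _ _)
  have i2 : IntegrableOn (fun y => Wq d (vc v) y ^ m) (closedBall x ρ) :=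
    hWm.continuousOn.integrableOn_compact (isCompact_closedBall _ _)
  have i3 : IntegrableOn (fun _ : V => lam) (closedBall x ρ) :=
    continuousOn_const.integrableOn_compact (isCompact_closedBall _ _)
  have h1 : ∫ y in closedBall x ρ, Wq d (vc v) y ≤
      ∫ y in closedBall x ρ, (lam + lam ^ (1 - m) * Wq d (vc v) y ^ m) := by
    refine setIntegral_mono_on i1 (i3.add (i2.const_mul _)) measurableSet_closedBall fun y _ => ?_
    have h0 := Wq_pos (w := vc v) hd y
    rcases le_total (Wq d (vc v) y) lam with h | h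
    · have : 0 ≤ lam ^ (1 - m) * Wq d (vc v) y ^ m := by positivity
      linarith
    · have h2 : 1 ≤ (Wq d (vc v) y / lam) ^ (m - 1) :=
        Real.one_le_rpow (by rwa [one_le_div hlam]) (by linarith)
      have h3 : lam ^ (1 - m) * Wq d (vc v) y ^ m =
          (Wq d (vc v) y / lam) ^ (m - 1) * Wq d (vc v) y := by
        rw [Real.div_rpow h0.le hlam.le, show 1 - m = -(m - 1) by ring, Real.rpow_neg hlam.le]
        have h4 : Wq d (vc v) y ^ m = Wq d (vc v) y ^ (m - 1) * Wq d (vc v) y := by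
          conv_lhs => rw [show m = (m - 1) + 1 by ring, Real.rpow_add h0, Real.rpow_one]
        rw [h4]
        ring
      rw [h3]
      have := mul_le_mul_of_nonneg_right h2 h0.le
      linarith
  refine h1.trans ?_
  rw [integral_add i3 (i2.const_mul _), integral_const_mul, setIntegral_const, smul_eq_mul]
  refine add_le_add (le_of_eq ?_) (mul_le_mul_of_nonneg_left hI (by positivity))
  rw [measureReal_def, Real.volume_pi_closedBall _ hρ, ENNReal.toReal_ofReal (by positivity)]
  simp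
  ring

end Pool.Agent.H9SA
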