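import Pool.Agent.H9SA.Small
import Pool.Agent.H9SA.Ens2

/-!
The case `2 ≤ q ≤ 3`.
-/

set_option autoImplicit false

open MeasureTheory Set Metric Filter Topology
open scoped ContDiff

namespace Pool.Agent.H9SA

open H459R3.NS W221.NS Pool.Agent.W583.MD Pool.Agent.W268.NS Pool.Agent.Q85.CL Pool.Agent.Q67.VD
open Pool.Agent.H2CV (vc sm_vc JT_u JT_vc)
open Pool.Agent.Q85.CC (cur)

lemma cur_sq (v : V → V) (d : ℝ) (i j : Fin 3) (x : V) : cur i j v x ^ 2 ≤ Wq d (vc v) x := by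
  have h1 := Pool.Agent.Q225.CC.cur_le (v := v) i j x
  have h2 : om v x ^ 2 = ∑ i, vort v x i ^ 2 := by
    unfold om len
    rw [Real.sq_sqrt]
    · unfold dotProduct
      exact Finset.sum_congr rfl fun i _ => by ring
    · unfold dotProduct
      exact Finset.sum_nonneg fun i _ => mul_self_nonneg _
  rw [Wq_vc, ← h2, ← sq_abs]
  have := pow_le_pow_left₀ (abs_nonneg _) h1 2
  linarith [sq_nonneg d]

/-- The velocity in a small cube. -/
lemma nsq_small {v : V → V} (hv : SM v) {g : Fin 3 → V → ℝ} (hg : ∀ i, ContDiff ℝ ∞ (g i))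
    {d A D X r : ℝ} {x : V} (hr : 0 < r) (hA : 0 ≤ A) (hD : 0 ≤ D)
    (h1 : ∀ y ∈ closedBall x (16 * r), ∀ i, |v y i - g i y| ≤ A * ∑ k, pot r (cur k i v) y)
    (h2 : ∀ y ∈ closedBall x (16 * r), ∀ i k, |pd k (g i) y| ≤ D)
    (hX : ∫ y in closedBall x (17 * r), Wq d (vc v) y ≤ X) :
    ∫ y in closedBall x (16 * r), nsq (fun y => v y - fun i => g i x) y ≤
      54 * A ^ 2 * (24 * r) ^ 2 * X + 6 * (48 * (D * r)) ^ 2 * (32 * r) ^ 3 := by
  have hW : Continuous (Wq d (vc v)) := (sm_Wq fun i => sm_vc hv i).continuous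
  have hcur : ∀ k i, Continuous (cur k i v) := fun k i => sm_cur' hv k i
  have hp := fun k i => pot_L2 (hcur k i) (ρ := 16 * r) hr x
  have hpi : ∀ k i, IntegrableOn (fun y => pot r (cur k i v) y ^ 2) (closedBall x (16 * r)) :=
    fun k i => (hp k i).1
  have hpb : ∀ k i, ∫ y in closedBall x (16 * r), pot r (cur k i v) y ^ 2 ≤ (24 * r) ^ 2 * X := by
    intro k i
    refine (hp k i).2.trans (mul_le_mul_of_nonneg_left ?_ (by positivity))
    have e : 16 * r + r = 17 * r := by ring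
    rw [e]
    refine le_trans ?_ hX
    exact setIntegral_mono_on (((hcur k i).pow 2).continuousOn.integrableOn_compact
      (isCompact_closedBall _ _)) (hW.continuousOn.integrableOn_compact (isCompact_closedBall _ _))
      measurableSet_closedBall fun y _ => cur_sq v d k i y
  have hpt : ∀ y ∈ closedBall x (16 * r), nsq (fun y => v y - fun i => g i x) y ≤
      (∑ i, ∑ k, 6 * A ^ 2 * pot r (cur k i v) y ^ 2) + 6 * (48 * (D * r)) ^ 2 := by
    intro y hy
    unfold nsq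
    have h3 : ∀ i : Fin 3, (v y - fun i => g i x) i ^ 2 ≤
        (∑ k, 6 * A ^ 2 * pot r (cur k i v) y ^ 2) + 2 * (48 * (D * r)) ^ 2 := by
      intro i
      have a1 := h1 y hy i
      have a2 := lip_pd (hg i) hD (fun z hz k => h2 z hz i k) hy
      have hyx : ‖y - x‖ ≤ 16 * r := by
        rwa [mem_closedBall, dist_eq_norm] at hy
      have a3 : |g i y - g i x| ≤ 48 * (D * r) := by
        refine a2.trans ?_
        have := mul_le_mul_of_nonneg_left hyx (by positivity : 0 ≤ 3 * D)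
        linarith
      have a4 : (v y i - g i y) ^ 2 ≤ (A * ∑ k, pot r (cur k i v) y) ^ 2 := by
        rw [← sq_abs (v y i - g i y)]
        exact pow_le_pow_left₀ (abs_nonneg _) a1 2
      have a5 : (g i y - g i x) ^ 2 ≤ (48 * (D * r)) ^ 2 := by
        rw [← sq_abs (g i y - g i x)]
        exact pow_le_pow_left₀ (abs_nonneg _) a3 2
      have a6 : (∑ k, pot r (cur k i v) y) ^ 2 ≤ 3 * ∑ k, pot r (cur k i v) y ^ 2 := by
        simp only [Fin.sum_univ_three]
        nlinarith [sq_nonneg (pot r (cur 0 i v) y - pot r (cur 1 i v) y),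
          sq_nonneg (pot r (cur 1 i v) y - pot r (cur 2 i v) y),
          sq_nonneg (pot r (cur 2 i v) y - pot r (cur 0 i v) y)]
      have a7 : ∑ k, 6 * A ^ 2 * pot r (cur k i v) y ^ 2 =
          6 * A ^ 2 * ∑ k, pot r (cur k i v) y ^ 2 := by rw [Finset.mul_sum]
      have a8 := mul_le_mul_of_nonneg_left a6 (by positivity : 0 ≤ 2 * A ^ 2)
      have e : (v y - fun i => g i x) i = (v y i - g i y) + (g i y - g i x) := by
        rw [Pi.sub_apply]
        ring
      rw [e, a7]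
      have a9 := sq_nonneg ((v y i - g i y) - (g i y - g i x))
      have a10 : (A * ∑ k, pot r (cur k i v) y) ^ 2 = A ^ 2 * (∑ k, pot r (cur k i v) y) ^ 2 := by
        ring
      rw [a10] at a4
      linarith
    rw [Fin.sum_univ_three, Fin.sum_univ_three]
    linarith [h3 0, h3 1, h3 2]
  have hnc : Continuous (nsq (fun y => v y - fun i => g i x)) := by
    unfold nsq
    exact continuous_finsetSum _ fun i _ => ((hv i).continuous.sub continuous_const).pow 2
  have i1 : ∀ i k, IntegrableOn (fun y => 6 * A ^ 2 * pot r (cur k i v) y ^ 2)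
      (closedBall x (16 * r)) := fun i k => (hpi k i).const_mul _
  have i2 : IntegrableOn (fun y => ∑ i, ∑ k, 6 * A ^ 2 * pot r (cur k i v) y ^ 2)
      (closedBall x (16 * r)) :=
    integrable_finsetSum _ fun i _ => integrable_finsetSum _ fun k _ => i1 i k
  have i3 : IntegrableOn (fun _ : V => 6 * (48 * (D * r)) ^ 2) (closedBall x (16 * r)) :=
    continuousOn_const.integrableOn_compact (isCompact_closedBall _ _)
  refine (setIntegral_mono_on (hnc.continuousOn.integrableOn_compact (isCompact_closedBall _ _))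
    (i2.add i3) measurableSet_closedBall hpt).trans ?_
  have e1 := integral_add i2 i3
  simp only [Pi.add_apply] at e1 ⊢
  rw [e1, setIntegral_const, smul_eq_mul]
  refine add_le_add ?_ (le_of_eq ?_)
  · rw [integral_finsetSum _ fun i _ => integrable_finsetSum _ fun k _ => i1 i k]
    have h4 : ∀ i : Fin 3, ∫ y in closedBall x (16 * r), ∑ k, 6 * A ^ 2 * pot r (cur k i v) y ^ 2 ≤
        18 * A ^ 2 * ((24 * r) ^ 2 * X) := by
      intro i
      rw [integral_finsetSum _ fun k _ => i1 i k]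
      have h5 : ∀ k : Fin 3, ∫ y in closedBall x (16 * r), 6 * A ^ 2 * pot r (cur k i v) y ^ 2 ≤
          6 * A ^ 2 * ((24 * r) ^ 2 * X) := by
        intro k
        rw [integral_const_mul]
        exact mul_le_mul_of_nonneg_left (hpb k i) (by positivity)
      rw [Fin.sum_univ_three]
      linarith [h5 0, h5 1, h5 2]
    rw [Fin.sum_univ_three]
    linarith [h4 0, h4 1, h4 2]
  · rw [measureReal_def, Real.volume_pi_closedBall _ (by positivity),
      ENNReal.toReal_ofReal (by positivity)]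
    simp
    ring

/-- The gradient in a small cube. -/
lemma B2_small {v : V → V} (hv : SM v) {g : Fin 3 → V → ℝ} (hg : ∀ i, ContDiff ℝ ∞ (g i))
    {d A D X C₂ r : ℝ} {x : V} (hr : 0 < r) (hd : d ≠ 0) (hA : 0 ≤ A) (hD : 0 ≤ D) (hC₂ : 0 ≤ C₂)
    (hcut : ∃ φ : V → ℝ, ContDiff ℝ ∞ φ ∧
      HasCompactSupport φ ∧ (∀ y, 0 ≤ φ y) ∧ (∀ y, φ y ≤ 1) ∧
      (∀ y ∈ closedBall x (8 * r), φ y = 1) ∧
      (∀ y ∉ closedBall x (16 * r), φ y = 0 ∧ ∀ i, pd i φ y = 0) ∧
      ∀ y i, pd i φ y ^ 2 ≤ C₂ / r ^ 2)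
    (hdiv : ∀ y ∈ closedBall x (16 * r), ∑ i, pd i (fun y => v y i) y = 0)
    (h1 : ∀ y ∈ closedBall x (16 * r), ∀ i, |v y i - g i y| ≤ A * ∑ k, pot r (cur k i v) y)
    (h2 : ∀ y ∈ closedBall x (16 * r), ∀ i k, |pd k (g i) y| ≤ D)
    (hX : ∫ y in closedBall x (17 * r), Wq d (vc v) y ≤ X) :
    B2 x (8 * r) v ≤ 2 * X + 12 * C₂ * (31104 * A ^ 2 * X + 452984832 * (D ^ 2 * r ^ 3)) := by
  obtain ⟨φ, hφ, hφc, hφ0, hφ1, hφ2, hφ3, hφ4⟩ := hcut
  have hW : Continuous (Wq d (vc v)) := (sm_Wq fun i => sm_vc hv i).continuous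
  have hvc : ∀ i, ContDiff ℝ ∞ fun y => (v y - fun i => g i x) i := fun i =>
    (hv i).sub contDiff_const
  have hdc := dc (v := fun y => v y - fun i => g i x) hvc hφ hφc fun y hy => by
    have hy' : y ∈ closedBall x (16 * r) := by
      by_contra hcon
      exact hy (hφ3 y hcon).1
    simp only [Pi.sub_apply, pd_subc]
    exact hdiv y hy'
  simp only [gsq_subc, vort_subc] at hdc
  have hc2 : HasCompactSupport fun y => φ y ^ 2 := by
    have e : (fun y => φ y ^ 2) = fun y => φ y * φ y := by funext y; ring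
    rw [e]
    exact hφc.mul_right
  have hg2 : Continuous (gsq v) := by
    unfold gsq
    exact continuous_finsetSum _ fun i _ => continuous_finsetSum _ fun j _ =>
      (sm_pd (hv i) j).continuous.pow 2
  have k1 : B2 x (8 * r) v ≤ ∫ y, φ y ^ 2 * gsq v y := by
    unfold B2
    rw [← integral_indicator measurableSet_ball]
    refine integral_mono_of_nonneg (Eventually.of_forall fun y => ?_)
      (int_cs ((hφ.continuous.pow 2).mul hg2) hc2.mul_right) (Eventually.of_forall fun y => ?_)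
    · exact indicator_nonneg (fun y _ => gsq_nn _ _) y
    · simp only
      by_cases hy : y ∈ ball x (8 * r)
      · rw [indicator_of_mem hy, hφ2 y (ball_subset_closedBall hy), one_pow, one_mul]
      · rw [indicator_of_notMem hy]
        exact mul_nonneg (sq_nonneg _) (gsq_nn _ _)
  have k2 : ∫ y, φ y ^ 2 * ∑ i, vort v y i ^ 2 ≤ X := by
    refine le_trans ?_ hX
    rw [← integral_indicator measurableSet_closedBall]
    refine integral_mono_of_nonneg (Eventually.of_forall fun y => ?_) ?_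
      (Eventually.of_forall fun y => ?_)
    · exact mul_nonneg (sq_nonneg _) (Finset.sum_nonneg fun _ _ => sq_nonneg _)
    · rw [integrable_indicator_iff measurableSet_closedBall]
      exact hW.continuousOn.integrableOn_compact (isCompact_closedBall _ _)
    · simp only
      by_cases hy : y ∈ closedBall x (16 * r)
      · rw [indicator_of_mem (closedBall_subset_closedBall (by linarith) hy), Wq_vc]
        have h3 : 0 ≤ ∑ i, vort v y i ^ 2 := Finset.sum_nonneg fun _ _ => sq_nonneg _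
        have h4 : φ y ^ 2 ≤ 1 := pow_le_one₀ (hφ0 y) (hφ1 y)
        have h5 := mul_le_mul_of_nonneg_right h4 h3
        have h6 : 0 ≤ d ^ 2 := sq_nonneg d
        linarith
      · rw [(hφ3 y hy).1]
        simp only [ne_eq, OfNat.ofNat_ne_zero, not_false_eq_true, zero_pow, zero_mul]
        exact indicator_nonneg (fun y _ => (Wq_pos hd y).le) y
  have k3 : ∫ y, (∑ i, pd i φ y ^ 2) * nsq (fun y => v y - fun i => g i x) y ≤
      3 * (C₂ / r ^ 2) * ∫ y in closedBall x (16 * r), nsq (fun y => v y - fun i => g i x) y := by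
    have hnc : Continuous (nsq (fun y => v y - fun i => g i x)) := by
      unfold nsq
      exact continuous_finsetSum _ fun i _ => (hvc i).continuous.pow 2
    rw [← integral_const_mul, ← integral_indicator measurableSet_closedBall]
    refine integral_mono_of_nonneg (Eventually.of_forall fun y => ?_) ?_
      (Eventually.of_forall fun y => ?_)
    · exact mul_nonneg (Finset.sum_nonneg fun _ _ => sq_nonneg _) (nsq_nonneg' _ _)
    · rw [integrable_indicator_iff measurableSet_closedBall]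
      exact (continuous_const.mul hnc).continuousOn.integrableOn_compact (isCompact_closedBall _ _)
    · simp only
      by_cases hy : y ∈ closedBall x (16 * r)
      · rw [indicator_of_mem hy]
        refine mul_le_mul_of_nonneg_right ?_ (nsq_nonneg' _ _)
        rw [Fin.sum_univ_three]
        linarith [hφ4 y 0, hφ4 y 1, hφ4 y 2]
      · rw [indicator_of_notMem hy]
        simp [(hφ3 y hy).2]
  have k4 := nsq_small hv hg (d := d) hr hA hD h1 h2 hX
  have k5 := mul_le_mul_of_nonneg_left k4 (by positivity : 0 ≤ 3 * (C₂ / r ^ 2))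
  have e : 3 * (C₂ / r ^ 2) * (54 * A ^ 2 * (24 * r) ^ 2 * X
      + 6 * (48 * (D * r)) ^ 2 * (32 * r) ^ 3) =
      3 * C₂ * (31104 * A ^ 2 * X + 452984832 * (D ^ 2 * r ^ 3)) := by
    field_simp
    ring
  rw [e] at k5
  linarith

/-- The gradient in small cubes. -/
theorem B2_pow {T E : ℝ} {O : Set V} {u : ℝ → V → V} {p : ℝ → V → ℝ} (hT : 0 < T)
    (hu : LSl T E O u p) {a : V} {R T₁ s w d m γ K : ℝ} (hR : 0 < R) (hRO : closedBall a R ⊆ O)
    (hT₁ : 0 < T₁) (hT₁T : T₁ < T) (hw : 0 < w) (hs : 0 < s) (hsR : s + 2 * w < R / 4)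
    (hd : d ≠ 0) (hm : 1 ≤ m) (hK0 : 0 ≤ K)
    (hK : ∀ t ∈ Ico T₁ T, ∫ x in closedBall a (s + 2 * w), Wq d (vc (u t)) x ^ m
      ≤ K * (T - t) ^ (-(2 * m * γ))) :
    ∃ r₀ A : ℝ, 0 < r₀ ∧ 0 ≤ A ∧ ∀ τ ∈ Ioo T₁ T, ∀ r ∈ Ioc 0 r₀, ∀ x ∈ closedBall a (5 / 8 * s),
      B2 x (8 * r) (u τ) ≤ r ^ (3 - 3 / m) * (A * (T - τ) ^ (-(2 * γ)) + A) := by
  obtain ⟨A₁, hA₁, H⟩ := split_c (d := d) (m := m) hT hu hR hRO hT₁ hT₁T hw hs hsR hd
    (by linarith)
  obtain ⟨C₂, hC₂, hcut⟩ := cut_r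
  obtain ⟨K₁, hK₁⟩ : ∃ K₁, K₁ = K ^ (1 / (2 * m)) := ⟨_, rfl⟩
  have hK₁0 : 0 ≤ K₁ := by rw [hK₁]; exact Real.rpow_nonneg hK0 _
  have hm0 : 0 < m := by linarith
  refine ⟨min (w / 32) 1, 2 * (39304 + K) + 12 * C₂ * (31104 * A₁ ^ 2 * (39304 + K)
    + 452984832 * (2 * A₁ ^ 2 * (K₁ ^ 2 + 1))), by positivity, by positivity,
    fun τ hτ r hr x hx => ?_⟩
  have hr0 := hr.1
  have hrw : r ≤ w / 32 := hr.2.trans (min_le_left _ _)
  have hr1 : r ≤ 1 := hr.2.trans (min_le_right _ _)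
  have hτ0 : τ ∈ Ioo 0 T := ⟨hT₁.trans hτ.1, hτ.2⟩
  have hTτ : 0 < T - τ := by linarith [hτ.2]
  have hv : SM (u τ) := fun i => (JT_u hu.toLEq i).slice' hτ0
  obtain ⟨P, hP⟩ : ∃ P, P = (T - τ) ^ (-γ) := ⟨_, rfl⟩
  have hP0 : 0 < P := by rw [hP]; positivity
  have hPm : (T - τ) ^ (-(2 * m * γ)) = P ^ (2 * m) := by
    rw [hP, ← Real.rpow_mul hTτ.le]
    congr 1
    ring
  have hP2 : (T - τ) ^ (-(2 * γ)) = P ^ 2 := by
    rw [hP, ← Real.rpow_natCast, ← Real.rpow_mul hTτ.le]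
    congr 1
    push_cast
    ring
  have hKτ := hK τ ⟨hτ.1.le, hτ.2⟩
  rw [hPm] at hKτ
  rw [hP2]
  obtain ⟨g, hg1, hg2⟩ := H τ ⟨hτ.1.le, hτ.2⟩ r ⟨hr0, by linarith⟩ (K * P ^ (2 * m)) hKτ
  have eI : (K * P ^ (2 * m)) ^ (1 / (2 * m)) = K₁ * P := by
    rw [Real.mul_rpow hK0 (by positivity), ← Real.rpow_mul hP0.le, hK₁]
    congr 1
    have : 2 * m * (1 / (2 * m)) = 1 := by field_simp
    rw [this, Real.rpow_one]
  rw [eI] at hg2
  obtain ⟨D, hD⟩ : ∃ D, D = A₁ * (K₁ * P * r ^ (-(3 / (2 * m))) + 1) := ⟨_, rfl⟩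
  rw [← hD] at hg2
  have hD0 : 0 ≤ D := by rw [hD]; positivity
  obtain ⟨Y, hY⟩ : ∃ Y, Y = r ^ (3 - 3 / m) := ⟨_, rfl⟩
  have hY0 : 0 < Y := by rw [hY]; positivity
  rw [← hY]
  rw [mem_closedBall] at hx
  have hsub : ∀ ρ ≤ 17 * r, closedBall x ρ ⊆ closedBall a (s + w) := fun ρ hρ =>
    closedBall_subset_closedBall' (by linarith)
  -- the enstrophy
  obtain ⟨lam, hlam⟩ : ∃ lam, lam = r ^ (-(3 / m)) * P ^ 2 := ⟨_, rfl⟩
  have hlam0 : 0 < lam := by rw [hlam]; positivity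
  have hWm : Continuous fun y => Wq d (vc (u τ)) y ^ m :=
    (sm_rpow (sm_Wq fun i => sm_vc hv i) (fun y => Wq_pos hd y) m).continuous
  have hI17 : ∫ y in closedBall x (17 * r), Wq d (vc (u τ)) y ^ m ≤ K * P ^ (2 * m) := by
    refine le_trans ?_ hKτ
    refine setIntegral_mono_set (hWm.continuousOn.integrableOn_compact (isCompact_closedBall _ _))
      (Eventually.of_forall fun z => Real.rpow_nonneg (Wq_pos hd z).le _) ?_
    exact ((hsub _ le_rfl).trans (closedBall_subset_closedBall (by linarith))).eventuallyLE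
  have hX : ∫ y in closedBall x (17 * r), Wq d (vc (u τ)) y ≤ (39304 + K) * (Y * P ^ 2) := by
    refine (Wq_int hv hd hm (by positivity) hlam0 hI17).trans (le_of_eq ?_)
    have e1 : lam * (2 * (17 * r)) ^ 3 = 39304 * (Y * P ^ 2) := by
      rw [hlam, hY]
      have e : r ^ (3 - 3 / m) = r ^ (-(3 / m)) * r ^ 3 := by
        rw [← Real.rpow_natCast, ← Real.rpow_add hr0]
        congr 1
        push_cast
        ring
      rw [e]
      ring
    have e2 : lam ^ (1 - m) * (K * P ^ (2 * m)) = K * (Y * P ^ 2) := by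
      rw [hlam, Real.mul_rpow (by positivity) (by positivity), ← Real.rpow_mul hr0.le, hY,
        ← Real.rpow_natCast P 2, ← Real.rpow_mul hP0.le]
      have e3 : -(3 / m) * (1 - m) = 3 - 3 / m := by
        field_simp
        ring
      have e4 : P ^ (((2 : ℕ) : ℝ) * (1 - m)) * P ^ (2 * m) = P ^ ((2 : ℕ) : ℝ) := by
        rw [← Real.rpow_add hP0]
        congr 1
        push_cast
        ring
      rw [e3]
      linear_combination (r ^ (3 - 3 / m) * K) * e4
    rw [e1, e2]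
    ring
  have hD2 : D ^ 2 * r ^ 3 ≤ 2 * A₁ ^ 2 * (K₁ ^ 2 * P ^ 2 * Y + Y) := by
    have e1 : (r ^ (-(3 / (2 * m)))) ^ 2 * r ^ 3 = Y := by
      rw [hY, ← Real.rpow_natCast _ 2, ← Real.rpow_mul hr0.le, ← Real.rpow_natCast r 3,
        ← Real.rpow_add hr0]
      congr 1
      push_cast
      field_simp
      ring
    have e2 : r ^ 3 ≤ Y := by
      rw [hY, ← Real.rpow_natCast r 3]
      refine Real.rpow_le_rpow_of_exponent_ge hr0 hr1 ?_
      push_cast
      have : 0 ≤ 3 / m := by positivity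
      linarith
    obtain ⟨Q, hQ⟩ : ∃ Q, Q = r ^ (-(3 / (2 * m))) := ⟨_, rfl⟩
    rw [← hQ] at e1 hD
    rw [hD]
    have e3 : (K₁ * P * Q + 1) ^ 2 ≤ 2 * (K₁ ^ 2 * P ^ 2 * Q ^ 2 + 1) := by
      nlinarith [sq_nonneg (K₁ * P * Q - 1)]
    calc (A₁ * (K₁ * P * Q + 1)) ^ 2 * r ^ 3 = A₁ ^ 2 * r ^ 3 * (K₁ * P * Q + 1) ^ 2 := by ring
      _ ≤ A₁ ^ 2 * r ^ 3 * (2 * (K₁ ^ 2 * P ^ 2 * Q ^ 2 + 1)) :=
          mul_le_mul_of_nonneg_left e3 (by positivity)
      _ = 2 * A₁ ^ 2 * (K₁ ^ 2 * P ^ 2 * (Q ^ 2 * r ^ 3) + r ^ 3) := by ring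
      _ ≤ _ := by
          rw [e1]
          refine mul_le_mul_of_nonneg_left (by linarith) (by positivity)
  have key := B2_small hv hg1 (d := d) hr0 hd hA₁ hD0 hC₂ (hcut x r hr0)
    (fun y hy => hu.divfree τ hτ0 y (hRO (closedBall_subset_closedBall (by linarith)
      (hsub _ (by linarith) hy))))
    (fun y hy i => (hg2 y (hsub _ (by linarith) hy)).1 i)
    (fun y hy i k => (hg2 y (hsub _ (by linarith) hy)).2 i k) hX
  refine key.trans ?_
  have hYP : 0 ≤ Y * P ^ 2 := by positivity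
  have m1 := mul_le_mul_of_nonneg_left hD2 (by positivity : 0 ≤ 12 * C₂ * 452984832)
  have m2 : 2 * A₁ ^ 2 * (K₁ ^ 2 * P ^ 2 * Y + Y) ≤
      2 * A₁ ^ 2 * (K₁ ^ 2 + 1) * (Y * (P ^ 2 + 1)) := by
    have : 0 ≤ 2 * A₁ ^ 2 * (K₁ ^ 2 * Y + Y * P ^ 2) := by positivity
    linarith
  have m3 := mul_le_mul_of_nonneg_left m2 (by positivity : 0 ≤ 12 * C₂ * 452984832)
  have m4 : (2 * (39304 + K) + 12 * C₂ * (31104 * A₁ ^ 2 * (39304 + K))) * (Y * P ^ 2) ≤
      (2 * (39304 + K) + 12 * C₂ * (31104 * A₁ ^ 2 * (39304 + K))) * (Y * (P ^ 2 + 1)) := by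
    refine mul_le_mul_of_nonneg_left ?_ (by positivity)
    nlinarith
  linarith

/-- **The case `2 ≤ q ≤ 3`.** -/
theorem not_sing_small {T E : ℝ} {O : Set V} {u : ℝ → V → V} {p : ℝ → V → ℝ} (hu : LSl T E O u p)
    {T₀ R c m γ C : ℝ} {a : V} {δ lam : ℝ → ℝ} (hδ : Thr T δ) (hl : Cut1 lam) (hT₀ : 0 < T₀)
    (hT₀T : T₀ < T)
    (hR : 0 < R) (hRO : closedBall a R ⊆ O) (hc : 0 < c) (hm : 1 ≤ m) (hm' : m ≤ 3 / 2)
    (hcm : c * (2 * m) ^ 2 < 2 * m - 1) (hγ : 0 ≤ γ) (hγ1 : γ < 1 - 3 / (4 * m))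
    (hB : Bd c u (rl lam δ u) (closedBall a R) T₀ T
      fun t => -(γ * Real.log (T - t)) - Real.log (δ t) + C) :
    ¬ Pool.Agent.Q85.CL.Sing T u a := by
  have hT : 0 < T := hT₀.trans hT₀T
  have hd : δ T₀ ≠ 0 := (hδ.pos _ ⟨hT₀, hT₀T⟩).ne'
  have hm0 : 0 < m := by linarith
  have hsub4 : closedBall a (R / 4) ⊆ closedBall a R :=
    closedBall_subset_closedBall (by linarith)
  obtain ⟨s, w, M, hw, hs1, hs2, hM0, hM⟩ := shell2 hT hu (R := R / 4) (by linarith)
    (hsub4.trans hRO) hT₀ hT₀T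
  obtain ⟨T₁, hT₁, hT₁T⟩ := exists_between hT₀T
  have hSD : SD T₀ T u a R s w M := ⟨hw, hs1, by linarith, hM0, hM⟩
  have hs : 0 < s := by linarith
  obtain ⟨K, hK0, hK⟩ := Lq_end (m := m) hu hδ hl hT₀ hRO (by linarith) hc hcm hB hSD hT₁ hT₁T hγ
  obtain ⟨r₀, A, hr₀, hA, hb⟩ := B2_pow (γ := γ) hT hu hR hRO (hT₀.trans hT₁) hT₁T hw hs hs2
    hd hm hK0 hK
  have h34 : 3 / m = 4 * (3 / (4 * m)) := by
    field_simp
  have h3m : 3 / m ≤ 3 := by
    rw [div_le_iff₀ hm0]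
    linarith
  have h3m' : 2 ≤ 3 / m := by
    rw [le_div_iff₀ hm0]
    linarith
  intro hsg
  obtain ⟨B', δ, hδ, hbd⟩ := reg_of_pow hT hu (T₁ := T₁) (r₀ := r₀) (A := A) (B := A)
    (θ := 3 - 3 / m) (β := 2 * γ) (a := a) (ρ := s) (hT₀.trans hT₁).le hT₁T hr₀ hs
    ((closedBall_subset_closedBall (by linarith)).trans hRO) hA hA (by linarith) (by linarith)
    (by linarith) (by linarith) hb
  obtain ⟨t, ht, htδ, x, hx, hxB⟩ := hsg B' (min δ (s / 2)) (lt_min hδ (by linarith))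
  refine absurd (hbd t ⟨by linarith [min_le_left δ (s / 2)], ht.2⟩ ht.1 x ?_) (not_le.2 hxB)
  rw [mem_closedBall, dist_eq_norm]
  exact hx.trans (min_le_right _ _)

end Pool.Agent.H9SA
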