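import Pool.Agent.H9SA.Ker
import Pool.Agent.H9SA.Asm
import Pool.Agent.Q284.CL.Vel
import Pool.Agent.Q81.CL.Dec
import Pool.Agent.Q81.CL.L1

/-!
The splitting of the velocity in a small part and a part with a bounded gradient, under a bound of
the local `L^q` norm of the vorticity, `q > 3`.
-/

set_option autoImplicit false

open MeasureTheory Set Metric Filter Topology
open scoped ContDiff

namespace Pool.Agent.H9SA

open H459R3.NS W221.NS Pool.Agent.W583.MD Pool.Agent.W268.NS Pool.Agent.Q85.CL Pool.Agent.Q67.VD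
open Pool.Agent.H2CV (vc sm_vc JT_u JT_vc)
open Pool.Agent.Q85.CC (cur)

lemma shift (F : V → ℝ) (x : V) (ρ : ℝ) :
    ∫ z in closedBall (0 : V) ρ, F (x + z) = ∫ y in closedBall x ρ, F y := by
  have h := (measurePreserving_add_left (volume : Measure V) x).setIntegral_preimage_emb
    (MeasurableEquiv.addLeft x).measurableEmbedding F (closedBall x ρ)
  rw [← h]
  congr 2
  ext z
  simp [mem_closedBall, dist_eq_norm]

/-- `|ω_{jk}|^q ≤ (d² + |ω|²)^(q/2)`. -/
lemma cur_pow (v : V → V) (d : ℝ) {m : ℝ} (hm : 0 < m) (i j : Fin 3) (x : V) :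
    |cur i j v x| ^ (2 * m) ≤ Wq d (vc v) x ^ m := by
  have h1 := Pool.Agent.Q225.CC.cur_le (v := v) i j x
  have h0 := abs_nonneg (cur i j v x)
  have h2 : om v x ^ 2 = ∑ i, vort v x i ^ 2 := by
    unfold om len
    rw [Real.sq_sqrt]
    · unfold dotProduct
      exact Finset.sum_congr rfl fun i _ => by ring
    · unfold dotProduct
      exact Finset.sum_nonneg fun i _ => mul_self_nonneg _
  have e : |cur i j v x| ^ (2 * m) = (|cur i j v x| ^ 2) ^ m := by
    rw [← Real.rpow_natCast _ 2, ← Real.rpow_mul h0]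
    norm_num
  rw [e]
  refine Real.rpow_le_rpow (by positivity) ?_ hm.le
  rw [Wq_vc, ← h2]
  have := pow_le_pow_left₀ h0 h1 2
  nlinarith [sq_nonneg d]

lemma om_c {v : V → V} (hv : SM v) : Continuous (om v) := by
  unfold om len
  refine Continuous.sqrt ?_
  unfold dotProduct
  exact continuous_finsetSum _ fun i _ => (sm_vc hv i).continuous.mul (sm_vc hv i).continuous

/-- The conjugate exponent of `2 m`. -/
noncomputable def qc (m : ℝ) : ℝ := Real.conjExponent (2 * m)

lemma qc_facts {m : ℝ} (hm : 3 / 2 < m) : (2 * m).HolderConjugate (qc m) ∧ 0 < qc m ∧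
    2 * qc m < 3 ∧ 3 < 3 * qc m ∧ (3 - 2 * qc m) * (1 / qc m) = 1 - 3 / (2 * m) ∧
    (3 - 3 * qc m) * (1 / qc m) = -(3 / (2 * m)) := by
  have h1 : 1 < 2 * m := by linarith
  have hc := Real.HolderConjugate.conjExponent h1
  have e : qc m = 2 * m / (2 * m - 1) := rfl
  have hp : 0 < 2 * m - 1 := by linarith
  have hm0 : 0 < m := by linarith
  have hq : 0 < qc m := by rw [e]; positivity
  refine ⟨hc, hq, ?_, ?_, ?_, ?_⟩
  · rw [e, ← mul_div_assoc, div_lt_iff₀ hp]
    linarith
  · rw [e, ← mul_div_assoc, lt_div_iff₀ hp]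
    linarith
  · rw [e]
    field_simp
    ring
  · rw [e]
    field_simp
    ring

lemma qc_facts1 {m : ℝ} (hm : 1 / 2 < m) : (2 * m).HolderConjugate (qc m) ∧ 0 < qc m ∧
    3 < 3 * qc m ∧ (3 - 3 * qc m) * (1 / qc m) = -(3 / (2 * m)) := by
  have h1 : 1 < 2 * m := by linarith
  have hc := Real.HolderConjugate.conjExponent h1
  have e : qc m = 2 * m / (2 * m - 1) := rfl
  have hp : 0 < 2 * m - 1 := by linarith
  have hm0 : 0 < m := by linarith
  have hq : 0 < qc m := by rw [e]; positivity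
  refine ⟨hc, hq, ?_, ?_⟩
  · rw [e, ← mul_div_assoc, lt_div_iff₀ hp]
    linarith
  · rw [e]
    field_simp
    ring

/-- The constants. -/
noncomputable def kn (m : ℝ) : ℝ := (24 / (3 - 2 * qc m)) ^ (1 / qc m)

noncomputable def kf (m : ℝ) : ℝ := (24 * ((1 / 2) ^ (3 - 3 * qc m) / (3 * qc m - 3))) ^ (1 / qc m)

variable {m d : ℝ} {v : V → V}

lemma kn_nonneg (hm : 3 / 2 < m) : 0 ≤ kn m := by
  obtain ⟨-, h0, h1, h2, -, -⟩ := qc_facts hm
  unfold kn
  have : 0 < 3 - 2 * qc m := by linarith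
  positivity

lemma kf_nonneg (hm : 1 / 2 < m) : 0 ≤ kf m := by
  obtain ⟨-, h0, h2, -⟩ := qc_facts1 hm
  unfold kf
  have : 0 < 3 * qc m - 3 := by linarith
  positivity

lemma sm_cur' (hv : SM v) (i j : Fin 3) : Continuous (cur i j v) :=
  (Pool.Agent.Q284.CL.sm_cur hv i j).continuous

lemma cur_int_le (hv : SM v) (hd : d ≠ 0) (hm : 0 < m) (i j : Fin 3) (x : V) {ρ I : ℝ}
    (hI : ∫ y in closedBall x ρ, Wq d (vc v) y ^ m ≤ I) {S : Set V} (hS : S ⊆ closedBall 0 ρ) :
    ∫ z in S, |cur i j v (x + z)| ^ (2 * m) ≤ I := by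
  have hcc : Continuous fun z : V => |cur i j v (x + z)| ^ (2 * m) :=
    (((sm_cur' hv i j).comp (continuous_const.add continuous_id)).abs).rpow_const
      fun _ => Or.inr (by positivity)
  have hW : Continuous fun y => Wq d (vc v) y ^ m :=
    (sm_rpow (sm_Wq fun i => sm_vc hv i) (fun y => Wq_pos hd y) m).continuous
  have hcc2 : Continuous fun y : V => |cur i j v y| ^ (2 * m) :=
    ((sm_cur' hv i j).abs).rpow_const fun _ => Or.inr (by positivity)
  have h1 : ∫ z in S, |cur i j v (x + z)| ^ (2 * m) ≤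
      ∫ z in closedBall (0 : V) ρ, |cur i j v (x + z)| ^ (2 * m) :=
    setIntegral_mono_set (hcc.continuousOn.integrableOn_compact (isCompact_closedBall _ _))
      (Eventually.of_forall fun z => Real.rpow_nonneg (abs_nonneg _) _) hS.eventuallyLE
  rw [shift (fun y => |cur i j v y| ^ (2 * m)) x ρ] at h1
  refine h1.trans (le_trans ?_ hI)
  exact setIntegral_mono_on (hcc2.continuousOn.integrableOn_compact (isCompact_closedBall _ _))
    (hW.continuousOn.integrableOn_compact (isCompact_closedBall _ _)) measurableSet_closedBall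
    fun y _ => cur_pow v d hm i j y

/-- The near part. -/
lemma pot_bd (hv : SM v) (hd : d ≠ 0) (hm : 3 / 2 < m) (i j : Fin 3) (x : V) {ρ I : ℝ}
    (hρ : 0 < ρ) (hI : ∫ y in closedBall x ρ, Wq d (vc v) y ^ m ≤ I) :
    pot ρ (cur i j v) x ≤ kn m * (I ^ (1 / (2 * m)) * ρ ^ (1 - 3 / (2 * m))) := by
  obtain ⟨hpq, hq0, hq1, hq2, hq3, -⟩ := qc_facts hm
  obtain ⟨k1, k2⟩ := ker_near (α := 2 * qc m) hq1 hρ
  have h1 := hold_ker (S := closedBall 0 ρ) (β := 2) (L := ρ) hpq (sm_cur' hv i j)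
    measurableSet_closedBall subset_rfl k1 x
  have e1 : pot ρ (cur i j v) x = ∫ z in closedBall (0 : V) ρ, |cur i j v (x + z)| * ‖z‖ ^ (-2 : ℝ) := by
    unfold pot
    refine setIntegral_congr_fun measurableSet_closedBall fun z _ => ?_
    rw [Real.rpow_neg (norm_nonneg z), div_eq_mul_inv]
    norm_num
  rw [e1]
  refine h1.trans ?_
  rw [k2]
  have h3 : 0 < 3 - 2 * qc m := by linarith
  have e2 : (24 * (ρ ^ (3 - 2 * qc m) / (3 - 2 * qc m))) ^ (1 / qc m) =
      kn m * ρ ^ (1 - 3 / (2 * m)) := by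
    have e3 : 24 * (ρ ^ (3 - 2 * qc m) / (3 - 2 * qc m)) =
        24 / (3 - 2 * qc m) * ρ ^ (3 - 2 * qc m) := by ring
    rw [e3, Real.mul_rpow (by positivity) (by positivity), ← Real.rpow_mul hρ.le, hq3]
    rfl
  rw [e2]
  have h4 : (∫ z in closedBall (0 : V) ρ, |cur i j v (x + z)| ^ (2 * m)) ^ (1 / (2 * m)) ≤
      I ^ (1 / (2 * m)) := by
    refine Real.rpow_le_rpow (integral_nonneg fun z => Real.rpow_nonneg (abs_nonneg _) _)
      (cur_int_le hv hd (by linarith) i j x hI subset_rfl) (by positivity)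
  have h5 := mul_le_mul_of_nonneg_right h4
    (mul_nonneg (kn_nonneg hm) (Real.rpow_nonneg hρ.le (1 - 3 / (2 * m))))
  linarith

/-- The far part. -/
lemma far_bd (hv : SM v) (hd : d ≠ 0) (hm : 1 / 2 < m) (i j : Fin 3) (x : V) {ρ w L I J : ℝ}
    (hρ : 0 < ρ) (hρw : ρ / 2 ≤ w) (hwL : w ≤ L)
    (hI : ∫ y in closedBall x w, Wq d (vc v) y ^ m ≤ I)
    (hJ : ∫ y in closedBall x L, om v y ≤ J) :
    far ρ L (cur i j v) x ≤ kf m * (I ^ (1 / (2 * m)) * ρ ^ (-(3 / (2 * m)))) + J / w ^ 3 := by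
  obtain ⟨hpq, hq0, hq2, hq4⟩ := qc_facts1 hm
  have hw : 0 < w := by linarith
  have hρ2 : 0 < ρ / 2 := by linarith
  obtain ⟨k1, k2⟩ := ker_far (α := 3 * qc m) hq2 hρ2
  have hS1 : closedBall (0 : V) w \ closedBall 0 (ρ / 2) ⊆ {z : V | ρ / 2 < ‖z‖} := by
    intro z hz
    have := hz.2
    rwa [mem_closedBall_zero_iff, not_le] at this
  have hm1 : MeasurableSet (closedBall (0 : V) w \ closedBall 0 (ρ / 2)) :=
    measurableSet_closedBall.diff measurableSet_closedBall
  have hm2 : MeasurableSet (closedBall (0 : V) L \ closedBall 0 w) :=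
    measurableSet_closedBall.diff measurableSet_closedBall
  have h1 := hold_ker (S := closedBall 0 w \ closedBall 0 (ρ / 2)) (β := 3) (L := w) hpq
    (sm_cur' hv i j) hm1 sdiff_subset (k1.mono_set hS1) x
  have hcn : Continuous fun z : V => |cur i j v (x + z)| :=
    ((sm_cur' hv i j).comp (continuous_const.add continuous_id)).abs
  -- integrability
  have hK : IsCompact (closedBall (0 : V) L ∩ {z : V | ρ / 2 ≤ ‖z‖}) :=
    (isCompact_closedBall _ _).inter_right (isClosed_le continuous_const continuous_norm)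
  have hint : IntegrableOn (fun z : V => |cur i j v (x + z)| / ‖z‖ ^ 3)
      (closedBall (0 : V) L ∩ {z : V | ρ / 2 ≤ ‖z‖}) := by
    refine ContinuousOn.integrableOn_compact hK (ContinuousOn.div hcn.continuousOn
      (by fun_prop) fun z hz => ?_)
    have : ρ / 2 ≤ ‖z‖ := hz.2
    have : 0 < ‖z‖ := by linarith
    positivity
  have hsub1 : closedBall (0 : V) w \ closedBall 0 (ρ / 2) ⊆
      closedBall (0 : V) L ∩ {z : V | ρ / 2 ≤ ‖z‖} := fun z hz =>
    ⟨closedBall_subset_closedBall hwL hz.1, by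
      have h : ρ / 2 < ‖z‖ := hS1 hz
      exact h.le⟩
  have hsub2 : closedBall (0 : V) L \ closedBall 0 w ⊆
      closedBall (0 : V) L ∩ {z : V | ρ / 2 ≤ ‖z‖} := fun z hz => by
    have := hz.2
    rw [mem_closedBall_zero_iff, not_le] at this
    exact ⟨hz.1, (by linarith : ρ / 2 ≤ ‖z‖)⟩
  have e0 : closedBall (0 : V) L \ closedBall 0 (ρ / 2) =
      (closedBall (0 : V) w \ closedBall 0 (ρ / 2)) ∪ (closedBall (0 : V) L \ closedBall 0 w) := by
    ext z
    simp only [Set.mem_sdiff, mem_closedBall_zero_iff, mem_union, not_le]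
    constructor
    · rintro ⟨h1, h2⟩
      rcases le_or_gt ‖z‖ w with h | h
      · exact Or.inl ⟨h, h2⟩
      · exact Or.inr ⟨h1, h⟩
    · rintro (⟨h1, h2⟩ | ⟨h1, h2⟩)
      · exact ⟨by linarith, h2⟩
      · exact ⟨h1, by linarith⟩
  have hdis : Disjoint (closedBall (0 : V) w \ closedBall 0 (ρ / 2))
      (closedBall (0 : V) L \ closedBall 0 w) := by
    rw [Set.disjoint_left]
    intro z h1 h2
    exact h2.2 h1.1
  unfold far
  rw [e0, setIntegral_union hdis hm2 (hint.mono_set hsub1) (hint.mono_set hsub2)]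
  refine add_le_add ?_ ?_
  · have e1 : ∫ z in closedBall (0 : V) w \ closedBall 0 (ρ / 2), |cur i j v (x + z)| / ‖z‖ ^ 3 =
        ∫ z in closedBall (0 : V) w \ closedBall 0 (ρ / 2),
          |cur i j v (x + z)| * ‖z‖ ^ (-3 : ℝ) := by
      refine setIntegral_congr_fun hm1 fun z _ => ?_
      rw [Real.rpow_neg (norm_nonneg z), div_eq_mul_inv]
      norm_num
    rw [e1]
    refine h1.trans ?_
    have h3 : 0 < 3 * qc m - 3 := by linarith
    have h6 : ∫ z in closedBall (0 : V) w \ closedBall 0 (ρ / 2), ‖z‖ ^ (-(3 * qc m)) ≤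
        24 * ((ρ / 2) ^ (3 - 3 * qc m) / (3 * qc m - 3)) := by
      rw [← k2]
      exact setIntegral_mono_set k1 (Eventually.of_forall fun z =>
        Real.rpow_nonneg (norm_nonneg z) _) hS1.eventuallyLE
    have h7 : (∫ z in closedBall (0 : V) w \ closedBall 0 (ρ / 2), ‖z‖ ^ (-(3 * qc m)))
        ^ (1 / qc m) ≤ kf m * ρ ^ (-(3 / (2 * m))) := by
      refine (Real.rpow_le_rpow (integral_nonneg fun z => Real.rpow_nonneg (norm_nonneg z) _) h6
        (by positivity)).trans (le_of_eq ?_)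
      have e3 : 24 * ((ρ / 2) ^ (3 - 3 * qc m) / (3 * qc m - 3)) =
          24 * ((1 / 2) ^ (3 - 3 * qc m) / (3 * qc m - 3)) * ρ ^ (3 - 3 * qc m) := by
        rw [show ρ / 2 = 1 / 2 * ρ by ring, Real.mul_rpow (by norm_num) hρ.le]
        ring
      rw [e3, Real.mul_rpow (by positivity) (by positivity), ← Real.rpow_mul hρ.le, hq4]
      rfl
    have h4 : (∫ z in closedBall (0 : V) w \ closedBall 0 (ρ / 2),
        |cur i j v (x + z)| ^ (2 * m)) ^ (1 / (2 * m)) ≤ I ^ (1 / (2 * m)) := by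
      refine Real.rpow_le_rpow (integral_nonneg fun z => Real.rpow_nonneg (abs_nonneg _) _)
        (cur_int_le hv hd (by linarith) i j x hI sdiff_subset) (by positivity)
    have hI0 : 0 ≤ I := le_trans (integral_nonneg fun y => Real.rpow_nonneg (Wq_pos hd y).le _) hI
    calc (∫ z in closedBall (0 : V) w \ closedBall 0 (ρ / 2),
          |cur i j v (x + z)| ^ (2 * m)) ^ (1 / (2 * m)) *
          (∫ z in closedBall (0 : V) w \ closedBall 0 (ρ / 2), ‖z‖ ^ (-(3 * qc m)))
            ^ (1 / qc m)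
        ≤ I ^ (1 / (2 * m)) * (kf m * ρ ^ (-(3 / (2 * m)))) :=
          mul_le_mul h4 h7 (Real.rpow_nonneg (integral_nonneg fun z =>
            Real.rpow_nonneg (norm_nonneg z) _) _) (Real.rpow_nonneg hI0 _)
      _ = _ := by ring
  · have h8 : ∫ z in closedBall (0 : V) L \ closedBall 0 w, |cur i j v (x + z)| / ‖z‖ ^ 3 ≤
        ∫ z in closedBall (0 : V) L \ closedBall 0 w, om v (x + z) / w ^ 3 := by
      have hoc : Continuous fun z : V => om v (x + z) / w ^ 3 :=
        ((om_c hv).comp (continuous_const.add continuous_id)).div_const _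
      refine setIntegral_mono_on (hint.mono_set hsub2)
        ((hoc.continuousOn.integrableOn_compact (isCompact_closedBall 0 L)).mono_set sdiff_subset)
        hm2 fun z hz => ?_
      have h9 : w ≤ ‖z‖ := by
        have := hz.2
        rw [mem_closedBall_zero_iff, not_le] at this
        exact this.le
      exact div_le_div₀ (Real.sqrt_nonneg _) (Pool.Agent.Q225.CC.cur_le i j (x + z))
        (by positivity) (pow_le_pow_left₀ hw.le h9 3)
    refine h8.trans ?_
    have hoc : Continuous fun z : V => om v (x + z) :=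
      (om_c hv).comp (continuous_const.add continuous_id)
    rw [integral_div]
    refine div_le_div_of_nonneg_right (le_trans ?_ hJ) (by positivity)
    rw [← shift (om v) x L]
    exact setIntegral_mono_set (hoc.continuousOn.integrableOn_compact (isCompact_closedBall 0 L))
      (Eventually.of_forall fun z => Real.sqrt_nonneg _) sdiff_subset.eventuallyLE

end Pool.Agent.H9SA
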