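import Pool.Agent.H459R3.NS.Defs

/-!
The action of polygonal paths with the Lagrangian `r (t, x) - c |w - b (t, x)|²` and its value
function.
-/

set_option autoImplicit false

open MeasureTheory Set Metric Filter Topology

namespace Pool.Agent.H9SA

open H459R3.NS

/-- The Lagrangian `r (t, x) - c |w - b (t, x)|²`. -/
noncomputable def Lg (c : ℝ) (b : ℝ → V → V) (r : ℝ → V → ℝ) (w : V) (t : ℝ) (x : V) : ℝ :=
  r t x - c * ((w - b t x) ⬝ᵥ (w - b t x))

/-- The action of the segment from `(s, y)` to `(t, x)`. -/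
noncomputable def sg (c : ℝ) (b : ℝ → V → V) (r : ℝ → V → ℝ) (s : ℝ) (y : V) (t : ℝ) (x : V) : ℝ :=
  (t - s) * ∫ θ in (0 : ℝ)..1,
    Lg c b r ((t - s)⁻¹ • (x - y)) (s + θ * (t - s)) (y + θ • (x - y))

/-- `Reach c b r B T₀ t x A`: some polygonal path in `B` from the time `T₀` to `(t, x)` has the
action `A`. -/
inductive Reach (c : ℝ) (b : ℝ → V → V) (r : ℝ → V → ℝ) (B : Set V) (T₀ : ℝ) :
    ℝ → V → ℝ → Prop
  | base (y : V) : y ∈ B → Reach c b r B T₀ T₀ y 0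
  | step (s : ℝ) (y : V) (A t : ℝ) (x : V) : Reach c b r B T₀ s y A → s < t → x ∈ B →
      Reach c b r B T₀ t x (A + sg c b r s y t x)

variable {c : ℝ} {b : ℝ → V → V} {r : ℝ → V → ℝ} {B : Set V} {T₀ T : ℝ}

lemma Reach.time {t : ℝ} {x : V} {A : ℝ} (h : Reach c b r B T₀ t x A) : T₀ ≤ t := by
  induction h with
  | base y hy => exact le_rfl
  | step s y A t x h hst hx ih => exact ih.trans hst.le

lemma Reach.mem {t : ℝ} {x : V} {A : ℝ} (h : Reach c b r B T₀ t x A) : x ∈ B := by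
  cases h with
  | base y hy => exact hy
  | step s y A t x h hst hx => exact hx

/-- The value function. -/
noncomputable def val (c : ℝ) (b : ℝ → V → V) (r : ℝ → V → ℝ) (B : Set V) (T₀ t : ℝ) (x : V) : ℝ :=
  sSup {A | Reach c b r B T₀ t x A}

/-- The actions of the paths are bounded by `Up t`. -/
def Bd (c : ℝ) (b : ℝ → V → V) (r : ℝ → V → ℝ) (B : Set V) (T₀ T : ℝ) (Up : ℝ → ℝ) : Prop :=
  ∀ t ∈ Ioo T₀ T, ∀ x ∈ B, ∀ A, Reach c b r B T₀ t x A → A ≤ Up t

variable {Up : ℝ → ℝ}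

lemma Bd.bddAbove (hB : Bd c b r B T₀ T Up) {t : ℝ} (ht : t ∈ Ioo T₀ T) {x : V} (hx : x ∈ B) :
    BddAbove {A | Reach c b r B T₀ t x A} := ⟨Up t, fun A hA => hB t ht x hx A hA⟩

lemma reach_stay {t : ℝ} (ht : T₀ < t) {x : V} (hx : x ∈ B) :
    Reach c b r B T₀ t x (sg c b r T₀ x t x) := by
  have := Reach.step (c := c) (b := b) (r := r) T₀ x 0 t x (Reach.base x hx) ht hx
  rwa [zero_add] at this

lemma val_le (hB : Bd c b r B T₀ T Up) {t : ℝ} (ht : t ∈ Ioo T₀ T) {x : V} (hx : x ∈ B) :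
    val c b r B T₀ t x ≤ Up t :=
  csSup_le ⟨_, reach_stay ht.1 hx⟩ fun A hA => hB t ht x hx A hA

lemma le_val (hB : Bd c b r B T₀ T Up) {t : ℝ} (ht : t ∈ Ioo T₀ T) {x : V} {A : ℝ}
    (h : Reach c b r B T₀ t x A) : A ≤ val c b r B T₀ t x :=
  le_csSup (hB.bddAbove ht h.mem) h

/-- The dynamic programming inequality. -/
lemma val_step (hB : Bd c b r B T₀ T Up) {s t : ℝ} (hs : T₀ < s) (hst : s < t) (ht : t < T)
    {y x : V} (hy : y ∈ B) (hx : x ∈ B) :
    val c b r B T₀ s y + sg c b r s y t x ≤ val c b r B T₀ t x := by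
  rw [← le_sub_iff_add_le]
  refine csSup_le ⟨_, reach_stay hs hy⟩ fun A hA => ?_
  rw [le_sub_iff_add_le]
  exact le_val hB ⟨hs.trans hst, ht⟩ (Reach.step s y A t x hA hst hx)

/-! ### Continuity of the action -/

/-- The action of a segment with a separate velocity. -/
noncomputable def Ph (c : ℝ) (b : ℝ → V → V) (r : ℝ → V → ℝ) (s : ℝ) (y : V) (q : V × ℝ × V) : ℝ :=
  ∫ θ in (0 : ℝ)..1, Lg c b r q.1 (s + θ * (q.2.1 - s)) (y + θ • (q.2.2 - y))

lemma cont_Ph (hb : Continuous fun z : ℝ × V => b z.1 z.2)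
    (hr : Continuous fun z : ℝ × V => r z.1 z.2) (s : ℝ) (y : V) : Continuous (Ph c b r s y) := by
  unfold Ph
  refine intervalIntegral.continuous_parametric_intervalIntegral_of_continuous ?_ continuous_const
  unfold Lg
  have h1 : Continuous fun p : (V × ℝ × V) × ℝ =>
      ((s + p.2 * (p.1.2.1 - s), y + p.2 • (p.1.2.2 - y)) : ℝ × V) := by fun_prop
  have hb1 := hb.comp h1
  have hr1 := hr.comp h1
  simp only [Function.comp_def] at hb1 hr1
  have h2 : Continuous fun p : (V × ℝ × V) × ℝ =>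
      p.1.1 - b (s + p.2 * (p.1.2.1 - s)) (y + p.2 • (p.1.2.2 - y)) :=
    (continuous_fst.comp continuous_fst).sub hb1
  refine hr1.sub (continuous_const.mul ?_)
  unfold dotProduct
  exact continuous_finsetSum _ fun i _ =>
    ((continuous_apply i).comp h2).mul ((continuous_apply i).comp h2)

/-- Restriction of the time to `[α, β]`. -/
noncomputable def cl (α β t : ℝ) : ℝ := max α (min β t)

lemma cl_eq {α β t : ℝ} (ht : t ∈ Icc α β) : cl α β t = t := by
  unfold cl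
  rw [min_eq_right ht.2, max_eq_right ht.1]

lemma cl_mem {α β : ℝ} (h : α ≤ β) (t : ℝ) : cl α β t ∈ Icc α β :=
  ⟨le_max_left _ _, max_le h (min_le_left _ _)⟩

lemma cont_cl {E : Type*} [TopologicalSpace E] {F : ℝ → V → E} {α β a' b' : ℝ}
    (hF : ContinuousOn (fun z : ℝ × V => F z.1 z.2) (Ioo a' b' ×ˢ univ)) (hα : a' < α)
    (hβ : β < b') (h : α ≤ β) : Continuous fun z : ℝ × V => F (cl α β z.1) z.2 := by
  have h1 : Continuous fun z : ℝ × V => ((cl α β z.1, z.2) : ℝ × V) := by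
    unfold cl
    fun_prop
  have h2 := hF.comp_continuous h1 fun z => ⟨⟨hα.trans_le (cl_mem h z.1).1,
    (cl_mem h z.1).2.trans_lt hβ⟩, mem_univ _⟩
  exact h2

lemma sg_cl {α β s t : ℝ} (hs : α ≤ s) (hst : s ≤ t) (ht : t ≤ β) (y x : V) :
    sg c (fun t => b (cl α β t)) (fun t => r (cl α β t)) s y t x = sg c b r s y t x := by
  unfold sg
  congr 1
  refine intervalIntegral.integral_congr fun θ hθ => ?_
  rw [uIcc_of_le zero_le_one] at hθ
  have h1 : 0 ≤ θ * (t - s) := mul_nonneg hθ.1 (by linarith)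
  have h2 : θ * (t - s) ≤ 1 * (t - s) := mul_le_mul_of_nonneg_right hθ.2 (by linarith)
  have h3 : cl α β (s + θ * (t - s)) = s + θ * (t - s) := cl_eq ⟨by linarith, by linarith⟩
  unfold Lg
  simp only [h3]

/-- The action of a segment is continuous in its end point. -/
lemma cont_sg {a' b' : ℝ} (hb : ContinuousOn (fun z : ℝ × V => b z.1 z.2) (Ioo a' b' ×ˢ univ))
    (hr : ContinuousOn (fun z : ℝ × V => r z.1 z.2) (Ioo a' b' ×ˢ univ)) {s t : ℝ} (hs : a' < s)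
    (hst : s < t) (ht : t < b') (y x : V) :
    ContinuousAt (fun z : ℝ × V => sg c b r s y z.1 z.2) (t, x) := by
  obtain ⟨β, hβ1, hβ2⟩ := exists_between ht
  have hb' := cont_cl hb hs hβ2 (hst.trans hβ1).le
  have hr' := cont_cl hr hs hβ2 (hst.trans hβ1).le
  have h1 := cont_Ph (c := c) (b := fun t => b (cl s β t)) (r := fun t => r (cl s β t)) hb' hr' s y
  have h2 : ContinuousAt (fun z : ℝ × V => (((z.1 - s)⁻¹ • (z.2 - y), z.1, z.2) : V × ℝ × V))
      (t, x) := by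
    have h3 : ContinuousAt (fun z : ℝ × V => (z.1 - s)⁻¹) (t, x) :=
      ContinuousAt.inv₀ (by fun_prop) (by simp only; linarith)
    have h4 : ContinuousAt (fun z : ℝ × V => z.2 - y) (t, x) := by fun_prop
    exact (h3.smul h4).prodMk continuousAt_id
  have h3 : ContinuousAt (fun z : ℝ × V => (z.1 - s) *
      Ph c (fun t => b (cl s β t)) (fun t => r (cl s β t)) s y
        ((z.1 - s)⁻¹ • (z.2 - y), z.1, z.2)) (t, x) := by
    refine ContinuousAt.mul (by fun_prop) ?_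
    exact ContinuousAt.comp (f := fun z : ℝ × V => (((z.1 - s)⁻¹ • (z.2 - y), z.1, z.2) : V × ℝ × V))
      (g := Ph c (fun t => b (cl s β t)) (fun t => r (cl s β t)) s y) h1.continuousAt h2
  refine h3.congr ?_
  have h5 : ∀ᶠ z : ℝ × V in 𝓝 (t, x), z.1 ∈ Ioo s β :=
    continuousAt_fst.eventually_mem (Ioo_mem_nhds hst hβ1)
  filter_upwards [h5] with z hz
  rw [← sg_cl (c := c) (b := b) (r := r) le_rfl hz.1.le hz.2.le y z.2]
  rfl

/-- The value function is lower semicontinuous. -/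
lemma val_lsc (hB : Bd c b r B T₀ T Up)
    (hb : ContinuousOn (fun z : ℝ × V => b z.1 z.2) (Ioo 0 T ×ˢ univ))
    (hr : ContinuousOn (fun z : ℝ × V => r z.1 z.2) (Ioo 0 T ×ˢ univ)) (hT₀ : 0 < T₀) {t : ℝ}
    (ht : t ∈ Ioo T₀ T) {x : V} (hx : x ∈ B) {l : ℝ} (hl : l < val c b r B T₀ t x) :
    ∀ᶠ z : ℝ × V in 𝓝 (t, x), z.2 ∈ B → l < val c b r B T₀ z.1 z.2 := by
  obtain ⟨A, hA, hlA⟩ := exists_lt_of_lt_csSup ⟨_, reach_stay ht.1 hx⟩ hl
  change Reach c b r B T₀ t x A at hA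
  cases hA with
  | base y hy => exact absurd ht.1 (lt_irrefl _)
  | step s y A' t x hs hst hxB =>
    have h1 := cont_sg (c := c) hb hr (hT₀.trans_le hs.time) hst ht.2 y x
    have h2 : ∀ᶠ z : ℝ × V in 𝓝 (t, x), l < A' + sg c b r s y z.1 z.2 :=
      (continuousAt_const.add h1).eventually (lt_mem_nhds hlA)
    have h5 : ∀ᶠ z : ℝ × V in 𝓝 (t, x), z.1 ∈ Ioo s T :=
      continuousAt_fst.eventually_mem (Ioo_mem_nhds hst ht.2)
    filter_upwards [h2, h5] with z hz1 hz2 hzB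
    exact hz1.trans_le (le_val hB ⟨hs.time.trans_lt hz2.1, hz2.2⟩
      (Reach.step s y A' z.1 z.2 hs hz2.1 hzB))

/-- The value function, extended by zero. -/
noncomputable def vf (c : ℝ) (b : ℝ → V → V) (r : ℝ → V → ℝ) (B U : Set V) (T₀ T₁ : ℝ) :
    ℝ × V → ℝ :=
  (Ioo T₀ T₁ ×ˢ U).indicator fun z => val c b r B T₀ z.1 z.2

lemma meas_vf (hB : Bd c b r B T₀ T Up)
    (hb : ContinuousOn (fun z : ℝ × V => b z.1 z.2) (Ioo 0 T ×ˢ univ))
    (hr : ContinuousOn (fun z : ℝ × V => r z.1 z.2) (Ioo 0 T ×ˢ univ)) (hT₀ : 0 < T₀) {T₁ : ℝ}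
    (hT₁ : T₁ ≤ T) {U : Set V} (hU : IsOpen U) (hUB : U ⊆ B) :
    Measurable (vf c b r B U T₀ T₁) := by
  have hO : IsOpen (Ioo T₀ T₁ ×ˢ U) := isOpen_Ioo.prod hU
  refine measurable_of_Ioi fun l => ?_
  have h1 : IsOpen {z : ℝ × V | z ∈ Ioo T₀ T₁ ×ˢ U ∧ l < val c b r B T₀ z.1 z.2} := by
    rw [isOpen_iff_mem_nhds]
    rintro ⟨t, x⟩ ⟨hz, hl⟩
    have h2 := val_lsc hB hb hr hT₀ (t := t) ⟨hz.1.1, hz.1.2.trans_le hT₁⟩ (hUB hz.2) hl
    filter_upwards [h2, hO.mem_nhds hz] with z h3 h4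
    exact ⟨h4, h3 (hUB h4.2)⟩
  by_cases hl : l < 0
  · have e : vf c b r B U T₀ T₁ ⁻¹' Ioi l =
        {z : ℝ × V | z ∈ Ioo T₀ T₁ ×ˢ U ∧ l < val c b r B T₀ z.1 z.2} ∪ (Ioo T₀ T₁ ×ˢ U)ᶜ := by
      ext z
      by_cases hz : z ∈ Ioo T₀ T₁ ×ˢ U
      · simp only [vf, mem_preimage, mem_Ioi, indicator_of_mem hz, mem_union, mem_ofPred_eq, hz,
          true_and, mem_compl_iff, not_true_eq_false, or_false]
      · simp only [vf, mem_preimage, mem_Ioi, indicator_of_notMem hz, mem_union, mem_ofPred_eq, hz,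
          false_and, mem_compl_iff, not_false_eq_true, or_true, hl]
    rw [e]
    exact h1.measurableSet.union hO.measurableSet.compl
  · have e : vf c b r B U T₀ T₁ ⁻¹' Ioi l =
        {z : ℝ × V | z ∈ Ioo T₀ T₁ ×ˢ U ∧ l < val c b r B T₀ z.1 z.2} := by
      ext z
      by_cases hz : z ∈ Ioo T₀ T₁ ×ˢ U
      · simp only [vf, mem_preimage, mem_Ioi, indicator_of_mem hz, mem_ofPred_eq, hz, true_and]
      · simp only [vf, mem_preimage, mem_Ioi, indicator_of_notMem hz, mem_ofPred_eq, hz, false_and,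
          hl]
    rw [e]
    exact h1.measurableSet

/-! ### Bounds -/

lemma dot_self_nonneg (w : V) : 0 ≤ w ⬝ᵥ w := by
  unfold dotProduct
  exact Finset.sum_nonneg fun i _ => mul_self_nonneg _

lemma int_Lg {a' b' : ℝ} (hb : ContinuousOn (fun z : ℝ × V => b z.1 z.2) (Ioo a' b' ×ˢ univ))
    (hr : ContinuousOn (fun z : ℝ × V => r z.1 z.2) (Ioo a' b' ×ˢ univ)) {s t : ℝ} (hs : a' < s)
    (hst : s ≤ t) (ht : t < b') (y x w : V) : IntervalIntegrable
      (fun θ : ℝ => Lg c b r w (s + θ * (t - s)) (y + θ • (x - y))) volume 0 1 := by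
  refine ContinuousOn.intervalIntegrable ?_
  rw [uIcc_of_le zero_le_one]
  have h1 : Continuous fun θ : ℝ => ((s + θ * (t - s), y + θ • (x - y)) : ℝ × V) := by fun_prop
  have h2 : MapsTo (fun θ : ℝ => ((s + θ * (t - s), y + θ • (x - y)) : ℝ × V)) (Icc 0 1)
      (Ioo a' b' ×ˢ univ) := by
    intro θ hθ
    have h1 : 0 ≤ θ * (t - s) := mul_nonneg hθ.1 (by linarith)
    have h2 : θ * (t - s) ≤ 1 * (t - s) := mul_le_mul_of_nonneg_right hθ.2 (by linarith)
    exact ⟨⟨by simp only; linarith, by simp only; linarith⟩, mem_univ _⟩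
  have hb1 := hb.comp h1.continuousOn h2
  have hr1 := hr.comp h1.continuousOn h2
  simp only [Function.comp_def] at hb1 hr1
  unfold Lg
  refine hr1.sub (continuousOn_const.mul ?_)
  unfold dotProduct
  exact continuousOn_finsetSum _ fun i _ =>
    ((continuous_apply i).comp_continuousOn (continuousOn_const.sub hb1)).mul
      ((continuous_apply i).comp_continuousOn (continuousOn_const.sub hb1))

/-- Lower bound of the action of a segment. -/
lemma sg_ge {a' b' : ℝ} (hb : ContinuousOn (fun z : ℝ × V => b z.1 z.2) (Ioo a' b' ×ˢ univ))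
    (hr : ContinuousOn (fun z : ℝ × V => r z.1 z.2) (Ioo a' b' ×ˢ univ)) {s t : ℝ} (hs : a' < s)
    (hst : s ≤ t) (ht : t < b') {y x : V} {m : ℝ} (h : ∀ θ ∈ Icc (0 : ℝ) 1,
      m ≤ Lg c b r ((t - s)⁻¹ • (x - y)) (s + θ * (t - s)) (y + θ • (x - y))) :
    (t - s) * m ≤ sg c b r s y t x := by
  unfold sg
  refine mul_le_mul_of_nonneg_left ?_ (by linarith)
  have h1 := intervalIntegral.integral_mono_on (μ := volume) (f := fun _ => m) zero_le_one
    intervalIntegrable_const (int_Lg (c := c) hb hr hs hst ht y x ((t - s)⁻¹ • (x - y))) h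
  simpa using h1

/-- Lower bound of the value function: the constant path. -/
lemma val_ge_stay (hB : Bd c b r B T₀ T Up)
    (hb : ContinuousOn (fun z : ℝ × V => b z.1 z.2) (Ioo 0 T ×ˢ univ))
    (hr : ContinuousOn (fun z : ℝ × V => r z.1 z.2) (Ioo 0 T ×ˢ univ)) (hT₀ : 0 < T₀)
    (hc : 0 ≤ c) {t : ℝ} (ht : t ∈ Ioo T₀ T) {x : V} (hx : x ∈ B) {M Λ : ℝ}
    (hr0 : ∀ τ ∈ Icc T₀ t, -Λ ≤ r τ x) (hM : ∀ τ ∈ Icc T₀ t, b τ x ⬝ᵥ b τ x ≤ M) :
    -((Λ + c * M) * (t - T₀)) ≤ val c b r B T₀ t x := by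
  refine le_trans ?_ (le_val hB ht (reach_stay ht.1 hx))
  have h1 := sg_ge (c := c) (b := b) (r := r) hb hr hT₀ ht.1.le ht.2 (y := x) (x := x)
    (m := -(Λ + c * M)) fun θ hθ => by
      have h1 : 0 ≤ θ * (t - T₀) := mul_nonneg hθ.1 (by linarith [ht.1])
      have h2 : θ * (t - T₀) ≤ 1 * (t - T₀) :=
        mul_le_mul_of_nonneg_right hθ.2 (by linarith [ht.1])
      have h3 : T₀ + θ * (t - T₀) ∈ Icc T₀ t := ⟨by linarith, by linarith⟩
      have h4 := hr0 _ h3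
      have h5 := mul_le_mul_of_nonneg_left (hM _ h3) hc
      unfold Lg
      simp only [sub_self, smul_zero, add_zero, zero_sub, neg_dotProduct, dotProduct_neg, neg_neg]
      linarith
  linarith

end Pool.Agent.H9SA
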